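import Mathlib

set_option autoImplicit false

open scoped ComplexOrder Topology InnerProductSpace
open Filter

namespace Pool.Agent.H467F

universe u v w

/-- The 2-norm of a functional on a star algebra. -/
noncomputable def n2 {A : Type*} [Ring A] [StarRing A] (φ : A → ℂ) (x : A) : ℝ :=
  Real.sqrt (φ (star x * x)).re

variable {M : Type u} [CStarAlgebra M] {τ : M →ₗ[ℂ] ℂ}

/-- An abstract tracial von Neumann algebra: a C*-algebra with a faithful tracial state whose unit
ball is complete in the 2-norm. -/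
structure TW (τ : M →ₗ[ℂ] ℂ) : Prop where
  one : τ 1 = 1
  comm : ∀ x y, τ (x * y) = τ (y * x)
  nonneg : ∀ x, 0 ≤ τ (star x * x)
  conj : ∀ x, τ (star x) = star (τ x)
  faithful : ∀ x, τ (star x * x) = 0 → x = 0
  complete : ∀ x : ℕ → M, (∀ n, ‖x n‖ ≤ 1) → (∀ n, n2 τ (x n - x (n + 1)) ≤ (1 / 2) ^ n) →
    ∃ y, ‖y‖ ≤ 1 ∧ Tendsto (fun n => n2 τ (x n - y)) atTop (𝓝 0)

/-- inner product core -/
@[instance_reducible]
noncomputable def TW.core (h : TW τ) : PreInnerProductSpace.Core ℂ M where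
  inner x y := τ (star x * y)
  conj_inner_symm x y := by
    have : τ (star (star y * x)) = star (τ (star y * x)) := h.conj _
    rw [star_mul, star_star] at this
    rw [this]
    rfl
  re_inner_nonneg x := by
    have := (Complex.nonneg_iff.1 (h.nonneg x)).1
    exact this
  add_left x y z := by rw [star_add, add_mul, map_add]
  smul_left x y r := by
    rw [star_smul, smul_mul_assoc, map_smul]
    rfl

theorem TW.cauchy (h : TW τ) (x y : M) : ‖τ (star x * y)‖ ≤ n2 τ x * n2 τ y := by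
  let _ := h.core
  exact InnerProductSpace.Core.norm_inner_le_norm (𝕜 := ℂ) x y

theorem n2_nonneg {A : Type*} [Ring A] [StarRing A] (φ : A → ℂ) (x : A) : 0 ≤ n2 φ x :=
  Real.sqrt_nonneg _

theorem TW.re_nonneg (h : TW τ) (x : M) : 0 ≤ (τ (star x * x)).re :=
  (Complex.nonneg_iff.1 (h.nonneg x)).1

theorem TW.im_zero (h : TW τ) (x : M) : (τ (star x * x)).im = 0 :=
  (Complex.nonneg_iff.1 (h.nonneg x)).2.symm

theorem TW.n2_sq (h : TW τ) (x : M) : n2 τ x ^ 2 = (τ (star x * x)).re :=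
  Real.sq_sqrt (h.re_nonneg x)

theorem TW.n2_sq' (h : TW τ) (x : M) : τ (star x * x) = ((n2 τ x ^ 2 : ℝ) : ℂ) := by
  rw [h.n2_sq]
  exact Complex.ext rfl (by rw [h.im_zero x]; simp)

theorem TW.n2_add_le (h : TW τ) (x y : M) : n2 τ (x + y) ≤ n2 τ x + n2 τ y := by
  have h1 := h.cauchy x y
  have h2 := h.cauchy y x
  have h3 : n2 τ (x + y) ^ 2 ≤ (n2 τ x + n2 τ y) ^ 2 := by
    rw [h.n2_sq]
    have e : star (x + y) * (x + y) = star x * x + star y * y + (star x * y + star y * x) := by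
      rw [star_add]; noncomm_ring
    rw [e, map_add, map_add, map_add, Complex.add_re, Complex.add_re, Complex.add_re,
      ← h.n2_sq, ← h.n2_sq]
    have h4 := Complex.re_le_norm (τ (star x * y))
    have h5 := Complex.re_le_norm (τ (star y * x))
    nlinarith
  exact (pow_le_pow_iff_left₀ (n2_nonneg _ _) (add_nonneg (n2_nonneg _ _) (n2_nonneg _ _))
    two_ne_zero).1 h3

theorem TW.n2_star (h : TW τ) (x : M) : n2 τ (star x) = n2 τ x := by
  unfold n2
  rw [star_star, h.comm]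

theorem TW.cauchy' (h : TW τ) (x y : M) : ‖τ (x * y)‖ ≤ n2 τ x * n2 τ y := by
  have := h.cauchy (star x) y
  rwa [star_star, h.n2_star] at this

theorem n2_neg (τ : M →ₗ[ℂ] ℂ) (x : M) : n2 τ (-x) = n2 τ x := by
  unfold n2
  rw [star_neg, neg_mul_neg]

theorem TW.n2_sub_le (h : TW τ) (x y : M) : n2 τ (x - y) ≤ n2 τ x + n2 τ y := by
  have := h.n2_add_le x (-y)
  rwa [n2_neg, ← sub_eq_add_neg] at this

theorem n2_sub_comm (τ : M →ₗ[ℂ] ℂ) (x y : M) : n2 τ (x - y) = n2 τ (y - x) := by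
  rw [← n2_neg, neg_sub]

theorem TW.n2_tri (h : TW τ) (x y z : M) : n2 τ (x - z) ≤ n2 τ (x - y) + n2 τ (y - z) := by
  have := h.n2_add_le (x - y) (y - z)
  rwa [sub_add_sub_cancel] at this

theorem n2_zero (τ : M →ₗ[ℂ] ℂ) : n2 τ (0 : M) = 0 := by
  unfold n2
  simp

theorem n2_smul (τ : M →ₗ[ℂ] ℂ) (c : ℂ) (x : M) : n2 τ (c • x) = ‖c‖ * n2 τ x := by
  unfold n2
  rw [star_smul, smul_mul_smul_comm, map_smul]
  have : star c * c = ((‖c‖ ^ 2 : ℝ) : ℂ) := by
    rw [Complex.star_def, ← Complex.normSq_eq_conj_mul_self, Complex.normSq_eq_norm_sq]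
  rw [this, smul_eq_mul, Complex.re_ofReal_mul, Real.sqrt_mul (by positivity),
    Real.sqrt_sq (norm_nonneg _)]

theorem TW.eq_zero (h : TW τ) {x : M} (hx : n2 τ x = 0) : x = 0 := by
  refine h.faithful x ?_
  rw [h.n2_sq' x, hx]
  simp

/-- The closure in `M` of a set for the 2-norm. -/
def Cl (τ : M →ₗ[ℂ] ℂ) (s : Set M) : Set M := {x | ∀ ε : ℝ, 0 < ε → ∃ y ∈ s, n2 τ (x - y) < ε}

/-- `S` is a von Neumann subalgebra: it is closed in the 2-norm. -/
def IsW (τ : M →ₗ[ℂ] ℂ) (S : StarSubalgebra ℂ M) : Prop := ∀ x, x ∈ Cl τ (S : Set M) → x ∈ S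

/-- `y` is the conditional expectation of `x` on `S`. -/
def IsCE (τ : M →ₗ[ℂ] ℂ) (S : StarSubalgebra ℂ M) (x y : M) : Prop :=
  y ∈ S ∧ ∀ s ∈ S, τ (s * (x - y)) = 0

open Classical in
/-- The conditional expectation onto `S` (junk value `0` if there is none). -/
noncomputable def E (τ : M →ₗ[ℂ] ℂ) (S : StarSubalgebra ℂ M) (x : M) : M :=
  if h : ∃ y, IsCE τ S x y then h.choose else 0

/-- The list of properties of the conditional expectation onto a von Neumann subalgebra. -/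
structure EP (τ : M →ₗ[ℂ] ℂ) (S : StarSubalgebra ℂ M) : Prop where
  mem : ∀ x, E τ S x ∈ S
  orth : ∀ x, ∀ s ∈ S, τ (s * (x - E τ S x)) = 0
  unique : ∀ x y, y ∈ S → (∀ s ∈ S, τ (s * (x - y)) = 0) → y = E τ S x
  of_mem : ∀ x ∈ S, E τ S x = x
  add : ∀ x y, E τ S (x + y) = E τ S x + E τ S y
  sub : ∀ x y, E τ S (x - y) = E τ S x - E τ S y
  smul : ∀ (c : ℂ) x, E τ S (c • x) = c • E τ S x
  star : ∀ x, E τ S (star x) = star (E τ S x)
  left : ∀ s ∈ S, ∀ x, E τ S (s * x) = s * E τ S x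
  right : ∀ s ∈ S, ∀ x, E τ S (x * s) = E τ S x * s
  trace : ∀ x, τ (E τ S x) = τ x
  n2_le : ∀ x, n2 τ (E τ S x) ≤ n2 τ x
  pyth : ∀ x, n2 τ x ^ 2 = n2 τ (E τ S x) ^ 2 + n2 τ (x - E τ S x) ^ 2
  norm_le : ∀ x, ‖E τ S x‖ ≤ 2 * ‖x‖
  tower : ∀ x (B : StarSubalgebra ℂ M), B ≤ S → IsW τ B → E τ B (E τ S x) = E τ B x

/-- Alternating centered words in the subalgebras `S i`. -/
def IsWord {ι : Type v} (τ : M →ₗ[ℂ] ℂ) (S : ι → StarSubalgebra ℂ M) (l : List (ι × M)) : Prop :=
  l.IsChain (fun a b => a.1 ≠ b.1) ∧ ∀ p ∈ l, p.2 ∈ S p.1 ∧ τ p.2 = 0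

/-- The product of the letters of a word. -/
def val {ι : Type v} (l : List (ι × M)) : M := (l.map Prod.snd).prod

/-- Freeness of a family of subalgebras. -/
def IsFree {ι : Type v} (τ : M →ₗ[ℂ] ℂ) (S : ι → StarSubalgebra ℂ M) : Prop :=
  ∀ l : List (ι × M), IsWord τ S l → l ≠ [] → τ (val l) = 0

/-- The star algebra generated by a family of subalgebras. -/
def Gen {ι : Type v} (S : ι → StarSubalgebra ℂ M) : StarSubalgebra ℂ M :=
  StarAlgebra.adjoin ℂ (⋃ i, (S i : Set M))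

/-- A family of subalgebras that generates `M`. -/
def Dense2 {ι : Type v} (τ : M →ₗ[ℂ] ℂ) (S : ι → StarSubalgebra ℂ M) : Prop :=
  ∀ x : M, x ∈ Cl τ (Gen S : Set M)

/-- Bounded sequences that tend weakly to zero. -/
def WNull (τ : M →ₗ[ℂ] ℂ) (a : ℕ → M) : Prop :=
  (∃ C : ℝ, ∀ n, ‖a n‖ ≤ C) ∧ ∀ x : M, Tendsto (fun n => τ (x * a n)) atTop (𝓝 0)

/-- The center of `S` is trivial. -/
def Fac (S : StarSubalgebra ℂ M) : Prop :=
  ∀ z ∈ S, (∀ x ∈ S, z * x = x * z) → ∃ c : ℂ, z = c • (1 : M)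

/-- A decreasing sequence of projections `1 = g 0, g 1, ...` of `S`, each split by `h k` into two
equivalent halves `g (k+1)` and `g k - g (k+1)`. -/
structure Dya (S : StarSubalgebra ℂ M) (g h : ℕ → M) : Prop where
  g_mem : ∀ k, g k ∈ S
  h_mem : ∀ k, h k ∈ S
  g_zero : g 0 = 1
  g_star : ∀ k, star (g k) = g k
  g_idem : ∀ k, g k * g k = g k
  g_le : ∀ k, g k * g (k + 1) = g (k + 1)
  h_left : ∀ k, star (h k) * h k = g (k + 1)
  h_right : ∀ k, h k * star (h k) = g k - g (k + 1)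

/-- Countable saturation (the only place where ultrapowers are used). -/
def Sat (τ : M →ₗ[ℂ] ℂ) (S : StarSubalgebra ℂ M) : Prop :=
  ∀ s x y : ℕ → M, (∀ n, s n ∈ S) → (∀ n, x n ∈ S) → (∀ n, y n ∈ S) → (∀ n, ‖y n‖ ≤ 1) →
    (∀ n, n2 τ (y n) = 1) → (∀ n, ∀ l < n, y n * s l = s l * y n) →
    (∀ n, ∀ m < n, ‖τ (star (y n) * x m)‖ ≤ (1 / 2) ^ n) →
    ∃ z ∈ S, n2 τ z = 1 ∧ (∀ l, z * s l = s l * z) ∧ ∀ m, τ (star z * x m) = 0

/-- The properties of the free factors that are used. -/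
structure Good (τ : M →ₗ[ℂ] ℂ) (S : StarSubalgebra ℂ M) : Prop where
  closed : IsW τ S
  fac : Fac S
  dya : ∃ g h : ℕ → M, Dya S g h
  sat : Sat τ S

/-- `a` is a unitary of the corner `p S p`. -/
def UC (S : StarSubalgebra ℂ M) (p a : M) : Prop := a ∈ S ∧ star a * a = p ∧ a * star a = p

/-- There are unitaries of `p S p` that are almost orthogonal, in a strong sense, to all `R j`. -/
def Mixes {J : Type v} (τ : M →ₗ[ℂ] ℂ) (S : StarSubalgebra ℂ M) (R : J → StarSubalgebra ℂ M)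
    (p : M) : Prop :=
  ∀ (F : Finset M) (ε : ℝ), 0 < ε → ∃ a, UC S p a ∧
    ∀ j, ∀ y ∈ F, ∀ z ∈ F, n2 τ (E τ (R j) (y * a * z)) < ε

/-- Words all of whose letters are either in `B i` or orthogonal to `B i`. -/
def IsTyped {ι : Type v} (τ : M →ₗ[ℂ] ℂ) (S B : ι → StarSubalgebra ℂ M) (l : List (ι × M)) : Prop :=
  IsWord τ S l ∧ ∀ p ∈ l, p.2 ∈ B p.1 ∨ E τ (B p.1) p.2 = 0

/-- The two isometries that split `g k` according to the symmetry `h k * a + star a * star (h k)`. -/
noncomputable def tp (g h : ℕ → M) (a : ℕ → M) (k : ℕ) : M :=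
  (((Real.sqrt 2)⁻¹ : ℝ) : ℂ) • (g (k + 1) + h k * a k)

/-- The second isometry. -/
noncomputable def tm (g h : ℕ → M) (a : ℕ → M) (k : ℕ) : M :=
  (((Real.sqrt 2)⁻¹ : ℝ) : ℂ) • (g (k + 1) - h k * a k)

/-- The unital embedding of the corner at `g k` given by the choices `a 0, ..., a (k-1)`. -/
noncomputable def Th (g h : ℕ → M) (a : ℕ → M) : ℕ → M → M
  | 0, x => x
  | k + 1, x => Th g h a k (tp g h a k * x * star (tp g h a k) + tm g h a k * x * star (tm g h a k))

/-- The `k`-th symmetry. -/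
noncomputable def sy (g h : ℕ → M) (a : ℕ → M) (k : ℕ) : M :=
  Th g h a k (h k * a k + star (h k * a k))

open Classical Pointwise in
/-- Finite sets of monomials. -/
noncomputable def mono (A : Finset M) (n : ℕ) : Finset M := (({1} ∪ A) ∪ A.image star) ^ n

open Classical in
/-- The letters available at stage `k`. -/
noncomputable def lets (c : M → ℕ → M) (s : ℕ → M) (k : ℕ) : Finset M :=
  (Finset.range k ×ˢ Finset.range (k + 1)).image fun p => c (s p.1) p.2

/-- Intertwiners between the corner `p S p` and `R`. -/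
structure Intw (τ : M →ₗ[ℂ] ℂ) (S R : StarSubalgebra ℂ M) (p : M) (D : M → M) : Prop where
  nz : ∃ z, D z ≠ 0
  add : ∀ y z, D (y + z) = D y + D z
  smul : ∀ (c : ℂ) z, D (c • z) = c • D z
  left : ∀ a, UC S p a → ∀ z, D (a * z) = a * D z
  right : ∀ b ∈ R, ∀ z, D (z * b) = D z * b
  pl : ∀ z, p * D z = D z
  pr : ∀ z, D (p * z) = D z
  bdd : ∃ C : ℝ, ∀ z, ‖D z‖ ≤ C * ‖z‖
  approx : ∀ ε : ℝ, 0 < ε → ∃ (n : ℕ) (x y : Fin n → M), ∀ z,
    n2 τ (D z - ∑ k, x k * E τ R (y k * z)) ≤ ε * ‖z‖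

/-- Intertwiners between `S` and `R`. -/
structure Intw1 (S R : StarSubalgebra ℂ M) (D : M → M) : Prop where
  nz : ∃ z, D z ≠ 0
  add : ∀ y z, D (y + z) = D y + D z
  smul : ∀ (c : ℂ) z, D (c • z) = c • D z
  left : ∀ a ∈ S, ∀ z, D (a * z) = a * D z
  right : ∀ b ∈ R, ∀ z, D (z * b) = D z * b
  inner : ∀ y z, star (D y) * D z ∈ R

/-! ### Concrete von Neumann algebras -/

section vonNeumann

variable {H : Type u} [NormedAddCommGroup H] [InnerProductSpace ℂ H] [CompleteSpace H]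

/-- The star algebra of the elements of a von Neumann algebra `N` acting on `H`. -/
abbrev Elt (N : VonNeumannAlgebra H) : Type u := N.toStarSubalgebra

/-- `t` is a normal positive functional on `N`: a countable sum of vector functionals. -/
def IsNormalPositive (N : VonNeumannAlgebra H) (t : Elt N → ℂ) : Prop :=
  ∃ ξ : ℕ → H, Summable (fun k => ‖ξ k‖ ^ 2) ∧
    ∀ x : Elt N, t x = ∑' k, ⟪ξ k, (x : H →L[ℂ] H) (ξ k)⟫_ℂ

/-- `φ` is unital, tracial and faithful. -/
structure IsFaithfulTrace {A : Type u} [Ring A] [StarRing A] (φ : A → ℂ) : Prop where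
  one : φ 1 = 1
  tracial : ∀ x y, φ (x * y) = φ (y * x)
  faithful : ∀ x, φ (star x * x) = 0 → x = 0

/-- `N` is a II₁ factor with trace `t`: an infinite dimensional von Neumann algebra with trivial
center, and `t` is a faithful normal tracial state on it. -/
structure IsIIOneFactor (N : VonNeumannAlgebra H) (t : Elt N → ℂ) : Prop where
  center : ∀ z ∈ N, (∀ x ∈ N, z * x = x * z) → ∃ c : ℂ, z = c • (1 : H →L[ℂ] H)
  infinite : ¬ FiniteDimensional ℂ (Elt N)
  trace : IsFaithfulTrace t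
  normal : IsNormalPositive N t

/-- `(Q, σ)` with the quotient map `π` is the tracial ultrapower of `(M, t)` along `U`: `π` maps the
star algebra of norm bounded sequences in `M` onto `Q`, its kernel consists of the sequences with
`lim t(x_n* x_n) = 0` along `U`, and `σ(π x)` is the limit of `t(x_n)` along `U`. -/
structure IsTracialUltrapower {M : Type u} [NormedRing M] [StarRing M] [CStarRing M]
    [NormedAlgebra ℂ M] [StarModule ℂ M] (t : M → ℂ) (U : Ultrafilter ℕ) {Q : Type v} [Ring Q]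
    [StarRing Q] [Algebra ℂ Q] (π : (BoundedContinuousFunction ℕ M) →⋆ₐ[ℂ] Q) (σ : Q → ℂ) :
    Prop where
  surj : Function.Surjective π
  ker : ∀ x, π x = 0 ↔ Tendsto (fun n => t (star (x n) * x n)) U (𝓝 0)
  trace : ∀ x, Tendsto (fun n => t (x n)) U (𝓝 (σ (π x)))

/-- The von Neumann algebra generated by a set of operators: the bicommutant of the set and its
adjoints. -/
noncomputable def vnGen (S : Set (H →L[ℂ] H)) : VonNeumannAlgebra H where
  toStarSubalgebra := StarSubalgebra.centralizer ℂ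
    (StarSubalgebra.centralizer ℂ S : Set (H →L[ℂ] H))
  centralizer_centralizer' := by
    show Set.centralizer (Set.centralizer ((StarSubalgebra.centralizer ℂ
      (StarSubalgebra.centralizer ℂ S : Set (H →L[ℂ] H)) : StarSubalgebra ℂ (H →L[ℂ] H)) :
        Set (H →L[ℂ] H))) = ((StarSubalgebra.centralizer ℂ
      (StarSubalgebra.centralizer ℂ S : Set (H →L[ℂ] H)) : StarSubalgebra ℂ (H →L[ℂ] H)) :
        Set (H →L[ℂ] H))
    rw [StarSubalgebra.coe_centralizer_centralizer, Set.centralizer_centralizer_centralizer]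

/-- `(P, t)` with the embeddings `α i` is the tracial free product of the tracial star algebras
`(A i, σ i)`: `P` is a von Neumann algebra, `t` is a faithful normal tracial state on it, the `α i`
are trace preserving star homomorphisms, their ranges are free with respect to `t` (an alternating
product of centered elements has trace zero) and generate `P` as a von Neumann algebra. -/
structure IsFreeProduct {I : Type} {A : I → Type v} [∀ i, Ring (A i)] [∀ i, StarRing (A i)]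
    [∀ i, Algebra ℂ (A i)] (σ : ∀ i, A i → ℂ) (P : VonNeumannAlgebra H) (t : Elt P → ℂ)
    (α : ∀ i, A i →⋆ₐ[ℂ] Elt P) : Prop where
  trace : IsFaithfulTrace t
  normal : IsNormalPositive P t
  preserves : ∀ i x, t (α i x) = σ i x
  free : ∀ l : List (Σ i, A i), l ≠ [] → l.IsChain (fun a b => a.1 ≠ b.1) →
    (∀ p ∈ l, σ p.1 p.2 = 0) → t ((l.map fun p => α p.1 p.2).prod) = 0
  gen : P = vnGen (⋃ i, Set.range fun x => (α i x : H →L[ℂ] H))

theorem isClosed_elt (N : VonNeumannAlgebra H) :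
    IsClosed ((N.toStarSubalgebra : StarSubalgebra ℂ (H →L[ℂ] H)) : Set (H →L[ℂ] H)) := by
  have h : ((N.toStarSubalgebra : StarSubalgebra ℂ (H →L[ℂ] H)) : Set (H →L[ℂ] H)) =
      Set.centralizer (Set.centralizer (N : Set (H →L[ℂ] H))) :=
    (VonNeumannAlgebra.centralizer_centralizer N).symm
  rw [h]
  exact Set.isClosed_centralizer _

/-- The elements of a von Neumann algebra form a C*-algebra (for the operator norm). -/
noncomputable instance cstarElt (N : VonNeumannAlgebra H) : CStarAlgebra (Elt N) :=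
  StarSubalgebra.cstarAlgebra (h_closed := isClosed_elt N) N.toStarSubalgebra

end vonNeumann

end Pool.Agent.H467F
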