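import Pool.Agent.Helper467.FP.Defs

set_option autoImplicit false

open scoped ComplexOrder Topology InnerProductSpace
open Filter

namespace Pool.Agent.H467F

universe u v w

variable {M : Type u} [CStarAlgebra M] {τ : M →ₗ[ℂ] ℂ}

theorem exists_lim {M : Type u} [CStarAlgebra M] {τ : M →ₗ[ℂ] ℂ} (h : TW τ) (x : ℕ → M) (C : ℝ)
    (hC : ∀ n, ‖x n‖ ≤ C)
    (hx : ∀ ε : ℝ, 0 < ε → ∃ N, ∀ m ≥ N, ∀ n ≥ N, n2 τ (x m - x n) < ε) :
    ∃ y, ‖y‖ ≤ C ∧ Tendsto (fun n => n2 τ (x n - y)) atTop (𝓝 0) := by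
  have hC0 : 0 ≤ C := (norm_nonneg _).trans (hC 0)
  rcases hC0.eq_or_lt with hC1 | hC1
  · refine ⟨0, by rw [norm_zero]; exact hC0, ?_⟩
    have h0 : ∀ n, x n = 0 := by
      intro n
      have h1 := hC n
      rw [← hC1] at h1
      exact norm_le_zero_iff.1 h1
    have h1 : (fun n => n2 τ (x n - 0)) = fun _ => (0 : ℝ) := by
      funext n
      rw [h0 n, sub_zero, n2_zero]
    rw [h1]
    exact tendsto_const_nhds
  · have hpk : ∀ k : ℕ, 0 < C * (1 / 2) ^ k := fun k => by positivity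
    choose N hN using fun k : ℕ => hx (C * (1 / 2) ^ k) (hpk k)
    set φ : ℕ → ℕ := fun k => k + ∑ j ∈ Finset.range (k + 1), N j with hφ
    have hφ0 : ∀ k, k ≤ φ k := fun k => Nat.le_add_right _ _
    have hφ1 : ∀ k, N k ≤ φ k := fun k =>
      (Finset.single_le_sum (f := N) (fun _ _ => Nat.zero_le _)
        (Finset.mem_range.2 (by omega))).trans (Nat.le_add_left _ _)
    have hφ2 : ∀ k, N k ≤ φ (k + 1) := fun k =>
      (Finset.single_le_sum (f := N) (fun _ _ => Nat.zero_le _)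
        (Finset.mem_range.2 (by omega))).trans (Nat.le_add_left _ _)
    set c : ℂ := ((C⁻¹ : ℝ) : ℂ) with hc
    have hcn : ‖c‖ = C⁻¹ := by
      rw [hc, Complex.norm_real, Real.norm_eq_abs, abs_of_pos (inv_pos.2 hC1)]
    have hCn : ‖(C : ℂ)‖ = C := by
      rw [Complex.norm_real, Real.norm_eq_abs, abs_of_pos hC1]
    have hcC : (C : ℂ) * c = 1 := by
      rw [hc, ← Complex.ofReal_mul, mul_inv_cancel₀ hC1.ne', Complex.ofReal_one]
    obtain ⟨y0, hy0, ht⟩ := h.complete (fun k => c • x (φ k))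
      (by
        intro n
        rw [norm_smul, hcn]
        calc C⁻¹ * ‖x (φ n)‖ ≤ C⁻¹ * C := by
              gcongr
              exact hC _
          _ = 1 := inv_mul_cancel₀ hC1.ne')
      (by
        intro n
        beta_reduce
        rw [← smul_sub, n2_smul, hcn]
        calc C⁻¹ * n2 τ (x (φ n) - x (φ (n + 1))) ≤ C⁻¹ * (C * (1 / 2) ^ n) := by
              gcongr
              exact (hN n _ (hφ1 n) _ (hφ2 n)).le
          _ = (1 / 2) ^ n := by
              rw [← mul_assoc, inv_mul_cancel₀ hC1.ne', one_mul])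
    refine ⟨(C : ℂ) • y0, ?_, ?_⟩
    · rw [norm_smul, hCn]
      calc C * ‖y0‖ ≤ C * 1 := by gcongr
        _ = C := mul_one _
    · have h1 : Tendsto (fun k => n2 τ (x (φ k) - (C : ℂ) • y0)) atTop (𝓝 0) := by
        have h2 := ht.const_mul C
        rw [mul_zero] at h2
        refine h2.congr fun k => ?_
        have h3 : x (φ k) - (C : ℂ) • y0 = (C : ℂ) • (c • x (φ k) - y0) := by
          rw [smul_sub, smul_smul, hcC, one_smul]
        rw [h3, n2_smul, hCn]
      rw [Metric.tendsto_atTop] at h1 ⊢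
      intro ε hε
      obtain ⟨K, hK⟩ := h1 (ε / 2) (by linarith)
      obtain ⟨L, hL⟩ := hx (ε / 2) (by linarith)
      refine ⟨L, fun n hn => ?_⟩
      have h4 := hK (max K L) (le_max_left _ _)
      have h5 := hL n hn (φ (max K L)) ((le_max_right K L).trans (hφ0 _))
      rw [Real.dist_eq, sub_zero, abs_of_nonneg (n2_nonneg _ _)] at h4 ⊢
      have h6 := h.n2_tri (x n) (x (φ (max K L))) ((C : ℂ) • y0)
      linarith

end Pool.Agent.H467F
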