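import Pool.Agent.Helper467.FP.Defs

set_option autoImplicit false

open scoped ComplexOrder Topology InnerProductSpace
open Filter

namespace Pool.Agent.H467F

universe u v w

variable {M : Type u} [CStarAlgebra M] {τ : M →ₗ[ℂ] ℂ}

theorem tau_bounds_diff {M : Type u} [CStarAlgebra M] (x : M) :
    ∃ y : M, ((‖x‖ ^ 2 : ℝ) : ℂ) • (1 : M) - star x * x = star y * y := by
  let _ := CStarAlgebra.spectralOrder M
  have _ := CStarAlgebra.spectralOrderedRing M
  have h1 : star x * x ≤ algebraMap ℝ M (‖x‖ ^ 2) := CStarAlgebra.star_mul_le_algebraMap_norm_sq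
  have h2 : 0 ≤ algebraMap ℝ M (‖x‖ ^ 2) - star x * x := sub_nonneg.2 h1
  obtain ⟨y, hy⟩ := CStarAlgebra.nonneg_iff_eq_star_mul_self.1 h2
  refine ⟨y, ?_⟩
  rw [← hy, Algebra.algebraMap_eq_smul_one]
  congr 1

theorem tau_bounds {M : Type u} [CStarAlgebra M] {τ : M →ₗ[ℂ] ℂ} (h : TW τ) :
    (∀ x : M, ‖τ x‖ ≤ n2 τ x) ∧ (∀ x : M, n2 τ x ≤ ‖x‖) := by
  constructor
  · intro x
    have h1 := h.cauchy 1 x
    have h2 : n2 τ (1 : M) = 1 := by
      unfold n2
      rw [star_one, one_mul, h.one]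
      simp
    rw [star_one, one_mul, h2, one_mul] at h1
    exact h1
  · intro x
    obtain ⟨y, hy⟩ := tau_bounds_diff x
    have h1 := h.re_nonneg y
    rw [← hy, map_sub, map_smul, h.one, smul_eq_mul, mul_one, Complex.sub_re, Complex.ofReal_re,
      ← h.n2_sq] at h1
    exact abs_le_of_sq_le_sq' (by linarith) (norm_nonneg x) |>.2

end Pool.Agent.H467F
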