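import Pool.Agent.Helper467.FP.Defs
import Pool.Agent.Helper467.FP.P_tau_bounds

set_option autoImplicit false

open scoped ComplexOrder Topology InnerProductSpace
open Filter

namespace Pool.Agent.H467F

universe u v w

variable {M : Type u} [CStarAlgebra M] {τ : M →ₗ[ℂ] ℂ}

theorem isClosed_of_isW {M : Type u} [CStarAlgebra M] {τ : M →ₗ[ℂ] ℂ} (h : TW τ)
    (S : StarSubalgebra ℂ M) (hS : IsW τ S) : IsClosed (S : Set M) := by
  refine isClosed_of_closure_subset ?_
  intro x hx
  refine hS x ?_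
  intro ε hε
  obtain ⟨y, hy, hxy⟩ := Metric.mem_closure_iff.1 hx ε hε
  refine ⟨y, hy, ?_⟩
  have h1 := (tau_bounds h).2 (x - y)
  rw [dist_eq_norm] at hxy
  exact lt_of_le_of_lt h1 hxy

end Pool.Agent.H467F
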