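import Pool.Agent.Helper467.FP.Defs

set_option autoImplicit false

open scoped ComplexOrder Topology InnerProductSpace
open Filter

namespace Pool.Agent.H467F

universe u v w

variable {M : Type u} [CStarAlgebra M] {τ : M →ₗ[ℂ] ℂ}

theorem n2_mul_le_left {M : Type u} [CStarAlgebra M] {τ : M →ₗ[ℂ] ℂ} (h : TW τ) (a b : M) :
    n2 τ (a * b) ≤ ‖a‖ * n2 τ b := by
  letI := CStarAlgebra.spectralOrder M
  letI := CStarAlgebra.spectralOrderedRing M
  have h1 : star a * a ≤ algebraMap ℝ M (‖a‖ ^ 2) := CStarAlgebra.star_mul_le_algebraMap_norm_sq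
  have h2 := star_left_conjugate_le_conjugate h1 b
  have h3 : star b * algebraMap ℝ M (‖a‖ ^ 2) * b = ((‖a‖ ^ 2 : ℝ) : ℂ) • (star b * b) := by
    have h4 : algebraMap ℝ M (‖a‖ ^ 2) = algebraMap ℂ M ((‖a‖ ^ 2 : ℝ) : ℂ) :=
      IsScalarTower.algebraMap_apply ℝ ℂ M (‖a‖ ^ 2)
    rw [h4, Algebra.algebraMap_eq_smul_one, mul_smul_comm, smul_mul_assoc, mul_one]
  have h5 : star b * (star a * a) * b = star (a * b) * (a * b) := by
    rw [star_mul]
    simp only [mul_assoc]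
  rw [h3, h5, ← sub_nonneg, CStarAlgebra.nonneg_iff_eq_star_mul_self] at h2
  obtain ⟨y, hy⟩ := h2
  have h6 := h.re_nonneg y
  rw [← hy, map_sub, map_smul, smul_eq_mul, Complex.sub_re, Complex.re_ofReal_mul, ← h.n2_sq,
    ← h.n2_sq] at h6
  refine abs_le_of_sq_le_sq' ?_ (mul_nonneg (norm_nonneg _) (n2_nonneg _ _)) |>.2
  rw [mul_pow]
  linarith

theorem n2_mul_le {M : Type u} [CStarAlgebra M] {τ : M →ₗ[ℂ] ℂ} (h : TW τ) (a b : M) :
    n2 τ (a * b) ≤ ‖a‖ * n2 τ b ∧ n2 τ (b * a) ≤ n2 τ b * ‖a‖ := by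
  refine ⟨n2_mul_le_left h a b, ?_⟩
  have h1 := n2_mul_le_left h (star a) (star b)
  rw [← star_mul, h.n2_star, h.n2_star, norm_star] at h1
  rw [mul_comm (n2 τ b)]
  exact h1

end Pool.Agent.H467F
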