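import Pool.Agent.Helper467.FP.Defs
import Pool.Agent.Helper467.FP.P_exists_lim

set_option autoImplicit false

open scoped ComplexOrder Topology InnerProductSpace
open Filter

namespace Pool.Agent.H467F

universe u v w

variable {M : Type u} [CStarAlgebra M] {τ : M →ₗ[ℂ] ℂ}

theorem norm_le_of_lim {M : Type u} [CStarAlgebra M] {τ : M →ₗ[ℂ] ℂ} (h : TW τ) (x : ℕ → M) (C : ℝ)
    (hC : ∀ n, ‖x n‖ ≤ C) (y : M) (hy : Tendsto (fun n => n2 τ (x n - y)) atTop (𝓝 0)) :
    ‖y‖ ≤ C := by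
  have hcau : ∀ ε : ℝ, 0 < ε → ∃ N, ∀ m ≥ N, ∀ n ≥ N, n2 τ (x m - x n) < ε := by
    intro ε hε
    have h1 : ∀ᶠ n in atTop, n2 τ (x n - y) < ε / 2 :=
      hy.eventually_lt_const (by positivity)
    obtain ⟨N, hN⟩ := eventually_atTop.1 h1
    refine ⟨N, fun m hm n hn => ?_⟩
    have h2 := h.n2_tri (x m) y (x n)
    have h3 := hN m hm
    have h4 := hN n hn
    rw [n2_sub_comm τ y (x n)] at h2
    linarith
  obtain ⟨y', hy', hlim⟩ := exists_lim h x C hC hcau
  have h0 : n2 τ (y - y') = 0 := by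
    have h1 : Tendsto (fun n => n2 τ (x n - y) + n2 τ (x n - y')) atTop (𝓝 (0 + 0)) :=
      hy.add hlim
    rw [add_zero] at h1
    have h2 : n2 τ (y - y') ≤ 0 := by
      refine ge_of_tendsto' h1 (fun n => ?_)
      have h3 := h.n2_tri y (x n) y'
      rwa [n2_sub_comm τ y (x n)] at h3
    exact le_antisymm h2 (n2_nonneg _ _)
  have h5 := h.eq_zero h0
  rw [sub_eq_zero] at h5
  rw [h5]
  exact hy'

end Pool.Agent.H467F
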