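import Pool.Agent.Helper467.FP.Defs
import Pool.Agent.Helper467.FP.P_tau_bounds

set_option autoImplicit false

open scoped ComplexOrder Topology InnerProductSpace
open Filter

namespace Pool.Agent.H467F

universe u v w

variable {M : Type u} [CStarAlgebra M] {τ : M →ₗ[ℂ] ℂ}

theorem trunc {M : Type u} [CStarAlgebra M] {τ : M →ₗ[ℂ] ℂ} (h : TW τ) (S : StarSubalgebra ℂ M)
    (hS : IsClosed (S : Set M)) (x b : M) (hx : star x = x) (hx1 : ‖x‖ ≤ 1) (hb : b ∈ S)
    (hbs : star b = b) :
    ∃ c ∈ S, star c = c ∧ ‖c‖ ≤ 1 ∧ n2 τ (x - c) ^ 2 + n2 τ (b - c) ^ 2 ≤ n2 τ (x - b) ^ 2 := by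
  classical
  have hbsa : IsSelfAdjoint b := hbs
  have hxsa : IsSelfAdjoint x := hx
  let g : ℝ → ℝ := fun t => max (-1) (min 1 t)
  let k₁ : ℝ → ℝ := fun t => Real.sqrt (max (t - 1) 0)
  let k₂ : ℝ → ℝ := fun t => Real.sqrt (max (-1 - t) 0)
  have hg : Continuous g := by fun_prop
  have hk₁ : Continuous k₁ := by fun_prop
  have hk₂ : Continuous k₂ := by fun_prop
  have sq₁ : ∀ t, k₁ t * k₁ t = max (t - 1) 0 := fun t => Real.mul_self_sqrt (le_max_right _ _)
  have sq₂ : ∀ t, k₂ t * k₂ t = max (-1 - t) 0 := fun t => Real.mul_self_sqrt (le_max_right _ _)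
  have hbc : b - cfc g b = cfc k₁ b * cfc k₁ b - cfc k₂ b * cfc k₂ b := by
    have e1 : cfc (fun t : ℝ => t - g t) b = b - cfc g b := by
      rw [cfc_sub (fun t : ℝ => t) g b (continuous_id.continuousOn) hg.continuousOn, cfc_id' ℝ b]
    have e2 : cfc (fun t : ℝ => k₁ t * k₁ t - k₂ t * k₂ t) b =
        cfc k₁ b * cfc k₁ b - cfc k₂ b * cfc k₂ b := by
      rw [cfc_sub (fun t : ℝ => k₁ t * k₁ t) (fun t : ℝ => k₂ t * k₂ t) b
        (hk₁.mul hk₁).continuousOn (hk₂.mul hk₂).continuousOn,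
        cfc_mul k₁ k₁ b hk₁.continuousOn hk₁.continuousOn,
        cfc_mul k₂ k₂ b hk₂.continuousOn hk₂.continuousOn]
    rw [← e1, ← e2]
    congr 1
    ext t
    rw [sq₁, sq₂]
    simp only [g]
    rcases le_total t (-1) with h1 | h1
    · rw [min_eq_right (by linarith), max_eq_left h1, max_eq_right (by linarith),
        max_eq_left (by linarith)]; ring
    · rcases le_total t 1 with h2 | h2
      · rw [min_eq_right h2, max_eq_right h1, max_eq_right (by linarith),
          max_eq_right (by linarith)]; ring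
      · rw [min_eq_left h2, max_eq_right (by norm_num), max_eq_left (by linarith),
          max_eq_right (by linarith)]; ring
  have hbcc : (b - cfc g b) * cfc g b = cfc k₁ b * cfc k₁ b + cfc k₂ b * cfc k₂ b := by
    have e1 : cfc (fun t : ℝ => (t - g t) * g t) b = (b - cfc g b) * cfc g b := by
      rw [cfc_mul (fun t : ℝ => t - g t) g b (continuous_id.sub hg).continuousOn hg.continuousOn,
        cfc_sub (fun t : ℝ => t) g b (continuous_id.continuousOn) hg.continuousOn, cfc_id' ℝ b]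
    have e2 : cfc (fun t : ℝ => k₁ t * k₁ t + k₂ t * k₂ t) b =
        cfc k₁ b * cfc k₁ b + cfc k₂ b * cfc k₂ b := by
      rw [cfc_add (a := b) (fun t : ℝ => k₁ t * k₁ t) (fun t : ℝ => k₂ t * k₂ t)
        (hk₁.mul hk₁).continuousOn (hk₂.mul hk₂).continuousOn,
        cfc_mul k₁ k₁ b hk₁.continuousOn hk₁.continuousOn,
        cfc_mul k₂ k₂ b hk₂.continuousOn hk₂.continuousOn]
    rw [← e1, ← e2]
    congr 1
    ext t
    rw [sq₁, sq₂]
    simp only [g]
    rcases le_total t (-1) with h1 | h1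
    · rw [min_eq_right (by linarith), max_eq_left h1, max_eq_right (by linarith),
        max_eq_left (by linarith)]; ring
    · rcases le_total t 1 with h2 | h2
      · rw [min_eq_right h2, max_eq_right h1, max_eq_right (by linarith),
          max_eq_right (by linarith)]; ring
      · rw [min_eq_left h2, max_eq_right (by norm_num), max_eq_left (by linarith),
          max_eq_right (by linarith)]; ring
  have hcS : cfc g b ∈ S := cfc_mem (𝕜' := ℂ) (hs := hS) g hb
  have hcs : star (cfc g b) = cfc g b := (cfc_predicate g b : IsSelfAdjoint (cfc g b))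
  have hK₁ : star (cfc k₁ b) = cfc k₁ b := (cfc_predicate k₁ b : IsSelfAdjoint (cfc k₁ b))
  have hK₂ : star (cfc k₂ b) = cfc k₂ b := (cfc_predicate k₂ b : IsSelfAdjoint (cfc k₂ b))
  have hcn : ‖cfc g b‖ ≤ 1 := by
    refine norm_cfc_le zero_le_one (fun t _ => ?_)
    rw [Real.norm_eq_abs, abs_le]
    exact ⟨le_max_left _ _, max_le (by norm_num) (min_le_left _ _)⟩
  generalize cfc g b = c at *
  generalize cfc k₁ b = K₁ at *
  generalize cfc k₂ b = K₂ at *
  refine ⟨c, hcS, hcs, hcn, ?_⟩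
  -- positivity of `1 - x` and `1 + x`
  let _ := CStarAlgebra.spectralOrder M
  let _ := CStarAlgebra.spectralOrderedRing M
  have hpos : ∀ y : M, IsSelfAdjoint y → ‖y‖ ≤ 1 → ∃ s, 1 - y = star s * s := by
    intro y hy hy1
    refine CStarAlgebra.nonneg_iff_eq_star_mul_self.1 ?_
    rw [sub_nonneg]
    refine hy.le_algebraMap_norm_self.trans ?_
    rw [← map_one (algebraMap ℝ M)]
    exact algebraMap_mono M hy1
  have key : ∀ y K : M, IsSelfAdjoint y → ‖y‖ ≤ 1 → star K = K →
      (τ (y * (K * K))).re ≤ (τ (K * K)).re := by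
    intro y K hy hy1 hK
    obtain ⟨s, hs⟩ := hpos y hy hy1
    have h1 := h.re_nonneg (s * K)
    have e : star (s * K) * (s * K) = K * K - K * (y * K) := by
      calc star (s * K) * (s * K) = K * (star s * s) * K := by rw [star_mul, hK]; noncomm_ring
        _ = K * K - K * (y * K) := by rw [← hs]; noncomm_ring
    rw [e, map_sub, Complex.sub_re, h.comm K (y * K), mul_assoc] at h1
    linarith
  have k1 := key x K₁ hxsa hx1 hK₁
  have k2 := key (-x) K₂ hxsa.neg (by rwa [norm_neg]) hK₂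
  have e0 : star (x - b) * (x - b) = star (x - c) * (x - c) + star (b - c) * (b - c)
      - (x - c) * (b - c) - (b - c) * (x - c) := by
    simp only [star_sub, hx, hbs, hcs]; noncomm_ring
  rw [h.n2_sq, h.n2_sq, h.n2_sq, e0, map_sub, map_sub, map_add, h.comm (b - c) (x - c)]
  have e1 : τ ((x - c) * (b - c)) = τ (x * (K₁ * K₁)) - τ (x * (K₂ * K₂))
      - (τ (K₁ * K₁) + τ (K₂ * K₂)) := by
    rw [sub_mul, map_sub, h.comm c (b - c), hbcc, map_add, hbc, mul_sub, map_sub]
  have e2 : τ (-x * (K₂ * K₂)) = - τ (x * (K₂ * K₂)) := by rw [neg_mul, map_neg]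
  rw [e2, Complex.neg_re] at k2
  rw [e1]
  simp only [Complex.sub_re, Complex.add_re]
  linarith

end Pool.Agent.H467F
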