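import Pool.Agent.Helper467.FP.Defs
import Pool.Agent.Helper467.FP.P_n2_mul_le
import Pool.Agent.Helper467.FP.P_tau_bounds
import Pool.Agent.Helper467.FP.P_exists_lim
import Pool.Agent.Helper467.FP.P_norm_le_of_lim
import Pool.Agent.Helper467.FP.P_trunc
import Pool.Agent.Helper467.FP.P_isClosed_of_isW

set_option autoImplicit false

open scoped ComplexOrder Topology InnerProductSpace
open Filter

namespace Pool.Agent.H467F

universe u v w

variable {M : Type u} [CStarAlgebra M] {τ : M →ₗ[ℂ] ℂ}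

theorem par_20186 {M : Type u} [CStarAlgebra M] {τ : M →ₗ[ℂ] ℂ} (h : TW τ) (a b : M) :
    n2 τ (a + b) ^ 2 + n2 τ (a - b) ^ 2 = 2 * n2 τ a ^ 2 + 2 * n2 τ b ^ 2 := by
  rw [h.n2_sq, h.n2_sq, h.n2_sq, h.n2_sq]
  have e1 : star (a + b) * (a + b) = star a * a + star b * b + (star a * b + star b * a) := by
    rw [star_add]; noncomm_ring
  have e2 : star (a - b) * (a - b) = star a * a + star b * b - (star a * b + star b * a) := by
    rw [star_sub]; noncomm_ring
  rw [e1, e2, map_add, map_sub, map_add, Complex.add_re, Complex.sub_re, Complex.add_re]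
  ring

theorem exp_20186 {M : Type u} [CStarAlgebra M] {τ : M →ₗ[ℂ] ℂ} (h : TW τ) (z s : M)
    (hz : star z = z) (hs : star s = s) (t : ℝ) :
    n2 τ (z - (t : ℂ) • s) ^ 2 = n2 τ z ^ 2 - 2 * t * (τ (s * z)).re + t ^ 2 * n2 τ s ^ 2 := by
  rw [h.n2_sq, h.n2_sq, h.n2_sq, star_sub, star_smul, hz, hs, Complex.star_def, Complex.conj_ofReal]
  have e1 : (z - (t : ℂ) • s) * (z - (t : ℂ) • s) =
      z * z - (t : ℂ) • (z * s) - (t : ℂ) • (s * z) + (t : ℂ) • ((t : ℂ) • (s * s)) := by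
    rw [sub_mul, mul_sub, mul_sub, mul_smul_comm, smul_mul_assoc, smul_mul_assoc, mul_smul_comm]
    abel
  rw [e1, map_add, map_sub, map_sub, map_smul, map_smul, map_smul, map_smul, h.comm z s]
  simp only [Complex.add_re, Complex.sub_re, smul_eq_mul, Complex.re_ofReal_mul]
  ring

theorem minsa_20186 {M : Type u} [CStarAlgebra M] {τ : M →ₗ[ℂ] ℂ} (h : TW τ)
    (S : StarSubalgebra ℂ M) (hS : IsW τ S) (x : M) (hx : star x = x) (hx1 : ‖x‖ ≤ 1) :
    ∃ y ∈ S, star y = y ∧ ‖y‖ ≤ 1 ∧ ∀ s ∈ S, star s = s → n2 τ (x - y) ^ 2 ≤ n2 τ (x - s) ^ 2 := by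
  set D : Set ℝ := {r | ∃ b ∈ S, star b = b ∧ r = n2 τ (x - b) ^ 2} with hD
  have hDne : D.Nonempty := ⟨_, 0, zero_mem S, star_zero _, rfl⟩
  have hDb : BddBelow D := ⟨0, by rintro _ ⟨b, _, _, rfl⟩; exact sq_nonneg _⟩
  set d := sInf D with hd
  have hdle : ∀ b ∈ S, star b = b → d ≤ n2 τ (x - b) ^ 2 := fun b hb hbs =>
    csInf_le hDb ⟨b, hb, hbs, rfl⟩
  have hd0 : 0 ≤ d := le_csInf hDne (by rintro _ ⟨b, _, _, rfl⟩; exact sq_nonneg _)
  have hScl := isClosed_of_isW h S hS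
  have hex : ∀ n : ℕ, ∃ c ∈ S, star c = c ∧ ‖c‖ ≤ 1 ∧ n2 τ (x - c) ^ 2 ≤ d + 1 / ((n : ℝ) + 1) := by
    intro n
    have hpos : (0 : ℝ) < 1 / ((n : ℝ) + 1) := by positivity
    obtain ⟨_, ⟨b, hb, hbs, rfl⟩, hlt⟩ := exists_lt_of_csInf_lt hDne (lt_add_of_pos_right d hpos)
    obtain ⟨c, hc, hcs, hc1, hc2⟩ := trunc h S hScl x b hx hx1 hb hbs
    refine ⟨c, hc, hcs, hc1, ?_⟩
    have := sq_nonneg (n2 τ (b - c))
    linarith
  choose c hcS hcs hc1 hc2 using hex
  have hcc : ∀ m n : ℕ, n2 τ (c m - c n) ^ 2 ≤ 2 / ((m : ℝ) + 1) + 2 / ((n : ℝ) + 1) := by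
    intro m n
    have hp := par_20186 h (x - c n) (x - c m)
    have e1 : x - c n + (x - c m) = (2 : ℂ) • (x - (1 / 2 : ℂ) • (c m + c n)) := by
      rw [smul_sub, smul_smul, two_smul]
      norm_num
      abel
    have e2 : x - c n - (x - c m) = c m - c n := by abel
    rw [e1, e2, n2_smul] at hp
    have hmid : (1 / 2 : ℂ) • (c m + c n) ∈ S := SMulMemClass.smul_mem _ (add_mem (hcS m) (hcS n))
    have hmids : star ((1 / 2 : ℂ) • (c m + c n)) = (1 / 2 : ℂ) • (c m + c n) := by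
      rw [star_smul, star_add, hcs, hcs]
      congr 1
      simp
    have h3 := hdle _ hmid hmids
    have h4 := hc2 m
    have h5 := hc2 n
    have h6 : ‖(2 : ℂ)‖ = 2 := by simp
    rw [h6, mul_pow] at hp
    have e3 : 2 / ((m : ℝ) + 1) = 2 * (1 / ((m : ℝ) + 1)) := by ring
    have e4 : 2 / ((n : ℝ) + 1) = 2 * (1 / ((n : ℝ) + 1)) := by ring
    rw [e3, e4]
    nlinarith
  obtain ⟨y, hy1, hy2⟩ := exists_lim h c 1 hc1 (by
    intro ε hε
    obtain ⟨N, hN⟩ := exists_nat_gt (4 / ε ^ 2)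
    refine ⟨N, fun m hm n hn => ?_⟩
    have h1 := hcc m n
    have hN1 : (0 : ℝ) < (N : ℝ) + 1 := by positivity
    have h2 : 2 / ((m : ℝ) + 1) ≤ 2 / ((N : ℝ) + 1) := by
      apply div_le_div_of_nonneg_left (by norm_num) hN1
      have : (N : ℝ) ≤ m := by exact_mod_cast hm
      linarith
    have h3 : 2 / ((n : ℝ) + 1) ≤ 2 / ((N : ℝ) + 1) := by
      apply div_le_div_of_nonneg_left (by norm_num) hN1
      have : (N : ℝ) ≤ n := by exact_mod_cast hn
      linarith
    have h4 : 4 / ((N : ℝ) + 1) < ε ^ 2 := by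
      rw [div_lt_iff₀ hN1]
      rw [div_lt_iff₀ (by positivity)] at hN
      nlinarith [sq_nonneg ε, pow_pos hε 2]
    have h5 : n2 τ (c m - c n) ^ 2 < ε ^ 2 := by
      have e : 4 / ((N : ℝ) + 1) = 2 / ((N : ℝ) + 1) + 2 / ((N : ℝ) + 1) := by ring
      rw [e] at h4
      linarith
    exact (pow_lt_pow_iff_left₀ (n2_nonneg _ _) hε.le two_ne_zero).1 h5)
  have hyS : y ∈ S := by
    apply hS
    intro ε hε
    obtain ⟨n, hn⟩ := (hy2.eventually (gt_mem_nhds hε)).exists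
    exact ⟨c n, hcS n, by rw [n2_sub_comm]; exact hn⟩
  have hys : star y = y := by
    have h0 : n2 τ (y - star y) ≤ 0 := by
      have hlim : Tendsto (fun n => n2 τ (c n - y) + n2 τ (c n - y)) atTop (𝓝 (0 + 0)) := hy2.add hy2
      rw [add_zero] at hlim
      refine ge_of_tendsto hlim (Eventually.of_forall fun n => ?_)
      have h1 := h.n2_tri y (c n) (star y)
      have h2 : n2 τ (c n - star y) = n2 τ (c n - y) := by
        have := h.n2_star (c n - y)
        rw [star_sub, hcs] at this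
        exact this
      rw [h2, n2_sub_comm τ y (c n)] at h1
      exact h1
    have h1 := h.eq_zero (le_antisymm h0 (n2_nonneg _ _))
    exact (sub_eq_zero.1 h1).symm
  refine ⟨y, hyS, hys, hy1, fun s hs hss => ?_⟩
  have hle : n2 τ (x - y) ≤ Real.sqrt d := by
    have hlim1 : Tendsto (fun n : ℕ => Real.sqrt (d + 1 / ((n : ℝ) + 1))) atTop (𝓝 (Real.sqrt (d + 0))) :=
      (Real.continuous_sqrt.tendsto _).comp
        (tendsto_const_nhds.add tendsto_one_div_add_atTop_nhds_zero_nat)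
    have hlim := hlim1.add hy2
    rw [add_zero, add_zero] at hlim
    refine ge_of_tendsto hlim (Eventually.of_forall fun n => ?_)
    have h1 := h.n2_tri x (c n) y
    have h2 : n2 τ (x - c n) ≤ Real.sqrt (d + 1 / ((n : ℝ) + 1)) := Real.le_sqrt_of_sq_le (hc2 n)
    linarith
  have h1 : n2 τ (x - y) ^ 2 ≤ d := by
    have := pow_le_pow_left₀ (n2_nonneg _ _) hle 2
    rwa [Real.sq_sqrt hd0] at this
  exact h1.trans (hdle s hs hss)

theorem orth_20186 {M : Type u} [CStarAlgebra M] {τ : M →ₗ[ℂ] ℂ} (h : TW τ)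
    (S : StarSubalgebra ℂ M) (x y : M) (hx : star x = x) (hy : y ∈ S) (hys : star y = y)
    (hmin : ∀ s ∈ S, star s = s → n2 τ (x - y) ^ 2 ≤ n2 τ (x - s) ^ 2) : IsCE τ S x y := by
  have hz : star (x - y) = x - y := by rw [star_sub, hx, hys]
  have hsa : ∀ s ∈ S, star s = s → τ (s * (x - y)) = 0 := by
    intro s hs hss
    have him : (τ (s * (x - y))).im = 0 := by
      have h1 := h.conj (s * (x - y))
      rw [star_mul, hz, hss, h.comm] at h1
      have h2 := congrArg Complex.im h1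
      rw [Complex.star_def, Complex.conj_im] at h2
      linarith
    have hre : (τ (s * (x - y))).re = 0 := by
      set β := (τ (s * (x - y))).re with hβ
      set γ := n2 τ s ^ 2 with hγ
      have hγ0 : 0 ≤ γ := sq_nonneg _
      have hall : ∀ t : ℝ, 2 * t * β ≤ t ^ 2 * γ := by
        intro t
        have h1 := hmin (y + (t : ℂ) • s) (add_mem hy (SMulMemClass.smul_mem _ hs)) (by
          rw [star_add, star_smul, hys, hss, Complex.star_def, Complex.conj_ofReal])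
        have e : x - (y + (t : ℂ) • s) = (x - y) - (t : ℂ) • s := by abel
        rw [e, exp_20186 h (x - y) s hz hss t] at h1
        linarith
      have h1 := hall (β / (γ + 1))
      have hg : 0 < γ + 1 := by linarith
      have h2 : 2 * (β / (γ + 1)) * β = 2 * β ^ 2 / (γ + 1) := by ring
      have h3 : (β / (γ + 1)) ^ 2 * γ = β ^ 2 * γ / (γ + 1) ^ 2 := by
        rw [div_pow]; ring
      rw [h2, h3, div_le_div_iff₀ hg (by positivity)] at h1
      by_contra hne
      have hb : 0 < β ^ 2 := by positivity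
      have h4 : 2 * β ^ 2 * (γ + 1) ^ 2 ≤ β ^ 2 * γ * (γ + 1) := h1
      have h5 : 0 < β ^ 2 * (γ + 1) := mul_pos hb hg
      nlinarith
    exact Complex.ext hre him
  refine ⟨hy, fun s hs => ?_⟩
  have h1 := hsa ((1 / 2 : ℂ) • (s + star s)) (SMulMemClass.smul_mem _ (add_mem hs (star_mem hs))) (by
    rw [star_smul, star_add, star_star, add_comm (star s) s]
    congr 1
    simp)
  have h2 := hsa ((-(Complex.I) / 2 : ℂ) • (s - star s))
    (SMulMemClass.smul_mem _ (sub_mem hs (star_mem hs))) (by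
    rw [star_smul, star_sub, star_star]
    have e : star (-(Complex.I) / 2 : ℂ) = Complex.I / 2 := by
      simp [Complex.star_def]
    rw [e, ← neg_sub s (star s), smul_neg, ← neg_smul]
    congr 1
    ring)
  have e : s = (1 / 2 : ℂ) • (s + star s) + Complex.I • ((-(Complex.I) / 2 : ℂ) • (s - star s)) := by
    rw [smul_smul]
    have e2 : Complex.I * (-(Complex.I) / 2) = 1 / 2 := by
      have := Complex.I_mul_I
      linear_combination (-(1 / 2 : ℂ)) * this
    rw [e2, ← smul_add]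
    have e3 : s + star s + (s - star s) = (2 : ℂ) • s := by rw [two_smul]; abel
    rw [e3, smul_smul]
    norm_num
  rw [e, add_mul, map_add, h1, smul_mul_assoc, map_smul, h2, smul_zero, add_zero]

theorem exists_CE_sa {M : Type u} [CStarAlgebra M] {τ : M →ₗ[ℂ] ℂ} (h : TW τ)
    (S : StarSubalgebra ℂ M) (hS : IsW τ S) (x : M) (hx : star x = x) :
    ∃ y, IsCE τ S x y ∧ ‖y‖ ≤ ‖x‖ := by
  by_cases hx0 : x = 0
  · refine ⟨0, ⟨zero_mem S, fun s _ => ?_⟩, ?_⟩
    · rw [hx0, sub_self, mul_zero, map_zero]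
    · rw [norm_zero]; exact norm_nonneg _
  · have hr : 0 < ‖x‖ := norm_pos_iff.2 hx0
    have hrc : ((‖x‖ : ℝ) : ℂ) ≠ 0 := by exact_mod_cast hr.ne'
    set x' : M := (((‖x‖⁻¹ : ℝ)) : ℂ) • x with hx'
    have hx's : star x' = x' := by
      rw [hx', star_smul, hx, Complex.star_def, Complex.conj_ofReal]
    have hx'1 : ‖x'‖ ≤ 1 := by
      rw [hx', norm_smul, Complex.norm_real, norm_inv, norm_norm, inv_mul_cancel₀ hr.ne']
    have hxx : x = ((‖x‖ : ℝ) : ℂ) • x' := by
      rw [hx', smul_smul, Complex.ofReal_inv, mul_inv_cancel₀ hrc, one_smul]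
    obtain ⟨y, hyS, hys, hy1, hmin⟩ := minsa_20186 h S hS x' hx's hx'1
    have hce := orth_20186 h S x' y hx's hyS hys hmin
    refine ⟨((‖x‖ : ℝ) : ℂ) • y, ⟨SMulMemClass.smul_mem _ hyS, fun s hs => ?_⟩, ?_⟩
    · have e : x - ((‖x‖ : ℝ) : ℂ) • y = ((‖x‖ : ℝ) : ℂ) • (x' - y) := by
        rw [smul_sub, ← hxx]
      rw [e, mul_smul_comm, map_smul, hce.2 s hs, smul_zero]
    · rw [norm_smul, Complex.norm_real, norm_norm]
      calc ‖x‖ * ‖y‖ ≤ ‖x‖ * 1 := mul_le_mul_of_nonneg_left hy1 hr.le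
        _ = ‖x‖ := mul_one _

end Pool.Agent.H467F
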