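import Pool.Agent.Helper467.FP.Defs
import Pool.Agent.Helper467.FP.P_n2_mul_le
import Pool.Agent.Helper467.FP.P_tau_bounds
import Pool.Agent.Helper467.FP.P_exists_CE_sa

set_option autoImplicit false

open scoped ComplexOrder Topology InnerProductSpace
open Filter

namespace Pool.Agent.H467F

universe u v w

variable {M : Type u} [CStarAlgebra M] {τ : M →ₗ[ℂ] ℂ}

theorem ep_aux_exists {M : Type u} [CStarAlgebra M] {τ : M →ₗ[ℂ] ℂ} (h : TW τ)
    (S : StarSubalgebra ℂ M) (hS : IsW τ S) (x : M) :
    ∃ y, IsCE τ S x y ∧ ‖y‖ ≤ 2 * ‖x‖ := by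
  let x1 : M := (1 / 2 : ℂ) • (x + star x)
  let x2 : M := (-(Complex.I / 2) : ℂ) • (x - star x)
  have hx1 : star x1 = x1 := by
    simp only [x1]
    rw [star_smul, star_add, star_star, add_comm]
    congr 1
    simp
  have hx2 : star x2 = x2 := by
    simp only [x2]
    rw [star_smul, star_sub, star_star, ← neg_sub x (star x), smul_neg, ← neg_smul]
    congr 1
    simp
    ring
  have hx : x = x1 + Complex.I • x2 := by
    simp only [x1, x2]
    rw [smul_smul]
    have : Complex.I * (-(Complex.I / 2)) = 1 / 2 := by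
      have := Complex.I_mul_I
      linear_combination (-1 / 2 : ℂ) * this
    rw [this, ← smul_add]
    have e : x + star x + (x - star x) = (2 : ℂ) • x := by
      rw [two_smul]; abel
    rw [e, smul_smul]
    norm_num
  have hn1 : ‖x1‖ ≤ ‖x‖ := by
    simp only [x1]
    rw [norm_smul]
    have e1 := norm_add_le x (star x)
    rw [norm_star] at e1
    have e2 : ‖(1 / 2 : ℂ)‖ = 1 / 2 := by norm_num
    rw [e2]
    linarith
  have hn2 : ‖x2‖ ≤ ‖x‖ := by
    simp only [x2]
    rw [norm_smul]
    have e1 := norm_sub_le x (star x)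
    rw [norm_star] at e1
    have e2 : ‖(-(Complex.I / 2) : ℂ)‖ = 1 / 2 := by
      rw [norm_neg, norm_div, Complex.norm_I]
      norm_num
    rw [e2]
    linarith
  obtain ⟨y1, hy1, hy1n⟩ := exists_CE_sa h S hS x1 hx1
  obtain ⟨y2, hy2, hy2n⟩ := exists_CE_sa h S hS x2 hx2
  refine ⟨y1 + Complex.I • y2, ⟨S.add_mem hy1.1 (S.smul_mem hy2.1 _), ?_⟩, ?_⟩
  · intro s hs
    have e : s * (x - (y1 + Complex.I • y2)) = s * (x1 - y1) + Complex.I • (s * (x2 - y2)) := by
      rw [← mul_smul_comm, ← mul_add]
      congr 1
      conv_lhs => rw [hx]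
      rw [smul_sub]
      abel
    rw [e, map_add, map_smul, hy1.2 s hs, hy2.2 s hs]
    simp
  · have e1 := norm_add_le y1 (Complex.I • y2)
    rw [norm_smul, Complex.norm_I, one_mul] at e1
    linarith

theorem ep_aux_unique {M : Type u} [CStarAlgebra M] {τ : M →ₗ[ℂ] ℂ} (h : TW τ)
    (S : StarSubalgebra ℂ M) (x y y' : M) (hy : IsCE τ S x y) (hy' : IsCE τ S x y') : y = y' := by
  have hs : star (y - y') ∈ S := StarMemClass.star_mem (S.sub_mem hy.1 hy'.1)
  have h1 := hy.2 _ hs
  have h2 := hy'.2 _ hs
  have h3 : τ (star (y - y') * (y - y')) = 0 := by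
    have e : star (y - y') * (y - y') = star (y - y') * (x - y') - star (y - y') * (x - y) := by
      rw [← mul_sub]
      congr 1
      abel
    rw [e, map_sub, h1, h2, sub_zero]
  exact sub_eq_zero.mp (h.faithful _ h3)

theorem ep_aux_E {M : Type u} [CStarAlgebra M] {τ : M →ₗ[ℂ] ℂ} (h : TW τ)
    (S : StarSubalgebra ℂ M) (hS : IsW τ S) (x : M) : IsCE τ S x (E τ S x) := by
  obtain ⟨y, hy, _⟩ := ep_aux_exists h S hS x
  have hex : ∃ y, IsCE τ S x y := ⟨y, hy⟩
  unfold E
  rw [dif_pos hex]
  exact hex.choose_spec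

theorem ep {M : Type u} [CStarAlgebra M] {τ : M →ₗ[ℂ] ℂ} (h : TW τ)
    (S : StarSubalgebra ℂ M) (hS : IsW τ S) : EP τ S := by
  have hE := ep_aux_E h S hS
  have hU : ∀ x y, IsCE τ S x y → y = E τ S x := fun x y hy =>
    ep_aux_unique h S x _ _ hy (hE x)
  have hpyth : ∀ x, n2 τ x ^ 2 = n2 τ (E τ S x) ^ 2 + n2 τ (x - E τ S x) ^ 2 := by
    intro x
    rw [h.n2_sq, h.n2_sq, h.n2_sq]
    have e1 : τ (star (E τ S x) * (x - E τ S x)) = 0 := (hE x).2 _ (StarMemClass.star_mem (hE x).1)
    have e2 : τ (star (x - E τ S x) * E τ S x) = 0 := by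
      have := h.conj (star (E τ S x) * (x - E τ S x))
      rw [e1, star_mul, star_star, star_zero] at this
      exact this
    have e3 : star x * x = star (E τ S x) * E τ S x + star (x - E τ S x) * (x - E τ S x) +
        (star (E τ S x) * (x - E τ S x) + star (x - E τ S x) * E τ S x) := by
      rw [star_sub]
      noncomm_ring
    rw [e3, map_add, map_add, map_add, e1, e2]
    simp
  exact
    { mem := fun x => (hE x).1
      orth := fun x => (hE x).2
      unique := fun x y hy hy2 => hU x y ⟨hy, hy2⟩
      of_mem := by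
        intro x hx
        refine (hU x x ⟨hx, ?_⟩).symm
        intro s _
        rw [sub_self, mul_zero, map_zero]
      add := by
        intro x y
        refine (hU _ _ ⟨S.add_mem (hE x).1 (hE y).1, ?_⟩).symm
        intro s hs
        have e : s * (x + y - (E τ S x + E τ S y)) = s * (x - E τ S x) + s * (y - E τ S y) := by
          rw [← mul_add]; congr 1; abel
        rw [e, map_add, (hE x).2 s hs, (hE y).2 s hs, add_zero]
      sub := by
        intro x y
        refine (hU _ _ ⟨S.sub_mem (hE x).1 (hE y).1, ?_⟩).symm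
        intro s hs
        have e : s * (x - y - (E τ S x - E τ S y)) = s * (x - E τ S x) - s * (y - E τ S y) := by
          rw [← mul_sub]; congr 1; abel
        rw [e, map_sub, (hE x).2 s hs, (hE y).2 s hs, sub_zero]
      smul := by
        intro c x
        refine (hU _ _ ⟨S.smul_mem (hE x).1 _, ?_⟩).symm
        intro s hs
        rw [← smul_sub, mul_smul_comm, map_smul, (hE x).2 s hs, smul_zero]
      star := by
        intro x
        refine (hU _ _ ⟨StarMemClass.star_mem (hE x).1, ?_⟩).symm
        intro s hs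
        have e1 := (hE x).2 _ (StarMemClass.star_mem hs)
        have e2 := h.conj (Star.star s * (x - E τ S x))
        rw [e1, star_mul, star_star, star_zero, h.comm, star_sub] at e2
        exact e2
      left := by
        intro s hs x
        refine (hU _ _ ⟨S.mul_mem hs (hE x).1, ?_⟩).symm
        intro t ht
        rw [← mul_sub, ← mul_assoc]
        exact (hE x).2 _ (S.mul_mem ht hs)
      right := by
        intro s hs x
        refine (hU _ _ ⟨S.mul_mem (hE x).1 hs, ?_⟩).symm
        intro t ht
        rw [← sub_mul, ← mul_assoc, h.comm, ← mul_assoc]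
        exact (hE x).2 _ (S.mul_mem hs ht)
      trace := by
        intro x
        have e := (hE x).2 1 S.one_mem
        rw [one_mul, map_sub, sub_eq_zero] at e
        exact e.symm
      n2_le := by
        intro x
        have e := hpyth x
        have e2 := sq_nonneg (n2 τ (x - E τ S x))
        exact (pow_le_pow_iff_left₀ (n2_nonneg _ _) (n2_nonneg _ _) two_ne_zero).1 (by linarith)
      pyth := hpyth
      norm_le := by
        intro x
        obtain ⟨y, hy, hyn⟩ := ep_aux_exists h S hS x
        rw [← hU x y hy]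
        exact hyn
      tower := by
        intro x B hB hW
        have hEB := ep_aux_E h B hW
        refine ep_aux_unique h B x _ _ ⟨(hEB _).1, ?_⟩ (hEB x)
        intro b hb
        have e : b * (x - E τ B (E τ S x)) =
            b * (x - E τ S x) + b * (E τ S x - E τ B (E τ S x)) := by
          rw [← mul_add]; congr 1; abel
        rw [e, map_add, (hE x).2 b (hB hb), (hEB _).2 b hb, add_zero] }

end Pool.Agent.H467F
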