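import Pool.Agent.Helper467.FP.Defs
import Pool.Agent.Helper467.FP.P_n2_mul_le
import Pool.Agent.Helper467.FP.P_tau_bounds
import Pool.Agent.Helper467.FP.P_isClosed_of_isW
import Pool.Agent.Helper467.FP.P_exists_CE_sa
import Pool.Agent.Helper467.FP.P_ep

set_option autoImplicit false

open scoped ComplexOrder Topology InnerProductSpace
open Filter

namespace Pool.Agent.H467F

universe u v w

variable {M : Type u} [CStarAlgebra M] {τ : M →ₗ[ℂ] ℂ}

theorem ec_sa {M : Type u} [CStarAlgebra M] {τ : M →ₗ[ℂ] ℂ} (h : TW τ)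
    (S : StarSubalgebra ℂ M) (hS : IsW τ S) (x : M) (hx : star x = x) : ‖E τ S x‖ ≤ ‖x‖ := by
  obtain ⟨y, hy, hn⟩ := exists_CE_sa h S hS x hx
  have := (ep h S hS).unique x y hy.1 hy.2
  rwa [← this]

theorem ec_pos {M : Type u} [CStarAlgebra M] [PartialOrder M] [StarOrderedRing M]
    {τ : M →ₗ[ℂ] ℂ} (h : TW τ)
    (S : StarSubalgebra ℂ M) (hS : IsW τ S) (a : M) (ha : 0 ≤ a) : 0 ≤ E τ S a := by
  have hep := ep h S hS
  haveI : Nontrivial M := by
    refine ⟨1, 0, fun h0 => ?_⟩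
    have := h.one
    rw [h0, map_zero] at this
    exact zero_ne_one this
  set r := ‖a‖ with hr
  have hsa : IsSelfAdjoint a := IsSelfAdjoint.of_nonneg ha
  have h1 : a ≤ algebraMap ℝ M r := hsa.le_algebraMap_norm_self
  set c := algebraMap ℝ M r - a with hc
  have hc0 : 0 ≤ c := sub_nonneg.2 h1
  have hc1 : c ≤ algebraMap ℝ M r := sub_le_self _ ha
  have hcn : ‖c‖ ≤ r := by
    refine (CStarAlgebra.norm_le_norm_of_nonneg_of_le hc0 hc1).trans ?_
    rw [norm_algebraMap', Real.norm_of_nonneg (norm_nonneg a)]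
  have hcs : star c = c := (IsSelfAdjoint.of_nonneg hc0)
  have hE1 := ec_sa h S hS c hcs
  have hmem : algebraMap ℝ M r ∈ S := by
    rw [IsScalarTower.algebraMap_apply ℝ ℂ M]
    exact algebraMap_mem S _
  have hEc : E τ S c = algebraMap ℝ M r - E τ S a := by
    rw [hc, hep.sub, hep.of_mem _ hmem]
  have hEsa : IsSelfAdjoint (E τ S c) := by
    rw [isSelfAdjoint_iff, ← hep.star, hcs]
  have h2 : E τ S c ≤ algebraMap ℝ M ‖E τ S c‖ := hEsa.le_algebraMap_norm_self
  have h3 : algebraMap ℝ M ‖E τ S c‖ ≤ algebraMap ℝ M r := by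
    exact algebraMap_mono M (hE1.trans hcn)
  have h4 := h2.trans h3
  rw [hEc] at h4
  exact sub_le_self_iff _ |>.1 h4

theorem E_contr {M : Type u} [CStarAlgebra M] {τ : M →ₗ[ℂ] ℂ} (h : TW τ)
    (S : StarSubalgebra ℂ M) (hS : IsW τ S) (x : M) : ‖E τ S x‖ ≤ ‖x‖ := by
  letI := CStarAlgebra.spectralOrder M
  haveI := CStarAlgebra.spectralOrderedRing M
  have hep := ep h S hS
  set e := E τ S x with he
  have heS : e ∈ S := hep.mem x
  have hseS : star e ∈ S := star_mem heS
  have h1 : 0 ≤ E τ S (star (x - e) * (x - e)) := ec_pos h S hS _ (star_mul_self_nonneg _)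
  have h2 : E τ S (star (x - e) * (x - e)) = E τ S (star x * x) - star e * e := by
    have e1 : star (x - e) * (x - e) = star x * x - star x * e - (star e * x - star e * e) := by
      rw [star_sub]; noncomm_ring
    rw [e1, hep.sub, hep.sub, hep.sub, hep.right e heS, hep.left _ hseS x, hep.star,
      hep.of_mem _ (mul_mem hseS heS), ← he]
    abel
  rw [h2] at h1
  have h3 : star e * e ≤ E τ S (star x * x) := sub_nonneg.1 h1
  have h4 := CStarAlgebra.norm_le_norm_of_nonneg_of_le (star_mul_self_nonneg e) h3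
  have h5 := ec_sa h S hS (star x * x) (by rw [star_mul, star_star])
  rw [CStarRing.norm_star_mul_self] at h4 h5
  have h6 : ‖e‖ * ‖e‖ ≤ ‖x‖ * ‖x‖ := h4.trans h5
  exact (mul_self_le_mul_self_iff (norm_nonneg _) (norm_nonneg _)).2 h6

end Pool.Agent.H467F
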