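import Pool.Agent.Helper467.FP.Defs
import Pool.Agent.Helper467.FP.P_ep

set_option autoImplicit false

open scoped ComplexOrder Topology InnerProductSpace
open Filter

namespace Pool.Agent.H467F

universe u v w

variable {M : Type u} [CStarAlgebra M] {τ : M →ₗ[ℂ] ℂ}

theorem val_cons {M : Type u} [CStarAlgebra M] {ι : Type v} (p : ι × M) (l : List (ι × M)) :
    val (p :: l) = p.2 * val l := by
  unfold val
  rw [List.map_cons, List.prod_cons]

theorem cen_mem {M : Type u} [CStarAlgebra M] {τ : M →ₗ[ℂ] ℂ} (h : TW τ)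
    (S : StarSubalgebra ℂ M) (s : M) (hs : s ∈ S) :
    s - τ s • (1 : M) ∈ S ∧ τ (s - τ s • (1 : M)) = 0 := by
  refine ⟨S.sub_mem hs (S.smul_mem S.one_mem _), ?_⟩
  rw [map_sub, map_smul, h.one]
  simp

theorem E_word {M : Type u} [CStarAlgebra M] {τ : M →ₗ[ℂ] ℂ} (h : TW τ) {ι : Type v}
    (S : ι → StarSubalgebra ℂ M) (hf : IsFree τ S) (i : ι) (hW : IsW τ (S i)) (l : List (ι × M))
    (hl : IsWord τ S l) (hne : l ≠ []) (hs : ∀ a, l ≠ [(i, a)]) : E τ (S i) (val l) = 0 := by
  have hEP := ep h (S i) hW
  refine (hEP.unique (val l) 0 (S i).zero_mem ?_).symm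
  intro s hsS
  rw [sub_zero]
  obtain ⟨hs0, ht0⟩ := cen_mem h (S i) s hsS
  set s0 : M := s - τ s • (1 : M) with hs0def
  have hsplit : s = τ s • (1 : M) + s0 := by rw [hs0def]; abel
  have hdecomp : τ (s * val l) = τ s * τ (val l) + τ (s0 * val l) := by
    conv_lhs => rw [hsplit]
    rw [add_mul, map_add, smul_mul_assoc, one_mul, map_smul, smul_eq_mul]
  rw [hdecomp, hf l hl hne, mul_zero, zero_add]
  match l, hl, hne, hs with
  | [], _, hne, _ => exact absurd rfl hne
  | (j, b) :: l', hl, hne, hs =>
    by_cases hj : i = j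
    · subst hj
      have hl'ne : l' ≠ [] := by
        rintro rfl
        exact hs b rfl
      have hb := hl.2 (i, b) (by simp)
      have hc : s0 * b ∈ S i := (S i).mul_mem hs0 hb.1
      obtain ⟨hc0, htc0⟩ := cen_mem h (S i) (s0 * b) hc
      set c0 : M := s0 * b - τ (s0 * b) • (1 : M) with hc0def
      have hcs : s0 * b = τ (s0 * b) • (1 : M) + c0 := by rw [hc0def]; abel
      have hl' : IsWord τ S l' := by
        refine ⟨hl.1.tail, fun p hp => hl.2 p (List.mem_cons_of_mem _ hp)⟩
      have hw : IsWord τ S ((i, c0) :: l') := by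
        refine ⟨?_, ?_⟩
        · have h1 := hl.1
          match l', hl'ne, h1 with
          | [], hn, _ => exact absurd rfl hn
          | p :: l'', _, h1 =>
            rw [List.isChain_cons_cons] at h1 ⊢
            exact h1
        · intro p hp
          rcases List.mem_cons.1 hp with rfl | hp
          · exact ⟨hc0, htc0⟩
          · exact hl'.2 p hp
      rw [val_cons, ← mul_assoc]
      change τ (s0 * b * val l') = 0
      rw [hcs, add_mul, map_add, smul_mul_assoc, one_mul, map_smul, hf l' hl' hl'ne]
      have := hf _ hw (by simp)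
      rw [val_cons] at this
      change τ (c0 * val l') = 0 at this
      rw [this]
      simp
    · have hw : IsWord τ S ((i, s0) :: (j, b) :: l') := by
        refine ⟨?_, ?_⟩
        · rw [List.isChain_cons_cons]
          exact ⟨hj, hl.1⟩
        · intro p hp
          rcases List.mem_cons.1 hp with rfl | hp
          · exact ⟨hs0, ht0⟩
          · exact hl.2 p hp
      have := hf _ hw (by simp)
      rw [val_cons] at this
      exact this

end Pool.Agent.H467F
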