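import Pool.Agent.Helper467.FP.Defs
import Pool.Agent.Helper467.FP.P_ep
import Pool.Agent.Helper467.FP.P_E_word

set_option autoImplicit false

open scoped ComplexOrder Topology InnerProductSpace
open Filter

namespace Pool.Agent.H467F

universe u v w

variable {M : Type u} [CStarAlgebra M] {τ : M →ₗ[ℂ] ℂ}

theorem mix_word {M : Type u} [CStarAlgebra M] {τ : M →ₗ[ℂ] ℂ} (h : TW τ) {ι : Type v}
    (S : ι → StarSubalgebra ℂ M) (hf : IsFree τ S) (hW : ∀ i, IsW τ (S i)) (i : ι)
    (l l' : List (ι × M)) (a b c : M) (hl : IsWord τ S l) (hl' : IsWord τ S l')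
    (hi : ∀ p ∈ l.getLast?, p.1 ≠ i) (hi' : ∀ p ∈ l'.head?, p.1 ≠ i) (ha : a ∈ S i) (hb : b ∈ S i)
    (hc : c ∈ S i) :
    (∀ j, j ≠ i → E τ (S j) (val l * a * c * (b * val l')) =
      τ (a * c * b) • E τ (S j) (val l * val l')) ∧
    (l = [] → l' = [] → E τ (S i) (val l * a * c * (b * val l')) =
      E τ (S i) (val l * a) * c * E τ (S i) (b * val l')) ∧
    (¬ (l = [] ∧ l' = []) → E τ (S i) (val l * a * c * (b * val l')) -
      E τ (S i) (val l * a) * c * E τ (S i) (b * val l') =
      τ (a * c * b) • E τ (S i) (val l * val l')) := by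
  have hval_app : ∀ (u v : List (ι × M)), val (u ++ v) = val u * val v := by
    intro u v
    simp [val]
  have hval_cons : ∀ (q : ι × M) (v : List (ι × M)), val (q :: v) = q.2 * val v := by
    intro q v
    simp [val]
  have hval_nil : val ([] : List (ι × M)) = 1 := by simp [val]
  set d : M := a * c * b with hd
  have hdS : d ∈ S i := mul_mem (mul_mem ha hc) hb
  set d0 : M := d - τ d • (1 : M) with hd0
  have hd0S : d0 ∈ S i := sub_mem hdS ((S i).smul_mem (one_mem _) _)
  have hd0τ : τ d0 = 0 := by
    rw [hd0, map_sub, map_smul, h.one, smul_eq_mul, mul_one, sub_self]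
  set w : List (ι × M) := l ++ (i, d0) :: l' with hw
  have hword : IsWord τ S w := by
    refine ⟨?_, ?_⟩
    · rw [hw, List.isChain_append, List.isChain_cons]
      refine ⟨hl.1, ⟨fun y hy => (hi' y hy).symm, hl'.1⟩, ?_⟩
      intro x hx y hy
      simp only [List.head?_cons, Option.mem_def, Option.some.injEq] at hy
      rw [← hy]
      exact hi x hx
    · intro p hp
      rw [hw, List.mem_append, List.mem_cons] at hp
      rcases hp with hp | rfl | hp
      · exact hl.2 p hp
      · exact ⟨hd0S, hd0τ⟩
      · exact hl'.2 p hp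
  have hwne : w ≠ [] := by simp [hw]
  have hwmem : (i, d0) ∈ w := by simp [hw]
  have hsplit : val l * a * c * (b * val l') = τ d • (val l * val l') + val w := by
    have e1 : val w = val l * (d0 * val l') := by
      rw [hw, hval_app, hval_cons]
    rw [e1, hd0]
    have e2 : val l * a * c * (b * val l') = val l * (d * val l') := by
      rw [hd]; noncomm_ring
    rw [e2, sub_mul, mul_sub, smul_mul_assoc, one_mul, mul_smul_comm]
    abel
  have hE : ∀ j, EP τ (S j) := fun j => ep h (S j) (hW j)
  refine ⟨fun j hj => ?_, fun h1 h2 => ?_, fun h1 => ?_⟩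
  · rw [hsplit, (hE j).add, (hE j).smul, E_word h S hf j (hW j) w hword hwne ?_, add_zero]
    intro x hx
    rw [hx, List.mem_singleton] at hwmem
    exact hj (congrArg Prod.fst hwmem).symm
  · rw [h1, h2, hval_nil, one_mul, mul_one, (hE i).of_mem _ (mul_mem (mul_mem ha hc) hb),
      (hE i).of_mem _ ha, (hE i).of_mem _ hb]
  · have hEw : E τ (S i) (val w) = 0 := by
      apply E_word h S hf i (hW i) w hword hwne
      intro x hx
      have hlen := congrArg List.length hx
      rw [hw, List.length_append, List.length_cons, List.length_singleton] at hlen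
      apply h1
      constructor
      · apply List.eq_nil_of_length_eq_zero; omega
      · apply List.eq_nil_of_length_eq_zero; omega
    have hprod : E τ (S i) (val l * a) * c * E τ (S i) (b * val l') = 0 := by
      by_cases hl0 : l = []
      · have hl0' : l' ≠ [] := fun h' => h1 ⟨hl0, h'⟩
        rw [(hE i).left b hb, E_word h S hf i (hW i) l' hl' hl0' ?_, mul_zero, mul_zero]
        intro x hx
        exact hi' (i, x) (by rw [hx]; rfl) rfl
      · rw [(hE i).right a ha, E_word h S hf i (hW i) l hl hl0 ?_, zero_mul, zero_mul, zero_mul]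
        intro x hx
        exact hi (i, x) (by rw [hx]; rfl) rfl
    rw [hprod, sub_zero, hsplit, (hE i).add, (hE i).smul, hEw, add_zero]

end Pool.Agent.H467F
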