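import Pool.Agent.Helper467.FP.Defs

set_option autoImplicit false

open scoped ComplexOrder Topology InnerProductSpace
open Filter

namespace Pool.Agent.H467F

universe u v w

variable {M : Type u} [CStarAlgebra M] {τ : M →ₗ[ℂ] ℂ}

theorem word_span {M : Type u} [CStarAlgebra M] {τ : M →ₗ[ℂ] ℂ} (h : TW τ) {ι : Type v}
    (S : ι → StarSubalgebra ℂ M) (x : M) (hx : x ∈ Gen S) :
    x ∈ Submodule.span ℂ {y : M | ∃ l, IsWord τ S l ∧ y = val l} := by
  classical
  set W : Submodule ℂ M := Submodule.span ℂ {y : M | ∃ l, IsWord τ S l ∧ y = val l} with hW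
  have h1 : (1:M) ∈ W :=
    Submodule.subset_span ⟨[], ⟨List.isChain_nil, by simp⟩, by simp [val]⟩
  have aux : ∀ (i : ι) (c : M), c ∈ S i → ∀ l : List (ι × M), IsWord τ S l →
      (∀ p ∈ l.head?, i ≠ p.1) → c * val l ∈ W := by
    intro i c hc l hl hh
    have e : c * val l = τ c • val l + val ((i, c - τ c • (1:M)) :: l) := by
      simp [val, sub_mul]
    rw [e]
    refine W.add_mem (W.smul_mem _ (Submodule.subset_span ⟨l, hl, rfl⟩))
      (Submodule.subset_span ⟨_, ⟨?_, ?_⟩, rfl⟩)
    · rw [List.isChain_cons]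
      exact ⟨fun p hp => hh p hp, hl.1⟩
    · intro p hp
      rcases List.mem_cons.1 hp with rfl | hp
      · exact ⟨sub_mem hc ((S i).smul_mem (one_mem _) _), by simp [h.one]⟩
      · exact hl.2 p hp
  have key : ∀ (i : ι) (a : M), a ∈ S i → ∀ l : List (ι × M), IsWord τ S l → a * val l ∈ W := by
    intro i a ha l hl
    cases l with
    | nil => exact aux i a ha [] hl (by simp)
    | cons q l' =>
      obtain ⟨j, b⟩ := q
      by_cases hij : i = j
      · subst hij
        have hb := (hl.2 (i, b) (by simp)).1
        have hl' : IsWord τ S l' := by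
          refine ⟨(List.isChain_cons.1 hl.1).2, fun p hp => hl.2 p (List.mem_cons_of_mem _ hp)⟩
        have e : a * val ((i, b) :: l') = (a * b) * val l' := by
          simp [val, mul_assoc]
        rw [e]
        exact aux i (a * b) (mul_mem ha hb) l' hl' (List.isChain_cons.1 hl.1).1
      · exact aux i a ha _ hl (by simpa using hij)
  have key2 : ∀ (i : ι) (a : M), a ∈ S i → ∀ w ∈ W, a * w ∈ W := by
    intro i a ha w hw
    induction hw using Submodule.span_induction with
    | mem y hy => obtain ⟨l, hl, rfl⟩ := hy; exact key i a ha l hl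
    | zero => simp
    | add y z _ _ hy hz => rw [mul_add]; exact W.add_mem hy hz
    | smul c y _ hy => rw [mul_smul_comm]; exact W.smul_mem _ hy
  have key3 : ∀ w ∈ W, x * w ∈ W := by
    have hx' : x ∈ Algebra.adjoin ℂ ((⋃ i, (S i : Set M)) ∪ star (⋃ i, (S i : Set M))) := hx
    clear hx
    induction hx' using Algebra.adjoin_induction with
    | mem y hy =>
      rcases hy with hy | hy
      · obtain ⟨i, hi⟩ := Set.mem_iUnion.1 hy
        exact key2 i y hi
      · obtain ⟨i, hi⟩ := Set.mem_iUnion.1 (Set.mem_star.1 hy)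
        exact key2 i y (by simpa using star_mem (s := S i) hi)
    | algebraMap r => intro w hw; rw [← Algebra.smul_def]; exact W.smul_mem _ hw
    | add y z _ _ hy hz =>
      intro w hw
      rw [add_mul]
      exact W.add_mem (hy w hw) (hz w hw)
    | mul y z _ _ hy hz =>
      intro w hw
      rw [mul_assoc]
      exact hy _ (hz w hw)
  simpa using key3 1 h1

end Pool.Agent.H467F
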