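import Pool.Agent.Helper467.FP.Defs
import Pool.Agent.Helper467.FP.P_word_span

set_option autoImplicit false

open scoped ComplexOrder Topology InnerProductSpace
open Filter

namespace Pool.Agent.H467F

universe u v w

variable {M : Type u} [CStarAlgebra M] {τ : M →ₗ[ℂ] ℂ}

theorem word_left {M : Type u} [CStarAlgebra M] {τ : M →ₗ[ℂ] ℂ} (h : TW τ) {ι : Type v}
    (S : ι → StarSubalgebra ℂ M) (i : ι) (x : M) (hx : x ∈ Gen S) :
    x ∈ Submodule.span ℂ {y : M | ∃ l a, IsWord τ S l ∧ (∀ p ∈ l.head?, p.1 ≠ i) ∧ a ∈ S i ∧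
      y = a * val l} := by
  refine (Submodule.span_le.2 ?_) (word_span h S x hx)
  rintro y ⟨l, hl, rfl⟩
  rcases l with _ | ⟨⟨j, m⟩, l'⟩
  · refine Submodule.subset_span ⟨[], 1, hl, by simp, one_mem _, by simp⟩
  · by_cases hj : j = i
    · subst hj
      refine Submodule.subset_span ⟨l', m, ⟨hl.1.tail,
        fun p hp => hl.2 p (List.mem_cons_of_mem _ hp)⟩, ?_, (hl.2 _ List.mem_cons_self).1, ?_⟩
      · intro p hp
        cases l' with
        | nil => simp at hp
        | cons q l'' =>
          simp at hp
          subst hp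
          have h1 := hl.1
          rw [List.isChain_cons_cons] at h1
          exact fun e => h1.1 e.symm
      · simp [val]
    · refine Submodule.subset_span ⟨(j, m) :: l', 1, hl, ?_, one_mem _, by simp⟩
      intro p hp
      simp at hp
      subst hp
      exact hj

end Pool.Agent.H467F
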