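import Pool.Agent.Helper467.FP.Defs
import Pool.Agent.Helper467.FP.P_word_span

set_option autoImplicit false

open scoped ComplexOrder Topology InnerProductSpace
open Filter

namespace Pool.Agent.H467F

universe u v w

variable {M : Type u} [CStarAlgebra M] {τ : M →ₗ[ℂ] ℂ}

theorem word_right {M : Type u} [CStarAlgebra M] {τ : M →ₗ[ℂ] ℂ} (h : TW τ) {ι : Type v}
    (S : ι → StarSubalgebra ℂ M) (i : ι) (x : M) (hx : x ∈ Gen S) :
    x ∈ Submodule.span ℂ {y : M | ∃ l a, IsWord τ S l ∧ (∀ p ∈ l.getLast?, p.1 ≠ i) ∧ a ∈ S i ∧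
      y = val l * a} := by
  have h1 := word_span h S x hx
  refine (Submodule.span_le.2 ?_) h1
  rintro y ⟨l, hl, rfl⟩
  apply Submodule.subset_span
  rcases List.eq_nil_or_concat l with rfl | ⟨l', ⟨j, b⟩, rfl⟩
  · exact ⟨[], 1, hl, by simp, one_mem _, by simp⟩
  · rw [List.concat_eq_append] at hl ⊢
    by_cases hj : j = i
    · subst hj
      refine ⟨l', b, ⟨?_, ?_⟩, ?_, ?_, ?_⟩
      · exact (List.isChain_append.1 hl.1).1
      · intro p hp
        exact hl.2 p (List.mem_append_left _ hp)
      · intro p hp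
        exact (List.isChain_append.1 hl.1).2.2 p hp (j, b) (by simp)
      · exact (hl.2 (j, b) (by simp)).1
      · simp [val]
    · refine ⟨l' ++ [(j, b)], 1, hl, ?_, one_mem _, by simp⟩
      intro p hp
      rw [List.getLast?_append] at hp
      simp at hp
      rw [← hp]
      exact hj

end Pool.Agent.H467F
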