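import Pool.Agent.Helper467.FP.Defs
import Pool.Agent.Helper467.FP.P_n2_mul_le
import Pool.Agent.Helper467.FP.P_tau_bounds
import Pool.Agent.Helper467.FP.P_ep
import Pool.Agent.Helper467.FP.P_E_contr
import Pool.Agent.Helper467.FP.P_word_right
import Pool.Agent.Helper467.FP.P_word_left
import Pool.Agent.Helper467.FP.P_mix_word

set_option autoImplicit false

open scoped ComplexOrder Topology InnerProductSpace
open Filter

namespace Pool.Agent.H467F

universe u v w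

variable {M : Type u} [CStarAlgebra M] {τ : M →ₗ[ℂ] ℂ}

/-- the defect -/
noncomputable def mixq (τ : M →ₗ[ℂ] ℂ) (S : StarSubalgebra ℂ M) (a y z : M) : M :=
  E τ S (y * a * z) - E τ S y * a * E τ S z

theorem mixq_add_left {S : StarSubalgebra ℂ M} (P : EP τ S) (a y y' z : M) :
    mixq τ S a (y + y') z = mixq τ S a y z + mixq τ S a y' z := by
  unfold mixq
  rw [add_mul, add_mul, P.add, P.add, add_mul, add_mul]
  abel

theorem mixq_add_right {S : StarSubalgebra ℂ M} (P : EP τ S) (a y z z' : M) :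
    mixq τ S a y (z + z') = mixq τ S a y z + mixq τ S a y z' := by
  unfold mixq
  rw [mul_add, P.add, P.add, mul_add]
  abel

theorem mixq_smul_left {S : StarSubalgebra ℂ M} (P : EP τ S) (c : ℂ) (a y z : M) :
    mixq τ S a (c • y) z = c • mixq τ S a y z := by
  unfold mixq
  rw [smul_mul_assoc, smul_mul_assoc, P.smul, P.smul, smul_mul_assoc, smul_mul_assoc, smul_sub]

theorem mixq_smul_right {S : StarSubalgebra ℂ M} (P : EP τ S) (c : ℂ) (a y z : M) :
    mixq τ S a y (c • z) = c • mixq τ S a y z := by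
  unfold mixq
  rw [mul_smul_comm, P.smul, P.smul, mul_smul_comm, smul_sub]

theorem mixq_zero_left {S : StarSubalgebra ℂ M} (P : EP τ S) (a z : M) :
    mixq τ S a 0 z = 0 := by
  have := mixq_smul_left P (0 : ℂ) a 0 z
  rwa [zero_smul, zero_smul] at this

theorem mixq_zero_right {S : StarSubalgebra ℂ M} (P : EP τ S) (a y : M) :
    mixq τ S a y 0 = 0 := by
  have := mixq_smul_right P (0 : ℂ) a y 0
  rwa [zero_smul, zero_smul] at this

theorem mixq_bound_left (h : TW τ) {S : StarSubalgebra ℂ M} (P : EP τ S)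
    (hE : ∀ x, ‖E τ S x‖ ≤ ‖x‖) (a y z : M) :
    n2 τ (mixq τ S a y z) ≤ 2 * (n2 τ y * ‖a‖ * ‖z‖) := by
  have h1 : n2 τ (E τ S (y * a * z)) ≤ n2 τ y * ‖a‖ * ‖z‖ := by
    calc n2 τ (E τ S (y * a * z)) ≤ n2 τ (y * a * z) := P.n2_le _
      _ ≤ n2 τ (y * a) * ‖z‖ := (n2_mul_le h z (y * a)).2
      _ ≤ n2 τ y * ‖a‖ * ‖z‖ := mul_le_mul_of_nonneg_right (n2_mul_le h a y).2 (norm_nonneg _)
  have h2 : n2 τ (E τ S y * a * E τ S z) ≤ n2 τ y * ‖a‖ * ‖z‖ := by
    calc n2 τ (E τ S y * a * E τ S z) ≤ n2 τ (E τ S y * a) * ‖E τ S z‖ :=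
          (n2_mul_le h (E τ S z) (E τ S y * a)).2
      _ ≤ (n2 τ (E τ S y) * ‖a‖) * ‖E τ S z‖ :=
          mul_le_mul_of_nonneg_right (n2_mul_le h a (E τ S y)).2 (norm_nonneg _)
      _ ≤ (n2 τ y * ‖a‖) * ‖E τ S z‖ :=
          mul_le_mul_of_nonneg_right (mul_le_mul_of_nonneg_right (P.n2_le y) (norm_nonneg _))
            (norm_nonneg _)
      _ ≤ (n2 τ y * ‖a‖) * ‖z‖ :=
          mul_le_mul_of_nonneg_left (hE z) (mul_nonneg (n2_nonneg _ _) (norm_nonneg _))
  have h3 := h.n2_sub_le (E τ S (y * a * z)) (E τ S y * a * E τ S z)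
  unfold mixq
  linarith

theorem mixq_bound_right (h : TW τ) {S : StarSubalgebra ℂ M} (P : EP τ S)
    (hE : ∀ x, ‖E τ S x‖ ≤ ‖x‖) (a y z : M) :
    n2 τ (mixq τ S a y z) ≤ 2 * (‖y‖ * ‖a‖ * n2 τ z) := by
  have h1 : n2 τ (E τ S (y * a * z)) ≤ ‖y‖ * ‖a‖ * n2 τ z := by
    calc n2 τ (E τ S (y * a * z)) ≤ n2 τ (y * a * z) := P.n2_le _
      _ = n2 τ (y * (a * z)) := by rw [mul_assoc]
      _ ≤ ‖y‖ * n2 τ (a * z) := (n2_mul_le h y (a * z)).1
      _ ≤ ‖y‖ * (‖a‖ * n2 τ z) := mul_le_mul_of_nonneg_left (n2_mul_le h a z).1 (norm_nonneg _)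
      _ = ‖y‖ * ‖a‖ * n2 τ z := by ring
  have h2 : n2 τ (E τ S y * a * E τ S z) ≤ ‖y‖ * ‖a‖ * n2 τ z := by
    calc n2 τ (E τ S y * a * E τ S z) = n2 τ (E τ S y * (a * E τ S z)) := by rw [mul_assoc]
      _ ≤ ‖E τ S y‖ * n2 τ (a * E τ S z) := (n2_mul_le h (E τ S y) (a * E τ S z)).1
      _ ≤ ‖y‖ * n2 τ (a * E τ S z) := mul_le_mul_of_nonneg_right (hE y) (n2_nonneg _ _)
      _ ≤ ‖y‖ * (‖a‖ * n2 τ (E τ S z)) :=
          mul_le_mul_of_nonneg_left (n2_mul_le h a (E τ S z)).1 (norm_nonneg _)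
      _ ≤ ‖y‖ * (‖a‖ * n2 τ z) :=
          mul_le_mul_of_nonneg_left (mul_le_mul_of_nonneg_left (P.n2_le z) (norm_nonneg _))
            (norm_nonneg _)
      _ = ‖y‖ * ‖a‖ * n2 τ z := by ring
  have h3 := h.n2_sub_le (E τ S (y * a * z)) (E τ S y * a * E τ S z)
  unfold mixq
  linarith

theorem mixq_tend_add (h : TW τ) (u v : ℕ → M) (hu : Tendsto (fun n => n2 τ (u n)) atTop (𝓝 0))
    (hv : Tendsto (fun n => n2 τ (v n)) atTop (𝓝 0)) :
    Tendsto (fun n => n2 τ (u n + v n)) atTop (𝓝 0) := by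
  have h1 := hu.add hv
  rw [add_zero] at h1
  exact squeeze_zero (fun n => n2_nonneg _ _) (fun n => h.n2_add_le _ _) h1

theorem mixq_tend_smul (c : ℂ) (u : ℕ → M) (hu : Tendsto (fun n => n2 τ (u n)) atTop (𝓝 0)) :
    Tendsto (fun n => n2 τ (c • u n)) atTop (𝓝 0) := by
  have h1 := hu.const_mul ‖c‖
  rw [mul_zero] at h1
  refine h1.congr (fun n => ?_)
  rw [n2_smul]

theorem mixq_gen {M : Type u} [CStarAlgebra M] {τ : M →ₗ[ℂ] ℂ} (h : TW τ) {ι : Type v}
    (S : ι → StarSubalgebra ℂ M) (hf : IsFree τ S) (hW : ∀ i, IsW τ (S i))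
    (i : ι) (a : ℕ → M) (ha : ∀ n, a n ∈ S i) (hn : WNull τ a) (y z : M)
    (hy : y ∈ Gen S) (hz : z ∈ Gen S) :
    Tendsto (fun n => n2 τ (mixq τ (S i) (a n) y z)) atTop (𝓝 0) := by
  have P := ep h (S i) (hW i)
  have hy' := word_right h S i y hy
  have hz' := word_left h S i z hz
  clear hy hz
  induction hy' using Submodule.span_induction with
  | mem y hy1 =>
    obtain ⟨l, a', hl, hi, ha', rfl⟩ := hy1
    induction hz' using Submodule.span_induction with
    | mem z hz1 =>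
      obtain ⟨l', b, hl', hi', hb, rfl⟩ := hz1
      have key := fun n => mix_word h S hf hW i l l' a' b (a n) hl hl' hi hi' ha' hb (ha n)
      by_cases hc : l = [] ∧ l' = []
      · have : ∀ n, mixq τ (S i) (a n) (val l * a') (b * val l') = 0 := by
          intro n
          unfold mixq
          rw [(key n).2.1 hc.1 hc.2, sub_self]
        simp only [this, n2_zero]
        exact tendsto_const_nhds
      · have h1 : ∀ n, mixq τ (S i) (a n) (val l * a') (b * val l') =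
            τ (a' * a n * b) • E τ (S i) (val l * val l') := by
          intro n
          unfold mixq
          exact (key n).2.2 hc
        have h2 : Tendsto (fun n => ‖τ (b * a' * a n)‖ * n2 τ (E τ (S i) (val l * val l'))) atTop (𝓝 0) := by
          have h3 := (hn.2 (b * a')).norm.mul_const (n2 τ (E τ (S i) (val l * val l')))
          rw [norm_zero, zero_mul] at h3
          exact h3
        refine h2.congr (fun n => ?_)
        rw [h1, n2_smul]
        congr 2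
        rw [h.comm (a' * a n) b, ← mul_assoc]
    | zero =>
      simp only [mixq_zero_right P, n2_zero]
      exact tendsto_const_nhds
    | add z1 z2 _ _ h1 h2 =>
      simp only [mixq_add_right P]
      exact mixq_tend_add h _ _ h1 h2
    | smul c z1 _ h1 =>
      simp only [mixq_smul_right P]
      exact mixq_tend_smul c _ h1
  | zero =>
    simp only [mixq_zero_left P, n2_zero]
    exact tendsto_const_nhds
  | add y1 y2 _ _ h1 h2 =>
    simp only [mixq_add_left P]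
    exact mixq_tend_add h _ _ h1 h2
  | smul c y1 _ h1 =>
    simp only [mixq_smul_left P]
    exact mixq_tend_smul c _ h1

theorem mix_eq {M : Type u} [CStarAlgebra M] {τ : M →ₗ[ℂ] ℂ} (h : TW τ) {ι : Type v}
    (S : ι → StarSubalgebra ℂ M) (hf : IsFree τ S) (hd : Dense2 τ S) (hW : ∀ i, IsW τ (S i))
    (i : ι) (a : ℕ → M) (ha : ∀ n, a n ∈ S i) (hn : WNull τ a) (y z : M) :
    Tendsto (fun n => n2 τ (E τ (S i) (y * a n * z) - E τ (S i) y * a n * E τ (S i) z))
      atTop (𝓝 0) := by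
  have P := ep h (S i) (hW i)
  have hE := fun x => E_contr h (S i) (hW i) x
  obtain ⟨C, hC⟩ := hn.1
  have hC0 : 0 ≤ C := (norm_nonneg _).trans (hC 0)
  rw [Metric.tendsto_atTop]
  intro ε hε
  obtain ⟨y0, hy0, hy0'⟩ := hd y (ε / (6 * (C * ‖z‖ + 1))) (by positivity)
  obtain ⟨z0, hz0, hz0'⟩ := hd z (ε / (6 * (‖y0‖ * C + 1))) (by positivity)
  have ht := mixq_gen h S hf hW i a ha hn y0 z0 hy0 hz0
  rw [Metric.tendsto_atTop] at ht
  obtain ⟨N, hN⟩ := ht (ε / 3) (by positivity)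
  refine ⟨N, fun n hnN => ?_⟩
  have h0 := hN n hnN
  rw [Real.dist_eq, sub_zero, abs_of_nonneg (n2_nonneg _ _)] at h0 ⊢
  have hdec : E τ (S i) (y * a n * z) - E τ (S i) y * a n * E τ (S i) z =
      mixq τ (S i) (a n) (y - y0) z + (mixq τ (S i) (a n) y0 (z - z0) + mixq τ (S i) (a n) y0 z0) := by
    rw [← mixq_add_right P, sub_add_cancel, ← mixq_add_left P, sub_add_cancel]
    rfl
  rw [hdec]
  have b1 : n2 τ (mixq τ (S i) (a n) (y - y0) z) < ε / 3 := by
    have h1 := mixq_bound_left h P hE (a n) (y - y0) z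
    have h2 : n2 τ (y - y0) * ‖a n‖ * ‖z‖ ≤ n2 τ (y - y0) * (C * ‖z‖) := by
      rw [mul_assoc]
      exact mul_le_mul_of_nonneg_left (mul_le_mul_of_nonneg_right (hC n) (norm_nonneg _)) (n2_nonneg _ _)
    have hD : 0 < C * ‖z‖ + 1 := by positivity
    have h3 : n2 τ (y - y0) * (C * ‖z‖ + 1) < ε / 6 := by
      calc n2 τ (y - y0) * (C * ‖z‖ + 1) < ε / (6 * (C * ‖z‖ + 1)) * (C * ‖z‖ + 1) :=
            mul_lt_mul_of_pos_right hy0' hD
        _ = ε / 6 := by field_simp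
    have h4 := n2_nonneg τ (y - y0)
    nlinarith
  have b2 : n2 τ (mixq τ (S i) (a n) y0 (z - z0)) < ε / 3 := by
    have h1 := mixq_bound_right h P hE (a n) y0 (z - z0)
    have h2 : ‖y0‖ * ‖a n‖ * n2 τ (z - z0) ≤ ‖y0‖ * C * n2 τ (z - z0) :=
      mul_le_mul_of_nonneg_right (mul_le_mul_of_nonneg_left (hC n) (norm_nonneg _)) (n2_nonneg _ _)
    have hD : 0 < ‖y0‖ * C + 1 := by positivity
    have h3 : n2 τ (z - z0) * (‖y0‖ * C + 1) < ε / 6 := by
      calc n2 τ (z - z0) * (‖y0‖ * C + 1) < ε / (6 * (‖y0‖ * C + 1)) * (‖y0‖ * C + 1) :=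
            mul_lt_mul_of_pos_right hz0' hD
        _ = ε / 6 := by field_simp
    have h4 := n2_nonneg τ (z - z0)
    nlinarith
  have t1 := h.n2_add_le (mixq τ (S i) (a n) (y - y0) z)
    (mixq τ (S i) (a n) y0 (z - z0) + mixq τ (S i) (a n) y0 z0)
  have t2 := h.n2_add_le (mixq τ (S i) (a n) y0 (z - z0)) (mixq τ (S i) (a n) y0 z0)
  linarith

end Pool.Agent.H467F
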