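import Pool.Agent.Helper467.FP.Defs
import Pool.Agent.Helper467.FP.P_n2_mul_le
import Pool.Agent.Helper467.FP.P_tau_bounds
import Pool.Agent.Helper467.FP.P_ep
import Pool.Agent.Helper467.FP.P_E_contr
import Pool.Agent.Helper467.FP.P_mix_eq

set_option autoImplicit false

open scoped ComplexOrder Topology InnerProductSpace
open Filter

namespace Pool.Agent.H467F

universe u v w

variable {M : Type u} [CStarAlgebra M] {τ : M →ₗ[ℂ] ℂ}

theorem D_mem_null {M : Type u} [CStarAlgebra M] {τ : M →ₗ[ℂ] ℂ} (h : TW τ)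
    (S : StarSubalgebra ℂ M) (P : EP τ S) (a : ℕ → M) (hn : WNull τ a) (c y : M) :
    WNull τ (fun n => star (E τ S (c * (a n * y)))) := by
  obtain ⟨⟨C, hC⟩, hn2⟩ := hn
  refine ⟨⟨2 * (‖c‖ * (C * ‖y‖)), fun n => ?_⟩, fun x => ?_⟩
  · rw [norm_star]
    refine (P.norm_le _).trans ?_
    have h1 : ‖c * (a n * y)‖ ≤ ‖c‖ * (‖a n‖ * ‖y‖) :=
      (norm_mul_le _ _).trans (mul_le_mul_of_nonneg_left (norm_mul_le _ _) (norm_nonneg _))
    have h2 : ‖c‖ * (‖a n‖ * ‖y‖) ≤ ‖c‖ * (C * ‖y‖) :=
      mul_le_mul_of_nonneg_left (mul_le_mul_of_nonneg_right (hC n) (norm_nonneg _)) (norm_nonneg _)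
    linarith
  · have key : ∀ n, τ (x * star (E τ S (c * (a n * y)))) =
        star (τ ((y * E τ S (star x) * c) * a n)) := by
      intro n
      have e1 : x * star (E τ S (c * (a n * y))) = star (E τ S (c * (a n * y)) * star x) := by
        rw [star_mul, star_star]
      rw [e1, h.conj]
      congr 1
      rw [← P.trace (E τ S (c * (a n * y)) * star x), P.left _ (P.mem _), ← P.right _ (P.mem _),
        P.trace, h.comm (y * E τ S (star x) * c) (a n)]
      have e2 : c * (a n * y) * E τ S (star x) = c * (a n * (y * E τ S (star x))) := by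
        simp only [mul_assoc]
      rw [e2, h.comm c]
      simp only [mul_assoc]
    have h3 := (hn2 (y * E τ S (star x) * c)).star
    rw [star_zero] at h3
    exact h3.congr (fun n => (key n).symm)

theorem D_mem_term {M : Type u} [CStarAlgebra M] {τ : M →ₗ[ℂ] ℂ} (h : TW τ) {ι : Type v}
    (R : ι → StarSubalgebra ℂ M) (hf : IsFree τ R) (hd : Dense2 τ R) (hW : ∀ i, IsW τ (R i))
    (j : ι) (a : ℕ → M) (hn : WNull τ a) (c c' y z hh e : M) (he : E τ (R j) e = 0) :
    Tendsto (fun n => τ (star e * (star (E τ (R j) (c * (a n * y))) * hh * E τ (R j) (c' * (a n * z)))))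
      atTop (𝓝 0) := by
  have P := ep h (R j) (hW j)
  have hnull := D_mem_null h (R j) P a hn c y
  obtain ⟨⟨C, hC⟩, hn2⟩ := hn
  have hm := mix_eq h R hf hd hW j (fun n => star (E τ (R j) (c * (a n * y))))
    (fun n => star_mem (P.mem _)) hnull (star e) hh
  have he' : E τ (R j) (star e) = 0 := by rw [P.star, he, star_zero]
  simp only [he', zero_mul, sub_zero] at hm
  have hm2 := hm.mul_const (‖c'‖ * (C * ‖z‖))
  rw [zero_mul] at hm2
  refine squeeze_zero_norm (fun n => ?_) hm2
  have e1 : star e * (star (E τ (R j) (c * (a n * y))) * hh * E τ (R j) (c' * (a n * z))) =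
      (star e * star (E τ (R j) (c * (a n * y))) * hh) * E τ (R j) (c' * (a n * z)) := by
    simp only [mul_assoc]
  rw [e1, ← P.trace, P.right _ (P.mem _)]
  refine (h.cauchy' _ _).trans ?_
  refine mul_le_mul_of_nonneg_left ?_ (n2_nonneg _ _)
  refine (P.n2_le _).trans ?_
  refine ((tau_bounds h).2 _).trans ?_
  exact (norm_mul_le _ _).trans (mul_le_mul_of_nonneg_left
    ((norm_mul_le _ _).trans (mul_le_mul_of_nonneg_right (hC n) (norm_nonneg _))) (norm_nonneg _))

theorem D_mem_alg {M : Type u} [CStarAlgebra M] (e u v u0 v0 : M) :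
    star e * (star u * v) = star (u * e) * (v - v0) + star ((u - u0) * e) * v0 +
      star e * (star u0 * v0) := by
  rw [star_mul, star_mul, star_sub]
  noncomm_ring

theorem D_mem {M : Type u} [CStarAlgebra M] {τ : M →ₗ[ℂ] ℂ} (h : TW τ) {ι : Type v}
    (R : ι → StarSubalgebra ℂ M) (hf : IsFree τ R) (hd : Dense2 τ R) (hW : ∀ i, IsW τ (R i))
    (j : ι) (S : StarSubalgebra ℂ M) (p : M) (hp : star p = p) (D : M → M)
    (hD : Intw τ S (R j) p D) (a : ℕ → M) (ha : ∀ n, UC S p (a n)) (hn : WNull τ a) (y z : M) :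
    star (D y) * D z ∈ R j := by
  have P := ep h (R j) (hW j)
  set w : M := star (D y) * D z with hw
  set e : M := w - E τ (R j) w with he
  have hEe : E τ (R j) e = 0 := by
    rw [he, P.sub, P.of_mem _ (P.mem _), sub_self]
  obtain ⟨B, hB⟩ := hD.bdd
  have hB' : ∀ z, ‖D z‖ ≤ |B| * ‖z‖ := fun z =>
    (hB z).trans (mul_le_mul_of_nonneg_right (le_abs_self B) (norm_nonneg _))
  obtain ⟨C, hC⟩ := hn.1
  have hC0 : 0 ≤ C := (norm_nonneg _).trans (hC 0)
  have hn2 := hn.2
  have hwn : ∀ n, w = star (D (a n * y)) * D (a n * z) := by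
    intro n
    rw [hD.left _ (ha n), hD.left _ (ha n), star_mul]
    have : star (D y) * star (a n) * (a n * D z) = star (D y) * (star (a n) * a n * D z) := by
      simp only [mul_assoc]
    rw [this, (ha n).2.1, hD.pl]
  have hmain : τ (star e * w) = 0 := by
    set K : ℝ := C * ‖y‖ * ‖e‖ * (2 * |B| * (C * ‖z‖) + C * ‖z‖) with hK
    have hK0 : 0 ≤ K := by positivity
    have hle : ∀ δ : ℝ, 0 < δ → δ ≤ 1 → ‖τ (star e * w)‖ ≤ K * δ := by
      intro δ hδ hδ1
      obtain ⟨m, x, yy, happ⟩ := hD.approx δ hδ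
      set D0 : M → M := fun z => ∑ k, x k * E τ (R j) (yy k * z) with hD0
      have happ' : ∀ z, n2 τ (D z - D0 z) ≤ δ * ‖z‖ := happ
      have hT : Tendsto (fun n => τ (star e * (star (D0 (a n * y)) * D0 (a n * z)))) atTop (𝓝 0) := by
        have hsum : ∀ n, τ (star e * (star (D0 (a n * y)) * D0 (a n * z))) =
            ∑ k, ∑ l, τ (star e * (star (E τ (R j) (yy k * (a n * y))) * (star (x k) * x l) *
              E τ (R j) (yy l * (a n * z)))) := by
          intro n
          simp only [hD0]
          rw [star_sum, Finset.sum_mul, Finset.mul_sum, map_sum]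
          refine Finset.sum_congr rfl fun k _ => ?_
          rw [Finset.mul_sum, Finset.mul_sum, map_sum]
          refine Finset.sum_congr rfl fun l _ => ?_
          rw [star_mul]
          simp only [mul_assoc]
        have h0 : Tendsto (fun n => ∑ k, ∑ l, τ (star e * (star (E τ (R j) (yy k * (a n * y))) *
            (star (x k) * x l) * E τ (R j) (yy l * (a n * z))))) atTop
            (𝓝 (∑ _k : Fin m, ∑ _l : Fin m, (0 : ℂ))) := by
          refine tendsto_finsetSum _ fun k _ => tendsto_finsetSum _ fun l _ => ?_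
          exact D_mem_term h R hf hd hW j a hn (yy k) (yy l) y z (star (x k) * x l) e hEe
        simp only [Finset.sum_const_zero] at h0
        exact h0.congr (fun n => (hsum n).symm)
      have hbound : ∀ n, ‖τ (star e * w)‖ ≤
          K * δ + ‖τ (star e * (star (D0 (a n * y)) * D0 (a n * z)))‖ := by
        intro n
        have hy : ‖a n * y‖ ≤ C * ‖y‖ :=
          (norm_mul_le _ _).trans (mul_le_mul_of_nonneg_right (hC n) (norm_nonneg _))
        have hz : ‖a n * z‖ ≤ C * ‖z‖ :=
          (norm_mul_le _ _).trans (mul_le_mul_of_nonneg_right (hC n) (norm_nonneg _))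
        set u := D (a n * y) with hu
        set v := D (a n * z) with hv
        set u0 := D0 (a n * y) with hu0
        set v0 := D0 (a n * z) with hv0
        have e1 : star e * w = star (u * e) * (v - v0) + star ((u - u0) * e) * v0 +
            star e * (star u0 * v0) := by
          rw [← D_mem_alg e u v u0 v0, ← hwn n]
        have hu1 : ‖u‖ ≤ |B| * (C * ‖y‖) :=
          (hB' _).trans (mul_le_mul_of_nonneg_left hy (abs_nonneg _))
        have hv1 : ‖v‖ ≤ |B| * (C * ‖z‖) :=
          (hB' _).trans (mul_le_mul_of_nonneg_left hz (abs_nonneg _))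
        have hud : n2 τ (u - u0) ≤ δ * (C * ‖y‖) :=
          (happ' _).trans (mul_le_mul_of_nonneg_left hy hδ.le)
        have hvd : n2 τ (v - v0) ≤ δ * (C * ‖z‖) :=
          (happ' _).trans (mul_le_mul_of_nonneg_left hz hδ.le)
        have hv0n : n2 τ v0 ≤ |B| * (C * ‖z‖) + C * ‖z‖ := by
          have t1 := h.n2_sub_le v (v - v0)
          rw [sub_sub_cancel] at t1
          have t2 := (tau_bounds h).2 v
          have t3 : δ * (C * ‖z‖) ≤ C * ‖z‖ := by
            have : 0 ≤ C * ‖z‖ := by positivity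
            nlinarith
          linarith
        have hue : n2 τ (u * e) ≤ |B| * (C * ‖y‖) * ‖e‖ := by
          refine ((n2_mul_le h e u).2).trans ?_
          exact mul_le_mul_of_nonneg_right (((tau_bounds h).2 u).trans hu1) (norm_nonneg _)
        have hude : n2 τ ((u - u0) * e) ≤ δ * (C * ‖y‖) * ‖e‖ := by
          refine ((n2_mul_le h e (u - u0)).2).trans ?_
          exact mul_le_mul_of_nonneg_right hud (norm_nonneg _)
        have i1 : ‖τ (star (u * e) * (v - v0))‖ ≤
            (|B| * (C * ‖y‖) * ‖e‖) * (δ * (C * ‖z‖)) :=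
          (h.cauchy _ _).trans (mul_le_mul hue hvd (n2_nonneg _ _) (by positivity))
        have i2 : ‖τ (star ((u - u0) * e) * v0)‖ ≤
            (δ * (C * ‖y‖) * ‖e‖) * (|B| * (C * ‖z‖) + C * ‖z‖) :=
          (h.cauchy _ _).trans (mul_le_mul hude hv0n (n2_nonneg _ _) (by positivity))
        have i3 : ‖τ (star e * w)‖ ≤ ‖τ (star (u * e) * (v - v0))‖ +
            ‖τ (star ((u - u0) * e) * v0)‖ + ‖τ (star e * (star u0 * v0))‖ := by
          rw [e1, map_add, map_add]
          exact norm_add₃_le
        have i4 : (|B| * (C * ‖y‖) * ‖e‖) * (δ * (C * ‖z‖)) +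
            (δ * (C * ‖y‖) * ‖e‖) * (|B| * (C * ‖z‖) + C * ‖z‖) = K * δ := by
          rw [hK]; ring
        linarith
      have hlim : Tendsto (fun n => K * δ + ‖τ (star e * (star (D0 (a n * y)) * D0 (a n * z)))‖)
          atTop (𝓝 (K * δ + ‖(0 : ℂ)‖)) := hT.norm.const_add _
      rw [norm_zero, add_zero] at hlim
      exact ge_of_tendsto' hlim hbound
    by_contra hne
    have hpos : 0 < ‖τ (star e * w)‖ := norm_pos_iff.2 hne
    set N := ‖τ (star e * w)‖ with hN
    have h1 : 0 < N / (2 * (K + N)) := by positivity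
    have h2 : N / (2 * (K + N)) ≤ 1 := by
      rw [div_le_one (by positivity)]; linarith
    have h3 := hle _ h1 h2
    have h4 : K * (N / (2 * (K + N))) ≤ N / 2 := by
      rw [mul_div_assoc', div_le_div_iff₀ (by positivity) (by positivity)]
      nlinarith
    linarith
  have h5 : τ (star e * E τ (R j) w) = 0 := by
    have h6 := P.orth w (star (E τ (R j) w)) (star_mem (P.mem w))
    have h7 : star e * E τ (R j) w = star (star (E τ (R j) w) * e) := by
      rw [star_mul, star_star]
    rw [h7, h.conj, he, h6, star_zero]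
  have h8 : τ (star e * e) = 0 := by
    have : star e * e = star e * w - star e * E τ (R j) w := by
      rw [← mul_sub]
    rw [this, map_sub, hmain, h5, sub_zero]
  have h9 : e = 0 := h.faithful e h8
  have h10 : w = E τ (R j) w := sub_eq_zero.1 h9
  rw [h10]
  exact P.mem w

end Pool.Agent.H467F
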