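import Pool.Agent.Helper467.FP.Defs
import Pool.Agent.Helper467.FP.P_tau_bounds
import Pool.Agent.Helper467.FP.P_isClosed_of_isW
import Pool.Agent.Helper467.FP.P_ep
import Pool.Agent.Helper467.FP.P_E_contr

set_option autoImplicit false

open scoped ComplexOrder Topology InnerProductSpace
open Filter

namespace Pool.Agent.H467F

universe u v w

variable {M : Type u} [CStarAlgebra M] {τ : M →ₗ[ℂ] ℂ}

theorem ecp_sum {M : Type u} [CStarAlgebra M] (τ : M →ₗ[ℂ] ℂ) (n : ℕ) (z : Fin n → M) :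
    ∑ k, ∑ l, τ (star (z l) * z k) = τ (star (∑ k, z k) * ∑ k, z k) := by
  rw [star_sum, Finset.sum_mul_sum, map_sum, Finset.sum_comm]
  apply Finset.sum_congr rfl
  intro l _
  rw [map_sum]

theorem ecp_entry {M : Type u} [CStarAlgebra M] {n : ℕ} (B : CStarMatrix (Fin n) (Fin n) M)
    (i j : Fin n) : (star B * B) i j = ∑ k, star (B k i) * B k j := by
  rw [CStarMatrix.mul_apply]
  rfl

theorem ecp_tr_nonneg {M : Type u} [CStarAlgebra M] {τ : M →ₗ[ℂ] ℂ} (h : TW τ) {n : ℕ}
    (B : CStarMatrix (Fin n) (Fin n) M) : 0 ≤ ∑ m, τ ((star B * B) m m) := by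
  apply Finset.sum_nonneg
  intro m _
  rw [ecp_entry, map_sum]
  exact Finset.sum_nonneg (fun k _ => h.nonneg _)

theorem ecp_tr_zero {M : Type u} [CStarAlgebra M] {τ : M →ₗ[ℂ] ℂ} (h : TW τ) {n : ℕ}
    (B : CStarMatrix (Fin n) (Fin n) M) (h0 : ∑ m, τ ((star B * B) m m) = 0) : B = 0 := by
  have h1 : ∀ m, 0 ≤ τ ((star B * B) m m) := by
    intro m
    rw [ecp_entry, map_sum]
    exact Finset.sum_nonneg (fun k _ => h.nonneg _)
  have h2 := (Finset.sum_eq_zero_iff_of_nonneg (fun m _ => h1 m)).1 h0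
  apply CStarMatrix.ext
  intro k m
  have h3 := h2 m (Finset.mem_univ m)
  rw [ecp_entry, map_sum] at h3
  have h4 := (Finset.sum_eq_zero_iff_of_nonneg (fun k _ => h.nonneg (B k m))).1 h3 k
    (Finset.mem_univ k)
  exact h.faithful _ h4

/-- matrices with entries in `S` -/
noncomputable def ecpS {M : Type u} [CStarAlgebra M] (S : StarSubalgebra ℂ M) (n : ℕ) :
    StarSubalgebra ℂ (CStarMatrix (Fin n) (Fin n) M) where
  carrier := {A | ∀ i j, A i j ∈ S}
  mul_mem' := by
    intro A B hA hB i j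
    rw [CStarMatrix.mul_apply]
    exact sum_mem (fun k _ => mul_mem (hA i k) (hB k j))
  one_mem' := by
    intro i j
    rw [CStarMatrix.one_apply]
    split_ifs
    · exact one_mem S
    · exact zero_mem S
  add_mem' := by
    intro A B hA hB i j
    rw [CStarMatrix.add_apply]
    exact add_mem (hA i j) (hB i j)
  zero_mem' := by
    intro i j
    exact zero_mem S
  algebraMap_mem' := by
    intro c i j
    rw [CStarMatrix.algebraMap_apply]
    split_ifs
    · exact algebraMap_mem S c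
    · exact zero_mem S
  star_mem' := by
    intro A hA i j
    exact star_mem (hA j i)

theorem ecp_mem {M : Type u} [CStarAlgebra M] (S : StarSubalgebra ℂ M) (n : ℕ)
    (A : CStarMatrix (Fin n) (Fin n) M) : A ∈ ecpS S n ↔ ∀ i j, A i j ∈ S := Iff.rfl

theorem ecp_abs {A : Type*} [CStarAlgebra A] (s : StarSubalgebra ℂ A)
    (hs : IsClosed (s : Set A)) (X : A) (hX : IsSelfAdjoint X) (hXs : X ∈ s) :
    ∃ N K : A, N ∈ s ∧ star N = N ∧ N = star K * K ∧ X * N = -(N * N) ∧
      (N = 0 → ∃ Y, X = star Y * Y) := by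
  letI : PartialOrder A := CStarAlgebra.spectralOrder A
  haveI : StarOrderedRing A := CStarAlgebra.spectralOrderedRing A
  have h0 : 0 ≤ X⁻ := CFC.negPart_nonneg X
  obtain ⟨K, hK⟩ := CStarAlgebra.nonneg_iff_eq_star_mul_self.1 h0
  refine ⟨X⁻, K, ?_, h0.isSelfAdjoint.star_eq, hK, ?_, ?_⟩
  · rw [CFC.negPart_def]
    exact cfcₙ_mem (hs := hs) (𝕜' := ℂ) _ hXs
  · have h1 := CFC.posPart_sub_negPart X hX
    calc X * X⁻ = (X⁺ - X⁻) * X⁻ := by rw [h1]
      _ = -(X⁻ * X⁻) := by rw [sub_mul, CFC.posPart_mul_negPart, zero_sub]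
  · intro hN
    exact CStarAlgebra.nonneg_iff_eq_star_mul_self.1 ((CFC.negPart_eq_zero_iff X hX).1 hN)

/-- positivity of the test expression -/
theorem ecp_test {M : Type u} [CStarAlgebra M] {τ : M →ₗ[ℂ] ℂ} (h : TW τ)
    (S : StarSubalgebra ℂ M) (hE : EP τ S) (n : ℕ) (x : Fin n → M)
    (X N : CStarMatrix (Fin n) (Fin n) M) (hX : ∀ l k, X l k = E τ S (star (x l) * x k))
    (hN : ∀ i j, N i j ∈ S) (hNs : ∀ i j, N i j = star (N j i)) :
    0 ≤ ∑ m, τ ((N * X * N) m m) := by
  apply Finset.sum_nonneg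
  intro m _
  have h1 : τ ((N * X * N) m m) = ∑ k, ∑ l, τ (star (x l * N l m) * (x k * N k m)) := by
    rw [CStarMatrix.mul_apply, map_sum]
    apply Finset.sum_congr rfl
    intro k _
    rw [CStarMatrix.mul_apply, Finset.sum_mul, map_sum]
    apply Finset.sum_congr rfl
    intro l _
    rw [hX, ← hE.left _ (hN m l), ← hE.right _ (hN k m), hE.trace, hNs m l, star_mul]
    congr 1
    noncomm_ring
  rw [h1, ecp_sum]
  exact h.nonneg _

theorem E_cp {M : Type u} [CStarAlgebra M] {τ : M →ₗ[ℂ] ℂ} (h : TW τ)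
    (S : StarSubalgebra ℂ M) (hS : IsW τ S) (n : ℕ) (x y : Fin n → M) :
    0 ≤ ∑ k, ∑ l, τ (star (y l) * E τ S (star (x l) * x k) * y k) := by
  have hE := ep h S hS
  have hcl := isClosed_of_isW h S hS
  letI : PartialOrder M := CStarAlgebra.spectralOrder M
  haveI : StarOrderedRing M := CStarAlgebra.spectralOrderedRing M
  set X : CStarMatrix (Fin n) (Fin n) M :=
    CStarMatrix.ofMatrix (fun l k => E τ S (star (x l) * x k)) with hXdef
  have hX : ∀ l k, X l k = E τ S (star (x l) * x k) := fun _ _ => rfl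
  have hXsa : IsSelfAdjoint X := by
    apply CStarMatrix.ext
    intro l k
    rw [CStarMatrix.star_apply, hX, hX, ← hE.star, star_mul, star_star]
  have hXS : X ∈ ecpS S n := by
    rw [ecp_mem]
    intro i j
    rw [hX]
    exact hE.mem _
  have hcont : ∀ i j : Fin n, Continuous (fun A : CStarMatrix (Fin n) (Fin n) M => A i j) := by
    intro i j
    apply LipschitzWith.continuous (K := 1)
    apply LipschitzWith.of_dist_le_mul
    intro A B
    rw [dist_eq_norm, dist_eq_norm, NNReal.coe_one, one_mul]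
    exact CStarMatrix.norm_entry_le_norm (M := A - B) (i := i) (j := j)
  have hclS : IsClosed ((ecpS S n : StarSubalgebra ℂ (CStarMatrix (Fin n) (Fin n) M)) :
      Set (CStarMatrix (Fin n) (Fin n) M)) := by
    have e : ((ecpS S n : StarSubalgebra ℂ (CStarMatrix (Fin n) (Fin n) M)) :
        Set (CStarMatrix (Fin n) (Fin n) M)) = ⋂ i : Fin n, ⋂ j : Fin n,
        (fun A : CStarMatrix (Fin n) (Fin n) M => A i j) ⁻¹' (S : Set M) := by
      ext A
      simp only [Set.mem_iInter, Set.mem_preimage]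
      exact Iff.rfl
    rw [e]
    exact isClosed_iInter fun i => isClosed_iInter fun j => hcl.preimage (hcont i j)
  obtain ⟨N, K, hNS, hNs, hNK, hXN, hfin⟩ := ecp_abs (ecpS S n) hclS X hXsa hXS
  have hN1 : ∀ i j, N i j = star (N j i) := by
    intro i j
    conv_lhs => rw [← hNs]
    rfl
  have htest := ecp_test h S hE n x X N hX hNS hN1
  have e1 : N * X * N = -(star (K * N) * (K * N)) := by
    calc N * X * N = -(N * (N * N)) := by rw [mul_assoc, hXN, mul_neg]
      _ = -(N * ((star K * K) * N)) := by rw [← hNK]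
      _ = -(star (K * N) * (K * N)) := by
        rw [star_mul, hNs]
        simp only [mul_assoc]
  have e2 : ∑ m, τ ((N * X * N) m m) = -∑ m, τ ((star (K * N) * (K * N)) m m) := by
    rw [e1, ← Finset.sum_neg_distrib]
    apply Finset.sum_congr rfl
    intro m _
    rw [← map_neg]
    rfl
  rw [e2] at htest
  have e3 : ∑ m, τ ((star (K * N) * (K * N)) m m) = 0 :=
    le_antisymm (neg_nonneg.1 htest) (ecp_tr_nonneg h _)
  have e4 : K * N = 0 := ecp_tr_zero h _ e3
  have e5 : N = 0 := by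
    have e6 : star N * N = 0 := by
      rw [hNs]
      nth_rewrite 1 [hNK]
      rw [mul_assoc, e4, mul_zero]
    exact CStarRing.star_mul_self_eq_zero_iff N |>.1 e6
  obtain ⟨Y, hY⟩ := hfin e5
  have e7 : ∑ k, ∑ l, τ (star (y l) * E τ S (star (x l) * x k) * y k) =
      ∑ m, ∑ k, ∑ l, τ (star (Y m l * y l) * (Y m k * y k)) := by
    have e8 : ∀ k l, τ (star (y l) * E τ S (star (x l) * x k) * y k) =
        ∑ m, τ (star (Y m l * y l) * (Y m k * y k)) := by
      intro k l
      have e9 : E τ S (star (x l) * x k) = ∑ m, star (Y m l) * Y m k := by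
        rw [← hX, hY, ecp_entry]
      rw [e9, Finset.mul_sum, Finset.sum_mul, map_sum]
      apply Finset.sum_congr rfl
      intro m _
      rw [star_mul]
      congr 1
      simp only [mul_assoc]
    simp only [e8]
    calc ∑ k, ∑ l, ∑ m, τ (star (Y m l * y l) * (Y m k * y k)) =
        ∑ k, ∑ m, ∑ l, τ (star (Y m l * y l) * (Y m k * y k)) :=
          Finset.sum_congr rfl (fun k _ => Finset.sum_comm)
      _ = _ := Finset.sum_comm
  rw [e7]
  apply Finset.sum_nonneg
  intro m _
  rw [ecp_sum]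
  exact h.nonneg _

end Pool.Agent.H467F
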