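import Pool.Agent.Helper467.FP.Defs
import Pool.Agent.Helper467.FP.P_n2_mul_le
import Pool.Agent.Helper467.FP.P_tau_bounds
import Pool.Agent.Helper467.FP.P_ep
import Pool.Agent.Helper467.FP.P_E_contr
import Pool.Agent.Helper467.FP.P_E_cp

set_option autoImplicit false

open scoped ComplexOrder Topology InnerProductSpace
open Filter

namespace Pool.Agent.H467F

universe u v w

variable {M : Type u} [CStarAlgebra M] {τ : M →ₗ[ℂ] ℂ}

theorem exists_sqrt_aux {M : Type u} [CStarAlgebra M] (z : M) :
    ∃ w : M, star w = w ∧ w * w = algebraMap ℝ M (‖z‖ ^ 2) - z * star z := by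
  letI := CStarAlgebra.spectralOrder M
  letI := CStarAlgebra.spectralOrderedRing M
  have h1 : z * star z ≤ algebraMap ℝ M (‖z‖ ^ 2) :=
    CStarAlgebra.mul_star_le_algebraMap_norm_sq
  have h2 : 0 ≤ algebraMap ℝ M (‖z‖ ^ 2) - z * star z := sub_nonneg.2 h1
  refine ⟨CFC.sqrt (algebraMap ℝ M (‖z‖ ^ 2) - z * star z), ?_, ?_⟩
  · exact (IsSelfAdjoint.of_nonneg (CFC.sqrt_nonneg _)).star_eq
  · exact CFC.sqrt_mul_sqrt_self _ h2

theorem E_schwarz {M : Type u} [CStarAlgebra M] {τ : M →ₗ[ℂ] ℂ} (h : TW τ)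
    (S : StarSubalgebra ℂ M) (hS : IsW τ S) (n : ℕ) (x y : Fin n → M) (z : M) :
    n2 τ (∑ k, x k * E τ S (y k * z)) ^ 2 ≤
      ‖z‖ ^ 2 * (∑ k, ∑ l, τ (star (y l) * E τ S (star (x l) * x k) * y k)).re := by
  have hE := ep h S hS
  obtain ⟨w, hws, hww⟩ := exists_sqrt_aux z
  -- the quadratic form
  have hcp : ∀ v : Fin n → M, 0 ≤ (∑ k, ∑ l, τ (star (v l) * E τ S (star (x l) * x k) * v k)).re :=
    fun v => (Complex.nonneg_iff.1 (E_cp h S hS n x v)).1
  set P : M := ∑ k, ∑ l, star (y l) * E τ S (star (x l) * x k) * y k with hP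
  have hQ : ∀ u : M, ∑ k, ∑ l, τ (star (y l * u) * E τ S (star (x l) * x k) * (y k * u))
      = τ (P * (u * star u)) := by
    intro u
    have h1 : τ (P * (u * star u)) = τ (star u * P * u) := by
      rw [← mul_assoc, h.comm (P * u) (star u), mul_assoc]
    rw [h1, hP, Finset.mul_sum, Finset.sum_mul, map_sum]
    refine Finset.sum_congr rfl fun k _ => ?_
    rw [Finset.mul_sum, Finset.sum_mul, map_sum]
    refine Finset.sum_congr rfl fun l _ => ?_
    congr 1
    rw [star_mul]
    simp only [mul_assoc]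
  have hτP : τ P = ∑ k, ∑ l, τ (star (y l) * E τ S (star (x l) * x k) * y k) := by
    rw [hP, map_sum]
    refine Finset.sum_congr rfl fun k _ => ?_
    rw [map_sum]
  rw [← hτP]
  -- step 3
  have h3 : (τ (P * (z * star z))).re ≤ ‖z‖ ^ 2 * (τ P).re := by
    have h4 := hcp (fun k => y k * w)
    rw [hQ w, hws, hww, mul_sub, map_sub, Complex.sub_re] at h4
    have h5 : τ (P * algebraMap ℝ M (‖z‖ ^ 2)) = ((‖z‖ ^ 2 : ℝ) : ℂ) * τ P := by
      have h6 : algebraMap ℝ M (‖z‖ ^ 2) = (((‖z‖ ^ 2 : ℝ) : ℂ)) • (1 : M) := by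
        rw [Algebra.algebraMap_eq_smul_one]
        exact (Complex.coe_smul _ _).symm
      rw [h6, mul_smul_comm, mul_one, map_smul, smul_eq_mul]
    rw [h5, Complex.re_ofReal_mul] at h4
    linarith
  refine le_trans ?_ h3
  rw [← hQ z]
  -- step 2 and 1
  set e : Fin n → M := fun k => E τ S (y k * z) with he
  set f : Fin n → M := fun k => y k * z - E τ S (y k * z) with hf
  have hyz : ∀ k, y k * z = e k + f k := by
    intro k
    simp only [he, hf]
    abel
  have heS : ∀ k, e k ∈ S := fun k => hE.mem _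
  have hXS : ∀ l k, E τ S (star (x l) * x k) ∈ S := fun l k => hE.mem _
  have hXstar : ∀ l k, star (E τ S (star (x l) * x k)) = E τ S (star (x k) * x l) := by
    intro l k
    rw [← hE.star, star_mul, star_star]
  have hc1 : ∀ l k, τ (star (e l) * E τ S (star (x l) * x k) * f k) = 0 := by
    intro l k
    exact hE.orth _ _ (mul_mem (star_mem (heS l)) (hXS l k))
  have hc2 : ∀ l k, τ (star (f l) * E τ S (star (x l) * x k) * e k) = 0 := by
    intro l k
    have h4 := hc1 k l
    have h5 : star (star (e k) * E τ S (star (x k) * x l) * f l)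
        = star (f l) * E τ S (star (x l) * x k) * e k := by
      rw [star_mul, star_mul, star_star, hXstar, mul_assoc]
    rw [← h5, h.conj, h4, star_zero]
  have hsplit : ∑ k, ∑ l, τ (star (y l * z) * E τ S (star (x l) * x k) * (y k * z))
      = ∑ k, ∑ l, τ (star (e l) * E τ S (star (x l) * x k) * e k)
        + ∑ k, ∑ l, τ (star (f l) * E τ S (star (x l) * x k) * f k) := by
    rw [← Finset.sum_add_distrib]
    refine Finset.sum_congr rfl fun k _ => ?_
    rw [← Finset.sum_add_distrib]
    refine Finset.sum_congr rfl fun l _ => ?_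
    rw [hyz l, hyz k, star_add, add_mul, add_mul, mul_add, mul_add, map_add, map_add, map_add,
      hc1 l k, hc2 l k]
    ring
  rw [hsplit, Complex.add_re]
  have hf0 := hcp f
  have h1 : n2 τ (∑ k, x k * E τ S (y k * z)) ^ 2
      = (∑ k, ∑ l, τ (star (e l) * E τ S (star (x l) * x k) * e k)).re := by
    rw [h.n2_sq]
    congr 1
    have h4 : star (∑ k, x k * E τ S (y k * z)) = ∑ l, star (x l * e l) := by
      rw [star_sum]
    rw [h4, Finset.mul_sum, map_sum]
    refine Finset.sum_congr rfl fun k _ => ?_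
    rw [Finset.sum_mul, map_sum]
    refine Finset.sum_congr rfl fun l _ => ?_
    have h5 : τ ((e k * star (e l)) * (star (x l) * x k - E τ S (star (x l) * x k))) = 0 :=
      hE.orth _ _ (mul_mem (heS k) (star_mem (heS l)))
    rw [mul_sub, map_sub, sub_eq_zero] at h5
    have h6 : τ (star (x l * e l) * (x k * E τ S (y k * z)))
        = τ ((e k * star (e l)) * (star (x l) * x k)) := by
      rw [mul_assoc (e k), h.comm (e k)]
      congr 1
      rw [star_mul]
      simp only [mul_assoc, he]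
    have h7 : τ (star (e l) * E τ S (star (x l) * x k) * e k)
        = τ ((e k * star (e l)) * E τ S (star (x l) * x k)) := by
      rw [mul_assoc (e k), h.comm (e k)]
    rw [h6, h7, h5]
  rw [h1]
  linarith

end Pool.Agent.H467F
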