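import Pool.Agent.Helper467.FP.Defs

set_option autoImplicit false

open scoped ComplexOrder Topology InnerProductSpace
open Filter

namespace Pool.Agent.H467F

universe u v w

variable {M : Type u} [CStarAlgebra M] {τ : M →ₗ[ℂ] ℂ}

theorem corner_span_one {M : Type u} [CStarAlgebra M] (S : StarSubalgebra ℂ M)
    (hS : IsClosed (S : Set M)) (p : M) (hp : star p = p) (hpp : p * p = p) (hpS : p ∈ S) (a : M)
    (ha : a ∈ S) (ha1 : p * a = a) (ha2 : a * p = a) (hsa : IsSelfAdjoint a) (hn : ‖a‖ ≤ 1) :
    a ∈ Submodule.span ℂ {a : M | UC S p a} := by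
  rcases subsingleton_or_nontrivial M with hsub | hnt
  · rw [Subsingleton.elim a 0]; exact Submodule.zero_mem _
  have hspec : ∀ t ∈ spectrum ℝ a, t ^ 2 ≤ 1 := by
    intro t ht
    have h1 : ‖t‖ ≤ ‖a‖ := spectrum.norm_le_norm_of_mem ht
    have h2 : |t| ≤ 1 := h1.trans hn
    rw [← sq_abs]
    nlinarith [abs_nonneg t]
  let f : ℝ → ℝ := fun t => √(1 - t ^ 2)
  have hfc : ContinuousOn f (spectrum ℝ a) := by
    apply Continuous.continuousOn
    fun_prop
  let c : M := cfc f a
  have hcsa : star c = c := (cfc_predicate f a).star_eq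
  have hcc : c * c = 1 - a * a := by
    have h1 : c * c = cfc (fun t => f t * f t) a := (cfc_mul f f a hfc hfc).symm
    have h2 : cfc (fun t => f t * f t) a = cfc (fun t : ℝ => 1 - t ^ 2) a := by
      apply cfc_congr
      intro t ht
      exact Real.mul_self_sqrt (by linarith [hspec t ht])
    rw [h1, h2, cfc_sub (fun _ : ℝ => (1 : ℝ)) (fun t : ℝ => t ^ 2) a, cfc_const_one ℝ a,
      cfc_pow_id a 2, pow_two]
  have hcS : c ∈ S := by
    haveI : IsClosed (S : Set M) := hS
    exact cfc_mem (𝕜 := ℝ) (𝕜' := ℂ) f ha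
  have hac : c * a = a * c := (Commute.cfc_real (Commute.refl a) f).eq
  have hpc : c * p = p * c := (Commute.cfc_real (show Commute a p from ha2.trans ha1.symm) f).eq
  have key : ∀ s : ℂ, s * s = -1 → star s = -s → UC S p (a + s • (p * c)) := by
    intro s hs hss
    have hst : star (a + s • (p * c)) = a + (-s) • (p * c) := by
      rw [star_add, star_smul, star_mul, hp, hcsa, hsa.star_eq, hss, hpc]
    have hpcpc : (p * c) * (p * c) = p - a * a := by
      calc (p * c) * (p * c) = p * (c * p) * c := by simp only [mul_assoc]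
        _ = (p * p) * (c * c) := by rw [hpc]; simp only [mul_assoc]
        _ = p - a * a := by rw [hpp, hcc, mul_sub, mul_one, ← mul_assoc, ha1]
    have hapc : a * (p * c) = a * c := by rw [← mul_assoc, ha2]
    have hpca : (p * c) * a = a * c := by rw [mul_assoc, hac, ← mul_assoc, ha1]
    refine ⟨S.add_mem ha (S.smul_mem (S.mul_mem hpS hcS) s), ?_, ?_⟩
    · rw [hst, add_mul, mul_add, mul_add, mul_smul_comm, smul_mul_assoc, smul_mul_smul_comm,
        hpcpc, hapc, hpca, neg_mul, hs, neg_neg, one_smul, neg_smul]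
      abel
    · rw [hst, add_mul, mul_add, mul_add, mul_smul_comm, smul_mul_assoc, smul_mul_smul_comm,
        hpcpc, hapc, hpca, mul_neg, hs, neg_neg, one_smul, neg_smul]
      abel
  have hI : Complex.I * Complex.I = -1 := Complex.I_mul_I
  have hIs : star Complex.I = -Complex.I := Complex.conj_I
  have u1 := key Complex.I hI hIs
  have u2 := key (-Complex.I) (by rw [neg_mul_neg, hI]) (by rw [star_neg, hIs])
  have e : a = (1 / 2 : ℂ) • (a + Complex.I • (p * c)) + (1 / 2 : ℂ) • (a + (-Complex.I) • (p * c)) := by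
    module
  rw [e]
  exact Submodule.add_mem _ (Submodule.smul_mem _ _ (Submodule.subset_span u1))
    (Submodule.smul_mem _ _ (Submodule.subset_span u2))

theorem corner_span_sa {M : Type u} [CStarAlgebra M] (S : StarSubalgebra ℂ M)
    (hS : IsClosed (S : Set M)) (p : M) (hp : star p = p) (hpp : p * p = p) (hpS : p ∈ S) (a : M)
    (ha : a ∈ S) (ha1 : p * a = a) (ha2 : a * p = a) (hsa : IsSelfAdjoint a) :
    a ∈ Submodule.span ℂ {a : M | UC S p a} := by
  by_cases h0 : ‖a‖ = 0
  · rw [norm_eq_zero.mp h0]; exact Submodule.zero_mem _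
  · have hs : star (((‖a‖⁻¹ : ℝ) : ℂ)) = ((‖a‖⁻¹ : ℝ) : ℂ) := Complex.conj_ofReal _
    have h1 := corner_span_one S hS p hp hpp hpS ((((‖a‖⁻¹ : ℝ) : ℂ)) • a) (S.smul_mem ha _)
      (by rw [mul_smul_comm, ha1]) (by rw [smul_mul_assoc, ha2])
      (by rw [isSelfAdjoint_iff, star_smul, hsa.star_eq, hs])
      (by
        rw [norm_smul, Complex.norm_real, norm_inv, norm_norm, inv_mul_cancel₀ h0])
    have h2 := Submodule.smul_mem _ ((‖a‖ : ℝ) : ℂ) h1
    rwa [smul_smul, ← Complex.ofReal_mul, mul_inv_cancel₀ h0, Complex.ofReal_one, one_smul] at h2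

theorem corner_span {M : Type u} [CStarAlgebra M] (S : StarSubalgebra ℂ M)
    (hS : IsClosed (S : Set M)) (p : M) (hp : star p = p) (hpp : p * p = p) (hpS : p ∈ S) (x : M)
    (hx : x ∈ S) (hx1 : p * x = x) (hx2 : x * p = x) :
    x ∈ Submodule.span ℂ {a : M | UC S p a} := by
  have hs1 : p * star x = star x := by
    have := congrArg star hx2
    rwa [star_mul, hp] at this
  have hs2 : star x * p = star x := by
    have := congrArg star hx1
    rwa [star_mul, hp] at this
  have hxs : star x ∈ S := star_mem hx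
  have h1 := corner_span_sa S hS p hp hpp hpS (x + star x) (S.add_mem hx hxs)
    (by rw [mul_add, hx1, hs1]) (by rw [add_mul, hx2, hs2])
    (by rw [isSelfAdjoint_iff, star_add, star_star, add_comm])
  have hIs : star Complex.I = -Complex.I := Complex.conj_I
  have h2 := corner_span_sa S hS p hp hpp hpS (Complex.I • (x - star x))
    (S.smul_mem (S.sub_mem hx hxs) _)
    (by rw [mul_smul_comm, mul_sub, hx1, hs1]) (by rw [smul_mul_assoc, sub_mul, hx2, hs2])
    (by rw [isSelfAdjoint_iff, star_smul, star_sub, star_star, hIs, neg_smul, ← smul_neg, neg_sub])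
  have e : x = (1 / 2 : ℂ) • (x + star x) + (-(1 / 2 : ℂ) * Complex.I) • (Complex.I • (x - star x)) := by
    rw [smul_smul, mul_assoc, Complex.I_mul_I]
    module
  rw [e]
  exact Submodule.add_mem _ (Submodule.smul_mem _ _ h1) (Submodule.smul_mem _ _ h2)

end Pool.Agent.H467F
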