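import Pool.Agent.Helper467.FP.Defs

set_option autoImplicit false

open scoped ComplexOrder Topology InnerProductSpace
open Filter

namespace Pool.Agent.H467F

universe u v w

variable {M : Type u} [CStarAlgebra M] {τ : M →ₗ[ℂ] ℂ}

theorem unit_decomp {M : Type u} [CStarAlgebra M] (S : StarSubalgebra ℂ M) (g hh : ℕ → M)
    (hD : Dya S g hh) (k : ℕ) :
    ∃ (n : ℕ) (v : Fin n → M), (∀ i, v i ∈ S ∧ star (v i) * v i = g k) ∧
      (∀ i j, i ≠ j → star (v i) * v j = 0) ∧ ∑ i, v i * star (v i) = 1 := by
  induction k with
  | zero =>
    refine ⟨1, fun _ => 1, fun i => ⟨S.one_mem, ?_⟩, fun i j hij => absurd (Subsingleton.elim i j) hij,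
      ?_⟩
    · rw [star_one, one_mul, hD.g_zero]
    · simp
  | succ k ih =>
    obtain ⟨n, v, hv, hv0, hv1⟩ := ih
    have e1 : g k * g (k + 1) = g (k + 1) := hD.g_le k
    have e2 : g (k + 1) * g k = g (k + 1) := by
      have := congrArg star e1
      rwa [star_mul, hD.g_star, hD.g_star] at this
    have e3 : g k * hh k = hh k := by
      have h1 : (hh k - g k * hh k) * star (hh k - g k * hh k) = 0 := by
        have : (hh k - g k * hh k) * star (hh k - g k * hh k) =
            (hh k * star (hh k)) - g k * (hh k * star (hh k)) - (hh k * star (hh k)) * g k +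
              g k * (hh k * star (hh k)) * g k := by
          rw [star_sub, star_mul, hD.g_star]
          noncomm_ring
        rw [this, hD.h_right, mul_sub, sub_mul, sub_mul, hD.g_idem, hD.g_idem, e1, e2]
        abel
      rw [CStarRing.mul_star_self_eq_zero_iff, sub_eq_zero] at h1
      exact h1.symm
    have e4 : g (k + 1) * hh k = 0 := by
      have h1 : (g (k + 1) * hh k) * star (g (k + 1) * hh k) = 0 := by
        have : (g (k + 1) * hh k) * star (g (k + 1) * hh k) =
            g (k + 1) * (hh k * star (hh k)) * g (k + 1) := by
          rw [star_mul, hD.g_star]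
          noncomm_ring
        rw [this, hD.h_right, mul_sub, sub_mul, e2, hD.g_idem, hD.g_idem, sub_self]
      rwa [CStarRing.mul_star_self_eq_zero_iff] at h1
    have e5 : star (hh k) * g (k + 1) = 0 := by
      have := congrArg star e4
      rwa [star_mul, hD.g_star, star_zero] at this
    have e6 : ∀ i, v i * g k = v i := by
      intro i
      have h1 : star (v i - v i * g k) * (v i - v i * g k) = 0 := by
        have : star (v i - v i * g k) * (v i - v i * g k) =
            (star (v i) * v i) - g k * (star (v i) * v i) - (star (v i) * v i) * g k +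
              g k * (star (v i) * v i) * g k := by
          rw [star_sub, star_mul, hD.g_star]
          noncomm_ring
        rw [this, (hv i).2, hD.g_idem, hD.g_idem]
        abel
      rw [CStarRing.star_mul_self_eq_zero_iff, sub_eq_zero] at h1
      exact h1.symm
    obtain ⟨W, hW1, hW2⟩ : ∃ W : Fin n ⊕ Fin n → M, (∀ i, W (Sum.inl i) = v i * g (k + 1)) ∧
        ∀ i, W (Sum.inr i) = v i * hh k :=
      ⟨Sum.elim (fun i => v i * g (k + 1)) (fun i => v i * hh k), fun _ => rfl, fun _ => rfl⟩
    have hmem : ∀ a, W a ∈ S ∧ star (W a) * W a = g (k + 1) := by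
      rintro (i | i)
      · rw [hW1]
        refine ⟨S.mul_mem (hv i).1 (hD.g_mem _), ?_⟩
        have : star (v i * g (k + 1)) * (v i * g (k + 1)) =
            g (k + 1) * (star (v i) * v i) * g (k + 1) := by
          rw [star_mul, hD.g_star]
          noncomm_ring
        rw [this, (hv i).2, e2, hD.g_idem]
      · rw [hW2]
        refine ⟨S.mul_mem (hv i).1 (hD.h_mem _), ?_⟩
        have : star (v i * hh k) * (v i * hh k) =
            star (hh k) * ((star (v i) * v i) * hh k) := by
          rw [star_mul]
          noncomm_ring
        rw [this, (hv i).2, e3, hD.h_left]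
    have hort : ∀ a b, a ≠ b → star (W a) * W b = 0 := by
      rintro (i | i) (j | j) hab
      · rw [hW1, hW1]
        have hij : i ≠ j := fun h => hab (by rw [h])
        have : star (v i * g (k + 1)) * (v j * g (k + 1)) =
            g (k + 1) * (star (v i) * v j) * g (k + 1) := by
          rw [star_mul, hD.g_star]
          noncomm_ring
        rw [this, hv0 i j hij, mul_zero, zero_mul]
      · rw [hW1, hW2]
        have : star (v i * g (k + 1)) * (v j * hh k) =
            g (k + 1) * (star (v i) * v j) * hh k := by
          rw [star_mul, hD.g_star]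
          noncomm_ring
        rw [this]
        by_cases hij : i = j
        · subst hij
          rw [(hv i).2, e2, e4]
        · rw [hv0 i j hij, mul_zero, zero_mul]
      · rw [hW2, hW1]
        have : star (v i * hh k) * (v j * g (k + 1)) =
            star (hh k) * ((star (v i) * v j) * g (k + 1)) := by
          rw [star_mul]
          noncomm_ring
        rw [this]
        by_cases hij : i = j
        · subst hij
          rw [(hv i).2, e1, e5]
        · rw [hv0 i j hij, zero_mul, mul_zero]
      · rw [hW2, hW2]
        have hij : i ≠ j := fun h => hab (by rw [h])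
        have : star (v i * hh k) * (v j * hh k) =
            star (hh k) * ((star (v i) * v j) * hh k) := by
          rw [star_mul]
          noncomm_ring
        rw [this, hv0 i j hij, zero_mul, mul_zero]
    refine ⟨n + n, fun a => W (finSumFinEquiv.symm a), fun a => hmem _,
      fun a b hab => hort _ _ (fun h => hab (finSumFinEquiv.symm.injective h)), ?_⟩
    rw [Equiv.sum_comp finSumFinEquiv.symm (fun a => W a * star (W a)), Fintype.sum_sum_type]
    simp only [hW1, hW2]
    rw [← Finset.sum_add_distrib, ← hv1]
    refine Finset.sum_congr rfl fun i _ => ?_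
    have : v i * g (k + 1) * star (v i * g (k + 1)) + v i * hh k * star (v i * hh k) =
        v i * (g (k + 1) * g (k + 1) + hh k * star (hh k)) * star (v i) := by
      rw [star_mul, star_mul, hD.g_star]
      noncomm_ring
    rw [this, hD.g_idem, hD.h_right, add_sub_cancel, e6]

end Pool.Agent.H467F
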