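import Pool.Agent.Helper467.FP.Defs
import Pool.Agent.Helper467.FP.P_isClosed_of_isW
import Pool.Agent.Helper467.FP.P_unit_decomp
import Pool.Agent.Helper467.FP.P_corner_span

set_option autoImplicit false

open scoped ComplexOrder Topology InnerProductSpace
open Filter

namespace Pool.Agent.H467F

universe u v w

variable {M : Type u} [CStarAlgebra M] {τ : M →ₗ[ℂ] ℂ}

theorem amplify {M : Type u} [CStarAlgebra M] {τ : M →ₗ[ℂ] ℂ} (h : TW τ)
    (S R : StarSubalgebra ℂ M) (hS : IsW τ S) (g hh : ℕ → M) (hDy : Dya S g hh) (k : ℕ) (D : M → M)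
    (hD : Intw τ S R (g k) D) (hin : ∀ y z, star (D y) * D z ∈ R) : ∃ D', Intw1 S R D' := by
  classical
  obtain ⟨n, v, hv, hvo, hvs⟩ := unit_decomp S g hh hDy k
  obtain ⟨p, hp⟩ : ∃ p, p = g k := ⟨_, rfl⟩
  simp only [← hp] at hD hv
  have hpS : p ∈ S := hp ▸ hDy.g_mem k
  have hps : star p = p := hp ▸ hDy.g_star k
  have hpp : p * p = p := hp ▸ hDy.g_idem k
  have hvp : ∀ i, v i * p = v i := by
    intro i
    have h1 : star (v i - v i * p) * (v i - v i * p) = 0 := by
      have h2 := (hv i).2
      rw [star_sub, star_mul, hps]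
      calc (star (v i) - p * star (v i)) * (v i - v i * p) =
            star (v i) * v i - star (v i) * v i * p - p * (star (v i) * v i) +
              p * (star (v i) * v i) * p := by noncomm_ring
        _ = 0 := by rw [h2]; simp [hpp]
    have h3 := (CStarRing.star_mul_self_eq_zero_iff _).1 h1
    exact (sub_eq_zero.1 h3).symm
  have hpv : ∀ i, p * star (v i) = star (v i) := by
    intro i
    have := congrArg star (hvp i)
    rwa [star_mul, hps] at this
  obtain ⟨DL, hDL⟩ : ∃ DL : M →ₗ[ℂ] M, ∀ z, DL z = D z :=
    ⟨{ toFun := D, map_add' := hD.add, map_smul' := hD.smul }, fun _ => rfl⟩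
  have hD0 : D 0 = 0 := by rw [← hDL, map_zero]
  have hspan : ∀ x ∈ Submodule.span ℂ {a : M | UC S p a}, ∀ z, D (x * z) = x * D z := by
    intro x hx
    induction hx using Submodule.span_induction with
    | mem a ha => exact hD.left a ha
    | zero => intro z; rw [zero_mul, zero_mul, hD0]
    | add a b _ _ ha hb => intro z; rw [add_mul, hD.add, ha, hb, add_mul]
    | smul c a _ ha => intro z; rw [smul_mul_assoc, hD.smul, ha, smul_mul_assoc]
  have hcorner : ∀ x ∈ S, p * x = x → x * p = x → ∀ z, D (x * z) = x * D z := by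
    intro x hx hx1 hx2 z
    exact hspan x (corner_span S (isClosed_of_isW h S hS) p hps hpp hpS x hx hx1 hx2) z
  refine ⟨fun z => ∑ i, v i * D (star (v i) * z), ?_, ?_, ?_, ?_, ?_, ?_⟩
  · -- nz
    obtain ⟨z, hz⟩ := hD.nz
    have hn : Nonempty (Fin n) := by
      by_contra hne
      rw [not_nonempty_iff] at hne
      rw [Finset.univ_eq_empty, Finset.sum_empty] at hvs
      apply hz
      rw [← one_mul (D z), ← hvs, zero_mul]
    obtain ⟨i0⟩ := hn
    refine ⟨v i0 * z, ?_⟩
    have h1 : ∑ i, v i * D (star (v i) * (v i0 * z)) = v i0 * D z := by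
      rw [Finset.sum_eq_single i0]
      · rw [← mul_assoc, (hv i0).2, hD.pr]
      · intro b _ hb
        rw [← mul_assoc (star (v b)), hvo b i0 hb, zero_mul, hD0, mul_zero]
      · intro h
        exact absurd (Finset.mem_univ _) h
    simp only [h1]
    intro h2
    apply hz
    rw [← hD.pl, ← (hv i0).2, mul_assoc, h2, mul_zero]
  · -- add
    intro y z
    simp only [mul_add, hD.add, Finset.sum_add_distrib]
  · -- smul
    intro c z
    simp only [mul_smul_comm, hD.smul, Finset.smul_sum]
  · -- left
    intro a ha z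
    have h1 : ∀ i, D (star (v i) * (a * z)) = star (v i) * a * ∑ j, v j * D (star (v j) * z) := by
      intro i
      have h2 : star (v i) * (a * z) = ∑ j, (star (v i) * a * v j) * (star (v j) * z) := by
        have h3 : ∀ j, (star (v i) * a * v j) * (star (v j) * z) =
            (star (v i) * a) * (v j * star (v j)) * z := fun j => by noncomm_ring
        simp only [h3]
        rw [← Finset.sum_mul, ← Finset.mul_sum, hvs, mul_one, mul_assoc]
      rw [h2, ← hDL, map_sum, Finset.mul_sum]
      apply Finset.sum_congr rfl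
      intro j _
      rw [hDL, hcorner (star (v i) * a * v j)
        (mul_mem (mul_mem (star_mem (hv i).1) ha) (hv j).1)
        (by rw [← mul_assoc, ← mul_assoc, hpv]) (by rw [mul_assoc, hvp])]
      noncomm_ring
    simp only [h1]
    have h4 : ∀ i, v i * (star (v i) * a * ∑ j, v j * D (star (v j) * z)) =
        (v i * star (v i)) * (a * ∑ j, v j * D (star (v j) * z)) := fun i => by
      rw [mul_assoc (star (v i)), ← mul_assoc (v i)]
    simp only [h4]
    rw [← Finset.sum_mul, hvs, one_mul]
  · -- right
    intro b hb z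
    simp only [← mul_assoc, hD.right b hb]
    rw [← Finset.sum_mul]
  · -- inner
    intro y z
    rw [star_sum, Finset.sum_mul]
    apply sum_mem
    intro i _
    rw [Finset.mul_sum, Finset.sum_eq_single i]
    · have h5 : star (v i * D (star (v i) * y)) * (v i * D (star (v i) * z)) =
          star (D (star (v i) * y)) * (p * D (star (v i) * z)) := by
        rw [star_mul, ← (hv i).2]
        noncomm_ring
      rw [h5, hD.pl]
      exact hin _ _
    · intro j _ hj
      rw [star_mul, mul_assoc, ← mul_assoc (star (v i)), hvo i j hj.symm, zero_mul, mul_zero]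
    · intro h
      exact absurd (Finset.mem_univ _) h

end Pool.Agent.H467F
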