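import Pool.Agent.Helper467.FP.Defs
import Pool.Agent.Helper467.FP.P_exists_lim

set_option autoImplicit false

open scoped ComplexOrder Topology InnerProductSpace
open Filter

namespace Pool.Agent.H467F

universe u v w

variable {M : Type u} [CStarAlgebra M] {τ : M →ₗ[ℂ] ℂ}

theorem exists_fixed {M : Type u} [CStarAlgebra M] {τ : M →ₗ[ℂ] ℂ} (h : TW τ) (C : Set M)
    (hne : C.Nonempty) (hconv : Convex ℝ C) (R : ℝ) (hR : ∀ x ∈ C, ‖x‖ ≤ R) :
    ∃ z ∈ Cl τ C, ‖z‖ ≤ R ∧ ∀ φ : M →ₗ[ℂ] M, (∀ x, n2 τ (φ x) = n2 τ x) →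
      (∀ x ∈ C, φ x ∈ C) → φ z = z := by
  obtain ⟨d, hd0, hdC, hdinf⟩ : ∃ d : ℝ, 0 ≤ d ∧ (∀ x ∈ C, d ≤ n2 τ x ^ 2) ∧
      ∀ ε : ℝ, 0 < ε → ∃ x ∈ C, n2 τ x ^ 2 < d + ε := by
    have hbdd : BddBelow ((fun x => n2 τ x ^ 2) '' C) := by
      refine ⟨0, ?_⟩
      rintro _ ⟨x, hx, rfl⟩
      positivity
    have hne' : ((fun x => n2 τ x ^ 2) '' C).Nonempty := hne.image _
    refine ⟨sInf ((fun x => n2 τ x ^ 2) '' C), ?_, ?_, ?_⟩
    · apply le_csInf hne'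
      rintro _ ⟨x, hx, rfl⟩
      positivity
    · intro x hx
      exact csInf_le hbdd ⟨x, hx, rfl⟩
    · intro ε hε
      obtain ⟨y, ⟨x, hx, rfl⟩, hy⟩ := exists_lt_of_csInf_lt hne'
        (show sInf ((fun x => n2 τ x ^ 2) '' C) < sInf ((fun x => n2 τ x ^ 2) '' C) + ε by linarith)
      exact ⟨x, hx, hy⟩
  have hpar : ∀ x y : M, n2 τ (x - y) ^ 2 + n2 τ (x + y) ^ 2 =
      2 * n2 τ x ^ 2 + 2 * n2 τ y ^ 2 := by
    intro x y
    rw [h.n2_sq, h.n2_sq, h.n2_sq, h.n2_sq, ← Complex.add_re, ← map_add]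
    have e : star (x - y) * (x - y) + star (x + y) * (x + y) =
        (2 : ℂ) • (star x * x) + (2 : ℂ) • (star y * y) := by
      rw [star_add, star_sub, two_smul, two_smul]; noncomm_ring
    rw [e, map_add, map_smul, map_smul]
    simp
  have hclose : ∀ x ∈ C, ∀ y ∈ C, n2 τ (x - y) ^ 2 ≤
      2 * (n2 τ x ^ 2 - d) + 2 * (n2 τ y ^ 2 - d) := by
    intro x hx y hy
    have h1 : ((1 / 2 : ℝ) • x + (1 / 2 : ℝ) • y) ∈ C :=
      hconv hx hy (by norm_num) (by norm_num) (by norm_num)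
    have h2 := hdC _ h1
    have h3 : ((1 / 2 : ℝ) • x + (1 / 2 : ℝ) • y) = (1 / 2 : ℂ) • (x + y) := by
      rw [smul_add]
      congr 1
      · rw [← Complex.coe_smul (1/2 : ℝ) x]; norm_num
      · rw [← Complex.coe_smul (1/2 : ℝ) y]; norm_num
    rw [h3, n2_smul, mul_pow] at h2
    have h4 : ‖(1 / 2 : ℂ)‖ ^ 2 = 1 / 4 := by
      norm_num
    rw [h4] at h2
    have h5 := hpar x y
    linarith
  have hex : ∀ n : ℕ, ∃ x ∈ C, n2 τ x ^ 2 < d + 1 / ((n : ℝ) + 1) := fun n =>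
    hdinf _ (by positivity)
  choose x hxC hxd using hex
  have hxcl : ∀ ε : ℝ, 0 < ε → ∃ N, ∀ m ≥ N, ∀ n ≥ N, n2 τ (x m - x n) < ε := by
    intro ε hε
    obtain ⟨N, hN⟩ := exists_nat_gt (4 / ε ^ 2)
    refine ⟨N, fun m hm n hn => ?_⟩
    have h1 := hclose _ (hxC m) _ (hxC n)
    have h2 : n2 τ (x m) ^ 2 - d < ε ^ 2 / 4 := by
      have := hxd m
      have h3 : 1 / ((m : ℝ) + 1) < ε ^ 2 / 4 := by
        rw [div_lt_div_iff₀ (by positivity) (by positivity)]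
        rw [div_lt_iff₀ (by positivity)] at hN
        have : (N : ℝ) ≤ m := by exact_mod_cast hm
        nlinarith [sq_nonneg ε, mul_pos hε hε]
      linarith
    have h2' : n2 τ (x n) ^ 2 - d < ε ^ 2 / 4 := by
      have := hxd n
      have h3 : 1 / ((n : ℝ) + 1) < ε ^ 2 / 4 := by
        rw [div_lt_div_iff₀ (by positivity) (by positivity)]
        rw [div_lt_iff₀ (by positivity)] at hN
        have : (N : ℝ) ≤ n := by exact_mod_cast hn
        nlinarith [sq_nonneg ε, mul_pos hε hε]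
      linarith
    have h4 : n2 τ (x m - x n) ^ 2 < ε ^ 2 := by linarith
    exact lt_of_pow_lt_pow_left₀ 2 hε.le h4
  obtain ⟨z, hzR, hz⟩ := exists_lim h x R (fun n => hR _ (hxC n)) hxcl
  refine ⟨z, ?_, hzR, ?_⟩
  · intro ε hε
    have h1 : ∀ᶠ n in atTop, n2 τ (x n - z) < ε := hz.eventually (gt_mem_nhds hε)
    obtain ⟨n, hn⟩ := h1.exists
    refine ⟨x n, hxC n, ?_⟩
    rwa [n2_sub_comm]
  · intro φ hφ hφC
    have key : ∀ ε : ℝ, 0 < ε → n2 τ (φ z - z) ≤ ε := by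
      intro ε hε
      have h1 : ∀ᶠ n in atTop, n2 τ (x n - z) < ε / 4 := hz.eventually (gt_mem_nhds (by linarith))
      have h2 : ∀ᶠ n : ℕ in atTop, 1 / ((n : ℝ) + 1) < ε ^ 2 / 16 :=
        tendsto_one_div_add_atTop_nhds_zero_nat.eventually (gt_mem_nhds (by positivity))
      obtain ⟨n, hn1, hn2⟩ := (h1.and h2).exists
      have h3 := hclose _ (hφC _ (hxC n)) _ (hxC n)
      rw [hφ] at h3
      have h4 := hxd n
      have h5 : n2 τ (φ (x n) - x n) ^ 2 ≤ (ε / 2) ^ 2 := by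
        have : (ε / 2) ^ 2 = 4 * (ε ^ 2 / 16) := by ring
        linarith
      have h6 : n2 τ (φ (x n) - x n) ≤ ε / 2 :=
        le_of_sq_le_sq h5 (by positivity)
      have h7 : n2 τ (φ z - φ (x n)) < ε / 4 := by
        rw [← map_sub, hφ, n2_sub_comm]
        exact hn1
      have h8 := h.n2_tri (φ z) (φ (x n)) z
      have h9 := h.n2_tri (φ (x n)) (x n) z
      linarith
    have h0 : n2 τ (φ z - z) = 0 :=
      le_antisymm (le_of_forall_pos_le_add (by simpa using key)) (n2_nonneg _ _)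
    exact sub_eq_zero.1 (h.eq_zero h0)

end Pool.Agent.H467F
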