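import Pool.Agent.Helper467.FP.Defs
import Pool.Agent.Helper467.FP.P_n2_mul_le
import Pool.Agent.Helper467.FP.P_tau_bounds
import Pool.Agent.Helper467.FP.P_isClosed_of_isW
import Pool.Agent.Helper467.FP.P_exists_fixed

set_option autoImplicit false

open scoped ComplexOrder Topology InnerProductSpace
open Filter

namespace Pool.Agent.H467F

universe u v w

variable {M : Type u} [CStarAlgebra M] {τ : M →ₗ[ℂ] ℂ}

/-- elements of `S` are combinations of unitaries of `S` -/
theorem comm_of_comm_unitary {M : Type u} [CStarAlgebra M] {τ : M →ₗ[ℂ] ℂ} (h : TW τ)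
    (S : StarSubalgebra ℂ M) (hS : IsW τ S) (z : M) (hz : ∀ a, UC S 1 a → a * z = z * a)
    (s : M) (hs : s ∈ S) : z * s = s * z := by
  have hcl : IsClosed (S : Set M) := isClosed_of_isW h S hS
  let _ : CStarAlgebra S := inferInstance
  obtain ⟨u, c, hu, -⟩ := CStarAlgebra.exists_sum_four_unitary (A := S) ⟨s, hs⟩
  have h1 : s = ∑ i, c i • ((u i : S) : M) := by
    have h2 := congrArg (S.subtype) hu
    rw [map_sum] at h2
    exact h2
  rw [h1, Finset.mul_sum, Finset.sum_mul]
  apply Finset.sum_congr rfl
  intro i _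
  rw [mul_smul_comm, smul_mul_assoc]
  congr 1
  refine (hz _ ⟨(u i : S).2, ?_, ?_⟩).symm
  · have h3 : star (u i : S) * (u i : S) = 1 := (Unitary.mem_iff.1 (u i).2).1
    exact congrArg (fun x : S => (x : M)) h3
  · have h3 : (u i : S) * star (u i : S) = 1 := (Unitary.mem_iff.1 (u i).2).2
    exact congrArg (fun x : S => (x : M)) h3

theorem averaging {M : Type u} [CStarAlgebra M] {τ : M →ₗ[ℂ] ℂ} (h : TW τ)
    (S : StarSubalgebra ℂ M) (hS : IsW τ S) (hF : Fac S) (x : M) (hx : x ∈ S) :
    τ x • (1 : M) ∈ Cl τ (convexHull ℝ {y : M | ∃ a, UC S 1 a ∧ y = a * x * star a}) := by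
  have hnt : Nontrivial M := by
    refine ⟨⟨1, 0, ?_⟩⟩
    intro h1
    have h2 := h.one
    rw [h1, map_zero] at h2
    exact zero_ne_one h2
  set G : Set M := {y : M | ∃ a, UC S 1 a ∧ y = a * x * star a} with hG
  set C : Set M := convexHull ℝ G with hC
  have hne : C.Nonempty := by
    refine ⟨x, subset_convexHull ℝ G ⟨1, ⟨S.one_mem, ?_, ?_⟩, ?_⟩⟩ <;> simp
  have hR : ∀ y ∈ C, ‖y‖ ≤ ‖x‖ := by
    have h1 : C ⊆ Metric.closedBall (0 : M) ‖x‖ := by
      apply convexHull_min
      · rintro y ⟨a, ⟨_, ha1, ha2⟩, rfl⟩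
        rw [mem_closedBall_zero_iff]
        have hu : a ∈ unitary M := Unitary.mem_iff.2 ⟨ha1, ha2⟩
        have h2 : ‖a‖ = 1 := CStarRing.norm_of_mem_unitary hu
        calc ‖a * x * star a‖ ≤ ‖a * x‖ * ‖star a‖ := norm_mul_le _ _
          _ ≤ (‖a‖ * ‖x‖) * ‖star a‖ :=
            mul_le_mul_of_nonneg_right (norm_mul_le _ _) (norm_nonneg _)
          _ = ‖x‖ := by rw [norm_star, h2]; ring
      · exact convex_closedBall _ _
    intro y hy
    exact mem_closedBall_zero_iff.1 (h1 hy)
  have hCS : C ⊆ (S : Set M) := by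
    apply convexHull_min
    · rintro y ⟨a, ⟨haS, _, _⟩, rfl⟩
      exact mul_mem (mul_mem haS hx) (star_mem haS)
    · intro y hy w hw p q _ _ _
      have e1 : ∀ (r : ℝ) (v : M), v ∈ (S : Set M) → r • v ∈ (S : Set M) := by
        intro r v hv
        rw [← Complex.coe_smul]
        exact S.smul_mem hv _
      exact S.add_mem (e1 p y hy) (e1 q w hw)
  have hτC : ∀ y ∈ C, τ y = τ x := by
    have h1 : C ⊆ {y | τ y = τ x} := by
      apply convexHull_min
      · rintro y ⟨a, ⟨_, ha1, _⟩, rfl⟩
        show τ (a * x * star a) = τ x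
        rw [h.comm, ← mul_assoc, ha1, one_mul]
      · intro y hy w hw p q _ _ hpq
        have hy' : τ y = τ x := hy
        have hw' : τ w = τ x := hw
        show τ (p • y + q • w) = τ x
        rw [map_add, ← Complex.coe_smul, ← Complex.coe_smul, map_smul, map_smul, hy', hw',
          ← add_smul, ← Complex.ofReal_add, hpq, Complex.ofReal_one, one_smul]
    exact h1
  obtain ⟨z, hzC, -, hfix⟩ := exists_fixed h C hne (convex_convexHull ℝ G) ‖x‖ hR
  have hzS : z ∈ S := by
    apply hS
    intro ε hε
    obtain ⟨y, hy, hy2⟩ := hzC ε hε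
    exact ⟨y, hCS hy, hy2⟩
  have hcomm : ∀ a, UC S 1 a → a * z = z * a := by
    intro a ha
    obtain ⟨haS, ha1, ha2⟩ := ha
    have h1 := hfix ((LinearMap.mulRight ℂ (star a)).comp (LinearMap.mulLeft ℂ a)) ?_ ?_
    · have h2 : a * z * star a = z := h1
      calc a * z = a * z * (star a * a) := by rw [ha1, mul_one]
        _ = (a * z * star a) * a := by rw [mul_assoc (a * z)]
        _ = z * a := by rw [h2]
    · intro y
      show n2 τ (a * y * star a) = n2 τ y
      unfold n2
      have h2 : star (a * y * star a) * (a * y * star a) = a * (star y * y * star a) := by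
        rw [star_mul, star_mul, star_star]
        calc a * (star y * star a) * (a * y * star a)
            = a * star y * (star a * a) * y * star a := by noncomm_ring
          _ = a * (star y * y * star a) := by rw [ha1, mul_one]; noncomm_ring
      rw [h2, h.comm, mul_assoc, ha1, mul_one]
    · intro y hy
      have h2 : C ⊆ {y | ((LinearMap.mulRight ℂ (star a)).comp (LinearMap.mulLeft ℂ a)) y ∈ C} := by
        apply convexHull_min
        · rintro y ⟨b, ⟨hbS, hb1, hb2⟩, rfl⟩
          apply subset_convexHull ℝ G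
          refine ⟨a * b, ⟨S.mul_mem haS hbS, ?_, ?_⟩, ?_⟩
          · rw [star_mul]
            calc star b * star a * (a * b) = star b * (star a * a) * b := by noncomm_ring
              _ = 1 := by rw [ha1, mul_one, hb1]
          · rw [star_mul]
            calc a * b * (star b * star a) = a * (b * star b) * star a := by noncomm_ring
              _ = 1 := by rw [hb2, mul_one, ha2]
          · show a * (b * x * star b) * star a = a * b * x * star (a * b)
            rw [star_mul]
            noncomm_ring
        · intro y hy w hw p q hp hq hpq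
          have hy' : a * y * star a ∈ C := hy
          have hw' : a * w * star a ∈ C := hw
          show a * (p • y + q • w) * star a ∈ C
          have h3 := convex_convexHull ℝ G hy' hw' hp hq hpq
          rw [mul_add, add_mul, mul_smul_comm, mul_smul_comm, smul_mul_assoc, smul_mul_assoc]
          exact h3
      exact h2 hy
  obtain ⟨c, hc⟩ := hF z hzS (fun s hs => comm_of_comm_unitary h S hS z hcomm s hs)
  have hτz : τ z = τ x := by
    have h1 : ∀ ε : ℝ, 0 < ε → ‖τ z - τ x‖ ≤ ε := by
      intro ε hε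
      obtain ⟨y, hy, hy2⟩ := hzC ε hε
      rw [← hτC y hy, ← map_sub]
      exact ((tau_bounds h).1 _).trans hy2.le
    have h2 : ‖τ z - τ x‖ ≤ 0 := le_of_forall_pos_le_add (by
      intro ε hε
      rw [zero_add]
      exact h1 ε hε)
    exact sub_eq_zero.1 (norm_le_zero_iff.1 h2)
  have hcx : c = τ x := by
    rw [← hτz, hc, map_smul, h.one, smul_eq_mul, mul_one]
  rw [← hcx, ← hc]
  exact hzC

end Pool.Agent.H467F
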