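import Pool.Agent.Helper467.FP.Defs
import Pool.Agent.Helper467.FP.P_n2_mul_le
import Pool.Agent.Helper467.FP.P_tau_bounds
import Pool.Agent.Helper467.FP.P_ep
import Pool.Agent.Helper467.FP.P_E_contr
import Pool.Agent.Helper467.FP.P_mix_eq

set_option autoImplicit false

open scoped ComplexOrder Topology InnerProductSpace
open Filter

namespace Pool.Agent.H467F

universe u v w

variable {M : Type u} [CStarAlgebra M] {τ : M →ₗ[ℂ] ℂ}

theorem commutant_le {M : Type u} [CStarAlgebra M] {τ : M →ₗ[ℂ] ℂ} (h : TW τ) {ι : Type v}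
    (S : ι → StarSubalgebra ℂ M) (hf : IsFree τ S) (hd : Dense2 τ S) (hW : ∀ i, IsW τ (S i))
    (i : ι) (a : ℕ → M) (ha : ∀ n, UC (S i) 1 (a n)) (hn : WNull τ a) (x : M)
    (hx : ∀ n, a n * x = x * a n) : x ∈ S i := by
  have P : EP τ (S i) := ep h (S i) (hW i)
  set x' : M := x - E τ (S i) x with hx'
  have hEx : E τ (S i) x' = 0 := by
    rw [hx', P.sub, P.of_mem _ (P.mem x), sub_self]
  have hcomm : ∀ n, a n * x' = x' * a n := by
    intro n
    have h1 : a n * E τ (S i) x = E τ (S i) x * a n := by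
      rw [← P.left (a n) (ha n).1 x, ← P.right (a n) (ha n).1 x, hx n]
    rw [hx', mul_sub, sub_mul, hx n, h1]
  have hsa : ∀ n, star (a n) ∈ S i := fun n => star_mem (ha n).1
  have hnorm : ∀ n, n2 τ (star (a n)) = 1 := by
    intro n
    rw [h.n2_star]
    unfold n2
    rw [(ha n).2.1, h.one]
    simp
  have hkey : ∀ n, n2 τ x' ^ 2 ≤ n2 τ (E τ (S i) (star x' * a n * x')) := by
    intro n
    have h1 : x' = a n * x' * star (a n) := by
      rw [hcomm n, mul_assoc, (ha n).2.2, mul_one]
    have h2 : τ (star x' * x') = τ (E τ (S i) (star x' * a n * x') * star (a n)) := by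
      calc τ (star x' * x') = τ (star x' * (a n * x' * star (a n))) := by rw [← h1]
        _ = τ ((star x' * a n * x') * star (a n)) := by simp only [mul_assoc]
        _ = τ (E τ (S i) ((star x' * a n * x') * star (a n))) := (P.trace _).symm
        _ = _ := by rw [P.right _ (hsa n)]
    rw [h.n2_sq, h2]
    have h3 := h.cauchy' (E τ (S i) (star x' * a n * x')) (star (a n))
    rw [hnorm n, mul_one] at h3
    exact (Complex.re_le_norm _).trans h3
  have hlim := mix_eq h S hf hd hW i a (fun n => (ha n).1) hn (star x') x'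
  simp only [hEx, mul_zero, sub_zero] at hlim
  have hle : n2 τ x' ^ 2 ≤ 0 := ge_of_tendsto' hlim hkey
  have hz : n2 τ x' = 0 := by
    have := sq_nonneg (n2 τ x')
    have h4 : n2 τ x' ^ 2 = 0 := le_antisymm hle this
    exact pow_eq_zero_iff two_ne_zero |>.1 h4
  have hx0 := h.eq_zero hz
  have : x = E τ (S i) x := sub_eq_zero.1 hx0
  rw [this]
  exact P.mem x

end Pool.Agent.H467F
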