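import Pool.Agent.Helper467.FP.Defs

set_option autoImplicit false

open scoped ComplexOrder Topology InnerProductSpace
open Filter

namespace Pool.Agent.H467F

universe u v w

variable {M : Type u} [CStarAlgebra M] {τ : M →ₗ[ℂ] ℂ}

theorem h208_lc {X : Type*} {W : Type*} [AddCommGroup W] [Module ℂ W] (g : X → W) (x : X →₀ ℂ) :
    Finsupp.linearCombination ℂ g x =
      ∑ k : Fin x.support.card, x (x.support.equivFin.symm k) • g (x.support.equivFin.symm k) := by
  rw [Finsupp.linearCombination_apply, Finsupp.sum,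
    Equiv.sum_comp x.support.equivFin.symm (fun y : x.support => x y • g y)]
  exact (Finset.sum_coe_sort x.support (fun y => x y • g y)).symm

theorem ext_map {X : Type u} {K : Type v} [NormedAddCommGroup K] [InnerProductSpace ℂ K]
    (v : X → K) (hv : (Submodule.span ℂ (Set.range v)).topologicalClosure = ⊤)
    {L : Type w} [NormedAddCommGroup L] [NormedSpace ℂ L] [CompleteSpace L] (f : X → L) (C : ℝ)
    (hf : ∀ (n : ℕ) (p : Fin n → X) (c : Fin n → ℂ),
      ‖∑ k, c k • f (p k)‖ ≤ C * ‖∑ k, c k • v (p k)‖) :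
    ∃ Φ : K →L[ℂ] L, (∀ p, Φ (v p) = f p) ∧ ∀ ξ, ‖Φ ξ‖ ≤ C * ‖ξ‖ := by
  have hbd : ∀ x : X →₀ ℂ, ‖Finsupp.linearCombination ℂ f x‖ ≤
      C * ‖Finsupp.linearCombination ℂ v x‖ := by
    intro x
    rw [h208_lc f x, h208_lc v x]
    exact hf _ _ _
  have hdense : DenseRange (Finsupp.linearCombination ℂ v) := by
    rw [DenseRange, ← LinearMap.coe_range, Finsupp.range_linearCombination]
    rwa [← Submodule.dense_iff_topologicalClosure_eq_top] at hv
  refine ⟨(Finsupp.linearCombination ℂ f).extendOfNorm (Finsupp.linearCombination ℂ v), ?_, ?_⟩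
  · intro p
    have h1 := LinearMap.extendOfNorm_eq hdense ⟨C, hbd⟩ (Finsupp.single p (1 : ℂ))
    rw [Finsupp.linearCombination_single, Finsupp.linearCombination_single, one_smul,
      one_smul] at h1
    exact h1
  · exact LinearMap.norm_extendOfNorm_apply_le hdense C hbd

end Pool.Agent.H467F
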