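import Pool.Agent.Helper467.FP.Defs
import Pool.Agent.Helper467.FP.P_n2_mul_le
import Pool.Agent.Helper467.FP.P_tau_bounds
import Pool.Agent.Helper467.FP.P_exists_lim

set_option autoImplicit false

open scoped ComplexOrder Topology InnerProductSpace
open Filter

namespace Pool.Agent.H467F

universe u v w

variable {M : Type u} [CStarAlgebra M] {τ : M →ₗ[ℂ] ℂ}

/-- type copy of `M` carrying the 2-norm -/
def Gns2Pre {M : Type u} [CStarAlgebra M] {τ : M →ₗ[ℂ] ℂ} (_ : TW τ) : Type u := M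

namespace Gns2Pre

variable {M : Type u} [CStarAlgebra M] {τ : M →ₗ[ℂ] ℂ} (h : TW τ)

instance : AddCommGroup (Gns2Pre h) := inferInstanceAs (AddCommGroup M)
instance : Module ℂ (Gns2Pre h) := inferInstanceAs (Module ℂ M)

@[instance_reducible]
noncomputable def core : InnerProductSpace.Core ℂ (Gns2Pre h) where
  inner x y := h.core.inner x y
  conj_inner_symm x y := h.core.conj_inner_symm x y
  re_inner_nonneg x := h.core.re_inner_nonneg x
  add_left x y z := h.core.add_left x y z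
  smul_left x y r := h.core.smul_left x y r
  definite x hx := h.faithful x hx

noncomputable instance : NormedAddCommGroup (Gns2Pre h) := (core h).toNormedAddCommGroup
noncomputable instance : InnerProductSpace ℂ (Gns2Pre h) := InnerProductSpace.ofCore (core h).toCore

theorem norm_eq (x : Gns2Pre h) : ‖x‖ = n2 τ (show M from x) := by
  rw [norm_eq_sqrt_re_inner (𝕜 := ℂ) x]
  rfl

/-- the embedding -/
noncomputable def emb : M →ₗ[ℂ] UniformSpace.Completion (Gns2Pre h) where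
  toFun x := ((show Gns2Pre h from x : Gns2Pre h) : UniformSpace.Completion (Gns2Pre h))
  map_add' x y := UniformSpace.Completion.coe_add (α := Gns2Pre h) x y
  map_smul' c x := UniformSpace.Completion.coe_smul (X := Gns2Pre h) c x

theorem emb_inner (x y : M) : ⟪emb h x, emb h y⟫_ℂ = τ (star x * y) :=
  UniformSpace.Completion.inner_coe (𝕜 := ℂ) (E := Gns2Pre h) x y

theorem emb_norm (x : M) : ‖emb h x‖ = n2 τ x :=
  (UniformSpace.Completion.norm_coe (E := Gns2Pre h) x).trans (norm_eq h x)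

theorem emb_dense : DenseRange (emb h) := UniformSpace.Completion.denseRange_coe (α := Gns2Pre h)

end Gns2Pre

theorem gns2 {M : Type u} [CStarAlgebra M] {τ : M →ₗ[ℂ] ℂ} (h : TW τ) :
    ∃ (K : Type u) (_ : NormedAddCommGroup K) (_ : InnerProductSpace ℂ K) (_ : CompleteSpace K)
      (j : M →ₗ[ℂ] K), DenseRange j ∧ (∀ x y, ⟪j x, j y⟫_ℂ = τ (star x * y)) ∧
      (∀ x, ‖j x‖ = n2 τ x) ∧
      (∀ (C : ℝ) (ξ : K), ξ ∈ closure (j '' {x | ‖x‖ ≤ C}) → ∃ x, ‖x‖ ≤ C ∧ j x = ξ) ∧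
      (∀ a : M, ∃ L : K →L[ℂ] K, ∀ x, L (j x) = j (a * x)) ∧
      (∀ a : M, ∃ L : K →L[ℂ] K, ∀ x, L (j x) = j (x * a)) := by
  refine ⟨UniformSpace.Completion (Gns2Pre h), inferInstance, inferInstance, inferInstance,
    Gns2Pre.emb h, Gns2Pre.emb_dense h, Gns2Pre.emb_inner h, Gns2Pre.emb_norm h, ?_, ?_, ?_⟩
  · intro C ξ hξ
    rw [mem_closure_iff_seq_limit] at hξ
    obtain ⟨y, hy, hlim⟩ := hξ
    choose x hx hxy using hy
    have hC : ∀ n, ‖x n‖ ≤ C := hx
    have hdist : ∀ a b : M, dist (Gns2Pre.emb h a) (Gns2Pre.emb h b) = n2 τ (a - b) := by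
      intro a b
      rw [dist_eq_norm, ← map_sub, Gns2Pre.emb_norm]
    have hcau : ∀ ε : ℝ, 0 < ε → ∃ N, ∀ m ≥ N, ∀ n ≥ N, n2 τ (x m - x n) < ε := by
      intro ε hε
      obtain ⟨N, hN⟩ := Metric.cauchySeq_iff.mp hlim.cauchySeq ε hε
      refine ⟨N, fun m hm n hn => ?_⟩
      have := hN m hm n hn
      rwa [← hxy m, ← hxy n, hdist] at this
    obtain ⟨z, hz, hzlim⟩ := exists_lim h x C hC hcau
    refine ⟨z, hz, ?_⟩
    have h2 : Tendsto y atTop (𝓝 (Gns2Pre.emb h z)) := by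
      rw [tendsto_iff_dist_tendsto_zero]
      refine hzlim.congr (fun n => ?_)
      rw [← hxy n, hdist]
    exact tendsto_nhds_unique h2 hlim
  · intro a
    refine ⟨(Gns2Pre.emb h ∘ₗ LinearMap.mulLeft ℂ a).extendOfNorm (Gns2Pre.emb h), fun x => ?_⟩
    rw [LinearMap.extendOfNorm_eq (Gns2Pre.emb_dense h)]
    · rfl
    · refine ⟨‖a‖, fun x => ?_⟩
      rw [LinearMap.comp_apply, LinearMap.mulLeft_apply, Gns2Pre.emb_norm, Gns2Pre.emb_norm]
      exact (n2_mul_le h a x).1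
  · intro a
    refine ⟨(Gns2Pre.emb h ∘ₗ LinearMap.mulRight ℂ a).extendOfNorm (Gns2Pre.emb h), fun x => ?_⟩
    rw [LinearMap.extendOfNorm_eq (Gns2Pre.emb_dense h)]
    · rfl
    · refine ⟨‖a‖, fun x => ?_⟩
      rw [LinearMap.comp_apply, LinearMap.mulRight_apply, Gns2Pre.emb_norm, Gns2Pre.emb_norm,
        mul_comm]
      exact (n2_mul_le h a x).2

end Pool.Agent.H467F
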