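import Pool.Agent.Helper467.FP.Defs

set_option autoImplicit false

open scoped ComplexOrder Topology InnerProductSpace
open Filter

namespace Pool.Agent.H467F

universe u v w

variable {M : Type u} [CStarAlgebra M] {τ : M →ₗ[ℂ] ℂ}

theorem hilbert_fixed {K : Type v} [NormedAddCommGroup K] [InnerProductSpace ℂ K] [CompleteSpace K]
    (G : Set (K →L[ℂ] K)) (hG : ∀ g ∈ G, ∀ ξ, ‖g ξ‖ = ‖ξ‖) (hm : ∀ g ∈ G, ∀ g' ∈ G, g.comp g' ∈ G)
    (hne : G.Nonempty) (b : K) (ε : ℝ) (hε : 0 < ε) (hb : ∀ g ∈ G, ε ≤ (⟪b, g b⟫_ℂ).re) :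
    ∃ d ∈ closure (convexHull ℝ ((fun g : K →L[ℂ] K => g b) '' G)), (∀ g ∈ G, g d = d) ∧
      ε ≤ (⟪b, d⟫_ℂ).re := by
  classical
  set S : Set K := (fun g : K →L[ℂ] K => g b) '' G with hS
  set C : Set K := closure (convexHull ℝ S) with hC
  have hSC : S ⊆ C := (subset_convexHull ℝ S).trans subset_closure
  have hCne : C.Nonempty := by
    obtain ⟨g, hg⟩ := hne
    exact ⟨g b, hSC ⟨g, hg, rfl⟩⟩
  have hCx : Convex ℝ C := (convex_convexHull ℝ S).closure
  have hCcl : IsClosed C := isClosed_closure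
  have hmem : ∀ T : Set K, Convex ℝ T → IsClosed T → S ⊆ T → C ⊆ T := fun T h1 h2 h3 =>
    closure_minimal (convexHull_min h3 h1) h2
  obtain ⟨d, hdC, hd⟩ : ∃ d ∈ C, ∀ w ∈ C, ‖d‖ ≤ ‖w‖ := by
    letI : InnerProductSpace ℝ K := InnerProductSpace.complexToReal
    obtain ⟨d, hdC, hd⟩ := exists_norm_eq_iInf_of_complete_convex hCne hCcl.isComplete hCx 0
    refine ⟨d, hdC, fun w hw => ?_⟩
    rw [zero_sub, norm_neg] at hd
    rw [hd]
    have hb : BddBelow (Set.range fun w : C => ‖0 - (w : K)‖) :=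
      ⟨0, by rintro _ ⟨w, rfl⟩; exact norm_nonneg _⟩
    have := ciInf_le hb ⟨w, hw⟩
    simpa using this
  have huniq : ∀ d' ∈ C, ‖d'‖ = ‖d‖ → d' = d := by
    intro d' hd' hn
    have hm2 : (1 / 2 : ℝ) • d' + (1 / 2 : ℝ) • d ∈ C :=
      hCx hd' hdC (by norm_num) (by norm_num) (by norm_num)
    have h1 := hd _ hm2
    rw [← smul_add, norm_smul] at h1
    have h2 := parallelogram_law_with_norm ℂ d' d
    have h3 : 2 * ‖d‖ ≤ ‖d' + d‖ := by
      have : ‖(1 / 2 : ℝ)‖ = 1 / 2 := by norm_num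
      rw [this] at h1
      linarith
    have h4 : ‖d' - d‖ * ‖d' - d‖ ≤ 0 := by
      have h5 := norm_nonneg d
      rw [hn] at h2
      nlinarith
    have h5 : ‖d' - d‖ = 0 := by
      have := mul_self_nonneg ‖d' - d‖
      exact mul_self_eq_zero.1 (le_antisymm h4 this)
    exact sub_eq_zero.1 (norm_eq_zero.1 h5)
  refine ⟨d, hdC, ?_, ?_⟩
  · intro g hg
    apply huniq _ _ (hG g hg d)
    have : C ⊆ g ⁻¹' C := by
      apply hmem
      · exact hCx.linear_preimage (g.toLinearMap.restrictScalars ℝ)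
      · exact hCcl.preimage g.continuous
      · rintro _ ⟨g', hg', rfl⟩
        exact hSC ⟨g.comp g', hm g hg g' hg', rfl⟩
    exact this hdC
  · have : C ⊆ {x : K | ε ≤ (⟪b, x⟫_ℂ).re} := by
      apply hmem
      · refine convex_halfSpace_ge (f := fun x : K => (⟪b, x⟫_ℂ).re) ⟨?_, ?_⟩ ε
        · intro x y
          rw [inner_add_right, Complex.add_re]
        · intro c x
          have : (c • x : K) = (c : ℂ) • x := rfl
          rw [this, inner_smul_right, Complex.re_ofReal_mul]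
          rfl
      · apply isClosed_le continuous_const
        exact Complex.continuous_re.comp (continuous_const.inner continuous_id)
      · rintro _ ⟨g, hg, rfl⟩
        exact hb g hg
    exact this hdC

end Pool.Agent.H467F
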