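import Pool.Agent.Helper467.FP.Defs

set_option autoImplicit false

open scoped ComplexOrder Topology InnerProductSpace
open Filter

namespace Pool.Agent.H467F

universe u v w

variable {M : Type u} [CStarAlgebra M] {τ : M →ₗ[ℂ] ℂ}

theorem kolmogorov_herm {X : Type u} (κ : X → X → ℂ)
    (hκ : ∀ (n : ℕ) (p : Fin n → X) (c : Fin n → ℂ),
      0 ≤ ∑ k, ∑ l, star (c l) * c k * κ (p l) (p k)) (x y : X) : star (κ y x) = κ x y := by
  have h1 := hκ 1 (fun _ => x) (fun _ => 1)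
  have h1' := hκ 1 (fun _ => y) (fun _ => 1)
  have h2 := hκ 2 ![x, y] ![1, 1]
  have h3 := hκ 2 ![x, y] ![1, Complex.I]
  rw [Complex.nonneg_iff] at h1 h1' h2 h3
  have a1 := h1.2
  have a1' := h1'.2
  have a2 := h2.2
  have a3 := h3.2
  simp [Fin.sum_univ_two] at a1 a1' a2 a3
  apply Complex.ext
  · show (κ y x).re = _
    linarith
  · show -(κ y x).im = _
    linarith

theorem kolmogorov_sum {X : Type u} (κ : X → X → ℂ)
    (hκ : ∀ (n : ℕ) (p : Fin n → X) (c : Fin n → ℂ),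
      0 ≤ ∑ k, ∑ l, star (c l) * c k * κ (p l) (p k)) (s : Finset X) (c : X → ℂ) :
    0 ≤ ∑ y ∈ s, ∑ x ∈ s, star (c x) * c y * κ x y := by
  have h := hκ s.card (fun i => (s.equivFin.symm i : X)) (fun i => c (s.equivFin.symm i : X))
  have e : ∀ f : X → ℂ, ∑ i : Fin s.card, f (s.equivFin.symm i : X) = ∑ x ∈ s, f x := by
    intro f
    rw [Equiv.sum_comp s.equivFin.symm (fun x : s => f x)]
    exact Finset.sum_coe_sort s f
  have e2 : ∑ k : Fin s.card, ∑ l : Fin s.card, star (c (s.equivFin.symm l : X)) *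
      c (s.equivFin.symm k : X) * κ (s.equivFin.symm l : X) (s.equivFin.symm k : X) =
      ∑ y ∈ s, ∑ x ∈ s, star (c x) * c y * κ x y := by
    rw [← e (fun y => ∑ x ∈ s, star (c x) * c y * κ x y)]
    refine Finset.sum_congr rfl fun k _ => ?_
    exact e (fun x => star (c x) * c (s.equivFin.symm k : X) * κ x (s.equivFin.symm k : X))
  rw [e2] at h
  exact h

/-- the operator valued kernel -/
noncomputable def kolmogorov_K {X : Type u} (κ : X → X → ℂ) : Matrix X X (ℂ →L[ℂ] ℂ) :=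
  Matrix.of fun x y => κ x y • (1 : ℂ →L[ℂ] ℂ)

theorem kolmogorov_pos {X : Type u} (κ : X → X → ℂ)
    (hκ : ∀ (n : ℕ) (p : Fin n → X) (c : Fin n → ℂ),
      0 ≤ ∑ k, ∑ l, star (c l) * c k * κ (p l) (p k)) : (kolmogorov_K κ).PosSemidef := by
  have hh := kolmogorov_herm κ hκ
  have T := RKHS.posSemidef_tfae (K := kolmogorov_K κ)
  have T2 : (kolmogorov_K κ).PosSemidef ↔ (kolmogorov_K κ).IsHermitian ∧ ∀ (vv : X →₀ ℂ),
    0 ≤ RCLike.re (vv.sum fun x w => vv.sum fun x' w' => ⟪kolmogorov_K κ x' x w, w'⟫_ℂ) :=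
    T.out 0 2
  refine T2.mpr ⟨?_, fun vv => ?_⟩
  · ext x y
    show (star (κ y x • (1 : ℂ →L[ℂ] ℂ))) 1 = (κ x y • (1 : ℂ →L[ℂ] ℂ)) 1
    rw [star_smul, star_one, hh]
  · have h := kolmogorov_sum κ hκ vv.support vv
    have e : (vv.sum fun x w => vv.sum fun x' w' => ⟪kolmogorov_K κ x' x w, w'⟫_ℂ) =
        ∑ y ∈ vv.support, ∑ x ∈ vv.support, star (vv x) * vv y * κ x y := by
      unfold Finsupp.sum
      rw [Finset.sum_comm]
      refine Finset.sum_congr rfl fun y _ => Finset.sum_congr rfl fun x _ => ?_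
      show ⟪κ y x • (vv x), vv y⟫_ℂ = _
      rw [inner_smul_left]
      have h1 : (starRingEnd ℂ) (κ y x) = κ x y := hh x y
      rw [h1]
      have h2 : ⟪vv x, vv y⟫_ℂ = vv y * star (vv x) := rfl
      rw [h2]
      ring
    rw [e]
    exact (Complex.nonneg_iff.1 h).1

theorem kolmogorov {X : Type u} (κ : X → X → ℂ)
    (hκ : ∀ (n : ℕ) (p : Fin n → X) (c : Fin n → ℂ),
      0 ≤ ∑ k, ∑ l, star (c l) * c k * κ (p l) (p k)) :
    ∃ (K : Type u) (_ : NormedAddCommGroup K) (_ : InnerProductSpace ℂ K) (_ : CompleteSpace K)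
      (v : X → K), (∀ p q, ⟪v p, v q⟫_ℂ = κ p q) ∧
        (Submodule.span ℂ (Set.range v)).topologicalClosure = ⊤ := by
  have hpos := kolmogorov_pos κ hκ
  haveI : Fact (kolmogorov_K κ).PosSemidef := ⟨hpos⟩
  refine ⟨RKHS.OfKernel (kolmogorov_K κ), inferInstance, inferInstance, inferInstance,
    fun p => RKHS.kerFun (RKHS.OfKernel (kolmogorov_K κ)) p 1, ?_, ?_⟩
  · intro p q
    rw [← RKHS.kernel_inner, RKHS.OfKernel.kernel_ofKernel]
    show ⟪κ q p • (1 : ℂ), 1⟫_ℂ = κ p q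
    rw [inner_smul_left]
    have h1 : (starRingEnd ℂ) (κ q p) = κ p q := kolmogorov_herm κ hκ p q
    rw [h1]
    simp
  · rw [eq_top_iff, ← RKHS.kerFun_dense (RKHS.OfKernel (kolmogorov_K κ))]
    apply Submodule.topologicalClosure_mono
    rw [Submodule.span_le]
    rintro _ ⟨x, v, rfl⟩
    have h1 : RKHS.kerFun (RKHS.OfKernel (kolmogorov_K κ)) x v =
        v • RKHS.kerFun (RKHS.OfKernel (kolmogorov_K κ)) x 1 := by
      rw [← map_smul, smul_eq_mul, mul_one]
    rw [h1]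
    exact Submodule.smul_mem _ _ (Submodule.subset_span ⟨x, rfl⟩)

end Pool.Agent.H467F
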