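import Pool.Agent.Helper467.FP.Defs
import Pool.Agent.Helper467.FP.P_n2_mul_le
import Pool.Agent.Helper467.FP.P_tau_bounds
import Pool.Agent.Helper467.FP.P_ep
import Pool.Agent.Helper467.FP.P_E_contr
import Pool.Agent.Helper467.FP.P_E_cp
import Pool.Agent.Helper467.FP.P_E_schwarz
import Pool.Agent.Helper467.FP.P_kolmogorov
import Pool.Agent.Helper467.FP.P_ext_map
import Pool.Agent.Helper467.FP.P_hilbert_fixed
import Pool.Agent.Helper467.FP.P_gns2

set_option autoImplicit false

open scoped ComplexOrder Topology InnerProductSpace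
open Filter

namespace Pool.Agent.H467F

universe u v w

variable {M : Type u} [CStarAlgebra M] {τ : M →ₗ[ℂ] ℂ}

/-! ### helper lemmas for `exists_D` -/

section xd
variable {M : Type u} [CStarAlgebra M] {τ : M →ₗ[ℂ] ℂ} {J : Type} [Fintype J]

open Classical in
/-- the kernel -/
noncomputable def xdK (τ : M →ₗ[ℂ] ℂ) (R : J → StarSubalgebra ℂ M) (P Q : J × M × M) : ℂ :=
  if P.1 = Q.1 then τ (star P.2.2 * E τ (R P.1) (star P.2.1 * Q.2.1) * Q.2.2) else 0

open Classical in
/-- the vectors of the component `j` -/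
noncomputable def xdX (j : J) (c : ℂ) (P : J × M × M) : M := if P.1 = j then c • P.2.1 else 0

/-- the Gram sum of the component `j` -/
noncomputable def xdG (τ : M →ₗ[ℂ] ℂ) (R : J → StarSubalgebra ℂ M) (j : J) (n : ℕ)
    (p : Fin n → J × M × M) (c : Fin n → ℂ) : ℂ :=
  ∑ k, ∑ l, τ (star (p l).2.2 * E τ (R j) (star (xdX j (c l) (p l)) * xdX j (c k) (p k)) *
    (p k).2.2)

theorem xd_E0 (h : TW τ) (S : StarSubalgebra ℂ M) (hS : IsW τ S) : E τ S 0 = 0 :=
  (ep h S hS).of_mem 0 S.zero_mem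

theorem xd_sum (h : TW τ) (R : J → StarSubalgebra ℂ M) (hR : ∀ j, IsW τ (R j)) (n : ℕ)
    (p : Fin n → J × M × M) (c : Fin n → ℂ) :
    ∑ k, ∑ l, star (c l) * c k * xdK τ R (p l) (p k) = ∑ j, xdG τ R j n p c := by
  classical
  unfold xdG
  refine Eq.trans ?_ Finset.sum_comm
  have h2 : ∀ k, (∑ j, ∑ l, τ (star (p l).2.2 * E τ (R j) (star (xdX j (c l) (p l)) *
      xdX j (c k) (p k)) * (p k).2.2)) = ∑ l, ∑ j, τ (star (p l).2.2 * E τ (R j)
        (star (xdX j (c l) (p l)) * xdX j (c k) (p k)) * (p k).2.2) := fun k => Finset.sum_comm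
  apply Finset.sum_congr rfl
  intro k _
  rw [h2]
  apply Finset.sum_congr rfl
  intro l _
  rw [Finset.sum_eq_single (p l).1]
  · by_cases hkl : (p l).1 = (p k).1
    · unfold xdK xdX
      rw [if_pos hkl, if_pos rfl, if_pos hkl.symm, star_smul, smul_mul_smul_comm,
        (ep h _ (hR _)).smul, mul_smul_comm, smul_mul_assoc, map_smul, smul_eq_mul]
    · unfold xdK xdX
      rw [if_neg hkl, if_pos rfl, if_neg (fun h : (p k).1 = (p l).1 => hkl h.symm), mul_zero,
        mul_zero, xd_E0 h _ (hR _), mul_zero, zero_mul, map_zero]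
  · intro j _ hj
    have : xdX j (c l) (p l) = 0 := by
      unfold xdX
      rw [if_neg (fun h => hj h.symm)]
    rw [this, star_zero, zero_mul, xd_E0 h _ (hR _), mul_zero, zero_mul, map_zero]
  · intro hj
    exact absurd (Finset.mem_univ _) hj

theorem xd_Gnn (h : TW τ) (R : J → StarSubalgebra ℂ M) (hR : ∀ j, IsW τ (R j)) (j : J) (n : ℕ)
    (p : Fin n → J × M × M) (c : Fin n → ℂ) : 0 ≤ xdG τ R j n p c :=
  E_cp h (R j) (hR j) n (fun k => xdX j (c k) (p k)) (fun k => (p k).2.2)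

theorem xd_pos (h : TW τ) (R : J → StarSubalgebra ℂ M) (hR : ∀ j, IsW τ (R j)) (n : ℕ)
    (p : Fin n → J × M × M) (c : Fin n → ℂ) :
    0 ≤ ∑ k, ∑ l, star (c l) * c k * xdK τ R (p l) (p k) := by
  rw [xd_sum h R hR]
  exact Finset.sum_nonneg (fun j _ => xd_Gnn h R hR j n p c)

variable {K : Type u} [NormedAddCommGroup K] [InnerProductSpace ℂ K]

theorem xd_norm (R : J → StarSubalgebra ℂ M) (v : J × M × M → K)
    (hv : ∀ P Q, ⟪v P, v Q⟫_ℂ = xdK τ R P Q) (n : ℕ) (p : Fin n → J × M × M) (c : Fin n → ℂ) :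
    ‖∑ k, c k • v (p k)‖ ^ 2 = (∑ k, ∑ l, star (c l) * c k * xdK τ R (p l) (p k)).re := by
  have e : ∑ k, ∑ l, star (c l) * c k * xdK τ R (p l) (p k) =
      ∑ l, ∑ k, star (c l) * c k * xdK τ R (p l) (p k) := Finset.sum_comm
  rw [← @inner_self_eq_norm_sq ℂ, sum_inner, e]
  show Complex.re _ = _
  congr 1
  apply Finset.sum_congr rfl
  intro l _
  rw [inner_sum]
  apply Finset.sum_congr rfl
  intro k _
  rw [inner_smul_left, inner_smul_right, hv]
  rw [mul_assoc]
  rfl

variable [CompleteSpace K] {H : Type u} [NormedAddCommGroup H] [InnerProductSpace ℂ H]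
  [CompleteSpace H]

open Classical in
theorem xd_Phi (h : TW τ) (R : J → StarSubalgebra ℂ M) (hR : ∀ j, IsW τ (R j))
    (v : J × M × M → K) (hv : ∀ P Q, ⟪v P, v Q⟫_ℂ = xdK τ R P Q)
    (hd : (Submodule.span ℂ (Set.range v)).topologicalClosure = ⊤)
    (q : M →ₗ[ℂ] H) (hq : ∀ x, ‖q x‖ = n2 τ x) (j : J) (z : M) :
    ∃ Φ : K →L[ℂ] H, (∀ P, Φ (v P) = if P.1 = j then q (P.2.1 * E τ (R j) (P.2.2 * z)) else 0) ∧
      ∀ ξ, ‖Φ ξ‖ ≤ ‖z‖ * ‖ξ‖ := by
  apply ext_map v hd
  intro n p c
  have h1 : ∀ k, c k • (if (p k).1 = j then q ((p k).2.1 * E τ (R j) ((p k).2.2 * z)) else 0) =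
      q (xdX j (c k) (p k) * E τ (R j) ((p k).2.2 * z)) := by
    intro k
    unfold xdX
    by_cases hk : (p k).1 = j
    · rw [if_pos hk, if_pos hk, smul_mul_assoc, map_smul]
    · rw [if_neg hk, if_neg hk, zero_mul, map_zero, smul_zero]
  have h2 : (∑ k, c k • (if (p k).1 = j then q ((p k).2.1 * E τ (R j) ((p k).2.2 * z)) else 0)) =
      q (∑ k, xdX j (c k) (p k) * E τ (R j) ((p k).2.2 * z)) := by
    rw [map_sum]
    exact Finset.sum_congr rfl (fun k _ => h1 k)
  rw [h2, hq]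
  have h3 := E_schwarz h (R j) (hR j) n (fun k => xdX j (c k) (p k)) (fun k => (p k).2.2) z
  have h4 := xd_norm R v hv n p c
  have h5 : (xdG τ R j n p c).re ≤ (∑ k, ∑ l, star (c l) * c k * xdK τ R (p l) (p k)).re := by
    rw [xd_sum h R hR, Complex.re_sum]
    exact Finset.single_le_sum (f := fun j => (xdG τ R j n p c).re)
      (fun i _ => (Complex.nonneg_iff.1 (xd_Gnn h R hR i n p c)).1) (Finset.mem_univ j)
  have h6 : n2 τ (∑ k, xdX j (c k) (p k) * E τ (R j) ((p k).2.2 * z)) ^ 2 ≤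
      (‖z‖ * ‖∑ k, c k • v (p k)‖) ^ 2 := by
    refine le_trans h3 ?_
    rw [mul_pow, h4]
    exact mul_le_mul_of_nonneg_left h5 (sq_nonneg _)
  exact (pow_le_pow_iff_left₀ (n2_nonneg _ _) (by positivity) two_ne_zero).1 h6

theorem xd_ext {L : Type u} [NormedAddCommGroup L] [InnerProductSpace ℂ L]
    (v : J × M × M → K) (hd : (Submodule.span ℂ (Set.range v)).topologicalClosure = ⊤)
    (f g : K →L[ℂ] L) (hfg : ∀ P, f (v P) = g (v P)) (ξ : K) : f ξ = g ξ := by
  have h1 : Dense ((Submodule.span ℂ (Set.range v) : Submodule ℂ K) : Set K) :=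
    Submodule.dense_iff_topologicalClosure_eq_top.2 hd
  have h2 : f = g := by
    apply ContinuousLinearMap.ext_on h1
    rintro _ ⟨P, rfl⟩
    exact hfg P
  rw [h2]

theorem xd_W (h : TW τ) (R : J → StarSubalgebra ℂ M)
    (v : J × M × M → K) (hv : ∀ P Q, ⟪v P, v Q⟫_ℂ = xdK τ R P Q)
    (hd : (Submodule.span ℂ (Set.range v)).topologicalClosure = ⊤)
    (u : M) (hu : star u * u = 1) (hu' : u * star u = 1) :
    ∃ W : K →L[ℂ] K, (∀ P, W (v P) = v (P.1, u * P.2.1, P.2.2 * star u)) ∧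
      ∀ ξ, ‖W ξ‖ ≤ 1 * ‖ξ‖ := by
  obtain ⟨W, hW, hW1⟩ := ext_map v hd (fun P => v (P.1, u * P.2.1, P.2.2 * star u)) 1 (by
    intro n p c
    rw [one_mul]
    have h1 : ∀ P Q : J × M × M, xdK τ R (P.1, u * P.2.1, P.2.2 * star u)
        (Q.1, u * Q.2.1, Q.2.2 * star u) = xdK τ R P Q := by
      intro P Q
      unfold xdK
      have e1 : star (u * P.2.1) * (u * Q.2.1) = star P.2.1 * Q.2.1 := by
        rw [star_mul]
        calc star P.2.1 * star u * (u * Q.2.1) = star P.2.1 * (star u * u) * Q.2.1 := by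
              noncomm_ring
          _ = star P.2.1 * Q.2.1 := by rw [hu, mul_one]
      have e2 : ∀ w : M, τ (star (P.2.2 * star u) * w * (Q.2.2 * star u)) =
          τ (star P.2.2 * w * Q.2.2) := by
        intro w
        rw [star_mul, star_star]
        calc τ (u * star P.2.2 * w * (Q.2.2 * star u)) =
            τ (u * (star P.2.2 * w * Q.2.2 * star u)) := by congr 1; noncomm_ring
          _ = τ (star P.2.2 * w * Q.2.2 * star u * u) := h.comm _ _
          _ = τ (star P.2.2 * w * Q.2.2 * (star u * u)) := by congr 1; noncomm_ring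
          _ = τ (star P.2.2 * w * Q.2.2) := by rw [hu, mul_one]
      simp only [e1, e2]
    have h2 := xd_norm R v hv n p c
    have h3 := xd_norm R v hv n (fun k => ((p k).1, u * (p k).2.1, (p k).2.2 * star u)) c
    simp only [h1] at h3
    rw [← h2] at h3
    exact ((pow_left_inj₀ (norm_nonneg _) (norm_nonneg _) two_ne_zero).1 h3).le)
  exact ⟨W, hW, hW1⟩

theorem xd_isom (h : TW τ) (R : J → StarSubalgebra ℂ M)
    (v : J × M × M → K) (hv : ∀ P Q, ⟪v P, v Q⟫_ℂ = xdK τ R P Q)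
    (hd : (Submodule.span ℂ (Set.range v)).topologicalClosure = ⊤)
    (u : M) (hu : star u * u = 1) (hu' : u * star u = 1) (g : K →L[ℂ] K)
    (hg : ∀ P, g (v P) = v (P.1, u * P.2.1, P.2.2 * star u)) (ξ : K) : ‖g ξ‖ = ‖ξ‖ := by
  obtain ⟨W, hW, hW1⟩ := xd_W h R v hv hd u hu hu'
  obtain ⟨W', hW', hW1'⟩ := xd_W h R v hv hd (star u) (by rw [star_star]; exact hu')
    (by rw [star_star]; exact hu)
  have h1 : g ξ = W ξ := xd_ext v hd g W (fun P => by rw [hg, hW]) ξ
  have h2 : W' (W ξ) = ξ := by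
    refine xd_ext v hd (W'.comp W) (ContinuousLinearMap.id ℂ K) (fun P => ?_) ξ
    rw [ContinuousLinearMap.comp_apply, hW, hW', ContinuousLinearMap.id_apply]
    have e1 : star u * (u * P.2.1) = P.2.1 := by rw [← mul_assoc, hu, one_mul]
    have e2 : P.2.2 * star u * star (star u) = P.2.2 := by
      rw [star_star, mul_assoc, hu, mul_one]
    show v (P.1, star u * (u * P.2.1), P.2.2 * star u * star (star u)) = v P
    rw [e1, e2]
  have h3 := hW1 ξ
  have h4 := hW1' (W ξ)
  rw [h2] at h4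
  rw [h1]
  rw [one_mul] at h3 h4
  exact le_antisymm h3 h4

theorem xd_inner (h : TW τ) (R : J → StarSubalgebra ℂ M) (hR : ∀ j, IsW τ (R j))
    (v : J × M × M → K) (hv : ∀ P Q, ⟪v P, v Q⟫_ℂ = xdK τ R P Q)
    (hd : (Submodule.span ℂ (Set.range v)).topologicalClosure = ⊤)
    (q : M →ₗ[ℂ] H) (hq : ∀ x y, ⟪q x, q y⟫_ℂ = τ (star x * y)) (j : J) (x : M)
    (Φ : K →L[ℂ] H) (hΦ : ∀ X Y, Φ (v (j, X, Y)) = q (X * E τ (R j) (Y * x)))
    (hΦ' : ∀ i X Y, i ≠ j → Φ (v (i, X, Y)) = 0) (y : M) (hy : y = star x) (ξ : K) :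
    ⟪v (j, x, y), ξ⟫_ℂ = ⟪q x, Φ ξ⟫_ℂ := by
  classical
  subst hy
  have hE := ep h (R j) (hR j)
  have key : ∀ P, (innerSL ℂ (v (j, x, star x))) (v P) = ((innerSL ℂ (q x)).comp Φ) (v P) := by
    rintro ⟨i, X, Y⟩
    rw [ContinuousLinearMap.comp_apply, innerSL_apply_apply, innerSL_apply_apply, hv]
    by_cases hij : i = j
    · subst hij
      rw [hΦ, hq]
      unfold xdK
      rw [if_pos rfl]
      show τ (star (star x) * E τ (R i) (star x * X) * Y) = _
      rw [star_star]
      have e1 := hE.orth (Y * x) _ (hE.mem (star x * X))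
      have e2 := hE.orth (star x * X) _ (hE.mem (Y * x))
      rw [mul_sub, map_sub, sub_eq_zero] at e1 e2
      calc τ (x * E τ (R i) (star x * X) * Y) = τ (x * (E τ (R i) (star x * X) * Y)) := by
            rw [mul_assoc]
        _ = τ (E τ (R i) (star x * X) * Y * x) := h.comm _ _
        _ = τ (E τ (R i) (star x * X) * (Y * x)) := by rw [mul_assoc]
        _ = τ (E τ (R i) (star x * X) * E τ (R i) (Y * x)) := e1
        _ = τ (E τ (R i) (Y * x) * E τ (R i) (star x * X)) := h.comm _ _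
        _ = τ (E τ (R i) (Y * x) * (star x * X)) := e2.symm
        _ = τ (star x * X * E τ (R i) (Y * x)) := h.comm _ _
        _ = _ := by rw [mul_assoc]
    · rw [hΦ' i X Y hij, inner_zero_right]
      unfold xdK
      rw [if_neg (fun h => hij h.symm)]
  have h1 : Dense ((Submodule.span ℂ (Set.range v) : Submodule ℂ K) : Set K) :=
    Submodule.dense_iff_topologicalClosure_eq_top.2 hd
  have h2 : innerSL ℂ (v (j, x, star x)) = (innerSL ℂ (q x)).comp Φ := by
    apply ContinuousLinearMap.ext_on h1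
    rintro _ ⟨P, rfl⟩
    exact key P
  have h3 := congrArg (fun f : K →L[ℂ] ℂ => f ξ) h2
  simpa using h3

end xd

section xe
variable {M : Type u} [CStarAlgebra M] {τ : M →ₗ[ℂ] ℂ}

theorem uc_star {S : StarSubalgebra ℂ M} {p a : M} (ha : UC S p a) : UC S p (star a) :=
  ⟨star_mem ha.1, by rw [star_star]; exact ha.2.2, by rw [star_star]; exact ha.2.1⟩

theorem uc_ap {S : StarSubalgebra ℂ M} {p a : M} (hp : star p = p) (hpp : p * p = p)
    (ha : UC S p a) : a * p = a := by
  have h1 : star (a * p - a) * (a * p - a) = 0 := by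
    rw [star_sub, star_mul, hp]
    have e : (p * star a - star a) * (a * p - a) =
        p * (star a * a) * p - p * (star a * a) - (star a * a) * p + star a * a := by
      noncomm_ring
    rw [e, ha.2.1, hpp, hpp]
    abel
  rw [CStarRing.star_mul_self_eq_zero_iff] at h1
  exact sub_eq_zero.1 h1

theorem uc_sp {S : StarSubalgebra ℂ M} {p a : M} (hp : star p = p) (hpp : p * p = p)
    (ha : UC S p a) : star a * p = star a := uc_ap hp hpp (uc_star ha)

theorem uc_pa {S : StarSubalgebra ℂ M} {p a : M} (hp : star p = p) (hpp : p * p = p)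
    (ha : UC S p a) : p * a = a := by
  have := congrArg star (uc_sp hp hpp ha)
  rwa [star_mul, star_star, hp] at this

theorem uc_ps {S : StarSubalgebra ℂ M} {p a : M} (hp : star p = p) (hpp : p * p = p)
    (ha : UC S p a) : p * star a = star a := uc_pa hp hpp (uc_star ha)

theorem uc_mul {S : StarSubalgebra ℂ M} {p a b : M} (hp : star p = p) (hpp : p * p = p)
    (ha : UC S p a) (hb : UC S p b) : UC S p (a * b) := by
  refine ⟨mul_mem ha.1 hb.1, ?_, ?_⟩
  · calc star (a * b) * (a * b) = star b * ((star a * a) * b) := by rw [star_mul]; noncomm_ring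
      _ = p := by rw [ha.2.1, uc_pa hp hpp hb, hb.2.1]
  · calc a * b * star (a * b) = a * ((b * star b) * star a) := by rw [star_mul]; noncomm_ring
      _ = p := by rw [hb.2.2, uc_ps hp hpp ha, ha.2.2]

theorem uc_p {S : StarSubalgebra ℂ M} {p : M} (hp : star p = p) (hpp : p * p = p) (hpS : p ∈ S) :
    UC S p p := ⟨hpS, by rw [hp, hpp], by rw [hp, hpp]⟩

theorem uc_norm {S : StarSubalgebra ℂ M} {p a : M} (hp : star p = p) (hpp : p * p = p)
    (ha : UC S p a) : ‖a‖ ≤ 1 := by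
  have h1 : ‖p‖ ≤ 1 := by
    have h2 := CStarRing.norm_star_mul_self (x := p)
    rw [hp, hpp] at h2
    have h3 := norm_nonneg p
    nlinarith
  have h2 := CStarRing.norm_star_mul_self (x := a)
  rw [ha.2.1] at h2
  have h3 := norm_nonneg a
  nlinarith

theorem uc_t {S : StarSubalgebra ℂ M} {p a : M} (hp : star p = p) (hpp : p * p = p)
    (ha : UC S p a) : star (a + (1 - p)) * (a + (1 - p)) = 1 := by
  rw [star_add, star_sub, star_one, hp]
  have e : (star a + (1 - p)) * (a + (1 - p)) = star a * a + (star a - star a * p) +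
      (a - p * a) + (1 - p - p + p * p) := by noncomm_ring
  rw [e, uc_sp hp hpp ha, uc_pa hp hpp ha, ha.2.1, hpp]
  abel

theorem uc_t' {S : StarSubalgebra ℂ M} {p a : M} (hp : star p = p) (hpp : p * p = p)
    (ha : UC S p a) : (a + (1 - p)) * star (a + (1 - p)) = 1 := by
  rw [star_add, star_sub, star_one, hp]
  have e : (a + (1 - p)) * (star a + (1 - p)) = a * star a + (a - a * p) +
      (star a - p * star a) + (1 - p - p + p * p) := by noncomm_ring
  rw [e, uc_ap hp hpp ha, uc_ps hp hpp ha, ha.2.2, hpp]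
  abel

theorem uc_tm {S : StarSubalgebra ℂ M} {p a b : M} (hp : star p = p) (hpp : p * p = p)
    (ha : UC S p a) (hb : UC S p b) : (a + (1 - p)) * (b + (1 - p)) = a * b + (1 - p) := by
  have e : (a + (1 - p)) * (b + (1 - p)) = a * b + (a - a * p) +
      (b - p * b) + (1 - p - p + p * p) := by noncomm_ring
  rw [e, uc_ap hp hpp ha, uc_pa hp hpp hb, hpp]
  abel

theorem uc_tp {S : StarSubalgebra ℂ M} {p a : M} (hp : star p = p) (hpp : p * p = p)
    (ha : UC S p a) : (a + (1 - p)) * p = a := by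
  have e : (a + (1 - p)) * p = a * p + (p - p * p) := by noncomm_ring
  rw [e, uc_ap hp hpp ha, hpp]
  abel

theorem uc_pt {S : StarSubalgebra ℂ M} {p a : M} (hp : star p = p) (hpp : p * p = p)
    (ha : UC S p a) : p * (a + (1 - p)) = a := by
  have e : p * (a + (1 - p)) = p * a + (p - p * p) := by noncomm_ring
  rw [e, uc_pa hp hpp ha, hpp]
  abel

theorem xe_trace (h : TW τ) {S R : StarSubalgebra ℂ M} (hR : IsW τ R) {p a : M} (hp : star p = p)
    (hpp : p * p = p) (ha : UC S p a) (y z : M) :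
    τ (star (star z * p) * E τ R (star (p * z) * (a * y)) * (star y * star a)) =
      ((n2 τ (E τ R (star z * a * y)) ^ 2 : ℝ) : ℂ) := by
  have hE := ep h R hR
  have e1 : star (p * z) * (a * y) = star z * a * y := by
    rw [star_mul, hp]
    calc star z * p * (a * y) = star z * (p * a) * y := by noncomm_ring
      _ = _ := by rw [uc_pa hp hpp ha]
  have e2 : star (star z * p) = p * z := by rw [star_mul, star_star, hp]
  rw [e1, e2]
  set w := star z * a * y with hw
  have hw' : star w = star y * star a * z := by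
    rw [hw, star_mul, star_mul, star_star, mul_assoc]
  have e3 := hE.orth (star w) _ (hE.mem w)
  rw [mul_sub, map_sub, sub_eq_zero] at e3
  calc τ (p * z * E τ R w * (star y * star a)) = τ (p * (z * E τ R w * (star y * star a))) := by
        congr 1; noncomm_ring
    _ = τ (z * E τ R w * (star y * star a) * p) := h.comm _ _
    _ = τ (z * (E τ R w * (star y * (star a * p)))) := by congr 1; noncomm_ring
    _ = τ (E τ R w * (star y * (star a * p)) * z) := h.comm _ _
    _ = τ (E τ R w * star w) := by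
        rw [uc_sp hp hpp ha, hw']; congr 1; noncomm_ring
    _ = τ (E τ R w * star (E τ R w)) := by rw [e3, hE.star]
    _ = τ (star (E τ R w) * E τ R w) := h.comm _ _
    _ = _ := h.n2_sq' _

end xe

section xf
variable {M : Type u} [CStarAlgebra M] {τ : M →ₗ[ℂ] ℂ} {J : Type} [Fintype J]
variable {K : Type u} [NormedAddCommGroup K] [InnerProductSpace ℂ K]

/-- the semigroup of isometries -/
def xdGr (S : StarSubalgebra ℂ M) (p : M) (v : J × M × M → K) : Set (K →L[ℂ] K) :=
  {g | ∃ a, UC S p a ∧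
    ∀ P, g (v P) = v (P.1, (a + (1 - p)) * P.2.1, P.2.2 * star (a + (1 - p)))}

/-- the vector moved around -/
noncomputable def xdb (p : M) (F : Finset M) (v : J × M × M → K) : K :=
  ∑ j : J, ∑ y ∈ F, v (j, p * y, star y * p)

theorem xdb_g {S : StarSubalgebra ℂ M} {p : M} (hp : star p = p) (hpp : p * p = p) (F : Finset M)
    (v : J × M × M → K) (g : K →L[ℂ] K) (a : M) (ha : UC S p a)
    (hg : ∀ P, g (v P) = v (P.1, (a + (1 - p)) * P.2.1, P.2.2 * star (a + (1 - p)))) :
    g (xdb p F v) = ∑ j : J, ∑ y ∈ F, v (j, a * y, star y * star a) := by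
  unfold xdb
  rw [map_sum]
  apply Finset.sum_congr rfl
  intro j _
  rw [map_sum]
  apply Finset.sum_congr rfl
  intro y _
  rw [hg]
  have e1 : (a + (1 - p)) * (p * y) = a * y := by rw [← mul_assoc, uc_tp hp hpp ha]
  have e2 : star y * p * star (a + (1 - p)) = star y * star a := by
    have := congrArg star (uc_tp hp hpp ha)
    rw [star_mul, hp] at this
    rw [mul_assoc, this]
  show v (j, (a + (1 - p)) * (p * y), star y * p * star (a + (1 - p))) = _
  rw [e1, e2]

theorem xd_ge (h : TW τ) (S : StarSubalgebra ℂ M) (R : J → StarSubalgebra ℂ M)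
    (hR : ∀ j, IsW τ (R j)) (p : M) (hp : star p = p) (hpp : p * p = p) (F : Finset M) (ε : ℝ)
    (hfail : ∀ a, UC S p a → ε ≤ ∑ j, ∑ y ∈ F, ∑ z ∈ F, n2 τ (E τ (R j) (star z * a * y)) ^ 2)
    (v : J × M × M → K) (hv : ∀ P Q, ⟪v P, v Q⟫_ℂ = xdK τ R P Q)
    (g : K →L[ℂ] K) (hg : g ∈ xdGr S p v) : ε ≤ (⟪xdb p F v, g (xdb p F v)⟫_ℂ).re := by
  classical
  obtain ⟨a, ha, hga⟩ := hg
  rw [xdb_g hp hpp F v g a ha hga]
  refine (hfail a ha).trans (le_of_eq ?_)
  unfold xdb
  have key : ⟪∑ j : J, ∑ y ∈ F, v (j, p * y, star y * p),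
      ∑ j : J, ∑ y ∈ F, v (j, a * y, star y * star a)⟫_ℂ =
      ∑ j, ∑ z ∈ F, ∑ y ∈ F, ((n2 τ (E τ (R j) (star z * a * y)) ^ 2 : ℝ) : ℂ) := by
    rw [sum_inner]
    apply Finset.sum_congr rfl
    intro j _
    rw [sum_inner]
    apply Finset.sum_congr rfl
    intro z _
    rw [inner_sum, Finset.sum_eq_single j]
    · rw [inner_sum]
      apply Finset.sum_congr rfl
      intro y _
      rw [hv]
      unfold xdK
      rw [if_pos rfl]
      exact xe_trace h (hR j) hp hpp ha y z
    · intro i _ hi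
      rw [inner_sum]
      apply Finset.sum_eq_zero
      intro y _
      rw [hv]
      unfold xdK
      rw [if_neg (fun h => hi h.symm)]
    · intro hj
      exact absurd (Finset.mem_univ _) hj
  rw [key, Complex.re_sum]
  apply Finset.sum_congr rfl
  intro j _
  rw [Finset.sum_comm, Complex.re_sum]
  apply Finset.sum_congr rfl
  intro z _
  rw [Complex.re_sum]
  apply Finset.sum_congr rfl
  intro y _
  exact (Complex.ofReal_re _).symm

theorem xd_one (S : StarSubalgebra ℂ M) (p : M) (hp : star p = p) (hpp : p * p = p) (hpS : p ∈ S)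
    (v : J × M × M → K) : (xdGr S p v).Nonempty := by
  refine ⟨ContinuousLinearMap.id ℂ K, p, uc_p hp hpp hpS, fun P => ?_⟩
  have e : p + (1 - p) = 1 := by abel
  rw [e, star_one, one_mul, mul_one]
  rfl

theorem xd_comp (S : StarSubalgebra ℂ M) (p : M) (hp : star p = p) (hpp : p * p = p)
    (v : J × M × M → K) : ∀ g ∈ xdGr S p v, ∀ g' ∈ xdGr S p v, g.comp g' ∈ xdGr S p v := by
  rintro g ⟨a, ha, hg⟩ g' ⟨b, hb, hg'⟩
  refine ⟨a * b, uc_mul hp hpp ha hb, fun P => ?_⟩
  rw [ContinuousLinearMap.comp_apply, hg', hg]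
  have e1 : (a + (1 - p)) * ((b + (1 - p)) * P.2.1) = (a * b + (1 - p)) * P.2.1 := by
    rw [← mul_assoc, uc_tm hp hpp ha hb]
  have e2 : P.2.2 * star (b + (1 - p)) * star (a + (1 - p)) = P.2.2 * star (a * b + (1 - p)) := by
    rw [← uc_tm hp hpp ha hb, star_mul, mul_assoc]
  show v (P.1, (a + (1 - p)) * ((b + (1 - p)) * P.2.1),
    P.2.2 * star (b + (1 - p)) * star (a + (1 - p))) = _
  rw [e1, e2]

theorem xd_bound (h : TW τ) (S R : StarSubalgebra ℂ M)
    (hR : IsW τ R) (p : M) (hp : star p = p) (hpp : p * p = p) (F : Finset M)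
    (a : M) (ha : UC S p a) (z : M) :
    ‖∑ y ∈ F, a * y * E τ R (star y * star a * z)‖ ≤ (∑ y ∈ F, ‖y‖ ^ 2) * ‖z‖ := by
  rw [Finset.sum_mul]
  refine norm_sum_le_of_le _ (fun y _ => ?_)
  have h1 : ‖a * y‖ ≤ ‖y‖ := (norm_mul_le _ _).trans
    (mul_le_of_le_one_left (norm_nonneg _) (uc_norm hp hpp ha))
  have h2 : ‖star y * star a * z‖ ≤ ‖y‖ * ‖z‖ := by
    rw [← star_mul]
    refine (norm_mul_le _ _).trans ?_
    rw [norm_star]
    exact mul_le_mul_of_nonneg_right h1 (norm_nonneg _)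
  calc _ ≤ ‖a * y‖ * ‖E τ R (star y * star a * z)‖ := norm_mul_le _ _
    _ ≤ ‖y‖ * (‖y‖ * ‖z‖) := mul_le_mul h1 ((E_contr h _ hR _).trans h2) (norm_nonneg _)
        (norm_nonneg _)
    _ = ‖y‖ ^ 2 * ‖z‖ := by ring

variable {H : Type u} [NormedAddCommGroup H] [InnerProductSpace ℂ H]

theorem xd_conv (q : M →ₗ[ℂ] H) (r : ℝ) : Convex ℝ (q '' {x | ‖x‖ ≤ r}) := by
  rintro _ ⟨x, hx, rfl⟩ _ ⟨y, hy, rfl⟩ s t hs ht hst
  refine ⟨s • x + t • y, ?_, ?_⟩
  · show ‖s • x + t • y‖ ≤ r
    have h1 : ‖s • x‖ ≤ s * r := by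
      rw [norm_smul, Real.norm_of_nonneg hs]
      exact mul_le_mul_of_nonneg_left hx hs
    have h2 : ‖t • y‖ ≤ t * r := by
      rw [norm_smul, Real.norm_of_nonneg ht]
      exact mul_le_mul_of_nonneg_left hy ht
    calc _ ≤ ‖s • x‖ + ‖t • y‖ := norm_add_le _ _
      _ ≤ s * r + t * r := add_le_add h1 h2
      _ = r := by rw [← add_mul, hst, one_mul]
  · rw [map_add, LinearMap.map_smul_of_tower, LinearMap.map_smul_of_tower]

end xf

theorem exists_D {M : Type u} [CStarAlgebra M] {τ : M →ₗ[ℂ] ℂ} (h : TW τ) {J : Type} [Fintype J]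
    (S : StarSubalgebra ℂ M) (R : J → StarSubalgebra ℂ M) (hR : ∀ j, IsW τ (R j)) (p : M)
    (hp : star p = p) (hpp : p * p = p) (hpS : p ∈ S) (F : Finset M) (ε : ℝ) (hε : 0 < ε)
    (hfail : ∀ a, UC S p a → ε ≤ ∑ j, ∑ y ∈ F, ∑ z ∈ F, n2 τ (E τ (R j) (star z * a * y)) ^ 2) :
    ∃ j D, Intw τ S (R j) p D := by
  classical
  obtain ⟨K, _, _, _, v, hv, hd⟩ := kolmogorov (xdK τ R) (xd_pos h R hR)
  obtain ⟨H, _, _, _, q, hqd, hqi, hqn, hqc, hqL, hqR⟩ := gns2 h
  choose Φ hΦ hΦn using fun (j : J) (z : M) => xd_Phi h R hR v hv hd q hqn j z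
  obtain ⟨d, hdc, hdf, hde⟩ := hilbert_fixed (xdGr S p v)
    (by
      rintro g ⟨a, ha, hg⟩ ξ
      exact xd_isom h R v hv hd _ (uc_t hp hpp ha) (uc_t' hp hpp ha) g hg ξ)
    (xd_comp S p hp hpp v) (xd_one S p hp hpp hpS v) (xdb p F v) ε hε
    (fun g hg => xd_ge h S R hR p hp hpp F ε hfail v hv g hg)
  have hmem : ∀ T : Set K, IsClosed T → Convex ℝ T →
      (∀ a, UC S p a → (∑ j : J, ∑ y ∈ F, v (j, a * y, star y * star a)) ∈ T) → d ∈ T := by
    intro T h1 h2 h3
    refine closure_minimal (convexHull_min ?_ h2) h1 hdc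
    rintro _ ⟨g, ⟨a, ha, hg⟩, rfl⟩
    show g (xdb p F v) ∈ T
    rw [xdb_g hp hpp F v g a ha hg]
    exact h3 a ha
  have hΦb : ∀ j z a, Φ j z (∑ i : J, ∑ y ∈ F, v (i, a * y, star y * star a)) =
      q (∑ y ∈ F, a * y * E τ (R j) (star y * star a * z)) := by
    intro j z a
    rw [map_sum, Finset.sum_eq_single j]
    · rw [map_sum, map_sum]
      apply Finset.sum_congr rfl
      intro y _
      rw [hΦ, if_pos rfl]
    · intro i _ hi
      rw [map_sum]
      apply Finset.sum_eq_zero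
      intro y _
      rw [hΦ, if_neg hi]
    · intro hj
      exact absurd (Finset.mem_univ _) hj
  have heq : ∀ f g' : K →L[ℂ] H, (∀ a, UC S p a →
      f (∑ i : J, ∑ y ∈ F, v (i, a * y, star y * star a)) =
        g' (∑ i : J, ∑ y ∈ F, v (i, a * y, star y * star a))) → f d = g' d := by
    intro f g' hfg
    refine hmem {ξ | f ξ = g' ξ} (isClosed_eq f.continuous g'.continuous) ?_ hfg
    intro x hx y hy s t _ _ _
    show f (s • x + t • y) = g' (s • x + t • y)
    have hx' : f x = g' x := hx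
    have hy' : f y = g' y := hy
    rw [map_add, map_add, ContinuousLinearMap.map_smul_of_tower,
      ContinuousLinearMap.map_smul_of_tower, ContinuousLinearMap.map_smul_of_tower,
      ContinuousLinearMap.map_smul_of_tower, hx', hy']
  set C : ℝ := ∑ y ∈ F, ‖y‖ ^ 2 with hC
  have hD : ∀ j z, ∃ x, ‖x‖ ≤ C * ‖z‖ ∧ q x = Φ j z d := by
    intro j z
    apply hqc (C * ‖z‖) (Φ j z d)
    refine hmem {ξ | Φ j z ξ ∈ closure (q '' {x | ‖x‖ ≤ C * ‖z‖})}
      (isClosed_closure.preimage (Φ j z).continuous) ?_ ?_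
    · have h2 := (xd_conv q (C * ‖z‖)).closure
      intro x hx y hy s t hs ht hst
      show Φ j z (s • x + t • y) ∈ closure _
      rw [map_add, ContinuousLinearMap.map_smul_of_tower, ContinuousLinearMap.map_smul_of_tower]
      exact h2 hx hy hs ht hst
    · intro a ha
      show Φ j z _ ∈ closure _
      rw [hΦb]
      exact subset_closure ⟨_, xd_bound h S (R j) (hR j) p hp hpp F a ha z, rfl⟩
  choose D hDn hDq using hD
  have qinj : ∀ x y, q x = q y → x = y := by
    intro x y hxy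
    have h1 : n2 τ (x - y) = 0 := by rw [← hqn, map_sub, hxy, sub_self, norm_zero]
    exact sub_eq_zero.1 (h.eq_zero h1)
  obtain ⟨j, y0, hy0⟩ : ∃ j, ∃ y, D j (p * y) ≠ 0 := by
    by_contra hcon
    push Not at hcon
    have h1 : ⟪xdb p F v, d⟫_ℂ = 0 := by
      unfold xdb
      rw [sum_inner]
      apply Finset.sum_eq_zero
      intro j _
      rw [sum_inner]
      apply Finset.sum_eq_zero
      intro y _
      rw [xd_inner h R hR v hv hd q hqi j (p * y) (Φ j (p * y))
        (fun X Y => by rw [hΦ, if_pos rfl]) (fun i X Y hi => by rw [hΦ, if_neg hi]) _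
        (by rw [star_mul, hp]) d, ← hDq, hcon, map_zero, inner_zero_right]
    rw [h1, Complex.zero_re] at hde
    linarith
  have hE := ep h (R j) (hR j)
  have hpl : ∀ z, p * D j z = D j z := by
    intro z
    obtain ⟨L, hL⟩ := hqL p
    apply qinj
    rw [← hL, hDq]
    refine heq (L.comp (Φ j z)) (Φ j z) (fun a ha => ?_)
    rw [ContinuousLinearMap.comp_apply, hΦb, hL]
    congr 1
    rw [Finset.mul_sum]
    apply Finset.sum_congr rfl
    intro y _
    rw [← mul_assoc, ← mul_assoc, uc_pa hp hpp ha]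
  have hpr : ∀ z, D j (p * z) = D j z := by
    intro z
    apply qinj
    rw [hDq, hDq]
    refine heq _ _ (fun a ha => ?_)
    rw [hΦb, hΦb]
    congr 1
    apply Finset.sum_congr rfl
    intro y _
    have e : star y * star a * (p * z) = star y * star a * z := by
      calc star y * star a * (p * z) = star y * (star a * p) * z := by noncomm_ring
        _ = _ := by rw [uc_sp hp hpp ha]
    rw [e]
  refine ⟨j, D j, ⟨⟨_, hy0⟩, ?_, ?_, ?_, ?_, hpl, hpr, ⟨C, hDn j⟩, ?_⟩⟩
  · -- add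
    intro y z
    apply qinj
    rw [map_add, hDq, hDq, hDq]
    refine xd_ext v hd (Φ j (y + z)) (Φ j y + Φ j z) (fun P => ?_) d
    rw [ContinuousLinearMap.add_apply, hΦ, hΦ, hΦ]
    by_cases hP : P.1 = j
    · rw [if_pos hP, if_pos hP, if_pos hP, mul_add, hE.add, mul_add, map_add]
    · rw [if_neg hP, if_neg hP, if_neg hP, add_zero]
  · -- smul
    intro c z
    apply qinj
    rw [map_smul, hDq, hDq]
    refine xd_ext v hd (Φ j (c • z)) (c • Φ j z) (fun P => ?_) d
    rw [ContinuousLinearMap.smul_apply, hΦ, hΦ]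
    by_cases hP : P.1 = j
    · rw [if_pos hP, if_pos hP, mul_smul_comm, hE.smul, mul_smul_comm, map_smul]
    · rw [if_neg hP, if_neg hP, smul_zero]
  · -- left
    intro a ha z
    obtain ⟨L, hL⟩ := hqL (a + (1 - p))
    obtain ⟨W, hW, hW1⟩ := xd_W h R v hv hd _ (uc_t hp hpp ha) (uc_t' hp hpp ha)
    have hWd : W d = d := hdf W ⟨a, ha, hW⟩
    have h1 : ∀ ξ, Φ j ((a + (1 - p)) * z) (W ξ) = L (Φ j z ξ) := by
      intro ξ
      refine xd_ext v hd ((Φ j ((a + (1 - p)) * z)).comp W) (L.comp (Φ j z)) (fun P => ?_) ξ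
      rw [ContinuousLinearMap.comp_apply, ContinuousLinearMap.comp_apply, hW, hΦ, hΦ]
      by_cases hP : P.1 = j
      · rw [if_pos hP]
        have hP' : ((P.1, (a + (1 - p)) * P.2.1, P.2.2 * star (a + (1 - p))) : J × M × M).1 = j :=
          hP
        rw [if_pos hP', hL]
        congr 1
        have e : P.2.2 * star (a + (1 - p)) * ((a + (1 - p)) * z) = P.2.2 * z := by
          calc P.2.2 * star (a + (1 - p)) * ((a + (1 - p)) * z) =
              P.2.2 * (star (a + (1 - p)) * (a + (1 - p))) * z := by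
                simp only [mul_assoc]
            _ = _ := by rw [uc_t hp hpp ha, mul_one]
        show (a + (1 - p)) * P.2.1 * E τ (R j) (P.2.2 * star (a + (1 - p)) *
          ((a + (1 - p)) * z)) = _
        rw [e, mul_assoc]
      · rw [if_neg hP]
        have hP' : ¬((P.1, (a + (1 - p)) * P.2.1, P.2.2 * star (a + (1 - p))) : J × M × M).1 = j :=
          hP
        rw [if_neg hP', map_zero]
    have h2 : D j ((a + (1 - p)) * z) = (a + (1 - p)) * D j z := by
      apply qinj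
      rw [← hL, hDq, hDq, ← h1, hWd]
    have e1 : a * z = p * ((a + (1 - p)) * z) := by rw [← mul_assoc, uc_pt hp hpp ha]
    have e2 : a * D j z = (a + (1 - p)) * D j z := by
      have := uc_tp hp hpp ha
      calc a * D j z = (a + (1 - p)) * p * D j z := by rw [this]
        _ = (a + (1 - p)) * (p * D j z) := by rw [mul_assoc]
        _ = _ := by rw [hpl]
    rw [e1, hpr, h2, e2]
  · -- right
    intro b hb z
    obtain ⟨L, hL⟩ := hqR b
    apply qinj
    rw [← hL, hDq, hDq]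
    refine xd_ext v hd (Φ j (z * b)) (L.comp (Φ j z)) (fun P => ?_) d
    rw [ContinuousLinearMap.comp_apply, hΦ, hΦ]
    by_cases hP : P.1 = j
    · rw [if_pos hP, if_pos hP, hL, ← mul_assoc, hE.right b hb, mul_assoc]
    · rw [if_neg hP, if_neg hP, map_zero]
  · -- approx
    intro δ hδ
    have h1 : Dense ((Submodule.span ℂ (Set.range v) : Submodule ℂ K) : Set K) :=
      Submodule.dense_iff_topologicalClosure_eq_top.2 hd
    obtain ⟨ξ, hξ, hξd⟩ := Metric.mem_closure_iff.1 (h1 d) δ hδ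
    obtain ⟨n, c, g, hg⟩ := (Submodule.mem_span_set').1 hξ
    choose P hP using fun k => (g k).2
    refine ⟨n, fun k => xdX j (c k) (P k), fun k => (P k).2.2, fun z => ?_⟩
    have h2 : Φ j z ξ = q (∑ k, xdX j (c k) (P k) * E τ (R j) ((P k).2.2 * z)) := by
      rw [← hg, map_sum, map_sum]
      apply Finset.sum_congr rfl
      intro k _
      rw [map_smul, ← hP k, hΦ]
      unfold xdX
      by_cases hk : (P k).1 = j
      · rw [if_pos hk, if_pos hk, smul_mul_assoc, map_smul]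
      · rw [if_neg hk, if_neg hk, zero_mul, map_zero, smul_zero]
    rw [← hqn, map_sub, hDq, ← h2, ← map_sub]
    refine (hΦn j z _).trans ?_
    rw [mul_comm]
    rw [dist_eq_norm] at hξd
    exact mul_le_mul_of_nonneg_right hξd.le (norm_nonneg _)

end Pool.Agent.H467F
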