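import Pool.Agent.Helper467.FP.Defs
import Pool.Agent.Helper467.FP.P_n2_mul_le
import Pool.Agent.Helper467.FP.P_tau_bounds

set_option autoImplicit false

open scoped ComplexOrder Topology InnerProductSpace
open Filter

namespace Pool.Agent.H467F

universe u v w

variable {M : Type u} [CStarAlgebra M] {τ : M →ₗ[ℂ] ℂ}

theorem exists_closure_sub {M : Type u} [CStarAlgebra M] {τ : M →ₗ[ℂ] ℂ}
    (A : StarSubalgebra ℂ M) (x : M) (hx : x ∈ A) : x ∈ Cl τ (A : Set M) := by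
  intro ε hε
  exact ⟨x, hx, by rw [sub_self, n2_zero]; exact hε⟩

theorem exists_closure_add {M : Type u} [CStarAlgebra M] {τ : M →ₗ[ℂ] ℂ} (h : TW τ)
    (A : StarSubalgebra ℂ M) (x y : M) (hx : x ∈ Cl τ (A : Set M)) (hy : y ∈ Cl τ (A : Set M)) :
    x + y ∈ Cl τ (A : Set M) := by
  intro ε hε
  obtain ⟨a, ha, h1⟩ := hx (ε / 2) (by linarith)
  obtain ⟨b, hb, h2⟩ := hy (ε / 2) (by linarith)
  refine ⟨a + b, A.add_mem ha hb, ?_⟩
  have e : x + y - (a + b) = (x - a) + (y - b) := by abel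
  rw [e]
  exact (h.n2_add_le _ _).trans_lt (by linarith)

theorem exists_closure_star {M : Type u} [CStarAlgebra M] {τ : M →ₗ[ℂ] ℂ} (h : TW τ)
    (A : StarSubalgebra ℂ M) (x : M) (hx : x ∈ Cl τ (A : Set M)) :
    star x ∈ Cl τ (A : Set M) := by
  intro ε hε
  obtain ⟨a, ha, h1⟩ := hx ε hε
  refine ⟨star a, star_mem (S := StarSubalgebra ℂ M) ha, ?_⟩
  rw [← star_sub, h.n2_star]
  exact h1

theorem exists_closure_mul {M : Type u} [CStarAlgebra M] {τ : M →ₗ[ℂ] ℂ} (h : TW τ)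
    (A : StarSubalgebra ℂ M) (x y : M) (hx : x ∈ Cl τ (A : Set M)) (hy : y ∈ Cl τ (A : Set M)) :
    x * y ∈ Cl τ (A : Set M) := by
  intro ε hε
  have hy0 : 0 < ‖y‖ + 1 := by positivity
  obtain ⟨a, ha, h1⟩ := hx (ε / 2 / (‖y‖ + 1)) (by positivity)
  have ha0 : 0 < ‖a‖ + 1 := by positivity
  obtain ⟨b, hb, h2⟩ := hy (ε / 2 / (‖a‖ + 1)) (by positivity)
  refine ⟨a * b, A.mul_mem ha hb, ?_⟩
  have e : x * y - a * b = (x - a) * y + a * (y - b) := by noncomm_ring
  rw [e]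
  have h3 := (n2_mul_le h y (x - a)).2
  have h4 := (n2_mul_le h a (y - b)).1
  rw [lt_div_iff₀ hy0] at h1
  rw [lt_div_iff₀ ha0] at h2
  have h5 : n2 τ (x - a) * ‖y‖ ≤ n2 τ (x - a) * (‖y‖ + 1) :=
    mul_le_mul_of_nonneg_left (by linarith) (n2_nonneg _ _)
  have h6 : ‖a‖ * n2 τ (y - b) ≤ n2 τ (y - b) * (‖a‖ + 1) := by
    have := n2_nonneg τ (y - b)
    nlinarith
  exact (h.n2_add_le _ _).trans_lt (by linarith)

theorem exists_closure_cl {M : Type u} [CStarAlgebra M] {τ : M →ₗ[ℂ] ℂ} (h : TW τ)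
    (A : StarSubalgebra ℂ M) (x : M) (hx : x ∈ Cl τ (Cl τ (A : Set M))) :
    x ∈ Cl τ (A : Set M) := by
  intro ε hε
  obtain ⟨y, hy, h1⟩ := hx (ε / 2) (by linarith)
  obtain ⟨z, hz, h2⟩ := hy (ε / 2) (by linarith)
  exact ⟨z, hz, (h.n2_tri x y z).trans_lt (by linarith)⟩

theorem exists_closure {M : Type u} [CStarAlgebra M] {τ : M →ₗ[ℂ] ℂ} (h : TW τ)
    (A : StarSubalgebra ℂ M) :
    ∃ S : StarSubalgebra ℂ M, (S : Set M) = Cl τ (A : Set M) ∧ IsW τ S ∧ A ≤ S := by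
  refine ⟨{ carrier := Cl τ (A : Set M)
            mul_mem' := fun {x y} hx hy => exists_closure_mul h A x y hx hy
            one_mem' := exists_closure_sub A 1 A.one_mem
            add_mem' := fun {x y} hx hy => exists_closure_add h A x y hx hy
            zero_mem' := exists_closure_sub A 0 A.zero_mem
            algebraMap_mem' := fun r => exists_closure_sub A _ (A.algebraMap_mem r)
            star_mem' := fun {x} hx => exists_closure_star h A x hx }, rfl, ?_, ?_⟩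
  · intro x hx
    exact exists_closure_cl h A x hx
  · intro x hx
    exact exists_closure_sub A x hx

end Pool.Agent.H467F
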