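import Pool.Agent.Helper467.FP.Defs
import Pool.Agent.Helper467.FP.P_n2_mul_le
import Pool.Agent.Helper467.FP.P_tau_bounds
import Pool.Agent.Helper467.FP.P_ep

set_option autoImplicit false

open scoped ComplexOrder Topology InnerProductSpace
open Filter

namespace Pool.Agent.H467F

universe u v w

variable {M : Type u} [CStarAlgebra M] {τ : M →ₗ[ℂ] ℂ}

theorem step_aux_sum {M : Type u} [CStarAlgebra M] {τ : M →ₗ[ℂ] ℂ} (h : TW τ)
    (S : StarSubalgebra ℂ M) (hE : EP τ S) (n : ℕ) (f : Fin n → M) :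
    n2 τ (E τ S (∑ i, f i)) ≤ ∑ i, n2 τ (E τ S (f i)) := by
  refine Finset.le_sum_of_subadditive (fun a => n2 τ (E τ S a)) ?_ ?_ _ _
  · show n2 τ (E τ S 0) ≤ 0
    rw [hE.of_mem 0 (zero_mem S), n2_zero]
  · intro a b
    show n2 τ (E τ S (a + b)) ≤ n2 τ (E τ S a) + n2 τ (E τ S b)
    rw [hE.add]
    exact h.n2_add_le _ _

theorem step_aux_star {M : Type u} [CStarAlgebra M] {τ : M →ₗ[ℂ] ℂ} (h : TW τ)
    (S : StarSubalgebra ℂ M) (hE : EP τ S) (p b q : M) :
    n2 τ (E τ S (p * star b * q)) = n2 τ (E τ S (star q * b * star p)) := by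
  have h1 : p * star b * q = star (star q * b * star p) := by
    rw [star_mul, star_mul, star_star, star_star, mul_assoc]
  rw [h1, hE.star, h.n2_star]

theorem step {M : Type u} [CStarAlgebra M] {τ : M →ₗ[ℂ] ℂ} (h : TW τ) {J : Type v}
    (S : StarSubalgebra ℂ M) (R : J → StarSubalgebra ℂ M) (hR : ∀ j, IsW τ (R j)) (g hh : ℕ → M)
    (hD : Dya S g hh) (k : ℕ) (hm : Mixes τ S R (g (k + 1))) (n : ℕ) (x : Fin n → M)
    (F : Finset M) (ε : ℝ) (hε : 0 < ε) :
    ∃ b, UC S (g (k + 1)) b ∧ ∀ j, ∀ y ∈ F, ∀ z ∈ F,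
      n2 τ (E τ (R j) (y * (∑ i, x i * (hh k * b + star (hh k * b)) * star (x i)) * z)) < ε := by
  classical
  obtain ⟨F1, hF1⟩ : ∃ F1 : Finset M, F1 = (F ×ˢ (Finset.univ : Finset (Fin n))).image
    (fun p => p.1 * x p.2 * hh k) := ⟨_, rfl⟩
  obtain ⟨F2, hF2⟩ : ∃ F2 : Finset M, F2 = (F ×ˢ (Finset.univ : Finset (Fin n))).image
    (fun p => star (x p.2) * p.1) := ⟨_, rfl⟩
  obtain ⟨F3, hF3⟩ : ∃ F3 : Finset M, F3 = (F ×ˢ (Finset.univ : Finset (Fin n))).image
    (fun p => star (star (hh k) * star (x p.2) * p.1)) := ⟨_, rfl⟩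
  obtain ⟨F4, hF4⟩ : ∃ F4 : Finset M, F4 = (F ×ˢ (Finset.univ : Finset (Fin n))).image
    (fun p => star (p.1 * x p.2)) := ⟨_, rfl⟩
  have hn : (0 : ℝ) < 2 * n + 1 := by positivity
  have hε' : 0 < ε / (2 * n + 1) := div_pos hε hn
  obtain ⟨b, hb, hbF⟩ := hm (F1 ∪ F2 ∪ F3 ∪ F4) (ε / (2 * n + 1)) hε'
  refine ⟨b, hb, ?_⟩
  intro j y hy z hz
  have hE := ep h (R j) (hR j)
  have m1 : ∀ i, y * x i * hh k ∈ F1 ∪ F2 ∪ F3 ∪ F4 := by
    intro i
    have h1 : y * x i * hh k ∈ F1 := by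
      rw [hF1, Finset.mem_image]
      exact ⟨(y, i), Finset.mem_product.2 ⟨hy, Finset.mem_univ _⟩, rfl⟩
    exact Finset.mem_union_left _ (Finset.mem_union_left _ (Finset.mem_union_left _ h1))
  have m2 : ∀ i, star (x i) * z ∈ F1 ∪ F2 ∪ F3 ∪ F4 := by
    intro i
    have h1 : star (x i) * z ∈ F2 := by
      rw [hF2, Finset.mem_image]
      exact ⟨(z, i), Finset.mem_product.2 ⟨hz, Finset.mem_univ _⟩, rfl⟩
    exact Finset.mem_union_left _ (Finset.mem_union_left _ (Finset.mem_union_right _ h1))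
  have m3 : ∀ i, star (star (hh k) * star (x i) * z) ∈ F1 ∪ F2 ∪ F3 ∪ F4 := by
    intro i
    have h1 : star (star (hh k) * star (x i) * z) ∈ F3 := by
      rw [hF3, Finset.mem_image]
      exact ⟨(z, i), Finset.mem_product.2 ⟨hz, Finset.mem_univ _⟩, rfl⟩
    exact Finset.mem_union_left _ (Finset.mem_union_right _ h1)
  have m4 : ∀ i, star (y * x i) ∈ F1 ∪ F2 ∪ F3 ∪ F4 := by
    intro i
    have h1 : star (y * x i) ∈ F4 := by
      rw [hF4, Finset.mem_image]
      exact ⟨(y, i), Finset.mem_product.2 ⟨hy, Finset.mem_univ _⟩, rfl⟩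
    exact Finset.mem_union_right _ h1
  have e1 : y * (∑ i, x i * (hh k * b + star (hh k * b)) * star (x i)) * z =
      ∑ i, ((y * x i * hh k) * b * (star (x i) * z) +
        (y * x i) * star b * (star (hh k) * star (x i) * z)) := by
    rw [Finset.mul_sum, Finset.sum_mul]
    refine Finset.sum_congr rfl (fun i _ => ?_)
    rw [star_mul]
    noncomm_ring
  rw [e1]
  refine (step_aux_sum h (R j) hE n _).trans_lt ?_
  have h2 : ∀ i : Fin n, n2 τ (E τ (R j) ((y * x i * hh k) * b * (star (x i) * z) +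
        (y * x i) * star b * (star (hh k) * star (x i) * z))) ≤ 2 * (ε / (2 * n + 1)) := by
    intro i
    rw [hE.add]
    refine (h.n2_add_le _ _).trans ?_
    rw [step_aux_star h (R j) hE (y * x i) b (star (hh k) * star (x i) * z)]
    have h3 := hbF j _ (m1 i) _ (m2 i)
    have h4 := hbF j _ (m3 i) _ (m4 i)
    linarith
  refine (Finset.sum_le_sum (fun i _ => h2 i)).trans_lt ?_
  rw [Finset.sum_const, Finset.card_univ, Fintype.card_fin, nsmul_eq_mul]
  have h5 : (n : ℝ) * (2 * (ε / (2 * n + 1))) = ε - ε / (2 * n + 1) := by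
    field_simp
    ring
  rw [h5]
  linarith

end Pool.Agent.H467F
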