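import Pool.Agent.Helper467.FP.Defs

set_option autoImplicit false

open scoped ComplexOrder Topology InnerProductSpace
open Filter

namespace Pool.Agent.H467F

universe u v w

variable {M : Type u} [CStarAlgebra M] {τ : M →ₗ[ℂ] ℂ}

/-- The relations used. -/
structure TPRel {M : Type u} [CStarAlgebra M] (G g' P Q : M) : Prop where
  pp : star P * P = g'
  qq : star Q * Q = g'
  pq : star P * Q = 0
  qp : star Q * P = 0
  sum : P * star P + Q * star Q = G
  Gp : G * P = P
  Gq : G * Q = Q
  pG : star P * G = star P
  qG : star Q * G = star Q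
  pg : P * g' = P
  qg : Q * g' = Q

theorem tp_rel {M : Type u} [CStarAlgebra M] (G g' H A : M) (hGs : star G = G)
    (hgs : star g' = g') (hgg : g' * g' = g') (hGG : G * G = G) (hle : G * g' = g')
    (hl : star H * H = g') (hr : H * star H = G - g') (ha1 : star A * A = g')
    (ha2 : A * star A = g') :
    TPRel G g' ((((Real.sqrt 2)⁻¹ : ℝ) : ℂ) • (g' + H * A))
      ((((Real.sqrt 2)⁻¹ : ℝ) : ℂ) • (g' - H * A)) := by
  have hge : g' * G = g' := by
    have := congrArg star hle
    rwa [star_mul, hGs, hgs] at this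
  have f2 : g' * A = A := by
    have h1 : (A - g' * A) * star (A - g' * A) = 0 := by
      rw [star_sub, star_mul, hgs]
      calc (A - g' * A) * (star A - star A * g')
          = A * star A - A * star A * g' - g' * (A * star A) + g' * (A * star A) * g' := by
            noncomm_ring
        _ = 0 := by rw [ha2, hgg, hgg]; noncomm_ring
    have h2 := CStarRing.mul_star_self_eq_zero_iff (A - g' * A) |>.1 h1
    exact (sub_eq_zero.1 h2).symm
  have f1 : A * g' = A := by
    have h1 : star (A - A * g') * (A - A * g') = 0 := by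
      rw [star_sub, star_mul, hgs]
      calc (star A - g' * star A) * (A - A * g')
          = star A * A - star A * A * g' - g' * (star A * A) + g' * (star A * A) * g' := by
            noncomm_ring
        _ = 0 := by rw [ha1, hgg, hgg]; noncomm_ring
    have h2 := CStarRing.star_mul_self_eq_zero_iff (A - A * g') |>.1 h1
    exact (sub_eq_zero.1 h2).symm
  have f3 : H * g' = H := by
    have h1 : star (H - H * g') * (H - H * g') = 0 := by
      rw [star_sub, star_mul, hgs]
      calc (star H - g' * star H) * (H - H * g')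
          = star H * H - star H * H * g' - g' * (star H * H) + g' * (star H * H) * g' := by
            noncomm_ring
        _ = 0 := by rw [hl, hgg, hgg]; noncomm_ring
    have h2 := CStarRing.star_mul_self_eq_zero_iff (H - H * g') |>.1 h1
    exact (sub_eq_zero.1 h2).symm
  have f4 : G * H = H := by
    have h1 : (H - G * H) * star (H - G * H) = 0 := by
      rw [star_sub, star_mul, hGs]
      calc (H - G * H) * (star H - star H * G)
          = H * star H - H * star H * G - G * (H * star H) + G * (H * star H) * G := by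
            noncomm_ring
        _ = 0 := by
            rw [hr]
            have e1 : (G - g') * G = G - g' := by rw [sub_mul, hGG, hge]
            have e2 : G * (G - g') = G - g' := by rw [mul_sub, hGG, hle]
            rw [e2, e1]
            noncomm_ring
    have h2 := CStarRing.mul_star_self_eq_zero_iff (H - G * H) |>.1 h1
    exact (sub_eq_zero.1 h2).symm
  have f5 : g' * H = 0 := by
    have h1 : (g' * H) * star (g' * H) = 0 := by
      rw [star_mul, hgs]
      calc g' * H * (star H * g') = g' * (H * star H) * g' := by noncomm_ring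
        _ = 0 := by
            rw [hr, mul_sub, hge, hgg, sub_self, zero_mul]
    exact CStarRing.mul_star_self_eq_zero_iff (g' * H) |>.1 h1
  obtain ⟨U, hU⟩ : ∃ U, U = H * A := ⟨_, rfl⟩
  have hgu : g' * U = 0 := by rw [hU, ← mul_assoc, f5, zero_mul]
  have hug : U * g' = U := by rw [hU, mul_assoc, f1]
  have hsug : star U * g' = 0 := by
    have := congrArg star hgu
    rwa [star_mul, hgs, star_zero] at this
  have hgsu : g' * star U = star U := by
    have := congrArg star hug
    rwa [star_mul, hgs] at this
  have huu : star U * U = g' := by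
    rw [hU, star_mul]
    calc star A * star H * (H * A) = star A * (star H * H) * A := by noncomm_ring
      _ = g' := by rw [hl, mul_assoc, f2, ha1]
  have huu' : U * star U = G - g' := by
    rw [hU, star_mul]
    calc H * A * (star A * star H) = H * (A * star A) * star H := by noncomm_ring
      _ = G - g' := by rw [ha2, f3, hr]
  have hGu : G * U = U := by rw [hU, ← mul_assoc, f4]
  have hsuG : star U * G = star U := by
    have := congrArg star hGu
    rwa [star_mul, hGs] at this
  obtain ⟨c, hc⟩ : ∃ c : ℂ, c = (((Real.sqrt 2)⁻¹ : ℝ) : ℂ) := ⟨_, rfl⟩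
  have hcs : star c = c := by rw [hc]; exact Complex.conj_ofReal _
  have hcc : c * c = 1 / 2 := by
    rw [hc, ← Complex.ofReal_mul, ← mul_inv, Real.mul_self_sqrt (by norm_num)]
    norm_num
  have hhalf : ∀ x : M, (1 / 2 : ℂ) • (x + x) = x := by
    intro x
    rw [← two_smul ℂ x, smul_smul]
    norm_num
  rw [← hU, ← hc]
  have hsp : star (c • (g' + U)) = c • (g' + star U) := by rw [star_smul, star_add, hgs, hcs]
  have hsq : star (c • (g' - U)) = c • (g' - star U) := by rw [star_smul, star_sub, hgs, hcs]
  refine ⟨?_, ?_, ?_, ?_, ?_, ?_, ?_, ?_, ?_, ?_, ?_⟩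
  · rw [hsp, smul_mul_smul_comm, hcc]
    have e : (g' + star U) * (g' + U) = g' + g' := by
      rw [add_mul, mul_add, mul_add, hgg, hgu, hsug, huu]
      abel
    rw [e, hhalf]
  · rw [hsq, smul_mul_smul_comm, hcc]
    have e : (g' - star U) * (g' - U) = g' + g' := by
      rw [sub_mul, mul_sub, mul_sub, hgg, hgu, hsug, huu]
      abel
    rw [e, hhalf]
  · rw [hsp, smul_mul_smul_comm]
    have e : (g' + star U) * (g' - U) = 0 := by
      rw [add_mul, mul_sub, mul_sub, hgg, hgu, hsug, huu]
      abel
    rw [e, smul_zero]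
  · rw [hsq, smul_mul_smul_comm]
    have e : (g' - star U) * (g' + U) = 0 := by
      rw [sub_mul, mul_add, mul_add, hgg, hgu, hsug, huu]
      abel
    rw [e, smul_zero]
  · rw [hsp, hsq, smul_mul_smul_comm, smul_mul_smul_comm, hcc, ← smul_add]
    have e : (g' + U) * (g' + star U) + (g' - U) * (g' - star U) = G + G := by
      rw [add_mul, mul_add, mul_add, sub_mul, mul_sub, mul_sub, hgg, hug, hgsu, huu']
      abel
    rw [e, hhalf]
  · rw [mul_smul_comm, mul_add, hle, hGu]
  · rw [mul_smul_comm, mul_sub, hle, hGu]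
  · rw [hsp, smul_mul_assoc, add_mul, hge, hsuG]
  · rw [hsq, smul_mul_assoc, sub_mul, hge, hsuG]
  · rw [smul_mul_assoc, add_mul, hgg, hug]
  · rw [smul_mul_assoc, sub_mul, hgg, hug]

theorem th_props {M : Type u} [CStarAlgebra M] (S : StarSubalgebra ℂ M) (g hh : ℕ → M)
    (hD : Dya S g hh) (a : ℕ → M) (ha : ∀ k, UC S (g (k + 1)) (a k)) (k : ℕ) :
    (∃ (n : ℕ) (x : Fin n → M), (∀ i, x i ∈ S) ∧
      ∀ y, Th g hh a k y = ∑ i, x i * y * star (x i)) ∧
    (∀ x y, g k * x = x → x * g k = x → g k * y = y → y * g k = y →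
      Th g hh a k (x * y) = Th g hh a k x * Th g hh a k y) ∧
    Th g hh a k (g k) = 1 := by
  have rel : ∀ k, TPRel (g k) (g (k + 1)) (tp g hh a k) (tm g hh a k) := fun k =>
    tp_rel (g k) (g (k + 1)) (hh k) (a k) (hD.g_star k) (hD.g_star (k + 1)) (hD.g_idem (k + 1))
      (hD.g_idem k) (hD.g_le k) (hD.h_left k) (hD.h_right k) (ha k).2.1 (ha k).2.2
  have hpS : ∀ k, tp g hh a k ∈ S := by
    intro k
    unfold tp
    exact S.smul_mem (add_mem (hD.g_mem _) (mul_mem (hD.h_mem _) (ha k).1)) _
  have hmS : ∀ k, tm g hh a k ∈ S := by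
    intro k
    unfold tm
    exact S.smul_mem (sub_mem (hD.g_mem _) (mul_mem (hD.h_mem _) (ha k).1)) _
  induction k with
  | zero =>
    refine ⟨⟨1, fun _ => 1, fun _ => one_mem S, fun y => ?_⟩, ?_, ?_⟩
    · simp [Th]
    · intro x y _ _ _ _
      simp [Th]
    · rw [Th, hD.g_zero]
  | succ k ih =>
    obtain ⟨⟨n, x, hxS, hx⟩, hmul, hone⟩ := ih
    have r := rel k
    obtain ⟨P, hP⟩ : ∃ P, P = tp g hh a k := ⟨_, rfl⟩
    obtain ⟨Q, hQ⟩ : ∃ Q, Q = tm g hh a k := ⟨_, rfl⟩
    have hPS := hpS k
    have hQS := hmS k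
    have hTh : ∀ y, Th g hh a (k + 1) y = Th g hh a k (P * y * star P + Q * y * star Q) := by
      intro y
      rw [Th, hP, hQ]
    rw [← hP, ← hQ] at r
    rw [← hP] at hPS
    rw [← hQ] at hQS
    refine ⟨⟨n + n, Fin.append (fun i => x i * P) (fun i => x i * Q), ?_, ?_⟩, ?_, ?_⟩
    · intro i
      refine Fin.addCases (fun j => ?_) (fun j => ?_) i
      · rw [Fin.append_left]
        exact mul_mem (hxS j) hPS
      · rw [Fin.append_right]
        exact mul_mem (hxS j) hQS
    · intro y
      rw [hTh, hx, Fin.sum_univ_add, ← Finset.sum_add_distrib]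
      refine Finset.sum_congr rfl fun i _ => ?_
      rw [Fin.append_left, Fin.append_right, star_mul, star_mul]
      noncomm_ring
    · intro y z hy1 hy2 hz1 hz2
      rw [hTh, hTh, hTh, ← hmul]
      · congr 1
        have e1 : (P * y * star P + Q * y * star Q) * (P * z * star P + Q * z * star Q) =
            P * y * (star P * P) * z * star P + P * y * (star P * Q) * z * star Q +
              Q * y * (star Q * P) * z * star P + Q * y * (star Q * Q) * z * star Q := by
          noncomm_ring
        rw [e1, r.pp, r.qq, r.pq, r.qp]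
        have e2 : P * y * g (k + 1) = P * y := by rw [mul_assoc, hy2]
        have e3 : Q * y * g (k + 1) = Q * y := by rw [mul_assoc, hy2]
        rw [e2, e3]
        noncomm_ring
      · rw [mul_add, ← mul_assoc, ← mul_assoc, r.Gp, ← mul_assoc, ← mul_assoc, r.Gq]
      · rw [add_mul, mul_assoc, r.pG, mul_assoc (Q * y), r.qG]
      · rw [mul_add, ← mul_assoc, ← mul_assoc, r.Gp, ← mul_assoc, ← mul_assoc, r.Gq]
      · rw [add_mul, mul_assoc, r.pG, mul_assoc (Q * z), r.qG]
    · rw [hTh, r.pg, r.qg, r.sum, hone]

end Pool.Agent.H467F
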