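import Pool.Agent.Helper467.FP.Defs
import Pool.Agent.Helper467.FP.P_th_props

set_option autoImplicit false

open scoped ComplexOrder Topology InnerProductSpace
open Filter

namespace Pool.Agent.H467F

universe u v w

variable {M : Type u} [CStarAlgebra M] {τ : M →ₗ[ℂ] ℂ}

theorem sy_props_right {M : Type u} [CStarAlgebra M] (x q : M) (hq : star q = q)
    (hqq : q * q = q) (h : star x * x = q) : x * q = x := by
  rw [← sub_eq_zero, ← CStarRing.star_mul_self_eq_zero_iff]
  have e : star (x * q - x) * (x * q - x) = q * (star x * x) * q - q * (star x * x) -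
      (star x * x) * q + star x * x := by
    rw [star_sub, star_mul, hq]; noncomm_ring
  rw [e, h, hqq, hqq]
  simp

theorem sy_props_u {M : Type u} [CStarAlgebra M] (p q h a : M) (hp : star p = p) (hpp : p * p = p)
    (hq : star q = q) (hqq : q * q = q) (hpq : p * q = q) (h1 : star h * h = q)
    (h2 : h * star h = p - q) (a1 : star a * a = q) (a2 : a * star a = q) :
    (h * a) * q = h * a ∧ q * (h * a) = 0 ∧ p * (h * a) = h * a ∧ (h * a) * p = h * a ∧
      star (h * a) * (h * a) = q ∧ (h * a) * star (h * a) = p - q ∧ (h * a) * (h * a) = 0 := by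
  have hqp : q * p = q := by
    have := congrArg star hpq
    rwa [star_mul, hp, hq] at this
  have e1 : h * q = h := sy_props_right h q hq hqq h1
  have e2 : p * h = h := by
    rw [← sub_eq_zero, ← CStarRing.mul_star_self_eq_zero_iff]
    have e : (p * h - h) * star (p * h - h) = p * (h * star h) * p - p * (h * star h) -
        (h * star h) * p + h * star h := by
      rw [star_sub, star_mul, hp]; noncomm_ring
    rw [e, h2, mul_sub, sub_mul, sub_mul, hpp, hpq, hqp, hpp]
    simp
  have e3 : q * h = 0 := by
    rw [← CStarRing.mul_star_self_eq_zero_iff, star_mul, hq, ← mul_assoc, mul_assoc q h, h2,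
      mul_sub, hqp, hqq, sub_self, zero_mul]
  have e4 : a * q = a := sy_props_right a q hq hqq a1
  have e5 : star a * q = star a := sy_props_right (star a) q hq hqq (by rw [star_star, a2])
  have e6 : q * a = a := by
    have := congrArg star e5
    rwa [star_mul, star_star, hq] at this
  refine ⟨by rw [mul_assoc, e4], by rw [← mul_assoc, e3, zero_mul], by rw [← mul_assoc, e2],
    ?_, ?_, ?_, ?_⟩
  · have : a * p = a := by
      calc a * p = (a * q) * p := by rw [e4]
        _ = a * q := by rw [mul_assoc, hqp]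
        _ = a := e4
    rw [mul_assoc, this]
  · rw [star_mul, mul_assoc, ← mul_assoc (star h), h1, e6, a1]
  · rw [star_mul, mul_assoc, ← mul_assoc a, a2, ← mul_assoc, e1, h2]
  · have : a * h = 0 := by
      calc a * h = (a * q) * h := by rw [e4]
        _ = a * (q * h) := by rw [mul_assoc]
        _ = 0 := by rw [e3, mul_zero]
    rw [mul_assoc, ← mul_assoc a, this, zero_mul, mul_zero]

theorem sy_props_phi {M : Type u} [CStarAlgebra M] (p σ t1 t2 x : M) (hσ : star σ = σ)
    (hp : star p = p) (h1 : σ * t1 = t1) (h2 : σ * t2 = -t2) (h3 : p * t1 = t1)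
    (h4 : p * t2 = t2) :
    p * (t1 * x * star t1 + t2 * x * star t2) = t1 * x * star t1 + t2 * x * star t2 ∧
    (t1 * x * star t1 + t2 * x * star t2) * p = t1 * x * star t1 + t2 * x * star t2 ∧
    (t1 * x * star t1 + t2 * x * star t2) * σ = σ * (t1 * x * star t1 + t2 * x * star t2) := by
  have s1 : star t1 * σ = star t1 := by
    have := congrArg star h1
    rwa [star_mul, hσ] at this
  have s2 : star t2 * σ = -star t2 := by
    have := congrArg star h2
    rwa [star_mul, hσ, star_neg] at this
  have s3 : star t1 * p = star t1 := by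
    have := congrArg star h3
    rwa [star_mul, hp] at this
  have s4 : star t2 * p = star t2 := by
    have := congrArg star h4
    rwa [star_mul, hp] at this
  refine ⟨?_, ?_, ?_⟩
  · rw [mul_add, ← mul_assoc, ← mul_assoc, h3, ← mul_assoc, ← mul_assoc, h4]
  · rw [add_mul, mul_assoc, s3, mul_assoc (t2 * x), s4]
  · rw [add_mul, mul_assoc, s1, mul_assoc (t2 * x), s2, mul_add, ← mul_assoc, ← mul_assoc, h1,
      ← mul_assoc, ← mul_assoc, h2]
    simp

/-- the facts about the symmetry -/
theorem sy_props_k {M : Type u} [CStarAlgebra M] (S : StarSubalgebra ℂ M) (g hh : ℕ → M)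
    (hD : Dya S g hh) (a : ℕ → M) (ha : ∀ k, UC S (g (k + 1)) (a k)) (k : ℕ) :
    (hh k * a k + star (hh k * a k)) ∈ S ∧
    star (hh k * a k + star (hh k * a k)) = hh k * a k + star (hh k * a k) ∧
    (hh k * a k + star (hh k * a k)) * (hh k * a k + star (hh k * a k)) = g k ∧
    g k * (hh k * a k + star (hh k * a k)) = hh k * a k + star (hh k * a k) ∧
    (hh k * a k + star (hh k * a k)) * g k = hh k * a k + star (hh k * a k) ∧
    (hh k * a k + star (hh k * a k)) * tp g hh a k = tp g hh a k ∧
    (hh k * a k + star (hh k * a k)) * tm g hh a k = -tm g hh a k ∧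
    g k * tp g hh a k = tp g hh a k ∧ g k * tm g hh a k = tm g hh a k := by
  obtain ⟨ha0, ha1, ha2⟩ := ha k
  obtain ⟨u1, u2, u3, u4, u5, u6, u7⟩ := sy_props_u (g k) (g (k + 1)) (hh k) (a k) (hD.g_star k)
    (hD.g_idem k) (hD.g_star (k + 1)) (hD.g_idem (k + 1)) (hD.g_le k) (hD.h_left k) (hD.h_right k)
    ha1 ha2
  have hmem : hh k * a k ∈ S := S.mul_mem (hD.h_mem k) ha0
  unfold tp tm
  generalize hh k * a k = u at *
  have hpq := hD.g_le k
  have hps := hD.g_star k
  have hqs := hD.g_star (k + 1)
  generalize g (k + 1) = q at *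
  generalize g k = p at *
  have v1 : q * star u = star u := by
    have := congrArg star u1
    rwa [star_mul, hqs] at this
  have v2 : star u * q = 0 := by
    have := congrArg star u2
    rwa [star_mul, hqs, star_zero] at this
  have v3 : star u * p = star u := by
    have := congrArg star u3
    rwa [star_mul, hps] at this
  have v4 : p * star u = star u := by
    have := congrArg star u4
    rwa [star_mul, hps] at this
  have v7 : star u * star u = 0 := by
    have := congrArg star u7
    rwa [star_mul, star_zero] at this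
  refine ⟨add_mem hmem (star_mem hmem), ?_, ?_, ?_, ?_, ?_, ?_, ?_, ?_⟩
  · rw [star_add, star_star, add_comm]
  · rw [add_mul, mul_add, mul_add, u7, u6, u5, v7]; simp
  · rw [mul_add, u3, v4]
  · rw [add_mul, u4, v3]
  · rw [mul_smul_comm, add_mul, mul_add, mul_add, u1, u7, v2, u5]
    congr 1
    abel
  · rw [mul_smul_comm, add_mul, mul_sub, mul_sub, u1, u7, v2, u5, ← smul_neg]
    congr 1
    abel
  · rw [mul_smul_comm, mul_add, hpq, u3]
  · rw [mul_smul_comm, mul_sub, hpq, u3]

theorem sy_props {M : Type u} [CStarAlgebra M] (S : StarSubalgebra ℂ M) (g hh : ℕ → M)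
    (hD : Dya S g hh) (a : ℕ → M) (ha : ∀ k, UC S (g (k + 1)) (a k)) :
    (∀ k, sy g hh a k ∈ S ∧ star (sy g hh a k) = sy g hh a k ∧ sy g hh a k * sy g hh a k = 1) ∧
    (∀ k x, g k * x = x → x * g k = x → ∀ l < k,
      Th g hh a k x * sy g hh a l = sy g hh a l * Th g hh a k x) ∧
    (∀ k x, UC S (g k) x → UC S 1 (Th g hh a k x)) := by
  have hfin := fun k => (th_props S g hh hD a ha k).1
  have hmul := fun k => (th_props S g hh hD a ha k).2.1
  have hone := fun k => (th_props S g hh hD a ha k).2.2
  have hstar : ∀ k y, star (Th g hh a k y) = Th g hh a k (star y) := by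
    intro k y
    obtain ⟨n, x, hx, hxe⟩ := hfin k
    rw [hxe, hxe, star_sum]
    refine Finset.sum_congr rfl fun i _ => ?_
    rw [star_mul, star_mul, star_star, mul_assoc]
  have hmem : ∀ k y, y ∈ S → Th g hh a k y ∈ S := by
    intro k y hy
    obtain ⟨n, x, hx, hxe⟩ := hfin k
    rw [hxe]
    exact sum_mem fun i _ => mul_mem (mul_mem (hx i) hy) (star_mem (hx i))
  refine ⟨?_, ?_, ?_⟩
  · intro k
    obtain ⟨s1, s2, s3, s4, s5, -⟩ := sy_props_k S g hh hD a ha k
    unfold sy
    refine ⟨hmem k _ s1, by rw [hstar, s2], ?_⟩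
    rw [← hmul k _ _ s4 s5 s4 s5, s3, hone]
  · intro k
    induction k with
    | zero => intro x _ _ l hl; omega
    | succ j ih =>
      intro x hx1 hx2 l hl
      obtain ⟨s1, s2, s3, s4, s5, s6, s7, s8, s9⟩ := sy_props_k S g hh hD a ha j
      obtain ⟨p1, p2, p3⟩ := sy_props_phi (g j) (hh j * a j + star (hh j * a j)) (tp g hh a j)
        (tm g hh a j) x s2 (hD.g_star j) s6 s7 s8 s9
      have hTh : Th g hh a (j + 1) x = Th g hh a j (tp g hh a j * x * star (tp g hh a j) +
        tm g hh a j * x * star (tm g hh a j)) := rfl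
      rw [hTh]
      rcases Nat.lt_succ_iff_lt_or_eq.1 hl with h | h
      · exact ih _ p1 p2 l h
      · subst h
        unfold sy
        rw [← hmul l _ _ p1 p2 s4 s5, ← hmul l _ _ s4 s5 p1 p2, p3]
  · rintro k x ⟨hx0, hx1, hx2⟩
    have hg1 := hD.g_star k
    have hg2 := hD.g_idem k
    have e4 : x * g k = x := sy_props_right x (g k) hg1 hg2 hx1
    have e5 : star x * g k = star x :=
      sy_props_right (star x) (g k) hg1 hg2 (by rw [star_star, hx2])
    have e6 : g k * x = x := by
      have := congrArg star e5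
      rwa [star_mul, star_star, hg1] at this
    have e7 : g k * star x = star x := by
      have := congrArg star e4
      rwa [star_mul, hg1] at this
    refine ⟨hmem k x hx0, ?_, ?_⟩
    · rw [hstar, ← hmul k _ _ e7 e5 e6 e4, hx1, hone]
    · rw [hstar, ← hmul k _ _ e6 e4 e7 e5, hx2, hone]

end Pool.Agent.H467F
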