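import Pool.Agent.Helper467.FP.Defs

set_option autoImplicit false

open scoped ComplexOrder Topology InnerProductSpace
open Filter

namespace Pool.Agent.H467F

universe u v w

variable {M : Type u} [CStarAlgebra M] {τ : M →ₗ[ℂ] ℂ}

theorem th_congr {M : Type u} [CStarAlgebra M] (g hh a a' : ℕ → M) (k : ℕ)
    (ha : ∀ l < k, a l = a' l) : Th g hh a k = Th g hh a' k := by
  induction k with
  | zero => funext x; rw [Th, Th]
  | succ k ih =>
    funext x
    have h1 := ih (fun l hl => ha l (Nat.lt_succ_of_lt hl))
    have h2 := ha k (Nat.lt_succ_self k)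
    rw [Th, Th, h1]
    simp only [tp, tm, h2]

end Pool.Agent.H467F
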