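import Pool.Agent.Helper467.FP.Defs
import Pool.Agent.Helper467.FP.P_step
import Pool.Agent.Helper467.FP.P_th_congr
import Pool.Agent.Helper467.FP.P_th_props
import Pool.Agent.Helper467.FP.P_sy_props

set_option autoImplicit false

open scoped ComplexOrder Topology InnerProductSpace
open Filter

namespace Pool.Agent.H467F

universe u v w

variable {M : Type u} [CStarAlgebra M] {τ : M →ₗ[ℂ] ℂ}

/-- the requirement on the `k`-th choice -/
def j21366_P {M : Type u} [CStarAlgebra M] (τ : M →ₗ[ℂ] ℂ) {J : Type v}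
    (S : StarSubalgebra ℂ M) (R : J → StarSubalgebra ℂ M) (g hh : ℕ → M) (c : M → ℕ → M)
    (k : ℕ) (a : ℕ → M) (b : M) : Prop :=
  UC S (g (k + 1)) b ∧
    ∀ j, ∀ y ∈ mono (lets c (sy g hh a) k) k, ∀ z ∈ mono (lets c (sy g hh a) k) k,
      n2 τ (E τ (R j) (y * Th g hh a k (hh k * b + star (hh k * b)) * z)) < (1 / 2) ^ k

lemma j21366_ex {M : Type u} [CStarAlgebra M] {τ : M →ₗ[ℂ] ℂ} (h : TW τ) {J : Type v}
    (S : StarSubalgebra ℂ M) (R : J → StarSubalgebra ℂ M) (hR : ∀ j, IsW τ (R j)) (g hh : ℕ → M)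
    (hD : Dya S g hh) (hm : ∀ k, Mixes τ S R (g k)) (c : M → ℕ → M) (k : ℕ) (a : ℕ → M)
    (ha : ∀ l, UC S (g (l + 1)) (a l)) : ∃ b, j21366_P τ S R g hh c k a b := by
  obtain ⟨⟨n, x, _, hx⟩, _, _⟩ := th_props S g hh hD a ha k
  obtain ⟨b, hb, hb2⟩ := step h S R hR g hh hD k (hm (k + 1)) n x
    (mono (lets c (sy g hh a) k) k) ((1 / 2) ^ k) (by positivity)
  refine ⟨b, hb, fun j y hy z hz => ?_⟩
  rw [hx]
  exact hb2 j y hy z hz

lemma j21366_sy {M : Type u} [CStarAlgebra M] (g hh a a' : ℕ → M) (k : ℕ)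
    (ha : ∀ l < k, a l = a' l) (l : ℕ) (hl : l < k) : sy g hh a l = sy g hh a' l := by
  unfold sy
  rw [th_congr g hh a a' l fun i hi => ha i (hi.trans hl), ha l hl]

lemma j21366_lets {M : Type u} [CStarAlgebra M] (g hh a a' : ℕ → M) (c : M → ℕ → M) (k : ℕ)
    (ha : ∀ l < k, a l = a' l) : lets c (sy g hh a) k = lets c (sy g hh a') k := by
  classical
  unfold lets
  apply Finset.image_congr
  intro p hp
  simp only [Finset.coe_product, Set.mem_prod, Finset.mem_coe, Finset.mem_range] at hp
  simp only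
  rw [j21366_sy g hh a a' k ha p.1 hp.1]

lemma j21366_congr {M : Type u} [CStarAlgebra M] (τ : M →ₗ[ℂ] ℂ) {J : Type v}
    (S : StarSubalgebra ℂ M) (R : J → StarSubalgebra ℂ M) (g hh : ℕ → M) (c : M → ℕ → M)
    (k : ℕ) (a a' : ℕ → M) (ha : ∀ l < k, a l = a' l) (b : M)
    (hP : j21366_P τ S R g hh c k a b) : j21366_P τ S R g hh c k a' b := by
  unfold j21366_P at hP ⊢
  rw [j21366_lets g hh a a' c k ha, th_congr g hh a a' k ha] at hP
  exact hP

open Classical in
/-- the sequence of sequences -/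
noncomputable def j21366_A {M : Type u} (P : ℕ → (ℕ → M) → M → Prop) (d : ℕ → M) :
    ℕ → (ℕ → M)
  | 0 => d
  | k + 1 => Function.update (j21366_A P d k) k
      (if h : ∃ b, P k (j21366_A P d k) b then Classical.choose h else d k)

theorem exists_seq {M : Type u} [CStarAlgebra M] {τ : M →ₗ[ℂ] ℂ} (h : TW τ) {J : Type v}
    (S : StarSubalgebra ℂ M) (R : J → StarSubalgebra ℂ M) (hR : ∀ j, IsW τ (R j)) (g hh : ℕ → M)
    (hD : Dya S g hh) (hm : ∀ k, Mixes τ S R (g k)) (c : M → ℕ → M) :
    ∃ a : ℕ → M, (∀ k, UC S (g (k + 1)) (a k)) ∧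
      ∀ k j, ∀ y ∈ mono (lets c (sy g hh a) k) k, ∀ z ∈ mono (lets c (sy g hh a) k) k,
        n2 τ (E τ (R j) (y * sy g hh a k * z)) < (1 / 2) ^ k := by
  classical
  let d : ℕ → M := fun l => g (l + 1)
  let P := j21366_P τ S R g hh c
  have hd : ∀ l, UC S (g (l + 1)) (d l) := by
    intro l
    refine ⟨hD.g_mem _, ?_, ?_⟩
    · show star (g (l + 1)) * g (l + 1) = g (l + 1)
      rw [hD.g_star, hD.g_idem]
    · show g (l + 1) * star (g (l + 1)) = g (l + 1)
      rw [hD.g_star, hD.g_idem]
  have hA : ∀ k, (∀ l, UC S (g (l + 1)) (j21366_A P d k l)) := by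
    intro k
    induction k with
    | zero => exact hd
    | succ k ih =>
      intro l
      by_cases hl : l = k
      · subst hl
        have hex : ∃ b, P l (j21366_A P d l) b :=
          j21366_ex h S R hR g hh hD hm c l _ ih
        have h1 : j21366_A P d (l + 1) l = Classical.choose hex := by
          rw [j21366_A, Function.update_self, dif_pos hex]
        rw [h1]
        exact (Classical.choose_spec hex).1
      · have h1 : j21366_A P d (k + 1) l = j21366_A P d k l := by
          rw [j21366_A, Function.update_of_ne hl]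
        rw [h1]
        exact ih l
  have hPA : ∀ k, P k (j21366_A P d k) (j21366_A P d (k + 1) k) := by
    intro k
    have hex : ∃ b, P k (j21366_A P d k) b := j21366_ex h S R hR g hh hD hm c k _ (hA k)
    have h1 : j21366_A P d (k + 1) k = Classical.choose hex := by
      rw [j21366_A, Function.update_self, dif_pos hex]
    rw [h1]
    exact Classical.choose_spec hex
  have hagree : ∀ k, ∀ l < k, j21366_A P d k l = j21366_A P d (l + 1) l := by
    intro k
    induction k with
    | zero =>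
      intro l hl
      exact absurd hl (Nat.not_lt_zero l)
    | succ k ih =>
      intro l hl
      by_cases hlk : l = k
      · subst hlk
        rfl
      · have h1 : j21366_A P d (k + 1) l = j21366_A P d k l := by
          rw [j21366_A, Function.update_of_ne hlk]
        rw [h1]
        exact ih l (by omega)
  refine ⟨fun k => j21366_A P d (k + 1) k, fun k => hA (k + 1) k, ?_⟩
  intro k
  exact (j21366_congr τ S R g hh c k _ (fun k => j21366_A P d (k + 1) k) (hagree k) _ (hPA k)).2

end Pool.Agent.H467F
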