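import Pool.Agent.Helper467.FP.Defs
import Pool.Agent.Helper467.FP.P_n2_mul_le

set_option autoImplicit false

open scoped ComplexOrder Topology InnerProductSpace
open Filter

namespace Pool.Agent.H467F

universe u v w

variable {M : Type u} [CStarAlgebra M] {τ : M →ₗ[ℂ] ℂ}

theorem gen_fun_aux {M : Type u} [CStarAlgebra M] (s : Set M) (y : M)
    (hy : y ∈ StarAlgebra.adjoin ℂ s) :
    ∃ F : Set M, F ⊆ s ∧ F.Countable ∧ y ∈ StarAlgebra.adjoin ℂ F := by
  induction hy using StarAlgebra.adjoin_induction with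
  | mem x hx =>
    exact ⟨{x}, by simpa using hx, Set.countable_singleton x,
      StarAlgebra.subset_adjoin ℂ {x} (Set.mem_singleton x)⟩
  | algebraMap r =>
    exact ⟨∅, Set.empty_subset _, Set.countable_empty, (StarAlgebra.adjoin ℂ ∅).algebraMap_mem r⟩
  | add x y _ _ hx hy =>
    obtain ⟨F, hF, hc, hm⟩ := hx
    obtain ⟨G, hG, hd, hn⟩ := hy
    exact ⟨F ∪ G, Set.union_subset hF hG, hc.union hd,
      add_mem (StarAlgebra.adjoin_mono Set.subset_union_left hm)
        (StarAlgebra.adjoin_mono Set.subset_union_right hn)⟩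
  | mul x y _ _ hx hy =>
    obtain ⟨F, hF, hc, hm⟩ := hx
    obtain ⟨G, hG, hd, hn⟩ := hy
    exact ⟨F ∪ G, Set.union_subset hF hG, hc.union hd,
      mul_mem (StarAlgebra.adjoin_mono Set.subset_union_left hm)
        (StarAlgebra.adjoin_mono Set.subset_union_right hn)⟩
  | star x _ hx =>
    obtain ⟨F, hF, hc, hm⟩ := hx
    exact ⟨F, hF, hc, star_mem hm⟩

theorem gen_fun {M : Type u} [CStarAlgebra M] {τ : M →ₗ[ℂ] ℂ} (h : TW τ) {J : Type v} [Nonempty J]
    (R : J → StarSubalgebra ℂ M) (hd : Dense2 τ R) :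
    ∃ c : M → ℕ → M, (∀ x n, ∃ j, c x n ∈ R j) ∧
      ∀ x, x ∈ Cl τ (StarAlgebra.adjoin ℂ (Set.range (c x)) : Set M) := by
  have key : ∀ x : M, ∃ c : ℕ → M, (∀ n, ∃ j, c n ∈ R j) ∧
      x ∈ Cl τ (StarAlgebra.adjoin ℂ (Set.range c) : Set M) := by
    intro x
    have h1 : ∀ n : ℕ, ∃ y ∈ (Gen R : Set M), n2 τ (x - y) < 1 / ((n : ℝ) + 1) := fun n =>
      hd x _ (by positivity)
    choose y hy hn using h1
    have h2 : ∀ n : ℕ, ∃ F : Set M, F ⊆ (⋃ i, (R i : Set M)) ∧ F.Countable ∧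
        y n ∈ StarAlgebra.adjoin ℂ F := fun n => gen_fun_aux _ _ (hy n)
    choose F hF hFc hyF using h2
    obtain ⟨j0⟩ := (inferInstance : Nonempty J)
    have hC : (insert (1 : M) (⋃ n, F n)).Countable :=
      (Set.countable_iUnion hFc).insert 1
    obtain ⟨c, hc⟩ := hC.exists_eq_range (Set.insert_nonempty _ _)
    refine ⟨c, fun n => ?_, ?_⟩
    · have h3 : c n ∈ insert (1 : M) (⋃ n, F n) := by rw [hc]; exact Set.mem_range_self n
      rcases h3 with h3 | h3
      · exact ⟨j0, by rw [h3]; exact one_mem _⟩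
      · obtain ⟨m, hm⟩ := Set.mem_iUnion.mp h3
        exact Set.mem_iUnion.mp (hF m hm)
    · intro ε hε
      obtain ⟨n, hn'⟩ := exists_nat_one_div_lt hε
      refine ⟨y n, ?_, lt_trans (hn n) hn'⟩
      refine StarAlgebra.adjoin_mono ?_ (hyF n)
      rw [← hc]
      exact (Set.subset_iUnion F n).trans (Set.subset_insert _ _)
  choose c hc1 hc2 using key
  exact ⟨c, hc1, hc2⟩

end Pool.Agent.H467F
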