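import Pool.Agent.Helper467.FP.Defs

set_option autoImplicit false

open scoped ComplexOrder Topology InnerProductSpace
open Filter

namespace Pool.Agent.H467F

universe u v w

variable {M : Type u} [CStarAlgebra M] {τ : M →ₗ[ℂ] ℂ}

open Classical Pointwise in
theorem mono_mem_aux79 {M : Type u} [CStarAlgebra M] (c : M → ℕ → M) (s : ℕ → M) (y : M)
    (hy : y ∈ Submonoid.closure ((⋃ l, Set.range (c (s l))) ∪ star (⋃ l, Set.range (c (s l))))) :
    ∃ m k0 : ℕ, ∀ k ≥ k0, y ∈ ((({1} ∪ lets c s k) ∪ (lets c s k).image star) : Finset M) ^ m := by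
  induction hy using Submonoid.closure_induction with
  | mem x hx =>
    rcases hx with hx | hx
    · obtain ⟨l, r, hlr⟩ := Set.mem_iUnion.1 hx
      refine ⟨1, max l r + 1, fun k hk => ?_⟩
      rw [pow_one]
      apply Finset.mem_union_left
      apply Finset.mem_union_right
      unfold lets
      refine Finset.mem_image.2 ⟨(l, r), Finset.mem_product.2 ⟨?_, ?_⟩, hlr⟩
      · rw [Finset.mem_range]; omega
      · rw [Finset.mem_range]; omega
    · rw [Set.mem_star] at hx
      obtain ⟨l, r, hlr⟩ := Set.mem_iUnion.1 hx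
      refine ⟨1, max l r + 1, fun k hk => ?_⟩
      rw [pow_one]
      apply Finset.mem_union_right
      refine Finset.mem_image.2 ⟨star x, ?_, star_star x⟩
      unfold lets
      refine Finset.mem_image.2 ⟨(l, r), Finset.mem_product.2 ⟨?_, ?_⟩, hlr⟩
      · rw [Finset.mem_range]; omega
      · rw [Finset.mem_range]; omega
  | one =>
    refine ⟨0, 0, fun k _ => ?_⟩
    rw [pow_zero]
    exact Finset.one_mem_one
  | mul x z _ _ hx hz =>
    obtain ⟨m1, k1, h1⟩ := hx
    obtain ⟨m2, k2, h2⟩ := hz
    refine ⟨m1 + m2, max k1 k2, fun k hk => ?_⟩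
    rw [pow_add]
    exact Finset.mul_mem_mul (h1 k (le_trans (le_max_left _ _) hk))
      (h2 k (le_trans (le_max_right _ _) hk))

theorem mono_mem {M : Type u} [CStarAlgebra M] (c : M → ℕ → M) (s : ℕ → M) (y : M)
    (hy : y ∈ Submonoid.closure ((⋃ l, Set.range (c (s l))) ∪ star (⋃ l, Set.range (c (s l))))) :
    ∃ k0, ∀ k ≥ k0, y ∈ mono (lets c s k) k := by
  classical
  obtain ⟨m, k0, h⟩ := mono_mem_aux79 c s y hy
  refine ⟨max m k0, fun k hk => ?_⟩
  unfold mono
  refine Finset.pow_subset_pow_right ?_ (le_trans (le_max_left _ _) hk)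
    (h k (le_trans (le_max_right _ _) hk))
  apply Finset.mem_union_left
  apply Finset.mem_union_left
  exact Finset.mem_singleton_self _

end Pool.Agent.H467F
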