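import Pool.Agent.Helper467.FP.Defs
import Pool.Agent.Helper467.FP.P_ep
import Pool.Agent.Helper467.FP.P_word_span

set_option autoImplicit false

open scoped ComplexOrder Topology InnerProductSpace
open Filter

namespace Pool.Agent.H467F

universe u v w

variable {M : Type u} [CStarAlgebra M] {τ : M →ₗ[ℂ] ℂ}

private theorem to_val_append {M : Type u} [CStarAlgebra M] {ι : Type v} (l m : List (ι × M)) :
    val (l ++ m) = val l * val m := by
  unfold val
  rw [List.map_append, List.prod_append]

private theorem to_val_cons {M : Type u} [CStarAlgebra M] {ι : Type v} (i : ι) (a : M)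
    (m : List (ι × M)) : val ((i, a) :: m) = a * val m := by
  unfold val
  rw [List.map_cons, List.prod_cons]

private theorem to_val_nil {M : Type u} [CStarAlgebra M] {ι : Type v} :
    val ([] : List (ι × M)) = 1 := rfl

private theorem to_mono {M : Type u} [CStarAlgebra M] {τ : M →ₗ[ℂ] ℂ} {ι : Type v}
    {S B : ι → StarSubalgebra ℂ M} (hBS : ∀ i, B i ≤ S i) {m : List (ι × M)}
    (hm : IsWord τ B m) : IsWord τ S m :=
  ⟨hm.1, fun p hp => ⟨hBS _ (hm.2 p hp).1, (hm.2 p hp).2⟩⟩

private theorem to_fst_chain {M : Type u} {ι : Type v} (l : List (ι × M)) :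
    l.IsChain (fun a b => a.1 ≠ b.1) ↔ (l.map Prod.fst).IsChain (· ≠ ·) := by
  rw [List.isChain_map]

private theorem to_joinA {M : Type u} [CStarAlgebra M] {τ : M →ₗ[ℂ] ℂ} {ι : Type v}
    {S : ι → StarSubalgebra ℂ M} {l0 m' : List (ι × M)} {i : ι} {a b c : M}
    (h1 : IsWord τ S (l0 ++ [(i, a)])) (h2 : IsWord τ S ((i, b) :: m')) (hc : c ∈ S i)
    (hc0 : τ c = 0) : IsWord τ S (l0 ++ (i, c) :: m') := by
  refine ⟨?_, ?_⟩
  · have g1 := (to_fst_chain _).1 h1.1
    have g2 := (to_fst_chain _).1 h2.1
    rw [to_fst_chain]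
    rw [List.map_append, List.map_cons, List.map_nil] at g1
    rw [List.map_cons] at g2
    rw [List.map_append, List.map_cons]
    have g3 := List.IsChain.append_overlap (l₁ := l0.map Prod.fst) (l₂ := [i])
      (l₃ := m'.map Prod.fst) g1 (by simpa using g2) (by simp)
    simpa using g3
  · intro p hp
    rcases List.mem_append.1 hp with hp | hp
    · exact h1.2 p (List.mem_append.2 (Or.inl hp))
    · rcases List.mem_cons.1 hp with rfl | hp
      · exact ⟨hc, hc0⟩
      · exact h2.2 p (List.mem_cons_of_mem _ hp)

private theorem to_joinB {M : Type u} [CStarAlgebra M] {τ : M →ₗ[ℂ] ℂ} {ι : Type v}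
    {S : ι → StarSubalgebra ℂ M} {l0 m' : List (ι × M)} {i k : ι} {a b : M} (hik : i ≠ k)
    (h1 : IsWord τ S (l0 ++ [(i, a)])) (h2 : IsWord τ S ((k, b) :: m')) :
    IsWord τ S ((l0 ++ [(i, a)]) ++ (k, b) :: m') := by
  refine ⟨?_, ?_⟩
  · rw [List.isChain_append]
    refine ⟨h1.1, h2.1, ?_⟩
    intro x hx y hy
    rw [List.getLast?_append] at hx
    simp only [List.getLast?_singleton, Option.some_or, Option.mem_some_iff] at hx
    simp only [List.head?_cons, Option.mem_some_iff] at hy
    subst hx
    subst hy
    exact hik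
  · intro p hp
    rcases List.mem_append.1 hp with hp | hp
    · exact h1.2 p hp
    · exact h2.2 p hp

private theorem to_main {M : Type u} [CStarAlgebra M] {τ : M →ₗ[ℂ] ℂ} (h : TW τ) {ι : Type v}
    (S B : ι → StarSubalgebra ℂ M) (hBS : ∀ i, B i ≤ S i) (hB : ∀ i, IsW τ (B i))
    (hf : IsFree τ S) (m : List (ι × M)) : ∀ (_ : IsWord τ B m) (l : List (ι × M))
    (_ : IsTyped τ S B l) (_ : ∃ p ∈ l, E τ (B p.1) p.2 = 0), τ (val l * val m) = 0 := by
  induction m with
  | nil =>
    intro _ l hl hp
    rw [to_val_nil, mul_one]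
    refine hf l hl.1 ?_
    rintro rfl
    obtain ⟨p, hp, -⟩ := hp
    exact List.not_mem_nil hp
  | cons kb m' ih =>
    intro hm l hl hp
    obtain ⟨k, b⟩ := kb
    have hm' : IsWord τ B m' := ⟨by
      have := hm.1
      exact this.tail, fun p hp => hm.2 p (List.mem_cons_of_mem _ hp)⟩
    have hb : b ∈ B k ∧ τ b = 0 := hm.2 (k, b) (List.mem_cons_self ..)
    rcases List.eq_nil_or_concat l with rfl | ⟨l0, ia, rfl⟩
    · obtain ⟨p, hp, -⟩ := hp
      exact absurd hp List.not_mem_nil
    · obtain ⟨i, a⟩ := ia
      rw [List.concat_eq_append] at hl hp ⊢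
      have hia : a ∈ S i ∧ τ a = 0 := hl.1.2 (i, a) (by simp)
      have hmS := to_mono hBS hm
      by_cases hik : i = k
      · subst hik
        have hval : val (l0 ++ [(i, a)]) * val ((i, b) :: m') = val l0 * (a * b) * val m' := by
          rw [to_val_append, to_val_cons, to_val_cons, to_val_nil, mul_one]
          simp only [mul_assoc]
        have hbS : b ∈ S i := hBS i hb.1
        by_cases hE : E τ (B i) a = 0
        · have hc0 : τ (a * b) = 0 := by
            have e1 := (ep h (B i) (hB i)).trace (a * b)
            rw [(ep h (B i) (hB i)).right b hb.1 a, hE, zero_mul, map_zero] at e1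
            exact e1.symm
          have hw := to_joinA (c := a * b) hl.1 hmS ((S i).mul_mem hia.1 hbS) hc0
          have := hf _ hw (by simp)
          rw [to_val_append, to_val_cons, ← mul_assoc] at this
          rw [hval]
          exact this
        · have haB : a ∈ B i := by
            rcases hl.2 (i, a) (by simp) with h1 | h1
            · exact h1
            · exact absurd h1 hE
          have hcB : a * b - τ (a * b) • (1 : M) ∈ B i :=
            (B i).sub_mem ((B i).mul_mem haB hb.1) ((B i).smul_mem (B i).one_mem _)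
          have hc0 : τ (a * b - τ (a * b) • (1 : M)) = 0 := by
            rw [map_sub, map_smul, h.one, smul_eq_mul, mul_one, sub_self]
          have hw := to_joinA (c := a * b - τ (a * b) • (1 : M)) hl.1 hmS (hBS i hcB) hc0
          have h1 := hf _ hw (by simp)
          rw [to_val_append, to_val_cons, ← mul_assoc] at h1
          have hl0 : IsTyped τ S B l0 := by
            refine ⟨⟨?_, fun p hp => hl.1.2 p (List.mem_append.2 (Or.inl hp))⟩,
              fun p hp => hl.2 p (List.mem_append.2 (Or.inl hp))⟩
            have := hl.1.1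
            rw [List.isChain_append] at this
            exact this.1
          have hp0 : ∃ p ∈ l0, E τ (B p.1) p.2 = 0 := by
            obtain ⟨p, hp, hpE⟩ := hp
            rcases List.mem_append.1 hp with hp | hp
            · exact ⟨p, hp, hpE⟩
            · rw [List.mem_singleton] at hp
              subst hp
              exact absurd hpE hE
          have h2 := ih hm' l0 hl0 hp0
          have e : val l0 * (a * b) * val m' =
              val l0 * (a * b - τ (a * b) • (1 : M)) * val m' + τ (a * b) • (val l0 * val m') := by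
            rw [mul_sub, sub_mul, mul_smul_comm, mul_one, smul_mul_assoc]
            abel
          rw [hval, e, map_add, h1, map_smul, h2, smul_zero, add_zero]
      · have hw := to_joinB hik hl.1 hmS
        rw [← to_val_append]
        exact hf _ hw (by simp)

theorem typed_orth {M : Type u} [CStarAlgebra M] {τ : M →ₗ[ℂ] ℂ} (h : TW τ) {ι : Type v}
    (S B : ι → StarSubalgebra ℂ M) (hBS : ∀ i, B i ≤ S i) (hB : ∀ i, IsW τ (B i))
    (hf : IsFree τ S) (l : List (ι × M)) (hl : IsTyped τ S B l)
    (hp : ∃ p ∈ l, E τ (B p.1) p.2 = 0) (n : M) (hn : n ∈ Gen B) : τ (val l * n) = 0 := by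
  have hspan := word_span h B n hn
  refine Submodule.span_induction (p := fun n _ => τ (val l * n) = 0) ?_ ?_ ?_ ?_ hspan
  · rintro x ⟨m, hm, rfl⟩
    exact to_main h S B hBS hB hf m hm l hl hp
  · rw [mul_zero, map_zero]
  · intro x y _ _ hx hy
    rw [mul_add, map_add, hx, hy, add_zero]
  · intro c x _ hx
    rw [mul_smul_comm, map_smul, hx, smul_zero]

end Pool.Agent.H467F
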