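import Pool.Agent.Helper467.FP.Defs
import Pool.Agent.Helper467.FP.P_ep
import Pool.Agent.Helper467.FP.P_word_span
import Pool.Agent.Helper467.FP.P_E_word
import Pool.Agent.Helper467.FP.P_typed_orth

set_option autoImplicit false

open scoped ComplexOrder Topology InnerProductSpace
open Filter

namespace Pool.Agent.H467F

universe u v w

variable {M : Type u} [CStarAlgebra M] {τ : M →ₗ[ℂ] ℂ}

theorem tcr_val_append {ι : Type v} (l1 l2 : List (ι × M)) :
    val (l1 ++ l2) = val l1 * val l2 := by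
  simp [val, List.map_append, List.prod_append]

theorem tcr_val_cons {ι : Type v} (p : ι × M) (l : List (ι × M)) :
    val (p :: l) = p.2 * val l := by
  simp [val]

/-- the starred reversed word -/
def tcr_rev {ι : Type v} (l : List (ι × M)) : List (ι × M) :=
  (l.map (fun p => (p.1, star p.2))).reverse

theorem tcr_val_rev {ι : Type v} (l : List (ι × M)) : val (tcr_rev l) = star (val l) := by
  induction l with
  | nil => simp [tcr_rev, val]
  | cons p l ih =>
    have h1 : tcr_rev (p :: l) = tcr_rev l ++ [(p.1, star p.2)] := by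
      simp [tcr_rev]
    rw [h1, tcr_val_append, ih, tcr_val_cons, tcr_val_cons, star_mul]
    simp [val]

theorem tcr_idx {ι : Type v} (l : List (ι × M)) :
    l.IsChain (fun a b => a.1 ≠ b.1) ↔ (l.map Prod.fst).IsChain (fun a b => a ≠ b) :=
  (List.isChain_map Prod.fst).symm

theorem tcr_glue {M : Type u} [CStarAlgebra M] {τ : M →ₗ[ℂ] ℂ} (h : TW τ) {ι : Type v}
    (S B : ι → StarSubalgebra ℂ M) (hBS : ∀ i, B i ≤ S i) (hE : ∀ i, EP τ (B i))
    (j j' : ι) (x y : M) (hx : x ∈ S j') (hx0 : E τ (B j') x = 0)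
    (hy : y ∈ S j) (hy0 : E τ (B j) y = 0) (l l' : List (ι × M)) (hl : IsTyped τ S B l)
    (hl' : IsTyped τ S B l') (hh : ∀ p ∈ l.head?, p.1 ≠ j) (hh' : ∀ p ∈ l'.head?, p.1 ≠ j')
    (mid : List (ι × M)) (hmid : ∀ p ∈ mid, p.2 ∈ B p.1 ∧ τ p.2 = 0)
    (hch : (j' :: (mid.map Prod.fst ++ [j])).IsChain (fun a b => a ≠ b)) :
    IsTyped τ S B (tcr_rev l' ++ (j', x) :: (mid ++ (j, y) :: l)) := by
  have htr : ∀ (i : ι) (z : M), E τ (B i) z = 0 → τ z = 0 := by
    intro i z hz
    rw [← (hE i).trace z, hz, map_zero]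
  have hletter : ∀ p ∈ tcr_rev l' ++ (j', x) :: (mid ++ (j, y) :: l),
      (p.2 ∈ S p.1 ∧ τ p.2 = 0) ∧ (p.2 ∈ B p.1 ∨ E τ (B p.1) p.2 = 0) := by
    intro p hp
    rcases List.mem_append.1 hp with hp | hp
    · simp only [tcr_rev, List.mem_reverse, List.mem_map] at hp
      obtain ⟨q, hq, rfl⟩ := hp
      have h1 := hl'.1.2 q hq
      have h2 := hl'.2 q hq
      refine ⟨⟨star_mem h1.1, ?_⟩, ?_⟩
      · change τ (star q.2) = 0
        rw [h.conj, h1.2, star_zero]
      · rcases h2 with h2 | h2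
        · exact Or.inl (star_mem h2)
        · right
          change E τ (B q.1) (star q.2) = 0
          rw [(hE q.1).star, h2, star_zero]
    · rcases List.mem_cons.1 hp with rfl | hp
      · exact ⟨⟨hx, htr _ _ hx0⟩, Or.inr hx0⟩
      · rcases List.mem_append.1 hp with hp | hp
        · exact ⟨⟨hBS _ (hmid p hp).1, (hmid p hp).2⟩, Or.inl (hmid p hp).1⟩
        · rcases List.mem_cons.1 hp with rfl | hp
          · exact ⟨⟨hy, htr _ _ hy0⟩, Or.inr hy0⟩
          · exact ⟨hl.1.2 p hp, hl.2 p hp⟩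
  refine ⟨⟨?_, fun p hp => (hletter p hp).1⟩, fun p hp => (hletter p hp).2⟩
  rw [tcr_idx]
  have h1 : (tcr_rev l' ++ (j', x) :: (mid ++ (j, y) :: l)).map Prod.fst
      = (l'.map Prod.fst).reverse ++ j' :: (mid.map Prod.fst ++ j :: l.map Prod.fst) := by
    simp [tcr_rev, Function.comp_def]
  rw [h1, List.isChain_split]
  constructor
  · have h2 : (l'.map Prod.fst).reverse ++ [j'] = (j' :: l'.map Prod.fst).reverse := by simp
    rw [h2, List.isChain_reverse]
    have h3 : (j' :: l'.map Prod.fst).IsChain (fun a b => a ≠ b) := by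
      refine List.IsChain.cons ((tcr_idx l').1 hl'.1.1) ?_
      intro i hi
      rw [List.head?_map, Option.mem_map] at hi
      obtain ⟨p, hp, rfl⟩ := hi
      exact (hh' p hp).symm
    exact h3.imp (fun a b hab => hab.symm)
  · have h2 : j' :: (mid.map Prod.fst ++ j :: l.map Prod.fst)
        = (j' :: mid.map Prod.fst) ++ j :: l.map Prod.fst := rfl
    rw [h2, List.isChain_split]
    refine ⟨hch, List.IsChain.cons ((tcr_idx l).1 hl.1.1) ?_⟩
    intro i hi
    rw [List.head?_map, Option.mem_map] at hi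
    obtain ⟨p, hp, rfl⟩ := hi
    exact (hh p hp).symm

theorem tcr_main {M : Type u} [CStarAlgebra M] {τ : M →ₗ[ℂ] ℂ} (h : TW τ) {ι : Type v}
    (S B : ι → StarSubalgebra ℂ M) (hBS : ∀ i, B i ≤ S i) (hB : ∀ i, IsW τ (B i))
    (hf : IsFree τ S) (j j' : ι) (a a' : M) (ha : a ∈ S j) (ha0 : E τ (B j) a = 0)
    (ha' : a' ∈ S j') (ha0' : E τ (B j') a' = 0) (l l' : List (ι × M)) (hl : IsTyped τ S B l)
    (hl' : IsTyped τ S B l') (hh : ∀ p ∈ l.head?, p.1 ≠ j) (hh' : ∀ p ∈ l'.head?, p.1 ≠ j')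
    (s : M) (hs : s ∈ Gen B) (m : List (ι × M)) (hm : IsWord τ B m) (hex1 : m = [] → j ≠ j')
    (hex2 : ∀ b, m = [(j, b)] → j ≠ j') :
    τ (star (a' * val l') * val m * (a * val l) * s) = 0 := by
  have hE : ∀ i, EP τ (B i) := fun i => ep h (B i) (hB i)
  -- left absorption
  obtain ⟨x, m1, hx, hx0, hm1, hch1, hval1, hne1⟩ : ∃ (x : M) (m1 : List (ι × M)), x ∈ S j' ∧
      E τ (B j') x = 0 ∧ (∀ p ∈ m1, p.2 ∈ B p.1 ∧ τ p.2 = 0) ∧
      (j' :: m1.map Prod.fst).IsChain (fun a b => a ≠ b) ∧ star a' * val m = x * val m1 ∧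
      (m1 = [] → j ≠ j') := by
    have hsa : star a' ∈ S j' := star_mem ha'
    have hsa0 : E τ (B j') (star a') = 0 := by rw [(hE j').star, ha0', star_zero]
    rcases m with _ | ⟨⟨k, b⟩, m'⟩
    · exact ⟨star a', [], hsa, hsa0, by simp, by simp, rfl, fun _ => hex1 rfl⟩
    · by_cases hk : k = j'
      · subst hk
        have hb : b ∈ B k := (hm.2 (k, b) (by simp)).1
        refine ⟨star a' * b, m', mul_mem hsa (hBS _ hb), ?_, fun p hp => hm.2 p (by simp [hp]),
          ?_, ?_, ?_⟩
        · rw [(hE k).right b hb, hsa0, zero_mul]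
        · exact (tcr_idx _).1 hm.1
        · rw [tcr_val_cons, mul_assoc]
        · intro h0 hjk
          subst h0
          subst hjk
          exact hex2 b rfl rfl
      · refine ⟨star a', (k, b) :: m', hsa, hsa0, hm.2, ?_, rfl, by simp⟩
        refine List.IsChain.cons ((tcr_idx _).1 hm.1) ?_
        intro i hi
        simp at hi
        rw [← hi]
        exact fun h => hk h.symm
  -- right absorption
  obtain ⟨y, mid, hy, hy0, hmid, hch, hval⟩ : ∃ (y : M) (mid : List (ι × M)), y ∈ S j ∧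
      E τ (B j) y = 0 ∧ (∀ p ∈ mid, p.2 ∈ B p.1 ∧ τ p.2 = 0) ∧
      (j' :: (mid.map Prod.fst ++ [j])).IsChain (fun a b => a ≠ b) ∧
      val m1 * a = val mid * y := by
    rcases List.eq_nil_or_concat m1 with h0 | ⟨m2, ⟨k, b⟩, h0⟩
    · subst h0
      refine ⟨a, [], ha, ha0, by simp, ?_, rfl⟩
      have := hne1 rfl
      simp [this.symm]
    · rw [List.concat_eq_append] at h0
      subst h0
      by_cases hk : k = j
      · subst hk
        have hb : b ∈ B k := (hm1 (k, b) (by simp)).1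
        refine ⟨b * a, m2, mul_mem (hBS _ hb) ha, ?_, fun p hp => hm1 p (by simp [hp]), ?_, ?_⟩
        · rw [(hE k).left b hb, ha0, mul_zero]
        · simpa using hch1
        · rw [tcr_val_append, tcr_val_cons, mul_assoc]
          simp [val, mul_assoc]
      · refine ⟨a, m2 ++ [(k, b)], ha, ha0, hm1, ?_, rfl⟩
        have h2 : j' :: ((m2 ++ [(k, b)]).map Prod.fst ++ [j])
            = (j' :: m2.map Prod.fst) ++ k :: [j] := by simp
        rw [h2, List.isChain_split]
        refine ⟨by simpa using hch1, ?_⟩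
        simp [hk]
  have hty := tcr_glue h S B hBS hE j j' x y hx hx0 hy hy0 l l' hl hl' hh hh' mid hmid hch
  have hfin := typed_orth h S B hBS hB hf _ hty ⟨(j', x), by simp, hx0⟩ s hs
  have hv : val (tcr_rev l' ++ (j', x) :: (mid ++ (j, y) :: l))
      = star (a' * val l') * val m * (a * val l) := by
    rw [tcr_val_append, tcr_val_cons, tcr_val_append, tcr_val_cons, tcr_val_rev, star_mul]
    calc star (val l') * (x * (val mid * (y * val l)))
        = star (val l') * (x * ((val mid * y) * val l)) := by rw [mul_assoc (val mid)]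
      _ = star (val l') * ((x * val m1) * (a * val l)) := by rw [← hval, mul_assoc (val m1), mul_assoc x]
      _ = star (val l') * star a' * val m * (a * val l) := by rw [← hval1]; simp only [mul_assoc]
  rw [← hv]
  exact hfin

theorem typed_cross {M : Type u} [CStarAlgebra M] {τ : M →ₗ[ℂ] ℂ} (h : TW τ) {ι : Type v}
    (S B : ι → StarSubalgebra ℂ M) (hBS : ∀ i, B i ≤ S i) (hB : ∀ i, IsW τ (B i))
    (hf : IsFree τ S) (j j' : ι) (a a' : M) (ha : a ∈ S j) (ha0 : E τ (B j) a = 0)
    (ha' : a' ∈ S j') (ha0' : E τ (B j') a' = 0) (l l' : List (ι × M)) (hl : IsTyped τ S B l)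
    (hl' : IsTyped τ S B l') (hh : ∀ p ∈ l.head?, p.1 ≠ j) (hh' : ∀ p ∈ l'.head?, p.1 ≠ j')
    (t s : M) (ht : t ∈ Gen B) (hs : s ∈ Gen B) :
    (j ≠ j' → τ (star (a' * val l') * t * (a * val l) * s) = 0) ∧
    (j = j' → τ (star (a' * val l') * (t - E τ (B j) t) * (a * val l) * s) = 0) := by
  have hE : ∀ i, EP τ (B i) := fun i => ep h (B i) (hB i)
  have hfB : IsFree τ B := fun l hl hne =>
    hf l ⟨hl.1, fun p hp => ⟨hBS _ (hl.2 p hp).1, (hl.2 p hp).2⟩⟩ hne
  have hsp := word_span h B t ht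
  refine Submodule.span_induction (p := fun t _ =>
    (j ≠ j' → τ (star (a' * val l') * t * (a * val l) * s) = 0) ∧
    (j = j' → τ (star (a' * val l') * (t - E τ (B j) t) * (a * val l) * s) = 0)) ?_ ?_ ?_ ?_ hsp
  · rintro _ ⟨m, hm, rfl⟩
    constructor
    · intro hjj
      exact tcr_main h S B hBS hB hf j j' a a' ha ha0 ha' ha0' l l' hl hl' hh hh' s hs m hm
        (fun _ => hjj) (fun _ _ => hjj)
    · intro hjj
      by_cases h0 : m = []
      · subst h0
        have : val ([] : List (ι × M)) = 1 := by simp [val]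
        rw [this, (hE j).of_mem 1 (one_mem _), sub_self]
        simp
      by_cases h1 : ∃ b, m = [(j, b)]
      · obtain ⟨b, rfl⟩ := h1
        have hb : b ∈ B j := (hm.2 (j, b) (by simp)).1
        have : val [(j, b)] = b := by simp [val]
        rw [this, (hE j).of_mem b hb, sub_self]
        simp
      · push Not at h1
        rw [E_word h B hfB j (hB j) m hm h0 h1, sub_zero]
        exact tcr_main h S B hBS hB hf j j' a a' ha ha0 ha' ha0' l l' hl hl' hh hh' s hs m hm
          (fun h => absurd h h0) (fun b h => absurd h (h1 b))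
  · have h0 : E τ (B j) 0 = 0 := (hE j).of_mem 0 (zero_mem _) 
    rw [h0]
    simp
  · intro t1 t2 _ _ h1 h2
    constructor
    · intro hjj
      rw [mul_add, add_mul, add_mul, map_add, h1.1 hjj, h2.1 hjj, add_zero]
    · intro hjj
      rw [(hE j).add, add_sub_add_comm, mul_add, add_mul, add_mul, map_add, h1.2 hjj, h2.2 hjj,
        add_zero]
  · intro c t1 _ h1
    constructor
    · intro hjj
      rw [mul_smul_comm, smul_mul_assoc, smul_mul_assoc, map_smul, h1.1 hjj, smul_zero]
    · intro hjj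
      rw [(hE j).smul, ← smul_sub, mul_smul_comm, smul_mul_assoc, smul_mul_assoc, map_smul,
        h1.2 hjj, smul_zero]

end Pool.Agent.H467F
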