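import Pool.Agent.Helper467.FP.Defs
import Pool.Agent.Helper467.FP.P_n2_mul_le
import Pool.Agent.Helper467.FP.P_tau_bounds
import Pool.Agent.Helper467.FP.P_ep
import Pool.Agent.Helper467.FP.P_word_span
import Pool.Agent.Helper467.FP.P_typed_orth
import Pool.Agent.Helper467.FP.P_typed_cross

set_option autoImplicit false

open scoped ComplexOrder Topology InnerProductSpace
open Filter

namespace Pool.Agent.H467F

universe u v w

variable {M : Type u} [CStarAlgebra M] {τ : M →ₗ[ℂ] ℂ}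

theorem ct_val_append {ι : Type v} (l1 l2 : List (ι × M)) :
    val (l1 ++ l2) = val l1 * val l2 := by
  simp [val, List.map_append, List.prod_append]

theorem ct_val_cons {ι : Type v} (p : ι × M) (l : List (ι × M)) :
    val (p :: l) = p.2 * val l := by
  simp [val]

/-- split at the first type 1 letter -/
theorem ct_split {M : Type u} [CStarAlgebra M] {τ : M →ₗ[ℂ] ℂ} {ι : Type v}
    (S B : ι → StarSubalgebra ℂ M) (l : List (ι × M)) (hl : IsTyped τ S B l)
    (hp : ∃ p ∈ l, E τ (B p.1) p.2 = 0) :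
    ∃ (m : M) (j : ι) (a : M) (l1 : List (ι × M)), m ∈ Gen B ∧ a ∈ S j ∧ E τ (B j) a = 0 ∧
      IsTyped τ S B l1 ∧ (∀ p ∈ l1.head?, p.1 ≠ j) ∧ val l = m * (a * val l1) := by
  induction l with
  | nil => simp at hp
  | cons q l ih =>
    have hl1 : IsTyped τ S B l :=
      ⟨⟨hl.1.1.tail, fun p hp => hl.1.2 p (List.mem_cons_of_mem _ hp)⟩,
        fun p hp => hl.2 p (List.mem_cons_of_mem _ hp)⟩
    by_cases hq : E τ (B q.1) q.2 = 0
    · refine ⟨1, q.1, q.2, l, one_mem _, (hl.1.2 q (by simp)).1, hq, hl1, ?_, ?_⟩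
      · intro p hp
        exact ((List.isChain_cons.1 hl.1.1).1 p hp).symm
      · rw [ct_val_cons, one_mul]
    · obtain ⟨p, hp1, hp2⟩ := hp
      rcases List.mem_cons.1 hp1 with rfl | hp1
      · exact absurd hp2 hq
      · obtain ⟨m, j, a, l1, hm, ha, ha0, hl2, hh, hv⟩ := ih hl1 ⟨p, hp1, hp2⟩
        have hqB : q.2 ∈ B q.1 := (hl.2 q (by simp)).resolve_right hq
        have hqG : q.2 ∈ Gen B :=
          StarAlgebra.subset_adjoin ℂ _ (Set.mem_iUnion.2 ⟨q.1, hqB⟩)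
        refine ⟨q.2 * m, j, a, l1, mul_mem hqG hm, ha, ha0, hl2, hh, ?_⟩
        rw [ct_val_cons, hv, mul_assoc]

/-- norm bound -/
theorem ct_bound {M : Type u} [CStarAlgebra M] {τ : M →ₗ[ℂ] ℂ} (h : TW τ) (x t y s : M) :
    ‖τ (x * t * y * s)‖ ≤ ‖x‖ * n2 τ t * ‖y‖ * ‖s‖ := by
  refine ((tau_bounds h).1 _).trans ?_
  refine ((n2_mul_le h s _).2).trans ?_
  refine mul_le_mul_of_nonneg_right ?_ (norm_nonneg _)
  refine ((n2_mul_le h y _).2).trans ?_
  refine mul_le_mul_of_nonneg_right ?_ (norm_nonneg _)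
  exact (n2_mul_le h x t).1

theorem ct_bound' {M : Type u} [CStarAlgebra M] {τ : M →ₗ[ℂ] ℂ} (h : TW τ) (x t y s : M) :
    ‖τ (x * t * y * s)‖ ≤ ‖x * t * y‖ * n2 τ s := 
  ((tau_bounds h).1 _).trans (n2_mul_le h _ _).1

/-- extension of a bilinear vanishing statement to the closure -/
theorem ct_ext {M : Type u} [CStarAlgebra M] {τ : M →ₗ[ℂ] ℂ} (h : TW τ)
    (G : Set M) (x y : M) (f : M → M) (hf : ∀ t t', f (t - t') = f t - f t')
    (C : ℝ) (hC : 0 < C) (hfC : ∀ t, n2 τ (f t) ≤ C * n2 τ t)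
    (H : ∀ t ∈ G, ∀ s ∈ G, τ (x * f t * y * s) = 0)
    (t s : M) (ht : t ∈ Cl τ G) (hs : s ∈ Cl τ G) : τ (x * f t * y * s) = 0 := by
  rw [← norm_eq_zero]
  refine le_antisymm (le_of_forall_pos_le_add fun ε hε => ?_) (norm_nonneg _)
  rw [zero_add]
  obtain ⟨t0, ht0, h1⟩ := ht (ε / 2 / (C * ‖x‖ * ‖y‖ * ‖s‖ + 1)) (by positivity)
  obtain ⟨s0, hs0, h2⟩ := hs (ε / 2 / (‖x * f t0 * y‖ + 1)) (by positivity)
  have h3 : τ (x * f t * y * s) = τ (x * f (t - t0) * y * s) + τ (x * f t0 * y * (s - s0)) := by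
    have : x * f t * y * s = x * f (t - t0) * y * s + x * f t0 * y * (s - s0) + x * f t0 * y * s0 := by
      rw [hf]; noncomm_ring
    rw [this, map_add, map_add, H t0 ht0 s0 hs0, add_zero]
  rw [h3]
  have h4 : ‖τ (x * f (t - t0) * y * s)‖ ≤ ε / 2 := by
    refine (ct_bound h _ _ _ _).trans ?_
    have h5 : ‖x‖ * n2 τ (f (t - t0)) * ‖y‖ * ‖s‖ ≤ ‖x‖ * (C * n2 τ (t - t0)) * ‖y‖ * ‖s‖ := by
      gcongr
      exact hfC _
    refine h5.trans ?_
    have h6 : n2 τ (t - t0) * (C * ‖x‖ * ‖y‖ * ‖s‖ + 1) ≤ ε / 2 := by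
      rw [lt_div_iff₀ (by positivity)] at h1
      exact h1.le
    have h7 := n2_nonneg (fun z => τ z) (t - t0)
    have h8 : 0 ≤ n2 τ (t - t0) := h7
    calc ‖x‖ * (C * n2 τ (t - t0)) * ‖y‖ * ‖s‖ = n2 τ (t - t0) * (C * ‖x‖ * ‖y‖ * ‖s‖) := by ring
      _ ≤ n2 τ (t - t0) * (C * ‖x‖ * ‖y‖ * ‖s‖ + 1) := by gcongr; linarith
      _ ≤ ε / 2 := h6
  have h9 : ‖τ (x * f t0 * y * (s - s0))‖ ≤ ε / 2 := by
    refine (ct_bound' h _ _ _ _).trans ?_
    have h6 : n2 τ (s - s0) * (‖x * f t0 * y‖ + 1) ≤ ε / 2 := by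
      rw [lt_div_iff₀ (by positivity)] at h2
      exact h2.le
    have h8 : 0 ≤ n2 τ (s - s0) := n2_nonneg (fun z => τ z) (s - s0)
    calc ‖x * f t0 * y‖ * n2 τ (s - s0) = n2 τ (s - s0) * ‖x * f t0 * y‖ := by ring
      _ ≤ n2 τ (s - s0) * (‖x * f t0 * y‖ + 1) := by gcongr; linarith
      _ ≤ ε / 2 := h6
  calc _ ≤ _ + _ := norm_add_le _ _
    _ ≤ ε / 2 + ε / 2 := add_le_add h4 h9
    _ = ε := by ring

theorem cross_tendsto {M : Type u} [CStarAlgebra M] {τ : M →ₗ[ℂ] ℂ} (h : TW τ) {ι : Type v}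
    (S B : ι → StarSubalgebra ℂ M) (hBS : ∀ i, B i ≤ S i) (hB : ∀ i, IsW τ (B i))
    (hW : ∀ i, IsW τ (S i)) (hf : IsFree τ S) (s : ℕ → M) (hs1 : ∀ k, star (s k) * s k = 1)
    (hs2 : ∀ k, s k * star (s k) = 1) (hsB : ∀ k, s k ∈ Cl τ (Gen B : Set M))
    (hmix : ∀ j, ∀ n ∈ Gen B, ∀ m ∈ Gen B,
      Tendsto (fun k => n2 τ (E τ (S j) (n * s k * m))) atTop (𝓝 0))
    (l l' : List (ι × M)) (hl : IsTyped τ S B l) (hl' : IsTyped τ S B l')
    (hp : ∃ p ∈ l, E τ (B p.1) p.2 = 0) (hp' : ∃ p ∈ l', E τ (B p.1) p.2 = 0) :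
    Tendsto (fun k => τ (star (val l') * s k * val l * star (s k))) atTop (𝓝 0) := by
  have hE : ∀ i, EP τ (B i) := fun i => ep h (B i) (hB i)
  have hES : ∀ i, EP τ (S i) := fun i => ep h (S i) (hW i)
  obtain ⟨m, j, a, l1, hm, ha, ha0, hl1, hh, hv⟩ := ct_split S B l hl hp
  obtain ⟨m', j', a', l1', hm', ha', ha0', hl1', hh', hv'⟩ := ct_split S B l' hl' hp'
  have hm's : star m' ∈ Gen B := star_mem hm'
  set t : ℕ → M := fun k => star m' * s k * m with ht
  have hrw : ∀ k, star (val l') * s k * val l * star (s k)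
      = star (a' * val l1') * t k * (a * val l1) * star (s k) := by
    intro k
    rw [hv, hv', star_mul, ht]
    simp only [mul_assoc]
  have htcl : ∀ k, t k ∈ Cl τ (Gen B : Set M) := by
    intro k ε hε
    obtain ⟨y, hy, hy2⟩ := hsB k (ε / (‖star m'‖ * ‖m‖ + 1)) (by positivity)
    refine ⟨star m' * y * m, mul_mem (mul_mem hm's hy) hm, ?_⟩
    have h1 : t k - star m' * y * m = star m' * (s k - y) * m := by
      rw [ht]; noncomm_ring
    rw [h1]
    have h2 : n2 τ (star m' * (s k - y) * m) ≤ ‖star m'‖ * n2 τ (s k - y) * ‖m‖ :=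
      ((n2_mul_le h m _).2).trans (mul_le_mul_of_nonneg_right (n2_mul_le h _ _).1 (norm_nonneg _))
    rw [lt_div_iff₀ (by positivity)] at hy2
    have h3 : 0 ≤ n2 τ (s k - y) := n2_nonneg (fun z => τ z) (s k - y)
    nlinarith
  have hscl : ∀ k, star (s k) ∈ Cl τ (Gen B : Set M) := by
    intro k ε hε
    obtain ⟨y, hy, hy2⟩ := hsB k ε hε
    refine ⟨star y, star_mem hy, ?_⟩
    rw [← star_sub, h.n2_star]
    exact hy2
  have hnorm : ∀ k, ‖star (s k)‖ ≤ 1 := by
    intro k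
    have h1 : ‖s k * star (s k)‖ = ‖s k‖ * ‖s k‖ := CStarRing.norm_self_mul_star
    rw [hs2] at h1
    have h2 : ‖(1 : M)‖ ≤ 1 := by
      rcases subsingleton_or_nontrivial M with hM | hM
      · rw [Subsingleton.elim (1 : M) 0, norm_zero]; exact zero_le_one
      · rw [CStarRing.norm_one]
    rw [norm_star]
    nlinarith [norm_nonneg (s k)]
  by_cases hjj : j = j'
  · subst hjj
    have key : ∀ k, τ (star (a' * val l1') * t k * (a * val l1) * star (s k))
        = τ (star (a' * val l1') * E τ (B j) (t k) * (a * val l1) * star (s k)) := by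
      intro k
      have h0 := ct_ext h (Gen B : Set M) (star (a' * val l1')) (a * val l1)
        (fun t => t - E τ (B j) t) (fun t t' => by rw [(hE j).sub]; abel) 2 (by norm_num)
        (fun t => by
          have h1 := h.n2_sub_le t (E τ (B j) t)
          have h2 := (hE j).n2_le t
          linarith)
        (fun t ht s hs => (typed_cross h S B hBS hB hf j j a a' ha ha0 ha' ha0' l1 l1' hl1 hl1'
          hh hh' t s ht hs).2 rfl) (t k) (star (s k)) (htcl k) (hscl k)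
      have h1 : star (a' * val l1') * t k * (a * val l1) * star (s k)
          = star (a' * val l1') * (t k - E τ (B j) (t k)) * (a * val l1) * star (s k)
          + star (a' * val l1') * E τ (B j) (t k) * (a * val l1) * star (s k) := by
        noncomm_ring
      rw [h1, map_add]
      have h2 : τ (star (a' * val l1') * (t k - E τ (B j) (t k)) * (a * val l1) * star (s k)) = 0 := h0
      rw [h2, zero_add]
    have hlim := (hmix j (star m') hm's m hm).const_mul (‖star (a' * val l1')‖ * ‖a * val l1‖)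
    rw [mul_zero] at hlim
    refine squeeze_zero_norm (fun k => ?_) hlim
    rw [hrw, key]
    refine (ct_bound h _ _ _ _).trans ?_
    have h1 : n2 τ (E τ (B j) (t k)) ≤ n2 τ (E τ (S j) (t k)) := by
      rw [← (hES j).tower (t k) (B j) (hBS j) (hB j)]
      exact (hE j).n2_le _
    have h3 : 0 ≤ n2 τ (E τ (B j) (t k)) := n2_nonneg (fun z => τ z) _
    calc ‖star (a' * val l1')‖ * n2 τ (E τ (B j) (t k)) * ‖a * val l1‖ * ‖star (s k)‖
        ≤ ‖star (a' * val l1')‖ * n2 τ (E τ (S j) (t k)) * ‖a * val l1‖ * 1 := by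
          have h4 : 0 ≤ n2 τ (E τ (S j) (t k)) := n2_nonneg (fun z => τ z) _
          refine mul_le_mul ?_ (hnorm k) (norm_nonneg _)
            (mul_nonneg (mul_nonneg (norm_nonneg _) h4) (norm_nonneg _))
          exact mul_le_mul_of_nonneg_right (mul_le_mul_of_nonneg_left h1 (norm_nonneg _)) (norm_nonneg _)
      _ = ‖star (a' * val l1')‖ * ‖a * val l1‖ * n2 τ (E τ (S j) (t k)) := by ring
  · have key : ∀ k, τ (star (val l') * s k * val l * star (s k)) = 0 := by
      intro k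
      rw [hrw]
      exact ct_ext h (Gen B : Set M) (star (a' * val l1')) (a * val l1)
        (fun t => t) (fun t t' => rfl) 1 (by norm_num) (fun t => by rw [one_mul])
        (fun t ht s hs => (typed_cross h S B hBS hB hf j j' a a' ha ha0 ha' ha0' l1 l1' hl1 hl1'
          hh hh' t s ht hs).1 hjj) (t k) (star (s k)) (htcl k) (hscl k)
    simp only [key]
    exact tendsto_const_nhds

end Pool.Agent.H467F
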