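import Pool.Agent.Helper467.FP.Defs
import Pool.Agent.Helper467.FP.P_ep
import Pool.Agent.Helper467.FP.P_word_span

set_option autoImplicit false

open scoped ComplexOrder Topology InnerProductSpace
open Filter

namespace Pool.Agent.H467F

universe u v w

variable {M : Type u} [CStarAlgebra M] {τ : M →ₗ[ℂ] ℂ}

theorem typed_span_word {M : Type u} [CStarAlgebra M] {τ : M →ₗ[ℂ] ℂ} (h : TW τ) {ι : Type v}
    (S B : ι → StarSubalgebra ℂ M) (hBS : ∀ i, B i ≤ S i) (hB : ∀ i, IsW τ (B i)) :
    ∀ l : List (ι × M), IsWord τ S l → val l ∈ Submodule.span ℂ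
      {y : M | ∃ l', IsTyped τ S B l' ∧ l'.map Prod.fst = l.map Prod.fst ∧ y = val l'} := by
  intro l
  induction l with
  | nil =>
    intro hl
    refine Submodule.subset_span ⟨[], ⟨hl, ?_⟩, rfl, rfl⟩
    intro p hp
    simp at hp
  | cons q t ih =>
    obtain ⟨i, a⟩ := q
    intro hl
    have hchain := hl.1
    have hmem := hl.2
    have ht : IsWord τ S t := ⟨hchain.tail, fun p hp => hmem p (List.mem_cons_of_mem _ hp)⟩
    have hiht := ih ht
    have ha := hmem (i, a) List.mem_cons_self
    have haS : a ∈ S i := ha.1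
    have haτ : τ a = 0 := ha.2
    have hep := ep h (B i) (hB i)
    have heB := hep.mem a
    have heS : E τ (B i) a ∈ S i := hBS i heB
    have heτ : τ (E τ (B i) a) = 0 := by rw [hep.trace, haτ]
    have hval : val ((i, a) :: t) = a * val t := by
      unfold val; simp
    have hch2 : List.IsChain (· ≠ ·) (((i, a) :: t).map Prod.fst) := by
      rw [List.isChain_map]; exact hchain
    -- general cons
    have gen : ∀ b : M, b ∈ S i → τ b = 0 → (b ∈ B i ∨ E τ (B i) b = 0) →
        ∀ x ∈ Submodule.span ℂ {y : M | ∃ l', IsTyped τ S B l' ∧ l'.map Prod.fst = t.map Prod.fst ∧ y = val l'},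
        b * x ∈ Submodule.span ℂ {y : M | ∃ l', IsTyped τ S B l' ∧ l'.map Prod.fst = ((i, a) :: t).map Prod.fst ∧ y = val l'} := by
      intro b hbS hbτ hbt x hx
      induction hx using Submodule.span_induction with
      | mem x hx =>
        obtain ⟨l', hl', hmap, rfl⟩ := hx
        refine Submodule.subset_span ⟨(i, b) :: l', ⟨⟨?_, ?_⟩, ?_⟩, ?_, ?_⟩
        · rw [← List.isChain_map (R := (· ≠ ·)) (f := Prod.fst)]
          have e : ((i, b) :: l').map Prod.fst = ((i, a) :: t).map Prod.fst := by
            simp [hmap]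
          rw [e]; exact hch2
        · intro p hp
          rcases List.mem_cons.mp hp with rfl | hp
          · exact ⟨hbS, hbτ⟩
          · exact hl'.1.2 p hp
        · intro p hp
          rcases List.mem_cons.mp hp with rfl | hp
          · exact hbt
          · exact hl'.2 p hp
        · simp [hmap]
        · unfold val; simp
      | zero => rw [mul_zero]; exact Submodule.zero_mem _
      | add x y _ _ hx hy => rw [mul_add]; exact Submodule.add_mem _ hx hy
      | smul c x _ hx => rw [mul_smul_comm]; exact Submodule.smul_mem _ c hx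
    rw [hval]
    have hsplit : a * val t = E τ (B i) a * val t + (a - E τ (B i) a) * val t := by
      rw [← add_mul]; congr 1; abel
    rw [hsplit]
    refine Submodule.add_mem _ (gen _ heS heτ (Or.inl heB) _ hiht) (gen _ ?_ ?_ (Or.inr ?_) _ hiht)
    · exact sub_mem haS heS
    · rw [map_sub, haτ, heτ, sub_zero]
    · rw [hep.sub, hep.of_mem _ heB, sub_self]

theorem typed_span {M : Type u} [CStarAlgebra M] {τ : M →ₗ[ℂ] ℂ} (h : TW τ) {ι : Type v}
    (S B : ι → StarSubalgebra ℂ M) (hBS : ∀ i, B i ≤ S i) (hB : ∀ i, IsW τ (B i)) (x : M)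
    (hx : x ∈ Gen S) : x ∈ Submodule.span ℂ {y : M | ∃ l, IsTyped τ S B l ∧ y = val l} := by
  have hw := word_span h S x hx
  refine (Submodule.span_le.mpr ?_) hw
  rintro y ⟨l, hl, rfl⟩
  refine Submodule.span_mono ?_ (typed_span_word h S B hBS hB l hl)
  rintro z ⟨l', h1, -, h3⟩
  exact ⟨l', h1, h3⟩

end Pool.Agent.H467F
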