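import Pool.Agent.Helper467.FP.Defs
import Pool.Agent.Helper467.FP.P_n2_mul_le
import Pool.Agent.Helper467.FP.P_tau_bounds
import Pool.Agent.Helper467.FP.P_ep
import Pool.Agent.Helper467.FP.P_exists_closure
import Pool.Agent.Helper467.FP.P_typed_span
import Pool.Agent.Helper467.FP.P_typed_orth
import Pool.Agent.Helper467.FP.P_cross_tendsto

set_option autoImplicit false

open scoped ComplexOrder Topology InnerProductSpace
open Filter

namespace Pool.Agent.H467F

universe u v w

variable {M : Type u} [CStarAlgebra M] {τ : M →ₗ[ℂ] ℂ}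

/-- span of the typed words having a letter of type 1 -/
private noncomputable abbrev j20731_V {M : Type u} [CStarAlgebra M] (τ : M →ₗ[ℂ] ℂ) {ι : Type v}
    (S B : ι → StarSubalgebra ℂ M) : Submodule ℂ M :=
  Submodule.span ℂ
    {y : M | ∃ l, IsTyped τ S B l ∧ (∃ p ∈ l, E τ (B p.1) p.2 = 0) ∧ y = val l}

private theorem j20731_split {M : Type u} [CStarAlgebra M] {τ : M →ₗ[ℂ] ℂ} {ι : Type v}
    (S B : ι → StarSubalgebra ℂ M) (y : M)
    (hy : y ∈ Submodule.span ℂ {y : M | ∃ l, IsTyped τ S B l ∧ y = val l}) :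
    ∃ y0 ∈ Gen B, ∃ y1 ∈ j20731_V τ S B, y = y0 + y1 := by
  induction hy using Submodule.span_induction with
  | mem y hy =>
    obtain ⟨l, hl, rfl⟩ := hy
    by_cases hp : ∃ p ∈ l, E τ (B p.1) p.2 = 0
    · exact ⟨0, zero_mem _, val l, Submodule.subset_span ⟨l, hl, hp, rfl⟩, (zero_add _).symm⟩
    · push Not at hp
      refine ⟨val l, ?_, 0, zero_mem _, (add_zero _).symm⟩
      have hB' : ∀ p ∈ l, p.2 ∈ Gen B := by
        intro p hpl
        have h1 : p.2 ∈ B p.1 := (hl.2 p hpl).resolve_right (hp p hpl)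
        exact StarAlgebra.subset_adjoin ℂ _ (Set.mem_iUnion.2 ⟨p.1, h1⟩)
      unfold val
      apply list_prod_mem
      intro z hz
      rw [List.mem_map] at hz
      obtain ⟨p, hp1, rfl⟩ := hz
      exact hB' p hp1
  | zero => exact ⟨0, zero_mem _, 0, zero_mem _, (add_zero _).symm⟩
  | add a b _ _ iha ihb =>
    obtain ⟨a0, ha0, a1, ha1, rfl⟩ := iha
    obtain ⟨b0, hb0, b1, hb1, rfl⟩ := ihb
    exact ⟨a0 + b0, add_mem ha0 hb0, a1 + b1, add_mem ha1 hb1, by abel⟩
  | smul c a _ iha =>
    obtain ⟨a0, ha0, a1, ha1, rfl⟩ := iha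
    exact ⟨c • a0, SMulMemClass.smul_mem c ha0, c • a1, Submodule.smul_mem _ c ha1,
      smul_add c a0 a1⟩

private theorem j20731_orth {M : Type u} [CStarAlgebra M] {τ : M →ₗ[ℂ] ℂ} (h : TW τ) {ι : Type v}
    (S B : ι → StarSubalgebra ℂ M) (hBS : ∀ i, B i ≤ S i) (hB : ∀ i, IsW τ (B i))
    (hf : IsFree τ S) (y : M) (hy : y ∈ j20731_V τ S B) (n : M) (hn : n ∈ Gen B) :
    τ (y * n) = 0 := by
  induction hy using Submodule.span_induction with
  | mem y hy =>
    obtain ⟨l, hl, hp, rfl⟩ := hy
    exact typed_orth h S B hBS hB hf l hl hp n hn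
  | zero => rw [zero_mul, map_zero]
  | add a b _ _ iha ihb => rw [add_mul, map_add, iha, ihb, add_zero]
  | smul c a _ iha => rw [smul_mul_assoc, map_smul, iha, smul_zero]

private theorem j20731_cross {M : Type u} [CStarAlgebra M] {τ : M →ₗ[ℂ] ℂ} (h : TW τ) {ι : Type v}
    (S B : ι → StarSubalgebra ℂ M) (hBS : ∀ i, B i ≤ S i) (hB : ∀ i, IsW τ (B i))
    (hW : ∀ i, IsW τ (S i)) (hf : IsFree τ S) (s : ℕ → M) (hs1 : ∀ k, star (s k) * s k = 1)
    (hs2 : ∀ k, s k * star (s k) = 1) (hsB : ∀ k, s k ∈ Cl τ (Gen B : Set M))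
    (hmix : ∀ j, ∀ n ∈ Gen B, ∀ m ∈ Gen B,
      Tendsto (fun k => n2 τ (E τ (S j) (n * s k * m))) atTop (𝓝 0))
    (a : M) (ha : a ∈ j20731_V τ S B) (b : M) (hb : b ∈ j20731_V τ S B) :
    Tendsto (fun k => τ (star a * s k * b * star (s k))) atTop (𝓝 0) := by
  induction ha using Submodule.span_induction with
  | mem a ha =>
    obtain ⟨l', hl', hp', rfl⟩ := ha
    induction hb using Submodule.span_induction with
    | mem b hb =>
      obtain ⟨l, hl, hp, rfl⟩ := hb
      exact cross_tendsto h S B hBS hB hW hf s hs1 hs2 hsB hmix l l' hl hl' hp hp'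
    | zero => simp
    | add a b _ _ iha ihb =>
      have h1 := iha.add ihb
      rw [add_zero] at h1
      refine h1.congr fun k => ?_
      rw [mul_add, add_mul, map_add]
    | smul c a _ iha =>
      have h1 := iha.const_mul c
      rw [mul_zero] at h1
      refine h1.congr fun k => ?_
      rw [mul_smul_comm, smul_mul_assoc, map_smul, smul_eq_mul]
  | zero => simp
  | add a b _ _ iha ihb =>
    have h1 := iha.add ihb
    rw [add_zero] at h1
    refine h1.congr fun k => ?_
    rw [star_add, add_mul, add_mul, add_mul, map_add]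
  | smul c a _ iha =>
    have h1 := iha.const_mul (star c)
    rw [mul_zero] at h1
    refine h1.congr fun k => ?_
    rw [star_smul, smul_mul_assoc, smul_mul_assoc, smul_mul_assoc, map_smul, smul_eq_mul]

private theorem j20731_conj {M : Type u} [CStarAlgebra M] {τ : M →ₗ[ℂ] ℂ} (h : TW τ) (s b : M)
    (hs1 : star s * s = 1) : n2 τ (s * b * star s) = n2 τ b := by
  unfold n2
  have e : star (s * b * star s) * (s * b * star s) = s * (star b * b) * star s := by
    simp only [star_mul, star_star]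
    calc s * (star b * star s) * (s * b * star s)
        = s * star b * (star s * s) * b * star s := by noncomm_ring
      _ = s * (star b * b) * star s := by rw [hs1]; noncomm_ring
  rw [e, h.comm, ← mul_assoc, hs1, one_mul]

private theorem j20731_bound {M : Type u} [CStarAlgebra M] {τ : M →ₗ[ℂ] ℂ} (h : TW τ) (s a b : M)
    (hs1 : star s * s = 1) : ‖τ (star a * s * b * star s)‖ ≤ n2 τ a * n2 τ b := by
  have e : star a * s * b * star s = star a * (s * b * star s) := by noncomm_ring
  rw [e]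
  have h1 := h.cauchy a (s * b * star s)
  rwa [j20731_conj h s b hs1] at h1

theorem rc {M : Type u} [CStarAlgebra M] {τ : M →ₗ[ℂ] ℂ} (h : TW τ) {ι : Type v}
    (S B : ι → StarSubalgebra ℂ M) (hBS : ∀ i, B i ≤ S i) (hB : ∀ i, IsW τ (B i))
    (hW : ∀ i, IsW τ (S i)) (hf : IsFree τ S) (hd : Dense2 τ S) (s : ℕ → M)
    (hs1 : ∀ k, star (s k) * s k = 1) (hs2 : ∀ k, s k * star (s k) = 1)
    (hsB : ∀ k, s k ∈ Cl τ (Gen B : Set M))
    (hmix : ∀ j, ∀ n ∈ Gen B, ∀ m ∈ Gen B,
      Tendsto (fun k => n2 τ (E τ (S j) (n * s k * m))) atTop (𝓝 0))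
    (x : M) (hx : ∀ k, x * s k = s k * x) : x ∈ Cl τ (Gen B : Set M) := by
  obtain ⟨S0, hS0, hS0W, hS0le⟩ := exists_closure h (Gen B)
  have P := ep h S0 hS0W
  have hsS : ∀ k, s k ∈ S0 := by
    intro k
    have h1 := hsB k
    rw [← hS0] at h1
    exact h1
  obtain ⟨z, hz⟩ : ∃ z, z = x - E τ S0 x := ⟨_, rfl⟩
  have hcom : ∀ k, z * s k = s k * z := by
    intro k
    have h1 := P.left (s k) (hsS k) x
    have h2 := P.right (s k) (hsS k) x
    rw [hx k, h1] at h2
    rw [hz, sub_mul, mul_sub, hx k, h2]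
  have hzs : ∀ k, s k * z * star (s k) = z := by
    intro k
    rw [← hcom k, mul_assoc, hs2 k, mul_one]
  have horth : ∀ n ∈ S0, τ (n * z) = 0 := by
    intro n hn
    rw [hz]
    exact P.orth x n hn
  have main : ∀ ε : ℝ, 0 < ε → n2 τ z ^ 2 ≤ ε * (2 * n2 τ z + ε) := by
    intro ε hε
    obtain ⟨y, hy, hyε⟩ := hd z ε hε
    obtain ⟨y0, hy0, y1, hy1, hyy⟩ := j20731_split (τ := τ) S B y
      (typed_span h S B hBS hB y hy)
    have hy0' : star y0 ∈ Gen B := star_mem hy0
    have e0 : τ (star y0 * (z - y1)) = 0 := by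
      rw [mul_sub, map_sub, horth _ (hS0le hy0'), h.comm (star y0) y1,
        j20731_orth h S B hBS hB hf y1 hy1 _ hy0', sub_zero]
    have e1 : τ (star (z - y1) * y0) = 0 := by
      have h1 := h.conj (star y0 * (z - y1))
      rw [e0, star_zero, star_mul, star_star] at h1
      exact h1
    have hu : n2 τ (z - y1) ≤ ε := by
      have h1 : n2 τ (z - y1) ^ 2 ≤ n2 τ (z - y1) * n2 τ (z - y) := by
        have h2 : τ (star (z - y1) * (z - y1)) = τ (star (z - y1) * (z - y)) := by
          have h3 : star (z - y1) * (z - y1) = star (z - y1) * (z - y) + star (z - y1) * y0 := by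
            rw [← mul_add, hyy]
            congr 1
            abel
          rw [h3, map_add, e1, add_zero]
        rw [h.n2_sq, h2]
        exact (Complex.re_le_norm _).trans (h.cauchy _ _)
      by_contra hcon
      push Not at hcon
      have h3 : 0 < n2 τ (z - y1) := hε.trans hcon
      rw [sq] at h1
      have h4 := le_of_mul_le_mul_left h1 h3
      linarith
    have hn1 : n2 τ y1 ≤ n2 τ z + ε := by
      have h1 := h.n2_sub_le z (z - y1)
      rw [sub_sub_cancel] at h1
      linarith
    have hn0 : 0 ≤ n2 τ z := n2_nonneg _ _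
    have hn2 : 0 ≤ n2 τ (z - y1) := n2_nonneg _ _
    have hn3 : 0 ≤ n2 τ y1 := n2_nonneg _ _
    have step : ∀ k, n2 τ z ^ 2 ≤
        ‖τ (star y1 * s k * y1 * star (s k))‖ + ε * (2 * n2 τ z + ε) := by
      intro k
      have e2 : τ (star z * s k * z * star (s k)) = ((n2 τ z ^ 2 : ℝ) : ℂ) := by
        rw [← h.n2_sq' z]
        have h1 : star z * s k * z * star (s k) = star z * (s k * z * star (s k)) := by
          noncomm_ring
        rw [h1, hzs k]
      have e3 : τ (star z * s k * z * star (s k)) =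
          τ (star y1 * s k * y1 * star (s k)) +
          (τ (star (z - y1) * s k * z * star (s k)) +
            τ (star y1 * s k * (z - y1) * star (s k))) := by
        rw [← map_add, ← map_add]
        congr 1
        rw [star_sub]
        noncomm_ring
      have e4 : ‖τ (star z * s k * z * star (s k))‖ = n2 τ z ^ 2 := by
        rw [e2, Complex.norm_real, Real.norm_of_nonneg (sq_nonneg _)]
      rw [← e4, e3]
      have b1 := j20731_bound h (s k) (z - y1) z (hs1 k)
      have b2 := j20731_bound h (s k) y1 (z - y1) (hs1 k)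
      have b3 := norm_add_le (τ (star y1 * s k * y1 * star (s k)))
        (τ (star (z - y1) * s k * z * star (s k)) +
            τ (star y1 * s k * (z - y1) * star (s k)))
      have b4 := norm_add_le (τ (star (z - y1) * s k * z * star (s k)))
            (τ (star y1 * s k * (z - y1) * star (s k)))
      have b5 : n2 τ (z - y1) * n2 τ z ≤ ε * n2 τ z := mul_le_mul_of_nonneg_right hu hn0
      have b6 : n2 τ y1 * n2 τ (z - y1) ≤ (n2 τ z + ε) * ε :=
        mul_le_mul hn1 hu hn2 (by linarith)
      nlinarith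
    have lim : Tendsto (fun k => ‖τ (star y1 * s k * y1 * star (s k))‖ +
        ε * (2 * n2 τ z + ε)) atTop (𝓝 (0 + ε * (2 * n2 τ z + ε))) := by
      refine Tendsto.add ?_ tendsto_const_nhds
      have h1 := (j20731_cross h S B hBS hB hW hf s hs1 hs2 hsB hmix y1 hy1 y1 hy1).norm
      rw [norm_zero] at h1
      exact h1
    rw [zero_add] at lim
    exact ge_of_tendsto' lim step
  have hz0 : n2 τ z = 0 := by
    by_contra hne
    have hpos : 0 < n2 τ z := lt_of_le_of_ne (n2_nonneg _ _) (Ne.symm hne)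
    have h1 := main (n2 τ z / 4) (by linarith)
    nlinarith
  have hz1 : z = 0 := h.eq_zero hz0
  have hxE : x = E τ S0 x := by
    rw [hz1] at hz
    exact (sub_eq_zero.1 hz.symm)
  have hxS : x ∈ S0 := by
    rw [hxE]
    exact P.mem x
  rw [← hS0]
  exact hxS

end Pool.Agent.H467F
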