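import Pool.Agent.Helper467.FP.Defs
import Pool.Agent.Helper467.FP.P_n2_mul_le
import Pool.Agent.Helper467.FP.P_tau_bounds
import Pool.Agent.Helper467.FP.P_ep
import Pool.Agent.Helper467.FP.P_exists_closure
import Pool.Agent.Helper467.FP.P_rc
import Pool.Agent.Helper467.FP.P_th_props
import Pool.Agent.Helper467.FP.P_sy_props
import Pool.Agent.Helper467.FP.P_exists_seq
import Pool.Agent.Helper467.FP.P_gen_fun
import Pool.Agent.Helper467.FP.P_mono_mem
import Pool.Agent.Helper467.FP.P_test_ext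

set_option autoImplicit false

open scoped ComplexOrder Topology InnerProductSpace
open Filter

namespace Pool.Agent.H467F

universe u v w

variable {M : Type u} [CStarAlgebra M] {τ : M →ₗ[ℂ] ℂ}

theorem not_all_mix_Cl_mono {M : Type u} [CStarAlgebra M] {τ : M →ₗ[ℂ] ℂ} {s t : Set M}
    (h : s ⊆ t) : Cl τ s ⊆ Cl τ t := by
  intro x hx ε hε
  obtain ⟨y, hy, hxy⟩ := hx ε hε
  exact ⟨y, h hy, hxy⟩

theorem not_all_mix_norm {M : Type u} [CStarAlgebra M] {x : M} (hx : star x * x = 1) :
    ‖x‖ ≤ 1 := by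
  have h1 : ‖x‖ * ‖x‖ = ‖(1 : M)‖ := by rw [← CStarRing.norm_star_mul_self, hx]
  have h2 : ‖(1 : M)‖ * ‖(1 : M)‖ = ‖(1 : M)‖ := by
    have := CStarRing.norm_star_mul_self (x := (1 : M))
    rw [star_one, mul_one] at this
    exact this.symm
  have h3 : ‖(1 : M)‖ ≤ 1 := by
    by_contra hcon
    push Not at hcon
    nlinarith
  by_contra hcon
  push Not at hcon
  nlinarith [norm_nonneg x]

theorem not_all_mix_pi {M : Type u} [CStarAlgebra M] {w g : M} (hg1 : star g = g)
    (hg2 : g * g = g) (h1 : star w * w = g) (h2 : w * star w = g) : w * g = w ∧ g * w = w := by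
  have h3 : w * g = w := by
    rw [← sub_eq_zero, ← CStarRing.star_mul_self_eq_zero_iff, star_sub, star_mul, hg1]
    have : (g * star w - star w) * (w * g - w) =
        g * (star w * w) * g - g * (star w * w) - (star w * w) * g + star w * w := by
      noncomm_ring
    rw [this, h1, hg2, hg2]
    simp
  refine ⟨h3, ?_⟩
  calc g * w = w * star w * w := by rw [h2]
    _ = w * (star w * w) := mul_assoc _ _ _
    _ = w * g := by rw [h1]
    _ = w := h3

theorem not_all_mix {M : Type u} [CStarAlgebra M] {τ : M →ₗ[ℂ] ℂ} (h : TW τ) {J : Type v}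
    [Nonempty J] (S : StarSubalgebra ℂ M) (hS : Good τ S) (g hh : ℕ → M) (hD : Dya S g hh)
    (R : J → StarSubalgebra ℂ M) (hR : ∀ j, IsW τ (R j)) (hf : IsFree τ R) (hd : Dense2 τ R)
    (hm : ∀ k, Mixes τ S R (g k)) : False := by
  classical
  obtain ⟨c, hc1, hc2⟩ := gen_fun h R hd
  obtain ⟨a, ha1, ha2⟩ := exists_seq h S R hR g hh hD hm c
  obtain ⟨hA, hB0, hC0⟩ := sy_props S g hh hD a ha1
  set s : ℕ → M := sy g hh a with hs_def
  set C : Set M := ⋃ l, Set.range (c (s l)) with hC
  choose B hB1 hB2 hB3 using fun j => exists_closure h (StarAlgebra.adjoin ℂ (C ∩ (R j : Set M)))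
  have hBR : ∀ j, B j ≤ R j := by
    intro j x hx
    apply hR j
    have hx' : x ∈ (B j : Set M) := hx
    rw [hB1 j] at hx'
    exact not_all_mix_Cl_mono (SetLike.coe_subset_coe.2
      (StarAlgebra.adjoin_le Set.inter_subset_right)) hx'
  obtain ⟨Kl, hK1, hK2, hK3⟩ := exists_closure h (StarAlgebra.adjoin ℂ C)
  have hBK : ∀ j, B j ≤ Kl := by
    intro j x hx
    have hx' : x ∈ (B j : Set M) := hx
    rw [hB1 j] at hx'
    have : x ∈ (Kl : Set M) := by
      rw [hK1]
      refine not_all_mix_Cl_mono (SetLike.coe_subset_coe.2 ?_) hx'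
      exact StarAlgebra.adjoin_le (Set.inter_subset_left.trans (StarAlgebra.subset_adjoin ℂ C))
    exact this
  have hGK : Gen B ≤ Kl := StarAlgebra.adjoin_le (Set.iUnion_subset hBK)
  have hCG : C ⊆ (Gen B : Set M) := by
    intro x hx
    obtain ⟨l, n, rfl⟩ := Set.mem_iUnion.1 hx
    obtain ⟨j, hj⟩ := hc1 (s l) n
    have h1 : c (s l) n ∈ B j := hB3 j (StarAlgebra.subset_adjoin ℂ _ ⟨hx, hj⟩)
    exact StarAlgebra.subset_adjoin ℂ _ (Set.mem_iUnion.2 ⟨j, h1⟩)
  have hAG : StarAlgebra.adjoin ℂ C ≤ Gen B := StarAlgebra.adjoin_le hCG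
  have hGC : (Gen B : Set M) ⊆ Cl τ (StarAlgebra.adjoin ℂ C : Set M) := by
    intro x hx
    rw [← hK1]
    exact hGK hx
  have hsn : ∀ k, ‖s k‖ ≤ 1 := by
    intro k
    obtain ⟨-, h1, h2⟩ := hA k
    apply not_all_mix_norm
    rw [h1, h2]
  have hsB : ∀ k, s k ∈ Cl τ (Gen B : Set M) := by
    intro k
    refine not_all_mix_Cl_mono ?_ (hc2 (s k))
    refine SetLike.coe_subset_coe.2 (le_trans (StarAlgebra.adjoin_le ?_) hAG)
    exact (Set.subset_iUnion (fun l => Set.range (c (s l))) k).trans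
      (StarAlgebra.subset_adjoin ℂ C)
  have hmono : ∀ j, ∀ y ∈ Submonoid.closure (C ∪ star C), ∀ z ∈ Submonoid.closure (C ∪ star C),
      Tendsto (fun k => n2 τ (E τ (R j) (y * s k * z))) atTop (𝓝 0) := by
    intro j y hy z hz
    obtain ⟨k1, hk1⟩ := mono_mem c s y hy
    obtain ⟨k2, hk2⟩ := mono_mem c s z hz
    refine squeeze_zero' (Eventually.of_forall fun k => n2_nonneg _ _) ?_
      (tendsto_pow_atTop_nhds_zero_of_lt_one (r := (1 / 2 : ℝ)) (by norm_num) (by norm_num))
    filter_upwards [eventually_ge_atTop k1, eventually_ge_atTop k2] with k e1 e2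
    exact (ha2 k j y (hk1 k e1) z (hk2 k e2)).le
  have hmix : ∀ j, ∀ n ∈ Gen B, ∀ m ∈ Gen B,
      Tendsto (fun k => n2 τ (E τ (R j) (n * s k * m))) atTop (𝓝 0) := by
    intro j n hn m hm'
    exact test_ext h R hR s hsn C j (hmono j) n m (hGC hn) (hGC hm')
  have hcomm : ∀ x : M, (∀ k, x * s k = s k * x) → x ∈ Cl τ (StarAlgebra.adjoin ℂ C : Set M) := by
    intro x hx
    have h1 : x ∈ Cl τ (Gen B : Set M) := by
      refine rc h R B hBR hB2 hR hf hd s ?_ ?_ hsB hmix x hx
      · intro k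
        obtain ⟨-, h1, h2⟩ := hA k
        rw [h1, h2]
      · intro k
        obtain ⟨-, h1, h2⟩ := hA k
        rw [h1, h2]
    have h2 : x ∈ Kl := hK2 x (not_all_mix_Cl_mono (SetLike.coe_subset_coe.2 hGK) h1)
    have h3 : x ∈ (Kl : Set M) := h2
    rwa [hK1] at h3
  -- enumeration of the monoid
  have hcount : ((Submonoid.closure (C ∪ star C) : Submonoid M) : Set M).Countable := by
    have h1 : ((Submonoid.closure (C ∪ star C) : Submonoid M) : Set M) ⊆
        ⋃ k : ℕ, ((mono (lets c s k) k : Finset M) : Set M) := by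
      intro y hy
      obtain ⟨k1, hk1⟩ := mono_mem c s y hy
      exact Set.mem_iUnion.2 ⟨k1, hk1 k1 le_rfl⟩
    exact (Set.countable_iUnion fun k => (mono (lets c s k) k).countable_toSet).mono h1
  obtain ⟨d, hdr⟩ := hcount.exists_eq_range ⟨1, one_mem _⟩
  have hEP := ep h S hS.closed
  have hτb := (tau_bounds h).1
  let j0 : J := Classical.arbitrary J
  have hEj := ep h (R j0) (hR j0)
  have hy : ∀ n : ℕ, ∃ y : M, y ∈ S ∧ ‖y‖ ≤ 1 ∧ n2 τ y = 1 ∧ (∀ l < n, y * s l = s l * y) ∧
      ∀ m < n, ‖τ (star y * E τ S (d m))‖ ≤ (1 / 2) ^ n := by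
    intro n
    obtain ⟨⟨n0, v, hv, hTh⟩, -, -⟩ := th_props S g hh hD a ha1 n
    have hε : (0 : ℝ) < (1 / 2) ^ n / (n0 + 1) := by positivity
    obtain ⟨w, hw, hwm⟩ := hm n (((Finset.range n ×ˢ (Finset.univ : Finset (Fin n0))).image
      (fun p => star (v p.2) * star (E τ S (d p.1)) * v p.2)) ∪ {1}) _ hε
    obtain ⟨hyS, hy1, hy2⟩ := hC0 n w hw
    obtain ⟨hwg, hgw⟩ := not_all_mix_pi (hD.g_star n) (hD.g_idem n) hw.2.1 hw.2.2
    refine ⟨Th g hh a n w, hyS, not_all_mix_norm hy1, ?_, fun l hl => hB0 n w hgw hwg l hl, ?_⟩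
    · unfold n2
      rw [hy1, h.one]
      simp
    · intro m hmn
      have e1 : τ (star (Th g hh a n w) * E τ S (d m)) =
          star (τ (star (E τ S (d m)) * Th g hh a n w)) := by
        rw [← h.conj, star_mul, star_star]
      rw [e1, norm_star, hTh, Finset.mul_sum, map_sum]
      refine (norm_sum_le _ _).trans ?_
      have hterm : ∀ i ∈ (Finset.univ : Finset (Fin n0)),
          ‖τ (star (E τ S (d m)) * (v i * w * star (v i)))‖ ≤ (1 / 2) ^ n / (n0 + 1) := by
        intro i _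
        have e2 : τ (star (E τ S (d m)) * (v i * w * star (v i))) =
            τ (E τ (R j0) (star (v i) * star (E τ S (d m)) * v i * w * 1)) := by
          rw [hEj.trace]
          have e3 : star (E τ S (d m)) * (v i * w * star (v i)) =
              (star (E τ S (d m)) * v i * w) * star (v i) := by noncomm_ring
          rw [e3, h.comm]
          congr 1
          noncomm_ring
        rw [e2]
        refine (hτb _).trans (hwm j0 _ ?_ _ ?_).le
        · refine Finset.mem_union_left _ (Finset.mem_image.2 ⟨(m, i), ?_, rfl⟩)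
          simp [hmn]
        · exact Finset.mem_union_right _ (Finset.mem_singleton_self _)
      refine (Finset.sum_le_sum hterm).trans ?_
      rw [Finset.sum_const, Finset.card_univ, Fintype.card_fin, nsmul_eq_mul]
      have h2 : (0 : ℝ) < (1 / 2) ^ n := by positivity
      rw [mul_div_assoc', div_le_iff₀ (by positivity)]
      nlinarith
  choose y hyS hyn hy2 hyc hyb using hy
  obtain ⟨z, hzS, hz1, hzc, hzo⟩ := hS.sat s (fun m => E τ S (d m)) y (fun n => (hA n).1)
    (fun n => hEP.mem _) hyS hyn hy2 hyc hyb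
  have hzC := hcomm z hzc
  have hzd : ∀ u ∈ Submonoid.closure (C ∪ star C), τ (star z * u) = 0 := by
    intro u hu
    have hu' : u ∈ ((Submonoid.closure (C ∪ star C) : Submonoid M) : Set M) := hu
    rw [hdr] at hu'
    obtain ⟨m, rfl⟩ := hu'
    have h1 := hzo m
    have h2 := hEP.orth (d m) (star z) (star_mem hzS)
    rw [mul_sub, map_sub, h1, sub_zero] at h2
    exact h2
  have hza : ∀ u ∈ StarAlgebra.adjoin ℂ C, τ (star z * u) = 0 := by
    intro u hu
    have h1 : u ∈ (StarAlgebra.adjoin ℂ C).toSubalgebra := hu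
    rw [StarAlgebra.adjoin_toSubalgebra, ← Subalgebra.mem_toSubmodule,
      Algebra.adjoin_eq_span] at h1
    clear hu
    induction h1 using Submodule.span_induction with
    | mem x hx => exact hzd x hx
    | zero => rw [mul_zero, map_zero]
    | add x y _ _ hx hy => rw [mul_add, map_add, hx, hy, add_zero]
    | smul r x _ hx => rw [mul_smul_comm, map_smul, hx, smul_zero]
  obtain ⟨u, hu, hzu⟩ := hzC (1 / 2) (by norm_num)
  have h1 : τ (star z * z) = τ (star z * (z - u)) := by
    rw [mul_sub, map_sub, hza u hu, sub_zero]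
  have h2 := h.cauchy z (z - u)
  rw [← h1, h.n2_sq' z, hz1] at h2
  simp at h2
  linarith

end Pool.Agent.H467F
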