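import Pool.Agent.Helper467.FP.Defs
import Pool.Agent.Helper467.FP.P_n2_mul_le
import Pool.Agent.Helper467.FP.P_tau_bounds

set_option autoImplicit false

open scoped ComplexOrder Topology InnerProductSpace
open Filter

namespace Pool.Agent.H467F

universe u v w

variable {M : Type u} [CStarAlgebra M] {τ : M →ₗ[ℂ] ℂ}

/-- doubling map -/
noncomputable def wcA {M : Type u} [CStarAlgebra M] (h : M) (x : M) : M := x + h * x * star h

/-- the sequence -/
noncomputable def wca {M : Type u} [CStarAlgebra M] (g h : ℕ → M) : ℕ → ℕ → M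
  | 0, k => g (k + 1) - h k * star (h k)
  | n + 1, k => wcA (h k) (wca g h n (k + 1))

theorem wc1 {M : Type u} [CStarAlgebra M] {S : StarSubalgebra ℂ M} {g h : ℕ → M} (hd : Dya S g h)
    (k : ℕ) : h k * g (k + 1) = h k := by
  rw [← sub_eq_zero, ← CStarRing.star_mul_self_eq_zero_iff]
  have e : star (h k * g (k + 1) - h k) * (h k * g (k + 1) - h k) =
      g (k + 1) * (star (h k) * h k) * g (k + 1) - g (k + 1) * (star (h k) * h k) -
        (star (h k) * h k) * g (k + 1) + star (h k) * h k := by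
    rw [star_sub, star_mul, hd.g_star]; noncomm_ring
  rw [e, hd.h_left, hd.g_idem, hd.g_idem]
  abel

theorem wc_le' {M : Type u} [CStarAlgebra M] {S : StarSubalgebra ℂ M} {g h : ℕ → M}
    (hd : Dya S g h) (k : ℕ) : g (k + 1) * g k = g (k + 1) := by
  have := congrArg star (hd.g_le k)
  rwa [star_mul, hd.g_star, hd.g_star] at this

theorem wc2 {M : Type u} [CStarAlgebra M] {S : StarSubalgebra ℂ M} {g h : ℕ → M} (hd : Dya S g h)
    (k : ℕ) : g (k + 1) * h k = 0 := by
  rw [← CStarRing.mul_star_self_eq_zero_iff]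
  have e : g (k + 1) * h k * star (g (k + 1) * h k) =
      g (k + 1) * (h k * star (h k)) * g (k + 1) := by
    rw [star_mul, hd.g_star]; noncomm_ring
  rw [e, hd.h_right, mul_sub, wc_le' hd, hd.g_idem, sub_self, zero_mul]

theorem wc3 {M : Type u} [CStarAlgebra M] {S : StarSubalgebra ℂ M} {g h : ℕ → M} (hd : Dya S g h)
    (k : ℕ) : g k * h k = h k := by
  rw [← sub_eq_zero, ← CStarRing.mul_star_self_eq_zero_iff]
  have e : (g k * h k - h k) * star (g k * h k - h k) =
      g k * (h k * star (h k)) * g k - g k * (h k * star (h k)) -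
        (h k * star (h k)) * g k + h k * star (h k) := by
    rw [star_sub, star_mul, hd.g_star]; noncomm_ring
  rw [e, hd.h_right, mul_sub, hd.g_le, hd.g_idem, sub_mul, wc_le' hd, hd.g_idem]
  abel

/-- corner -/
def wcC {M : Type u} [CStarAlgebra M] (p x : M) : Prop := p * x = x ∧ x * p = x

theorem wcA_mul {M : Type u} [CStarAlgebra M] {S : StarSubalgebra ℂ M} {g h : ℕ → M}
    (hd : Dya S g h) (k : ℕ) {x y : M} (hx : wcC (g (k + 1)) x) (hy : wcC (g (k + 1)) y) :
    wcA (h k) x * wcA (h k) y = wcA (h k) (x * y) := by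
  have e1 : x * h k = 0 := by
    rw [← hx.2, mul_assoc, wc2 hd, mul_zero]
  have e0 : star (h k) * g (k + 1) = 0 := by
    have := congrArg star (wc2 hd k)
    rwa [star_mul, hd.g_star, star_zero] at this
  have e2 : star (h k) * y = 0 := by
    rw [← hy.1, ← mul_assoc, e0, zero_mul]
  have e : (x + h k * x * star (h k)) * (y + h k * y * star (h k)) =
      x * y + (x * h k) * y * star (h k) + h k * x * (star (h k) * y) +
        h k * (x * (star (h k) * h k)) * y * star (h k) := by noncomm_ring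
  unfold wcA
  rw [e, e1, e2, hd.h_left, hx.2]
  noncomm_ring

theorem wcA_star {M : Type u} [CStarAlgebra M] (h x : M) :
    star (wcA h x) = wcA h (star x) := by
  unfold wcA
  rw [star_add, star_mul, star_mul, star_star, mul_assoc]

theorem wcA_g {M : Type u} [CStarAlgebra M] {S : StarSubalgebra ℂ M} {g h : ℕ → M}
    (hd : Dya S g h) (k : ℕ) : wcA (h k) (g (k + 1)) = g k := by
  unfold wcA
  rw [wc1 hd, hd.h_right]
  abel

theorem wcC_g {M : Type u} [CStarAlgebra M] {S : StarSubalgebra ℂ M} {g h : ℕ → M}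
    (hd : Dya S g h) (k : ℕ) : wcC (g k) (g k) := ⟨hd.g_idem k, hd.g_idem k⟩

theorem wcA_C {M : Type u} [CStarAlgebra M] {S : StarSubalgebra ℂ M} {g h : ℕ → M}
    (hd : Dya S g h) (k : ℕ) {x : M} (hx : wcC (g (k + 1)) x) : wcC (g k) (wcA (h k) x) := by
  constructor
  · rw [← wcA_g hd k, wcA_mul hd k (wcC_g hd _) hx, hx.1]
  · rw [← wcA_g hd k, wcA_mul hd k hx (wcC_g hd _), hx.2]

theorem wcA_tau {M : Type u} [CStarAlgebra M] {τ : M →ₗ[ℂ] ℂ} (ht : TW τ)
    {S : StarSubalgebra ℂ M} {g h : ℕ → M}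
    (hd : Dya S g h) (k : ℕ) {x : M} (hx : wcC (g (k + 1)) x) :
    τ (h k * x * star (h k)) = τ x := by
  rw [ht.comm, ← mul_assoc, hd.h_left, hx.1]

theorem wca_prop {M : Type u} [CStarAlgebra M] {S : StarSubalgebra ℂ M} {g h : ℕ → M}
    (hd : Dya S g h) (n : ℕ) : ∀ k, wca g h n k ∈ S ∧ star (wca g h n k) = wca g h n k ∧
      wca g h n k * wca g h n k = g k ∧ wcC (g k) (wca g h n k) := by
  induction n with
  | zero =>
    intro k
    have e : wca g h 0 k = g (k + 1) - (g k - g (k + 1)) := by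
      rw [wca, hd.h_right]
    rw [e]
    refine ⟨S.sub_mem (hd.g_mem _) (S.sub_mem (hd.g_mem _) (hd.g_mem _)), ?_, ?_, ?_, ?_⟩
    · rw [star_sub, star_sub, hd.g_star, hd.g_star]
    · have e2 : (g (k + 1) - (g k - g (k + 1))) * (g (k + 1) - (g k - g (k + 1))) =
        4 • (g (k + 1) * g (k + 1)) - 2 • (g (k + 1) * g k) - 2 • (g k * g (k + 1)) +
          g k * g k := by noncomm_ring
      rw [e2, hd.g_idem, hd.g_idem, wc_le' hd, hd.g_le]
      abel
    · rw [mul_sub, mul_sub, hd.g_le, hd.g_idem]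
    · rw [sub_mul, sub_mul, wc_le' hd, hd.g_idem]
  | succ n ih =>
    intro k
    obtain ⟨h1, h2, h3, h4⟩ := ih (k + 1)
    rw [wca]
    refine ⟨?_, ?_, ?_, wcA_C hd k h4⟩
    · unfold wcA
      exact add_mem h1 (mul_mem (mul_mem (hd.h_mem k) h1) (star_mem (hd.h_mem k)))
    · rw [wcA_star, h2]
    · rw [wcA_mul hd k h4 h4, h3, wcA_g hd]

theorem wca_orth {M : Type u} [CStarAlgebra M] {τ : M →ₗ[ℂ] ℂ} (ht : TW τ)
    {S : StarSubalgebra ℂ M} {g h : ℕ → M}
    (hd : Dya S g h) (m : ℕ) : ∀ k n, m < n → τ (wca g h m k * wca g h n k) = 0 := by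
  induction m with
  | zero =>
    intro k n hn
    obtain ⟨n, rfl⟩ : ∃ n', n = n' + 1 := ⟨n - 1, by omega⟩
    have hy := (wca_prop hd n (k + 1)).2.2.2
    rw [wca, wca]
    set y := wca g h n (k + 1)
    have e0 : star (h k) * g (k + 1) = 0 := by
      have := congrArg star (wc2 hd k)
      rwa [star_mul, hd.g_star, star_zero] at this
    have e2 : star (h k) * y = 0 := by
      rw [← hy.1, ← mul_assoc, e0, zero_mul]
    have e : (g (k + 1) - h k * star (h k)) * wcA (h k) y =
        g (k + 1) * y + (g (k + 1) * h k) * y * star (h k) - h k * (star (h k) * y) -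
          h k * (star (h k) * h k) * y * star (h k) := by
      unfold wcA
      noncomm_ring
    rw [e, hy.1, wc2 hd, e2, hd.h_left, wc1 hd, zero_mul, zero_mul, mul_zero, add_zero, sub_zero,
      map_sub, wcA_tau ht hd k hy, sub_self]
  | succ m ih =>
    intro k n hn
    obtain ⟨n, rfl⟩ : ∃ n', n = n' + 1 := ⟨n - 1, by omega⟩
    rw [wca, wca]
    have hx := (wca_prop hd m (k + 1)).2.2.2
    have hy := (wca_prop hd n (k + 1)).2.2.2
    have hxy : wcC (g (k + 1)) (wca g h m (k + 1) * wca g h n (k + 1)) :=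
      ⟨by rw [← mul_assoc, hx.1], by rw [mul_assoc, hy.2]⟩
    rw [wcA_mul hd k hx hy]
    have := ih (k + 1) n (by omega)
    unfold wcA
    rw [map_add, wcA_tau ht hd k hxy, this, add_zero]

theorem wc_bessel {M : Type u} [CStarAlgebra M] {τ : M →ₗ[ℂ] ℂ} (ht : TW τ) (a : ℕ → M) (c : ℝ)
    (hc0 : 0 ≤ c) (hc : ∀ n, τ (star (a n) * a n) = (c : ℂ))
    (ho : ∀ m n, m ≠ n → τ (star (a m) * a n) = 0) (x : M) (N : ℕ) :
    ∑ n ∈ Finset.range N, ‖τ (x * a n)‖ ^ 2 ≤ n2 τ x ^ 2 * c := by
  set B : ℝ := ∑ n ∈ Finset.range N, ‖τ (x * a n)‖ ^ 2 with hB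
  have hB0 : 0 ≤ B := Finset.sum_nonneg fun n _ => by positivity
  set y : M := ∑ n ∈ Finset.range N, star (τ (x * a n)) • a n with hy
  have e0 : ∀ z : ℂ, z * star z = ((‖z‖ ^ 2 : ℝ) : ℂ) := by
    intro z
    rw [mul_comm, Complex.star_def, ← Complex.normSq_eq_conj_mul_self, Complex.normSq_eq_norm_sq]
  have e1 : τ (x * y) = (B : ℂ) := by
    rw [hy, Finset.mul_sum, map_sum, hB, Complex.ofReal_sum]
    refine Finset.sum_congr rfl fun n _ => ?_
    rw [mul_smul_comm, map_smul, smul_eq_mul, mul_comm, e0]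
  have e2 : τ (star y * y) = ((B * c : ℝ) : ℂ) := by
    have : ∀ n ∈ Finset.range N, τ (star y * (star (τ (x * a n)) • a n)) =
        ((‖τ (x * a n)‖ ^ 2 * c : ℝ) : ℂ) := by
      intro n hn
      rw [hy, star_sum, Finset.sum_mul, map_sum, Finset.sum_eq_single n]
      · rw [star_smul, star_star, smul_mul_smul_comm, map_smul, hc, smul_eq_mul, e0]
        push_cast
        rfl
      · intro m _ hmn
        rw [star_smul, star_star, smul_mul_smul_comm, map_smul, ho m n hmn, smul_zero]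
      · intro hn'
        exact absurd hn hn'
    conv_lhs => rw [show star y * y = ∑ n ∈ Finset.range N, star y * (star (τ (x * a n)) • a n) by
      rw [← Finset.mul_sum]]
    rw [map_sum, Finset.sum_congr rfl this, ← Complex.ofReal_sum, hB, Finset.sum_mul]
  have e3 : n2 τ y ^ 2 = B * c := by
    rw [ht.n2_sq, e2, Complex.ofReal_re]
  have e4 := ht.cauchy' x y
  rw [e1, Complex.norm_real, Real.norm_eq_abs, abs_of_nonneg hB0] at e4
  have e5 : B ^ 2 ≤ n2 τ x ^ 2 * (B * c) := by
    rw [← e3, ← mul_pow]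
    exact pow_le_pow_left₀ hB0 e4 2
  rcases hB0.eq_or_lt with h0 | h0
  · rw [← h0]; positivity
  · have : B * B ≤ B * (n2 τ x ^ 2 * c) := by nlinarith
    exact le_of_mul_le_mul_left this h0

theorem wnull_corner {M : Type u} [CStarAlgebra M] {τ : M →ₗ[ℂ] ℂ} (h : TW τ)
    (S : StarSubalgebra ℂ M) (g hh : ℕ → M) (hd : Dya S g hh) (k : ℕ) :
    ∃ a : ℕ → M, (∀ n, UC S (g k) (a n)) ∧ WNull τ a := by
  refine ⟨fun n => wca g hh n k, fun n => ?_, ?_, ?_⟩
  · obtain ⟨h1, h2, h3, _⟩ := wca_prop hd n k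
    exact ⟨h1, by rw [h2, h3], by rw [h2, h3]⟩
  · have hg : ‖g k‖ ≤ 1 := by
      have h1 : ‖g k‖ * ‖g k‖ = ‖g k‖ := by
        have := CStarRing.norm_star_mul_self (x := g k)
        rw [hd.g_star, hd.g_idem] at this
        exact this.symm
      nlinarith [norm_nonneg (g k)]
    refine ⟨1, fun n => ?_⟩
    obtain ⟨_, h2, h3, _⟩ := wca_prop hd n k
    have := CStarRing.norm_star_mul_self (x := wca g hh n k)
    rw [h2, h3] at this
    nlinarith [norm_nonneg (wca g hh n k)]
  · intro x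
    have hc : ∀ n, τ (star (wca g hh n k) * wca g hh n k) = ((n2 τ (g k) ^ 2 : ℝ) : ℂ) := by
      intro n
      obtain ⟨_, h2, h3, _⟩ := wca_prop hd n k
      rw [h2, h3, ← h.n2_sq', hd.g_star, hd.g_idem]
    have ho : ∀ m n, m ≠ n → τ (star (wca g hh m k) * wca g hh n k) = 0 := by
      intro m n hmn
      rw [(wca_prop hd m k).2.1]
      rcases lt_or_gt_of_ne hmn with h1 | h1
      · exact wca_orth h hd m k n h1
      · rw [h.comm]
        exact wca_orth h hd n k m h1
    have hs : Summable (fun n => ‖τ (x * wca g hh n k)‖ ^ 2) :=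
      summable_of_sum_range_le (fun n => by positivity)
        (fun N => wc_bessel h (fun n => wca g hh n k) _ (sq_nonneg _) hc ho x N)
    have h0 := hs.tendsto_atTop_zero
    rw [tendsto_zero_iff_norm_tendsto_zero]
    have h1 := (Real.continuous_sqrt.tendsto 0).comp h0
    rw [Real.sqrt_zero] at h1
    refine h1.congr fun n => ?_
    rw [Function.comp, Real.sqrt_sq (norm_nonneg _)]

end Pool.Agent.H467F
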