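import Pool.Agent.Helper467.FP.Defs
import Pool.Agent.Helper467.FP.P_wnull_corner
import Pool.Agent.Helper467.FP.P_commutant_le

set_option autoImplicit false

open scoped ComplexOrder Topology InnerProductSpace
open Filter

namespace Pool.Agent.H467F

universe u v w

variable {M : Type u} [CStarAlgebra M] {τ : M →ₗ[ℂ] ℂ}

theorem relcomm {M : Type u} [CStarAlgebra M] {τ : M →ₗ[ℂ] ℂ} (h : TW τ) {ι : Type v}
    (S : ι → StarSubalgebra ℂ M) (hf : IsFree τ S) (hd : Dense2 τ S) (hW : ∀ i, IsW τ (S i))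
    (i : ι) (hF : Fac (S i)) (g hh : ℕ → M) (hD : Dya (S i) g hh) (x : M)
    (hx : ∀ s ∈ S i, s * x = x * s) : ∃ c : ℂ, x = c • (1 : M) := by
  obtain ⟨a, ha, hn⟩ := wnull_corner h (S i) g hh hD 0
  rw [hD.g_zero] at ha
  have hxS : x ∈ S i := commutant_le h S hf hd hW i a ha hn x (fun n => hx (a n) (ha n).1)
  exact hF x hxS (fun s hs => (hx s hs).symm)

end Pool.Agent.H467F
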