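import Pool.Agent.Helper467.FP.Defs
import Pool.Agent.Helper467.FP.P_n2_mul_le
import Pool.Agent.Helper467.FP.P_tau_bounds
import Pool.Agent.Helper467.FP.P_averaging

set_option autoImplicit false

open scoped ComplexOrder Topology InnerProductSpace
open Filter

namespace Pool.Agent.H467F

universe u v w

variable {M : Type u} [CStarAlgebra M] {τ : M →ₗ[ℂ] ℂ}

theorem factor_link {M : Type u} [CStarAlgebra M] {τ : M →ₗ[ℂ] ℂ} (h : TW τ)
    (S : StarSubalgebra ℂ M) (hS : IsW τ S) (hF : Fac S) (q r : M) (hq : q ∈ S) (hr : r ∈ S)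
    (hrr : r * r = r) (hrs : star r = r) (hq0 : q ≠ 0) (hr0 : r ≠ 0) :
    ∃ b ∈ S, q * b * r ≠ 0 := by
  by_contra hcon
  push Not at hcon
  have hsub : convexHull ℝ {y : M | ∃ a, UC S 1 a ∧ y = a * r * star a} ⊆ {y : M | q * y = 0} := by
    apply convexHull_min
    · rintro y ⟨a, ha, rfl⟩
      show q * (a * r * star a) = 0
      rw [← mul_assoc, ← mul_assoc, hcon a ha.1, zero_mul]
    · intro x hx y hy s t _ _ _
      have hx' : q * x = 0 := hx
      have hy' : q * y = 0 := hy
      show q * (s • x + t • y) = 0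
      rw [mul_add, mul_smul_comm, mul_smul_comm, hx', hy', smul_zero, smul_zero, add_zero]
  have hav := averaging h S hS hF r hr
  have hn : n2 τ (τ r • q) = 0 := by
    refine le_antisymm ?_ (n2_nonneg _ _)
    refine le_of_forall_pos_le_add (fun ε hε => ?_)
    rw [zero_add]
    obtain ⟨y, hy, hlt⟩ := hav (ε / (‖q‖ + 1)) (by positivity)
    have hqy : q * y = 0 := hsub hy
    have e : τ r • q = q * (τ r • (1 : M) - y) := by
      rw [mul_sub, hqy, sub_zero, mul_smul_comm, mul_one]
    rw [e]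
    refine ((n2_mul_le h q _).1).trans ?_
    have h1 : ‖q‖ * n2 τ (τ r • (1 : M) - y) ≤ ‖q‖ * (ε / (‖q‖ + 1)) :=
      mul_le_mul_of_nonneg_left hlt.le (norm_nonneg _)
    refine h1.trans ?_
    rw [mul_div_assoc', div_le_iff₀ (by positivity)]
    nlinarith [norm_nonneg q]
  have h0 := h.eq_zero hn
  rcases smul_eq_zero.mp h0 with h1 | h1
  · apply hr0
    apply h.faithful
    rw [hrs, hrr]
    exact h1
  · exact hq0 h1

end Pool.Agent.H467F
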