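import Pool.Agent.Helper467.FP.Defs
import Pool.Agent.Helper467.FP.P_n2_mul_le
import Pool.Agent.Helper467.FP.P_tau_bounds
import Pool.Agent.Helper467.FP.P_exists_lim
import Pool.Agent.Helper467.FP.P_norm_le_of_lim

set_option autoImplicit false

open scoped ComplexOrder Topology InnerProductSpace
open Filter

namespace Pool.Agent.H467F

universe u v w

variable {M : Type u} [CStarAlgebra M] {τ : M →ₗ[ℂ] ℂ}

theorem maximal_a1 {M : Type u} [CStarAlgebra M] {τ : M →ₗ[ℂ] ℂ} (h : TW τ) (x : M)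
    (hx : (star x * x) * (star x * x) = star x * x) : x * (star x * x) = x := by
  have h1 : star (x - x * (star x * x)) * (x - x * (star x * x)) = 0 := by
    have h2 : star (x - x * (star x * x)) * (x - x * (star x * x)) =
        star x * x - (star x * x) * (star x * x) - (star x * x) * (star x * x) +
          (star x * x) * (star x * x) * (star x * x) := by
      rw [star_sub, star_mul, star_mul, star_star]; noncomm_ring
    rw [h2, hx, hx]; abel
  have h2 := h.faithful _ (by rw [h1, map_zero])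
  exact (sub_eq_zero.mp h2).symm

theorem maximal_a2 {M : Type u} [CStarAlgebra M] (x : M)
    (hx : (star x * x) * (star x * x) = star x * x) : ‖x‖ ≤ 1 ∧ ‖star x * x‖ ≤ 1 := by
  have h1 : ‖star x * x‖ * ‖star x * x‖ = ‖star x * x‖ := by
    have h2 : star (star x * x) * (star x * x) = star x * x := by
      rw [star_mul, star_star, hx]
    rw [← CStarRing.norm_star_mul_self, h2]
  have h2 : ‖star x * x‖ ≤ 1 := by
    by_contra h3
    push Not at h3
    nlinarith
  refine ⟨?_, h2⟩
  rw [CStarRing.norm_star_mul_self] at h2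
  by_contra h3
  push Not at h3
  nlinarith

theorem maximal_a3 {M : Type u} [CStarAlgebra M] {τ : M →ₗ[ℂ] ℂ} (h : TW τ) (x x' : M)
    (hx : (star x * x) * (star x * x) = star x * x)
    (hx' : (star x' * x') * (star x' * x') = star x' * x')
    (hle : x' * (star x * x) = x) : (star x' * x') * (star x * x) = star x * x := by
  obtain ⟨q, hq⟩ : ∃ q, q = star x * x := ⟨_, rfl⟩
  obtain ⟨q', hq'⟩ : ∃ q', q' = star x' * x' := ⟨_, rfl⟩
  have hqs : star q = q := by rw [hq, star_mul, star_star]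
  have hqs' : star q' = q' := by rw [hq', star_mul, star_star]
  rw [← hq] at hx hle ⊢
  rw [← hq'] at hx' ⊢
  have h1 : q * q' * q = q := by
    conv_rhs => rw [hq, ← hle, star_mul, hqs]
    rw [hq']
    noncomm_ring
  have h2 : star (q - q' * q) * (q - q' * q) = 0 := by
    have h3 : star (q - q' * q) * (q - q' * q) = q * q - q * q' * q - q * q' * q +
        q * (q' * q') * q := by
      rw [star_sub, star_mul, hqs, hqs']; noncomm_ring
    rw [h3, hx', h1, hx]; abel
  have h3 := h.faithful _ (by rw [h2, map_zero])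
  exact (sub_eq_zero.mp h3).symm

theorem maximal_a4 {M : Type u} [CStarAlgebra M] {τ : M →ₗ[ℂ] ℂ} (h : TW τ) (x x' : M)
    (hx : (star x * x) * (star x * x) = star x * x)
    (hx' : (star x' * x') * (star x' * x') = star x' * x')
    (hle : x' * (star x * x) = x) :
    n2 τ (x' - x) ^ 2 = (τ (star x' * x')).re - (τ (star x * x)).re := by
  have h1 := maximal_a3 h x x' hx hx' hle
  have h2 : star x' * x = star x * x := by
    calc star x' * x = star x' * (x' * (star x * x)) := by rw [hle]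
      _ = (star x' * x') * (star x * x) := by rw [mul_assoc]
      _ = _ := h1
  have h3 : star x * x' = star x * x := by
    have := congrArg star h2
    rwa [star_mul, star_star, star_mul, star_star] at this
  rw [h.n2_sq]
  have h4 : star (x' - x) * (x' - x) = star x' * x' - star x * x := by
    have h5 : star (x' - x) * (x' - x) = star x' * x' - star x' * x - star x * x' + star x * x := by
      rw [star_sub]; noncomm_ring
    rw [h5, h2, h3]; abel
  rw [h4, map_sub, Complex.sub_re]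

theorem maximal_a5 {M : Type u} [CStarAlgebra M] {τ : M →ₗ[ℂ] ℂ} (h : TW τ) (x x' x'' : M)
    (hx : (star x * x) * (star x * x) = star x * x)
    (hx' : (star x' * x') * (star x' * x') = star x' * x')
    (hle : x' * (star x * x) = x) (hle' : x'' * (star x' * x') = x') :
    x'' * (star x * x) = x := by
  have h1 := maximal_a3 h x x' hx hx' hle
  calc x'' * (star x * x) = x'' * ((star x' * x') * (star x * x)) := by rw [h1]
    _ = (x'' * (star x' * x')) * (star x * x) := by noncomm_ring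
    _ = x := by rw [hle', hle]

theorem maximal {M : Type u} [CStarAlgebra M] {τ : M →ₗ[ℂ] ℂ} (h : TW τ) (V : Set M)
    (hV0 : (0 : M) ∈ V) (hVc : Cl τ V ⊆ V) :
    ∃ x ∈ V, (star x * x) * (star x * x) = star x * x ∧
      ∀ x' ∈ V, (star x' * x') * (star x' * x') = star x' * x' → x' * (star x * x) = x → x' = x := by
  obtain ⟨P, hP⟩ : ∃ P : Set M, ∀ x, x ∈ P ↔ x ∈ V ∧
      (star x * x) * (star x * x) = star x * x :=
    ⟨{x | x ∈ V ∧ (star x * x) * (star x * x) = star x * x}, fun x => Iff.rfl⟩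
  obtain ⟨t, ht⟩ : ∃ t : M → ℝ, ∀ x, t x = (τ (star x * x)).re := ⟨_, fun x => rfl⟩
  have ht1 : ∀ x ∈ P, t x ≤ 1 := by
    intro x hx
    rw [ht, ← h.n2_sq]
    have h1 := (tau_bounds h).2 x
    have h2 := (maximal_a2 x ((hP x).1 hx).2).1
    have h3 := n2_nonneg τ x
    nlinarith
  have hnext : ∀ x : P, ∀ n : ℕ, ∃ y : P, y.1 * (star x.1 * x.1) = x.1 ∧
      ∀ z ∈ P, z * (star x.1 * x.1) = x.1 → t z ≤ t y.1 + 1 / ((n:ℝ) + 1) := by
    intro x n
    obtain ⟨S, hS⟩ : ∃ S : Set ℝ, S = {r | ∃ z ∈ P, z * (star x.1 * x.1) = x.1 ∧ t z = r} :=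
      ⟨_, rfl⟩
    have hne : S.Nonempty := by
      rw [hS]
      exact ⟨t x.1, x.1, x.2, maximal_a1 h x.1 ((hP _).1 x.2).2, rfl⟩
    have hbd : BddAbove S := by
      refine ⟨1, ?_⟩
      rw [hS]
      rintro r ⟨z, hz, -, rfl⟩
      exact ht1 z hz
    have hlt : sSup S - 1 / ((n:ℝ) + 1) < sSup S := by
      have : 0 < 1 / ((n:ℝ) + 1) := by positivity
      linarith
    obtain ⟨r, hr, hr2⟩ := exists_lt_of_lt_csSup hne hlt
    rw [hS] at hr
    obtain ⟨y, hy, hy2, rfl⟩ := hr
    refine ⟨⟨y, hy⟩, hy2, ?_⟩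
    intro z hz hz2
    have : t z ≤ sSup S := by
      apply le_csSup hbd
      rw [hS]
      exact ⟨z, hz, hz2, rfl⟩
    simp only
    linarith
  choose nx hnx1 hnx2 using hnext
  have h0P : (0 : M) ∈ P := by
    rw [hP]
    exact ⟨hV0, by simp⟩
  obtain ⟨X, hX0, hXs⟩ : ∃ X : ℕ → P, X 0 = ⟨0, h0P⟩ ∧ ∀ n, X (n + 1) = nx (X n) n :=
    ⟨fun n => Nat.rec ⟨0, h0P⟩ (fun n x => nx x n) n, rfl, fun n => rfl⟩
  have hid : ∀ n, (star (X n).1 * (X n).1) * (star (X n).1 * (X n).1) =
      star (X n).1 * (X n).1 := fun n => ((hP _).1 (X n).2).2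
  have hmono : ∀ m n, m ≤ n → (X n).1 * (star (X m).1 * (X m).1) = (X m).1 := by
    intro m n hmn
    induction n, hmn using Nat.le_induction with
    | base => exact maximal_a1 h _ (hid m)
    | succ n hmn ih =>
      refine maximal_a5 h _ _ _ (hid m) (hid n) ih ?_
      rw [hXs]
      exact hnx1 (X n) n
  have hdist : ∀ m n, m ≤ n → n2 τ ((X n).1 - (X m).1) ^ 2 = t (X n).1 - t (X m).1 := by
    intro m n hmn
    rw [ht, ht]
    exact maximal_a4 h _ _ (hid m) (hid n) (hmono m n hmn)
  have htm : Monotone fun n => t (X n).1 := by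
    intro m n hmn
    have := hdist m n hmn
    have h2 := sq_nonneg (n2 τ ((X n).1 - (X m).1))
    simp only
    linarith
  have htb : BddAbove (Set.range fun n => t (X n).1) := by
    refine ⟨1, ?_⟩
    rintro r ⟨n, rfl⟩
    exact ht1 _ (X n).2
  have hconv := tendsto_atTop_ciSup htm htb
  have hcau : ∀ ε : ℝ, 0 < ε → ∃ N, ∀ m ≥ N, ∀ n ≥ N, n2 τ ((X m).1 - (X n).1) < ε := by
    intro ε hε
    have h1 := hconv.cauchySeq
    rw [Metric.cauchySeq_iff] at h1
    obtain ⟨N, hN⟩ := h1 (ε ^ 2) (by positivity)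
    refine ⟨N, ?_⟩
    have key : ∀ m n, N ≤ m → m ≤ n → n2 τ ((X n).1 - (X m).1) < ε := by
      intro m n hm hmn
      have h2 := hN n (hm.trans hmn) m hm
      rw [Real.dist_eq] at h2
      have h3 := (le_abs_self _).trans_lt h2
      rw [← hdist m n hmn] at h3
      exact lt_of_pow_lt_pow_left₀ 2 hε.le h3
    intro m hm n hn
    rcases le_total m n with hmn | hmn
    · rw [n2_sub_comm]
      exact key m n hm hmn
    · exact key n m hn hmn
  obtain ⟨x, hx1, hxlim⟩ := exists_lim h (fun n => (X n).1) 1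
    (fun n => (maximal_a2 _ (hid n)).1) hcau
  have hxV : x ∈ V := by
    apply hVc
    intro ε hε
    obtain ⟨n, hn⟩ := (hxlim.eventually (gt_mem_nhds hε)).exists
    exact ⟨(X n).1, ((hP _).1 (X n).2).1, by rw [n2_sub_comm]; exact hn⟩
  have hle0 : ∀ z : M, (∀ ε : ℝ, 0 < ε → n2 τ z ≤ ε) → z = 0 := by
    intro z hz
    apply h.eq_zero
    apply le_antisymm _ (n2_nonneg τ z)
    exact le_of_forall_pos_le_add fun ε hε => by rw [zero_add]; exact hz ε hε
  have hqn : ‖star x * x‖ ≤ 1 := by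
    rw [CStarRing.norm_star_mul_self]
    nlinarith [norm_nonneg x]
  have hxid : (star x * x) * (star x * x) = star x * x := by
    rw [← sub_eq_zero]
    apply hle0
    intro ε hε
    obtain ⟨n, hn⟩ := (hxlim.eventually (gt_mem_nhds (show 0 < ε / 6 by positivity))).exists
    have hXn := maximal_a2 _ (hid n)
    obtain ⟨y, hy⟩ : ∃ y, y = (X n).1 := ⟨_, rfl⟩
    have hyid := hid n
    rw [← hy] at hn hXn hyid
    have hn0 := n2_nonneg τ (y - x)
    have h1 : n2 τ (star x * x - star y * y) ≤ 2 * n2 τ (y - x) := by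
      have e : star x * x - star y * y = star x * (x - y) + star (x - y) * y := by
        rw [star_sub]; noncomm_ring
      rw [e]
      have h2 := h.n2_add_le (star x * (x - y)) (star (x - y) * y)
      have h3 := (n2_mul_le h (star x) (x - y)).1
      have h4 := (n2_mul_le h y (star (x - y))).2
      rw [h.n2_star, n2_sub_comm τ x y] at h4
      rw [norm_star, n2_sub_comm τ x y] at h3
      have h5 : ‖x‖ * n2 τ (y - x) ≤ 1 * n2 τ (y - x) := mul_le_mul_of_nonneg_right hx1 hn0
      have h6 : n2 τ (y - x) * ‖y‖ ≤ n2 τ (y - x) * 1 := mul_le_mul_of_nonneg_left hXn.1 hn0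
      linarith
    obtain ⟨q, hq⟩ : ∃ q, q = star x * x := ⟨_, rfl⟩
    obtain ⟨q', hq'⟩ : ∃ q', q' = star y * y := ⟨_, rfl⟩
    rw [← hq] at hqn h1 ⊢
    rw [← hq'] at hyid hXn h1
    have hq0 := n2_nonneg τ (q - q')
    have h2 : n2 τ (q * q - q' * q') ≤ 2 * n2 τ (q - q') := by
      have e : q * q - q' * q' = q * (q - q') + (q - q') * q' := by noncomm_ring
      rw [e]
      have h2 := h.n2_add_le (q * (q - q')) ((q - q') * q')
      have h3 := (n2_mul_le h q (q - q')).1
      have h4 := (n2_mul_le h q' (q - q')).2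
      have h5 : ‖q‖ * n2 τ (q - q') ≤ 1 * n2 τ (q - q') := mul_le_mul_of_nonneg_right hqn hq0
      have h6 : n2 τ (q - q') * ‖q'‖ ≤ n2 τ (q - q') * 1 := mul_le_mul_of_nonneg_left hXn.2 hq0
      linarith
    have h3 := h.n2_tri (q * q) (q' * q') q
    rw [hyid, n2_sub_comm τ q' q] at h3
    rw [hyid] at h2
    linarith
  have hXx : ∀ n, x * (star (X n).1 * (X n).1) = (X n).1 := by
    intro n
    rw [← sub_eq_zero]
    apply hle0
    intro ε hε
    obtain ⟨m, hm, hmn⟩ := ((hxlim.eventually (gt_mem_nhds hε)).and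
      (eventually_ge_atTop n)).exists
    have h1 := hmono n m hmn
    have e : x * (star (X n).1 * (X n).1) - (X n).1 =
        (x - (X m).1) * (star (X n).1 * (X n).1) := by
      rw [sub_mul, h1]
    rw [e]
    have h2 := (n2_mul_le h (star (X n).1 * (X n).1) (x - (X m).1)).2
    have h3 := (maximal_a2 _ (hid n)).2
    have h4 := n2_nonneg τ (x - (X m).1)
    have h5 : n2 τ (x - (X m).1) * ‖star (X n).1 * (X n).1‖ ≤ n2 τ (x - (X m).1) * 1 :=
      mul_le_mul_of_nonneg_left h3 h4
    rw [n2_sub_comm τ x] at h2 h5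
    linarith
  refine ⟨x, hxV, hxid, ?_⟩
  intro x' hx'V hx'id hxx'
  have hx'P : x' ∈ P := (hP _).2 ⟨hx'V, hx'id⟩
  have h1 : ∀ n : ℕ, t x' ≤ t x + 1 / ((n:ℝ) + 1) := by
    intro n
    have h2 : x' * (star (X n).1 * (X n).1) = (X n).1 :=
      maximal_a5 h _ _ _ (hid n) hxid (hXx n) hxx'
    have h3 := hnx2 (X n) n x' hx'P h2
    rw [← hXs] at h3
    have h4 := maximal_a4 h _ _ (hid (n + 1)) hxid (hXx (n + 1))
    rw [← ht, ← ht] at h4
    have h5 := sq_nonneg (n2 τ (x - (X (n + 1)).1))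
    linarith
  have h2 : t x' ≤ t x := by
    have h3 : Tendsto (fun n : ℕ => t x + 1 / ((n:ℝ) + 1)) atTop (𝓝 (t x + 0)) :=
      tendsto_one_div_add_atTop_nhds_zero_nat.const_add (t x)
    rw [add_zero] at h3
    exact ge_of_tendsto' h3 h1
  have h3 := maximal_a4 h _ _ hxid hx'id hxx'
  rw [← ht, ← ht] at h3
  have h4 : n2 τ (x' - x) = 0 := by
    have h5 := n2_nonneg τ (x' - x)
    have h6 := sq_nonneg (n2 τ (x' - x))
    have h7 : n2 τ (x' - x) ^ 2 = 0 := by linarith
    exact pow_eq_zero_iff (two_ne_zero) |>.mp h7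
  exact sub_eq_zero.mp (h.eq_zero h4)

end Pool.Agent.H467F
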