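import Pool.Agent.Helper467.FP.Defs
import Pool.Agent.Helper467.FP.P_n2_mul_le
import Pool.Agent.Helper467.FP.P_tau_bounds
import Pool.Agent.Helper467.FP.P_exists_lim
import Pool.Agent.Helper467.FP.P_norm_le_of_lim
import Pool.Agent.Helper467.FP.P_isClosed_of_isW

set_option autoImplicit false

open scoped ComplexOrder Topology InnerProductSpace
open Filter

namespace Pool.Agent.H467F

universe u v w

variable {M : Type u} [CStarAlgebra M] {τ : M →ₗ[ℂ] ℂ}

section PolarAux

variable {M : Type u} [CStarAlgebra M] {τ : M →ₗ[ℂ] ℂ}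

private noncomputable def pg (n : ℕ) (t : ℝ) : ℝ := 1 / Real.sqrt (max t (1 / ((n : ℝ) + 1)))

private theorem pg_max_pos (n : ℕ) (t : ℝ) : 0 < max t (1 / ((n : ℝ) + 1)) :=
  lt_max_of_lt_right (by positivity)

private theorem pg_pos (n : ℕ) (t : ℝ) : 0 < pg n t :=
  div_pos one_pos (Real.sqrt_pos.2 (pg_max_pos n t))

private theorem pg_cont (n : ℕ) : Continuous (pg n) := by
  unfold pg
  refine Continuous.div continuous_const ?_ ?_
  · exact Real.continuous_sqrt.comp (continuous_id.max continuous_const)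
  · intro t
    exact (Real.sqrt_pos.2 (pg_max_pos n t)).ne'

private theorem pg_mono {m n : ℕ} (h : m ≤ n) (t : ℝ) : pg m t ≤ pg n t := by
  unfold pg
  apply one_div_le_one_div_of_le (Real.sqrt_pos.2 (pg_max_pos n t))
  apply Real.sqrt_le_sqrt
  apply max_le_max le_rfl
  apply one_div_le_one_div_of_le (by positivity)
  have : (m : ℝ) ≤ n := by exact_mod_cast h
  linarith

private theorem pg_sq (n : ℕ) (t : ℝ) : pg n t * pg n t * max t (1 / ((n : ℝ) + 1)) = 1 := by
  unfold pg
  have h := pg_max_pos n t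
  have h2 : Real.sqrt (max t (1 / ((n : ℝ) + 1))) * Real.sqrt (max t (1 / ((n : ℝ) + 1))) =
    max t (1 / ((n : ℝ) + 1)) := Real.mul_self_sqrt h.le
  have h3 := Real.sqrt_pos.2 h
  have h4 : 1 / Real.sqrt (max t (1 / ((n : ℝ) + 1))) * (1 / Real.sqrt (max t (1 / ((n : ℝ) + 1)))) =
     (max t (1 / ((n : ℝ) + 1)))⁻¹ := by
    rw [one_div, ← mul_inv, h2]
  rw [h4]
  exact inv_mul_cancel₀ h.ne'

/-- `pq n t = t g_n(t)^2` -/
private noncomputable def pq (n : ℕ) (t : ℝ) : ℝ := pg n t * t * pg n t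

private theorem pq_cont (n : ℕ) : Continuous (pq n) := by
  unfold pq
  exact ((pg_cont n).mul continuous_id).mul (pg_cont n)

private theorem pq_nonneg (n : ℕ) {t : ℝ} (ht : 0 ≤ t) : 0 ≤ pq n t := by
  unfold pq
  have := pg_pos n t
  positivity

private theorem pq_le_one (n : ℕ) {t : ℝ} (_ht : 0 ≤ t) : pq n t ≤ 1 := by
  have h1 := pg_sq n t
  have h2 : t ≤ max t (1 / ((n : ℝ) + 1)) := le_max_left _ _
  have h3 := pg_pos n t
  unfold pq
  calc pg n t * t * pg n t = pg n t * pg n t * t := by ring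
    _ ≤ pg n t * pg n t * max t (1 / ((n : ℝ) + 1)) := by gcongr
    _ = 1 := h1

private theorem pq_le (n : ℕ) {t : ℝ} (ht : 0 ≤ t) : pq n t ≤ t * ((n : ℝ) + 1) := by
  have h1 := pg_sq n t
  have h2 : 1 / ((n : ℝ) + 1) ≤ max t (1 / ((n : ℝ) + 1)) := le_max_right _ _
  have h3 := pg_pos n t
  have h4 : pg n t * pg n t * (1 / ((n : ℝ) + 1)) ≤ 1 :=
    (mul_le_mul_of_nonneg_left h2 (by positivity)).trans h1.le
  have h5 : (0 : ℝ) < (n : ℝ) + 1 := by positivity
  have h6 : pg n t * pg n t ≤ (n : ℝ) + 1 := by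
    rw [mul_one_div, div_le_one h5] at h4
    exact h4
  unfold pq
  calc pg n t * t * pg n t = t * (pg n t * pg n t) := by ring
    _ ≤ t * ((n : ℝ) + 1) := by gcongr

private theorem pq_eq_one (n : ℕ) {t : ℝ} (ht : 1 / ((n : ℝ) + 1) ≤ t) : pq n t = 1 := by
  have h1 := pg_sq n t
  rw [max_eq_left ht] at h1
  unfold pq
  linarith

private theorem pq_pq (n m : ℕ) {t : ℝ} (ht : 0 ≤ t) :
    |pq n t * pq m t - pq n t| ≤ ((n : ℝ) + 1) / ((m : ℝ) + 1) := by
  have hm : (0 : ℝ) < (m : ℝ) + 1 := by positivity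
  have hn : (0 : ℝ) < (n : ℝ) + 1 := by positivity
  rcases le_total (1 / ((m : ℝ) + 1)) t with h | h
  · rw [pq_eq_one m h]
    simp
    positivity
  · have e : pq n t * pq m t - pq n t = -(pq n t * (1 - pq m t)) := by ring
    have h1 := pq_nonneg n ht
    have h2 := pq_le n ht
    have h3 := pq_nonneg m ht
    have h4 := pq_le_one m ht
    rw [e, abs_neg, abs_of_nonneg (mul_nonneg h1 (by linarith))]
    calc pq n t * (1 - pq m t) ≤ pq n t * 1 := by gcongr; linarith
      _ ≤ t * ((n : ℝ) + 1) := by linarith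
      _ ≤ (1 / ((m : ℝ) + 1)) * ((n : ℝ) + 1) := by gcongr
      _ = ((n : ℝ) + 1) / ((m : ℝ) + 1) := by ring

private theorem tau_cfc_nonneg (h : TW τ) {a : M} (ha : IsSelfAdjoint a) (f : ℝ → ℝ)
    (hf : Continuous f) (h0 : ∀ t ∈ spectrum ℝ a, 0 ≤ f t) : 0 ≤ (τ (cfc f a)).re := by
  have hc : Continuous fun t => Real.sqrt (f t) := Real.continuous_sqrt.comp hf
  have e : cfc f a = star (cfc (fun t => Real.sqrt (f t)) a) * cfc (fun t => Real.sqrt (f t)) a := by
    have h1 : IsSelfAdjoint (cfc (fun t => Real.sqrt (f t)) a) := cfc_predicate _ a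
    rw [h1.star_eq, ← cfc_mul (fun t => Real.sqrt (f t)) (fun t => Real.sqrt (f t)) a
      hc.continuousOn hc.continuousOn]
    apply cfc_congr
    intro t ht
    exact (Real.mul_self_sqrt (h0 t ht)).symm
  rw [e]
  exact h.re_nonneg _

private theorem tau_cfc_mono (h : TW τ) {a : M} (ha : IsSelfAdjoint a) (f g : ℝ → ℝ)
    (hf : Continuous f) (hg : Continuous g) (h0 : ∀ t ∈ spectrum ℝ a, f t ≤ g t) :
    (τ (cfc f a)).re ≤ (τ (cfc g a)).re := by
  have h1 := tau_cfc_nonneg h ha (fun t => g t - f t) (hg.sub hf)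
    (fun t ht => by have := h0 t ht; linarith)
  rw [cfc_sub g f a hg.continuousOn hf.continuousOn, map_sub, Complex.sub_re] at h1
  linarith

end PolarAux

theorem polar {M : Type u} [CStarAlgebra M] {τ : M →ₗ[ℂ] ℂ} (h : TW τ)
    (R : StarSubalgebra ℂ M) (hR : IsW τ R) (ξ : M) (hξ : star ξ * ξ ∈ R) (h0 : ξ ≠ 0) :
    ∃ x : M, x ≠ 0 ∧ star x * x ∈ R ∧ (star x * x) * (star x * x) = star x * x ∧
      x ∈ Cl τ {y | ∃ b ∈ R, y = ξ * b} ∧ ∀ c, ξ * c = 0 → x * c = 0 := by
  have hcl : IsClosed (R : Set M) := isClosed_of_isW h R hR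
  obtain ⟨a, hadef⟩ : ∃ a : M, a = star ξ * ξ := ⟨_, rfl⟩
  have ha : IsSelfAdjoint a := by rw [hadef]; exact IsSelfAdjoint.star_mul_self ξ
  have haR : a ∈ R := by rw [hadef]; exact hξ
  have hsp : ∀ t ∈ spectrum ℝ a, 0 ≤ t := by
    rw [hadef]; exact spectrum_star_mul_self_nonneg
  have hbR : ∀ f : ℝ → ℝ, cfc f a ∈ R := by
    intro f
    exact cfc_mem f haR
  obtain ⟨b, hb⟩ : ∃ b : ℕ → M, ∀ n, b n = cfc (pg n) a := ⟨fun n => cfc (pg n) a, fun n => rfl⟩
  have hbs : ∀ n, star (b n) = b n := by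
    intro n
    have h1 : IsSelfAdjoint (cfc (pg n) a) := cfc_predicate _ a
    rw [hb, h1.star_eq]
  have hida : a = cfc (fun t : ℝ => t) a := (cfc_id' ℝ a ha).symm
  -- products
  have hbab : ∀ m n, b m * a * b n = cfc (fun t => pg m t * t * pg n t) a := by
    intro m n
    rw [hb, hb, cfc_mul (fun t => pg m t * t) (fun t => pg n t) a
      ((pg_cont m).mul continuous_id).continuousOn (pg_cont n).continuousOn,
      cfc_mul (fun t => pg m t) (fun t => t) a (pg_cont m).continuousOn continuous_id.continuousOn,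
      cfc_id' ℝ a ha]
  have hxx : ∀ m n, star (ξ * b m) * (ξ * b n) = cfc (fun t => pg m t * t * pg n t) a := by
    intro m n
    rw [← hbab, star_mul, hbs, hadef]
    noncomm_ring
  obtain ⟨x, hx⟩ : ∃ x : ℕ → M, ∀ n, x n = ξ * b n := ⟨fun n => ξ * b n, fun n => rfl⟩
  obtain ⟨p, hp⟩ : ∃ p : ℕ → M, ∀ n, p n = cfc (pq n) a := ⟨fun n => cfc (pq n) a, fun n => rfl⟩
  have hxp : ∀ n, star (x n) * x n = p n := by
    intro n
    rw [hx, hxx, hp]
    rfl
  have hpn : ∀ n, ‖p n‖ ≤ 1 := by
    intro n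
    rw [hp]
    refine norm_cfc_le zero_le_one ?_
    intro t ht
    rw [Real.norm_eq_abs, abs_of_nonneg (pq_nonneg n (hsp t ht))]
    exact pq_le_one n (hsp t ht)
  have hxn : ∀ n, ‖x n‖ ≤ 1 := by
    intro n
    have h1 := CStarRing.norm_star_mul_self (x := x n)
    rw [hxp] at h1
    have h2 := hpn n
    nlinarith [norm_nonneg (x n)]
  -- the sequence s
  obtain ⟨s, hs⟩ : ∃ s : ℕ → ℝ, ∀ n, s n = (τ (p n)).re := ⟨fun n => (τ (p n)).re, fun n => rfl⟩
  have hmono : Monotone s := by
    intro m n hmn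
    rw [hs, hs, hp, hp]
    refine tau_cfc_mono h ha _ _ (pq_cont m) (pq_cont n) ?_
    intro t ht
    have ht0 := hsp t ht
    have h1 := pg_mono hmn t
    have h2 := pg_pos m t
    have h3 := pg_pos n t
    unfold pq
    have : pg m t * t ≤ pg n t * t := by gcongr
    calc pg m t * t * pg m t ≤ pg n t * t * pg m t := by gcongr
      _ ≤ pg n t * t * pg n t := by gcongr
  have hbdd : ∀ n, s n ≤ 1 := by
    intro n
    rw [hs]
    calc (τ (p n)).re ≤ ‖τ (p n)‖ := Complex.re_le_norm _
      _ ≤ n2 τ (p n) := (tau_bounds h).1 _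
      _ ≤ ‖p n‖ := (tau_bounds h).2 _
      _ ≤ 1 := hpn n
  have hdiff : ∀ m n, m ≤ n → n2 τ (x n - x m) ^ 2 ≤ s n - s m := by
    intro m n hmn
    rw [h.n2_sq]
    have e : star (x n - x m) * (x n - x m) = cfc (fun t => pg n t * t * pg n t -
        pg n t * t * pg m t - pg m t * t * pg n t + pg m t * t * pg m t) a := by
      have c1 : ∀ i j, Continuous fun t => pg i t * t * pg j t := fun i j =>
        ((pg_cont i).mul continuous_id).mul (pg_cont j)
      rw [cfc_add (f := fun t => pg n t * t * pg n t -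
        pg n t * t * pg m t - pg m t * t * pg n t) (g := fun t => pg m t * t * pg m t)
        (hf := (((c1 n n).sub (c1 n m)).sub (c1 m n)).continuousOn)
        (hg := (c1 m m).continuousOn),
        cfc_sub (f := fun t => pg n t * t * pg n t -
        pg n t * t * pg m t) (g := fun t => pg m t * t * pg n t)
        (hf := ((c1 n n).sub (c1 n m)).continuousOn) (hg := (c1 m n).continuousOn),
        cfc_sub (f := fun t => pg n t * t * pg n t) (g := fun t => pg n t * t * pg m t)
        (hf := (c1 n n).continuousOn) (hg := (c1 n m).continuousOn),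
        ← hxx, ← hxx, ← hxx, ← hxx, ← hx, ← hx, star_sub]
      noncomm_ring
    rw [e, hs, hs, hp, hp, ← Complex.sub_re, ← map_sub, ← cfc_sub (f := pq n) (g := pq m)
      (hf := (pq_cont n).continuousOn) (hg := (pq_cont m).continuousOn)]
    have c1 : ∀ i j, Continuous fun t => pg i t * t * pg j t := fun i j =>
        ((pg_cont i).mul continuous_id).mul (pg_cont j)
    refine tau_cfc_mono h ha _ _ ((((c1 n n).sub (c1 n m)).sub (c1 m n)).add (c1 m m))
      ((pq_cont n).sub (pq_cont m)) ?_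
    intro t ht
    have ht0 := hsp t ht
    have h1 := pg_mono hmn t
    have h2 := pg_pos m t
    have h3 := pg_pos n t
    unfold pq
    have h4 : 0 ≤ t * pg m t * (pg n t - pg m t) :=
      mul_nonneg (mul_nonneg ht0 h2.le) (by linarith)
    nlinarith
  -- Cauchy
  have hcau : ∀ ε : ℝ, 0 < ε → ∃ N, ∀ m ≥ N, ∀ n ≥ N, n2 τ (x m - x n) < ε := by
    intro ε hε
    have hconv : ∃ l, Tendsto s atTop (𝓝 l) :=
      ⟨_, tendsto_atTop_ciSup hmono ⟨1, by rintro _ ⟨n, rfl⟩; exact hbdd n⟩⟩
    obtain ⟨l, hl⟩ := hconv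
    have hcs := hl.cauchySeq
    rw [Metric.cauchySeq_iff] at hcs
    obtain ⟨N, hN⟩ := hcs (ε ^ 2) (by positivity)
    refine ⟨N, ?_⟩
    have key : ∀ m n, N ≤ m → m ≤ n → n2 τ (x n - x m) < ε := by
      intro m n hm hmn
      have h1 := hdiff m n hmn
      have h2 := hN n (by omega) m hm
      rw [Real.dist_eq] at h2
      have h3 := le_abs_self (s n - s m)
      have h4 : n2 τ (x n - x m) ^ 2 < ε ^ 2 := by linarith
      exact lt_of_pow_lt_pow_left₀ 2 hε.le h4
    intro m hm n hn
    rcases le_total m n with hmn | hmn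
    · rw [n2_sub_comm]
      exact key m n hm hmn
    · exact key n m hn hmn
  obtain ⟨y, hyn, hy⟩ := exists_lim h x 1 hxn hcau
  have hyε : ∀ ε : ℝ, 0 < ε → ∃ N, ∀ n ≥ N, n2 τ (x n - y) < ε := by
    intro ε hε
    rw [Metric.tendsto_atTop] at hy
    obtain ⟨N, hN⟩ := hy ε hε
    refine ⟨N, fun n hn => ?_⟩
    have := hN n hn
    rwa [Real.dist_eq, sub_zero, abs_of_nonneg (n2_nonneg _ _)] at this
  obtain ⟨P, hP⟩ : ∃ P : M, P = star y * y := ⟨_, rfl⟩
  have hpP : ∀ n, n2 τ (p n - P) ≤ 2 * n2 τ (x n - y) := by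
    intro n
    have e : p n - P = star (x n) * (x n - y) + (star (x n - y)) * y := by
      rw [← hxp, hP, star_sub]; noncomm_ring
    rw [e]
    have h1 := (n2_mul_le h (star (x n)) (x n - y)).1
    have h2 := (n2_mul_le h y (star (x n - y))).2
    have h3 := h.n2_add_le (star (x n) * (x n - y)) ((star (x n - y)) * y)
    rw [norm_star] at h1
    rw [h.n2_star] at h2
    have h4 := hxn n
    have h5 := n2_nonneg τ (x n - y)
    have h6 : ‖x n‖ * n2 τ (x n - y) ≤ 1 * n2 τ (x n - y) := by gcongr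
    have h7 : n2 τ (x n - y) * ‖y‖ ≤ n2 τ (x n - y) * 1 := by gcongr
    linarith
  have hPn : ‖P‖ ≤ 1 := by
    rw [hP, CStarRing.norm_star_mul_self]
    nlinarith [norm_nonneg y]
  have hpR : ∀ n, p n ∈ R := fun n => by rw [hp]; exact hbR _
  have hPR : P ∈ R := by
    apply hR
    intro ε hε
    obtain ⟨N, hN⟩ := hyε (ε / 2) (by positivity)
    refine ⟨p N, hpR N, ?_⟩
    rw [n2_sub_comm]
    have h1 := hpP N
    have h2 := hN N le_rfl
    linarith
  have hpp : ∀ n m : ℕ, n2 τ (p n * p m - p n) ≤ ((n : ℝ) + 1) / ((m : ℝ) + 1) := by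
    intro n m
    refine ((tau_bounds h).2 _).trans ?_
    rw [hp, hp, ← cfc_mul (pq n) (pq m) a (pq_cont n).continuousOn (pq_cont m).continuousOn,
      ← cfc_sub (f := fun t => pq n t * pq m t) (g := pq n)
      (hf := ((pq_cont n).mul (pq_cont m)).continuousOn) (hg := (pq_cont n).continuousOn)]
    refine norm_cfc_le (by positivity) ?_
    intro t ht
    rw [Real.norm_eq_abs]
    exact pq_pq n m (hsp t ht)
  have hpnP : ∀ n, p n * P = p n := by
    intro n
    have hz : n2 τ (p n * P - p n) = 0 := by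
      refine le_antisymm ?_ (n2_nonneg _ _)
      refine le_of_forall_pos_lt_add ?_
      intro ε hε
      rw [zero_add]
      obtain ⟨N, hN⟩ := hyε (ε / 4) (by positivity)
      obtain ⟨K, hK⟩ := exists_nat_gt (((n : ℝ) + 1) / (ε / 4))
      let m := max N K
      have hm1 : N ≤ m := le_max_left _ _
      have hm2 : (K : ℝ) ≤ m := by exact_mod_cast le_max_right N K
      have h1 := hN m hm1
      have h2 := hpP m
      have h3 := hpp n m
      have h4 : ((n : ℝ) + 1) / ((m : ℝ) + 1) < ε / 4 := by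
        rw [div_lt_iff₀ (by positivity)]
        rw [div_lt_iff₀ (by positivity)] at hK
        nlinarith
      have e : p n * P - p n = p n * (P - p m) + (p n * p m - p n) := by noncomm_ring
      rw [e]
      have h5 := h.n2_add_le (p n * (P - p m)) (p n * p m - p n)
      have h6 := (n2_mul_le h (p n) (P - p m)).1
      rw [n2_sub_comm τ P (p m)] at h6
      have h7 := hpn n
      have h8 : ‖p n‖ * n2 τ (p m - P) ≤ 1 * n2 τ (p m - P) := by
        have := n2_nonneg τ (p m - P)
        gcongr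
      linarith
    exact sub_eq_zero.1 (h.eq_zero hz)
  have hPP : P * P = P := by
    have hz : n2 τ (P * P - P) = 0 := by
      refine le_antisymm ?_ (n2_nonneg _ _)
      refine le_of_forall_pos_lt_add ?_
      intro ε hε
      rw [zero_add]
      obtain ⟨N, hN⟩ := hyε (ε / 4) (by positivity)
      have h1 := hN N le_rfl
      have h2 := hpP N
      have e : P * P - P = (P - p N) * P + (p N - P) := by
        have := hpnP N
        calc P * P - P = (P - p N) * P + (p N * P - P) := by noncomm_ring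
          _ = _ := by rw [this]
      rw [e]
      have h5 := h.n2_add_le ((P - p N) * P) (p N - P)
      have h6 := (n2_mul_le h P (P - p N)).2
      rw [n2_sub_comm τ P (p N)] at h6
      have h8 : n2 τ (p N - P) * ‖P‖ ≤ n2 τ (p N - P) * 1 := by
        have := n2_nonneg τ (p N - P)
        gcongr
      linarith
    exact sub_eq_zero.1 (h.eq_zero hz)
  refine ⟨y, ?_, ?_, ?_, ?_, ?_⟩
  · -- nonzero
    intro hy0
    have h1 : ∀ n, s n = n2 τ (x n) ^ 2 := by
      intro n
      rw [h.n2_sq, hxp, hs]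
    have h2 : n2 τ (x 0) = 0 := by
      refine le_antisymm ?_ (n2_nonneg _ _)
      refine le_of_forall_pos_lt_add ?_
      intro ε hε
      rw [zero_add]
      obtain ⟨N, hN⟩ := hyε ε hε
      have h3 := hN N le_rfl
      rw [hy0, sub_zero] at h3
      have h4 := hmono (Nat.zero_le N)
      rw [h1, h1] at h4
      have h5 := (pow_le_pow_iff_left₀ (n2_nonneg τ (x 0)) (n2_nonneg τ (x N)) two_ne_zero).1 h4
      linarith
    have h3 : x 0 = 0 := h.eq_zero h2
    have h4 : b 0 * cfc (fun t => (pg 0 t)⁻¹) a = 1 := by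
      have hci : Continuous fun t => (pg 0 t)⁻¹ := (pg_cont 0).inv₀ (fun t => (pg_pos 0 t).ne')
      rw [hb, ← cfc_mul (pg 0) (fun t => (pg 0 t)⁻¹) a (pg_cont 0).continuousOn hci.continuousOn]
      have : (fun t => pg 0 t * (pg 0 t)⁻¹) = fun _ => (1 : ℝ) := by
        funext t
        exact mul_inv_cancel₀ (pg_pos 0 t).ne'
      rw [this]
      exact cfc_const_one ℝ a ha
    apply h0
    calc ξ = ξ * (b 0 * cfc (fun t => (pg 0 t)⁻¹) a) := by rw [h4, mul_one]
      _ = x 0 * cfc (fun t => (pg 0 t)⁻¹) a := by rw [hx, mul_assoc]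
      _ = 0 := by rw [h3, zero_mul]
  · rw [← hP]; exact hPR
  · rw [← hP]; exact hPP
  · intro ε hε
    obtain ⟨N, hN⟩ := hyε ε hε
    refine ⟨x N, ⟨b N, ?_, hx N⟩, ?_⟩
    · rw [hb]; exact hbR _
    · rw [n2_sub_comm]
      exact hN N le_rfl
  · intro c hc
    have hxc : ∀ n, x n * c = 0 := by
      intro n
      have hcomm : a * b n = b n * a := by
        rw [hb]
        exact ((Commute.refl a).cfc_real (pg n)).symm.eq
      have h1 : star (x n * c) * (x n * c) = 0 := by
        have h2 : a * c = 0 := by rw [hadef, mul_assoc, hc, mul_zero]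
        rw [hx, star_mul, star_mul, hbs]
        calc star c * (b n * star ξ) * (ξ * b n * c) = star c * b n * (star ξ * ξ * b n) * c := by
              noncomm_ring
          _ = star c * b n * (b n * a) * c := by rw [← hadef, hcomm]
          _ = star c * b n * b n * (a * c) := by noncomm_ring
          _ = 0 := by rw [h2, mul_zero]
      exact CStarRing.star_mul_self_eq_zero_iff _ |>.1 h1
    apply h.eq_zero
    refine le_antisymm ?_ (n2_nonneg _ _)
    refine le_of_forall_pos_lt_add ?_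
    intro ε hε
    rw [zero_add]
    obtain ⟨N, hN⟩ := hyε (ε / (‖c‖ + 1)) (by positivity)
    have h1 := hN N le_rfl
    have e : y * c = -((x N - y) * c) := by
      rw [sub_mul, hxc N]; noncomm_ring
    rw [e, n2_neg]
    have h2 := (n2_mul_le h c (x N - y)).2
    have h3 := norm_nonneg c
    have h4 := n2_nonneg τ (x N - y)
    rw [lt_div_iff₀ (by positivity)] at h1
    nlinarith

end Pool.Agent.H467F
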