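import Pool.Agent.Helper467.FP.Defs
import Pool.Agent.Helper467.FP.P_n2_mul_le
import Pool.Agent.Helper467.FP.P_tau_bounds
import Pool.Agent.Helper467.FP.P_factor_link
import Pool.Agent.Helper467.FP.P_polar
import Pool.Agent.Helper467.FP.P_maximal

set_option autoImplicit false

open scoped ComplexOrder Topology InnerProductSpace
open Filter

namespace Pool.Agent.H467F

universe u v w

variable {M : Type u} [CStarAlgebra M] {τ : M →ₗ[ℂ] ℂ}

theorem ClCl {M : Type u} [CStarAlgebra M] {τ : M →ₗ[ℂ] ℂ} (h : TW τ) (s t : Set M)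
    (hst : s ⊆ Cl τ t) : Cl τ s ⊆ Cl τ t := by
  intro x hx ε hε
  obtain ⟨y, hy, hxy⟩ := hx (ε / 2) (half_pos hε)
  obtain ⟨z, hz, hyz⟩ := hst hy (ε / 2) (half_pos hε)
  exact ⟨z, hz, lt_of_le_of_lt (h.n2_tri x y z) (by linarith)⟩

theorem subCl {M : Type u} [CStarAlgebra M] {τ : M →ₗ[ℂ] ℂ} (s : Set M) : s ⊆ Cl τ s := by
  intro x hx ε hε
  exact ⟨x, hx, by rw [sub_self, n2_zero]; exact hε⟩

/-- left multiplication preserves closures -/
theorem Cl_left {M : Type u} [CStarAlgebra M] {τ : M →ₗ[ℂ] ℂ} (h : TW τ) (s t : Set M) (a : M)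
    (hst : ∀ y ∈ s, a * y ∈ t) {x : M} (hx : x ∈ Cl τ s) : a * x ∈ Cl τ t := by
  intro ε hε
  have hp : 0 < ‖a‖ + 1 := by positivity
  obtain ⟨y, hy, hxy⟩ := hx (ε / (‖a‖ + 1)) (by positivity)
  refine ⟨a * y, hst y hy, ?_⟩
  rw [← mul_sub]
  have h1 := (n2_mul_le h a (x - y)).1
  have h2 : ‖a‖ * n2 τ (x - y) ≤ (‖a‖ + 1) * n2 τ (x - y) :=
    mul_le_mul_of_nonneg_right (by linarith) (n2_nonneg _ _)
  have h3 : (‖a‖ + 1) * n2 τ (x - y) < ε := by
    rw [lt_div_iff₀ hp] at hxy
    linarith [mul_comm (n2 τ (x - y)) (‖a‖ + 1)]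
  linarith

/-- right multiplication preserves closures -/
theorem Cl_right {M : Type u} [CStarAlgebra M] {τ : M →ₗ[ℂ] ℂ} (h : TW τ) (s t : Set M) (a : M)
    (hst : ∀ y ∈ s, y * a ∈ t) {x : M} (hx : x ∈ Cl τ s) : x * a ∈ Cl τ t := by
  intro ε hε
  have hp : 0 < ‖a‖ + 1 := by positivity
  obtain ⟨y, hy, hxy⟩ := hx (ε / (‖a‖ + 1)) (by positivity)
  refine ⟨y * a, hst y hy, ?_⟩
  rw [← sub_mul]
  have h1 := (n2_mul_le h a (x - y)).2
  have h2 : ‖a‖ * n2 τ (x - y) ≤ (‖a‖ + 1) * n2 τ (x - y) :=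
    mul_le_mul_of_nonneg_right (by linarith) (n2_nonneg _ _)
  have h3 : (‖a‖ + 1) * n2 τ (x - y) < ε := by
    rw [lt_div_iff₀ hp] at hxy
    linarith [mul_comm (n2 τ (x - y)) (‖a‖ + 1)]
  linarith [mul_comm (n2 τ (x - y)) ‖a‖]

theorem Cl_star {M : Type u} [CStarAlgebra M] {τ : M →ₗ[ℂ] ℂ} (h : TW τ) (s t : Set M)
    (hst : ∀ y ∈ s, star y ∈ t) {x : M} (hx : x ∈ Cl τ s) : star x ∈ Cl τ t := by
  intro ε hε
  obtain ⟨y, hy, hxy⟩ := hx ε hε
  refine ⟨star y, hst y hy, ?_⟩
  rw [← star_sub, h.n2_star]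
  exact hxy

theorem Cl_zero {M : Type u} [CStarAlgebra M] {τ : M →ₗ[ℂ] ℂ} (h : TW τ) {x : M}
    (hx : x ∈ Cl τ {(0 : M)}) : x = 0 := by
  apply h.eq_zero
  apply le_antisymm _ (n2_nonneg _ _)
  apply le_of_forall_pos_le_add
  intro ε hε
  obtain ⟨y, hy, hxy⟩ := hx ε hε
  rw [Set.mem_singleton_iff] at hy
  rw [hy, sub_zero] at hxy
  linarith

theorem proj_right {M : Type u} [CStarAlgebra M] {τ : M →ₗ[ℂ] ℂ} (h : TW τ) {x : M}
    (hx : (star x * x) * (star x * x) = star x * x) : x * (star x * x) = x := by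
  have h1 : x * (star x * x) - x = 0 := by
    apply h.faithful
    have e : star (x * (star x * x) - x) * (x * (star x * x) - x) =
        (star x * x) * (star x * x) * (star x * x) - (star x * x) * (star x * x) -
        (star x * x) * (star x * x) + star x * x := by
      simp only [star_sub, star_mul, star_star]
      noncomm_ring
    rw [e, hx, hx]
    simp
  exact sub_eq_zero.1 h1

theorem unitary_of {M : Type u} [CStarAlgebra M] {τ : M →ₗ[ℂ] ℂ} (h : TW τ)
    (S R : StarSubalgebra ℂ M) (hR : IsW τ R) (hF : Fac R)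
    (hc : ∀ x : M, (∀ s ∈ S, s * x = x * s) → ∃ c : ℂ, x = c • (1 : M)) (D : M → M)
    (hD : Intw1 S R D) :
    ∃ x : M, star x * x = 1 ∧ x * star x = 1 ∧ ∀ s ∈ S, star x * s * x ∈ R := by
  have hone : (1 : M) ≠ 0 := by
    intro h1
    have := h.one
    rw [h1, map_zero] at this
    exact zero_ne_one this
  set V : Set M := Cl τ (Set.range D) with hV
  have hVc : Cl τ V ⊆ V := ClCl h V _ (fun x hx => hx)
  have hDV : ∀ z, D z ∈ V := fun z => subCl _ ⟨z, rfl⟩
  have hD0 : D 0 = 0 := by
    have := hD.smul 0 0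
    rwa [zero_smul, zero_smul] at this
  have hV0 : (0 : M) ∈ V := by
    have := hDV 0
    rwa [hD0] at this
  have hVadd : ∀ x ∈ V, ∀ y ∈ V, x + y ∈ V := by
    intro x hx y hy ε hε
    obtain ⟨x', ⟨a, rfl⟩, hx'⟩ := hx (ε / 2) (half_pos hε)
    obtain ⟨y', ⟨b, rfl⟩, hy'⟩ := hy (ε / 2) (half_pos hε)
    refine ⟨D a + D b, ⟨a + b, hD.add a b⟩, ?_⟩
    have e : x + y - (D a + D b) = (x - D a) + (y - D b) := by abel
    rw [e]
    exact lt_of_le_of_lt (h.n2_add_le _ _) (by linarith)
  have hVR : ∀ x ∈ V, ∀ b ∈ R, x * b ∈ V := by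
    intro x hx b hb
    apply Cl_right h _ _ b _ hx
    rintro _ ⟨z, rfl⟩
    exact ⟨z * b, hD.right b hb z⟩
  have hVS : ∀ s ∈ S, ∀ x ∈ V, s * x ∈ V := by
    intro s hs x hx
    apply Cl_left h _ _ s _ hx
    rintro _ ⟨z, rfl⟩
    exact ⟨s * z, hD.left s hs z⟩
  have hVneg : ∀ x ∈ V, -x ∈ V := by
    intro x hx
    have := hVR x hx (-1) (R.neg_mem R.one_mem)
    rwa [mul_neg, mul_one] at this
  have hin1 : ∀ y, ∀ η ∈ V, star (D y) * η ∈ R := by
    intro y η hη
    apply hR
    apply Cl_left h _ _ _ _ hη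
    rintro _ ⟨z, rfl⟩
    exact hD.inner y z
  have hin : ∀ ξ ∈ V, ∀ η ∈ V, star ξ * η ∈ R := by
    intro ξ hξ η hη
    apply hR
    have h1 : star ξ ∈ Cl τ {y | ∃ z, y = star (D z)} := by
      apply Cl_star h _ _ _ hξ
      rintro _ ⟨z, rfl⟩
      exact ⟨z, rfl⟩
    apply Cl_right h _ _ _ _ h1
    rintro _ ⟨z, rfl⟩
    exact hin1 z η hη
  have hpolar : ∀ ξ ∈ V, ξ ≠ 0 → ∃ x ∈ V, x ≠ 0 ∧ star x * x ∈ R ∧
      (star x * x) * (star x * x) = star x * x ∧
      (∀ a, a * ξ = 0 → a * x = 0) ∧ ∀ c, ξ * c = 0 → x * c = 0 := by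
    intro ξ hξ h0
    obtain ⟨x, hx0, hxR, hxx, hxC, hc'⟩ := polar h R hR ξ (hin ξ hξ ξ hξ) h0
    refine ⟨x, ?_, hx0, hxR, hxx, ?_, hc'⟩
    · apply ClCl h _ _ _ hxC
      rintro _ ⟨b, hb, rfl⟩
      exact hVR ξ hξ b hb
    · intro a ha
      apply Cl_zero h
      apply Cl_left h _ _ a _ hxC
      rintro _ ⟨b, hb, rfl⟩
      rw [← mul_assoc, ha, zero_mul]
      rfl
  obtain ⟨x, hxV, hq, hmax⟩ := maximal h V hV0 hVc
  have hxq : x * (star x * x) = x := proj_right h hq
  have hqs : star (star x * x) = star x * x := by rw [star_mul, star_star]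
  have hqR : star x * x ∈ R := hin x hxV x hxV
  have hqx : star x * x * star x = star x := by
    have := congrArg star hxq
    rwa [star_mul, hqs] at this
  have hgg : (x * star x) * (x * star x) = x * star x := by
    calc (x * star x) * (x * star x) = (x * (star x * x)) * star x := by noncomm_ring
      _ = x * star x := by rw [hxq]
  have hgs : star (x * star x) = x * star x := by rw [star_mul, star_star]
  -- if `x * star x = 1` then `star x * x = 1`
  have htr : ∀ p : M, p * p = p → star p = p → τ p = 1 → p = 1 := by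
    intro p hp hps hp1
    have h1 : 1 - p = 0 := by
      apply h.faithful
      have e : star (1 - p) * (1 - p) = 1 - p := by
        rw [star_sub, star_one, hps]
        have : (1 - p) * (1 - p) = 1 - p - p + p * p := by noncomm_ring
        rw [this, hp]
        abel
      rw [e, map_sub, h.one, hp1, sub_self]
    exact (sub_eq_zero.1 h1).symm
  have hclaim : star x * x = 1 := by
    by_contra hq1
    -- (a)
    have ha : ∃ ξ ∈ V, ξ - x * (star x * ξ) ≠ 0 := by
      by_contra hno
      push Not at hno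
      have hno' : ∀ ξ ∈ V, (x * star x) * ξ = ξ := by
        intro ξ hξ
        have := hno ξ hξ
        rw [sub_eq_zero] at this
        rw [mul_assoc]
        exact this.symm
      have hcomm1 : ∀ s ∈ S, (x * star x) * s * (x * star x) = s * (x * star x) := by
        intro s hs
        have h1 := hno' (s * x) (hVS s hs x hxV)
        calc (x * star x) * s * (x * star x) = ((x * star x) * (s * x)) * star x := by
              noncomm_ring
          _ = s * (x * star x) := by rw [h1, mul_assoc]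
      have hcomm : ∀ s ∈ S, s * (x * star x) = (x * star x) * s := by
        intro s hs
        have h1 := hcomm1 s hs
        have h2 := hcomm1 (star s) (star_mem hs)
        have h3 := congrArg star h2
        rw [star_mul (x * star x * star s), star_mul (x * star x) (star s), hgs, star_star,
          star_mul (star s), hgs, star_star, ← mul_assoc] at h3
        rw [← h1, h3]
      obtain ⟨c, hcx⟩ := hc (x * star x) hcomm
      have hc2 : c * c = c := by
        have h1 := hgg
        rw [hcx, smul_mul_smul_comm, mul_one] at h1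
        have h2 : (c * c - c) • (1 : M) = 0 := by rw [sub_smul, h1, sub_self]
        rcases smul_eq_zero.1 h2 with h3 | h3
        · exact sub_eq_zero.1 h3
        · exact absurd h3 hone
      have hc01 : c = 0 ∨ c = 1 := by
        have : c * (c - 1) = 0 := by rw [mul_sub, hc2, mul_one, sub_self]
        rcases mul_eq_zero.1 this with h3 | h3
        · exact Or.inl h3
        · exact Or.inr (sub_eq_zero.1 h3)
      rcases hc01 with hc0 | hc1
      · rw [hc0, zero_smul] at hcx
        have hx0 : x = 0 := by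
          rw [← hxq, ← mul_assoc, hcx, zero_mul]
        obtain ⟨z, hz⟩ := hD.nz
        obtain ⟨x', hx'V, hx'0, hx'R, hx'q, _, _⟩ := hpolar (D z) (hDV z) hz
        have := hmax x' hx'V hx'q (by rw [hx0]; simp)
        exact hx'0 (this.trans hx0)
      · rw [hc1, one_smul] at hcx
        apply hq1
        apply htr _ hq hqs
        rw [h.comm, hcx, h.one]
    -- (b)
    obtain ⟨ξ, hξV, hξ⟩ := ha
    have hη0V : ξ - x * (star x * ξ) ∈ V := by
      rw [sub_eq_add_neg]
      exact hVadd _ hξV _ (hVneg _ (hVR x hxV _ (hin x hxV ξ hξV)))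
    obtain ⟨x0, hx0V, hx00, hx0R, hx0q, hx0l, _⟩ := hpolar _ hη0V hξ
    have hxx0 : star x * x0 = 0 := by
      apply hx0l
      rw [mul_sub]
      have : star x * (x * (star x * ξ)) = (star x * x * star x) * ξ := by noncomm_ring
      rw [this, hqx, sub_self]
    have hq'0 : star x0 * x0 ≠ 0 := by
      intro h1
      apply hx00
      apply h.faithful
      rw [h1, map_zero]
    -- (c)
    have hrr : (1 - star x * x) * (1 - star x * x) = 1 - star x * x := by
      have : (1 - star x * x) * (1 - star x * x) =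
        1 - star x * x - star x * x + (star x * x) * (star x * x) := by noncomm_ring
      rw [this, hq]
      abel
    have hrs : star (1 - star x * x) = 1 - star x * x := by
      rw [star_sub, star_one, hqs]
    obtain ⟨b, hbR, hb⟩ := factor_link h R hR hF (star x0 * x0) (1 - star x * x) hx0R
      (R.sub_mem R.one_mem hqR) hrr hrs hq'0 (fun h1 => hq1 (sub_eq_zero.1 h1).symm)
    have hη1V : x0 * b * (1 - star x * x) ∈ V :=
      hVR _ (hVR x0 hx0V b hbR) _ (R.sub_mem R.one_mem hqR)
    have hη1 : x0 * b * (1 - star x * x) ≠ 0 := by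
      intro h1
      apply hb
      have : star x0 * x0 * b * (1 - star x * x) = star x0 * (x0 * b * (1 - star x * x)) := by
        noncomm_ring
      rw [this, h1, mul_zero]
    obtain ⟨x1, hx1V, hx10, hx1R, hx1q, hx1l, hx1r⟩ := hpolar _ hη1V hη1
    have hxx1 : star x * x1 = 0 := by
      apply hx1l
      rw [← mul_assoc, ← mul_assoc, hxx0, zero_mul, zero_mul]
    have hx1x : star x1 * x = 0 := by
      have := congrArg star hxx1
      rwa [star_mul, star_star, star_zero] at this
    have hx1q' : x1 * (star x * x) = 0 := by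
      apply hx1r
      rw [mul_assoc, sub_mul, one_mul, hq, sub_self, mul_zero]
    -- (d)
    have hsum : star (x + x1) * (x + x1) = star x * x + star x1 * x1 := by
      rw [star_add, add_mul, mul_add, mul_add, hxx1, hx1x, add_zero, zero_add]
    have hqq1 : star x1 * x1 * (star x * x) = 0 := by
      rw [mul_assoc, hx1q', mul_zero]
    have hqq1' : star x * x * (star x1 * x1) = 0 := by
      have := congrArg star hqq1
      rwa [star_mul, hqs, star_zero, star_mul, star_star] at this
    have hproj : (star (x + x1) * (x + x1)) * (star (x + x1) * (x + x1)) =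
        star (x + x1) * (x + x1) := by
      rw [hsum, add_mul, mul_add, mul_add, hqq1, hqq1', hq, hx1q, add_zero, zero_add]
    have hfin := hmax (x + x1) (hVadd _ hxV _ hx1V) hproj (by rw [add_mul, hxq, hx1q', add_zero])
    exact hx10 (by simpa using hfin)
  refine ⟨x, hclaim, ?_, ?_⟩
  · apply htr _ hgg hgs
    rw [h.comm, hclaim, h.one]
  · intro s hs
    rw [mul_assoc]
    exact hin x hxV _ (hVS s hs x hxV)

end Pool.Agent.H467F
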