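import Pool.Agent.Helper467.FP.Defs
import Pool.Agent.Helper467.FP.P_ep
import Pool.Agent.Helper467.FP.P_wnull_corner
import Pool.Agent.Helper467.FP.P_relcomm
import Pool.Agent.Helper467.FP.P_exists_D
import Pool.Agent.Helper467.FP.P_D_mem
import Pool.Agent.Helper467.FP.P_amplify
import Pool.Agent.Helper467.FP.P_unitary_of
import Pool.Agent.Helper467.FP.P_not_all_mix

set_option autoImplicit false

open scoped ComplexOrder Topology InnerProductSpace
open Filter

namespace Pool.Agent.H467F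

universe u v w

variable {M : Type u} [CStarAlgebra M] {τ : M →ₗ[ℂ] ℂ}

theorem conj_one {M : Type u} [CStarAlgebra M] {τ : M →ₗ[ℂ] ℂ} (h : TW τ) {I J : Type}
    [Fintype J] [Nonempty J] (S : I → StarSubalgebra ℂ M) (R : J → StarSubalgebra ℂ M)
    (hS : ∀ i, Good τ (S i)) (hR : ∀ j, Good τ (R j)) (fS : IsFree τ S) (fR : IsFree τ R)
    (dS : Dense2 τ S) (dR : Dense2 τ R) (i : I) :
    ∃ j x, star x * x = 1 ∧ x * star x = 1 ∧ ∀ s ∈ S i, star x * s * x ∈ R j := by
  classical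
  obtain ⟨g, hh, hD⟩ := (hS i).dya
  have hWS : ∀ i, IsW τ (S i) := fun i => (hS i).closed
  have hWR : ∀ j, IsW τ (R j) := fun j => (hR j).closed
  have hnot : ∃ k, ¬ Mixes τ (S i) R (g k) := by
    by_contra hcon
    push Not at hcon
    exact not_all_mix h (S i) (hS i) g hh hD R hWR fR dR hcon
  obtain ⟨k, hk⟩ := hnot
  unfold Mixes at hk
  push Not at hk
  obtain ⟨F, ε, hε, hF⟩ := hk
  have hfail : ∀ a, UC (S i) (g k) a → ε ^ 2 ≤ ∑ j, ∑ y ∈ F ∪ F.image star,
      ∑ z ∈ F ∪ F.image star, n2 τ (E τ (R j) (star z * a * y)) ^ 2 := by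
    intro a ha
    obtain ⟨j, y, hy, z, hz, hle⟩ := hF a ha
    have h1 : ε ^ 2 ≤ n2 τ (E τ (R j) (star (star y) * a * z)) ^ 2 := by
      rw [star_star]
      exact pow_le_pow_left₀ hε.le hle 2
    have hy' : star y ∈ F ∪ F.image star :=
      Finset.mem_union_right _ (Finset.mem_image_of_mem _ hy)
    have hz' : z ∈ F ∪ F.image star := Finset.mem_union_left _ hz
    have h2 := Finset.single_le_sum (s := F ∪ F.image star)
      (f := fun z' => n2 τ (E τ (R j) (star z' * a * z)) ^ 2) (fun _ _ => sq_nonneg _) hy'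
    have h3 := Finset.single_le_sum (s := F ∪ F.image star)
      (f := fun y' => ∑ z' ∈ F ∪ F.image star, n2 τ (E τ (R j) (star z' * a * y')) ^ 2)
      (fun _ _ => Finset.sum_nonneg fun _ _ => sq_nonneg _) hz'
    have h4 := Finset.single_le_sum (s := (Finset.univ : Finset J))
      (f := fun j' => ∑ y' ∈ F ∪ F.image star, ∑ z' ∈ F ∪ F.image star,
        n2 τ (E τ (R j') (star z' * a * y')) ^ 2)
      (fun _ _ => Finset.sum_nonneg fun _ _ => Finset.sum_nonneg fun _ _ => sq_nonneg _)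
      (Finset.mem_univ j)
    exact h1.trans (h2.trans (h3.trans h4))
  obtain ⟨j, D, hDI⟩ := exists_D h (S i) R hWR (g k) (hD.g_star k) (hD.g_idem k) (hD.g_mem k)
    (F ∪ F.image star) (ε ^ 2) (by positivity) hfail
  obtain ⟨a, ha, hn⟩ := wnull_corner h (S i) g hh hD k
  have hin : ∀ y z, star (D y) * D z ∈ R j := fun y z =>
    D_mem h R fR dR hWR j (S i) (g k) (hD.g_star k) D hDI a ha hn y z
  obtain ⟨D', hD'⟩ := amplify h (S i) (R j) (hWS i) g hh hD k D hDI hin
  obtain ⟨x, hx1, hx2, hx3⟩ := unitary_of h (S i) (R j) (hWR j) (hR j).fac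
    (fun x hx => relcomm h S fS dS hWS i (hS i).fac g hh hD x hx) D' hD'
  exact ⟨j, x, hx1, hx2, hx3⟩

end Pool.Agent.H467F
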