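import Pool.Agent.Helper467.FP.Defs
import Pool.Agent.Helper278.Trace
import Pool.Agent.Helper278.Factor
import Pool.Agent.Helper278.GroupMain

set_option autoImplicit false

open scoped ComplexOrder Topology InnerProductSpace
open Filter

namespace Pool.Agent.H467F

universe u v w


theorem lib_equiv {H : Type u} [NormedAddCommGroup H] [InnerProductSpace ℂ H] [CompleteSpace H]
    (N : VonNeumannAlgebra H) (t : Elt N → ℂ) (hN : IsIIOneFactor N t) (p q : Elt N)
    (hp : star p = p) (hpp : p * p = p) (hq : star q = q) (hqq : q * q = q) (hpq : t p = t q) :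
    ∃ x : Elt N, star x * x = p ∧ x * star x = q := by
  have h1 : Helper278.IsNormalPositive N t := hN.normal
  have h2 : Helper278.IsFaithfulTrace t := ⟨hN.trace.one, hN.trace.tracial, hN.trace.faithful⟩
  exact Helper278.exists_equiv (Helper278.mkState N t h1 h2) hN.center p q hp hpp hq hqq hpq

theorem lib_half {H : Type u} [NormedAddCommGroup H] [InnerProductSpace ℂ H] [CompleteSpace H]
    (N : VonNeumannAlgebra H) (t : Elt N → ℂ) (hN : IsIIOneFactor N t) (p : Elt N)
    (hp : star p = p) (hpp : p * p = p) :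
    ∃ q : Elt N, star q = q ∧ q * q = q ∧ p * q = q ∧ t q = t p / 2 := by
  classical
  have h1 : Helper278.IsNormalPositive N t := hN.normal
  have h2 : Helper278.IsFaithfulTrace t := ⟨hN.trace.one, hN.trace.tracial, hN.trace.faithful⟩
  set T := Helper278.mkState N t h1 h2 with hT
  have hdiff := Helper278.diffuse_of_factor T hN.center hN.infinite
  have hL := Helper278.lyapProp T hdiff
  have hA := Helper278.trAlg T
  obtain ⟨D, hpD, hDc, hDp⟩ := hL {p} (by rintro x rfl; exact hp) (by
    rintro x rfl y rfl; rfl)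
  have hpD := hpD p rfl
  have h1p : star (1 - p) = 1 - p := by rw [star_sub, star_one, hp]
  have h1pp : (1 - p) * (1 - p) = 1 - p := by
    have : (1 - p) * (1 - p) = 1 - p - p + p * p := by noncomm_ring
    rw [this, hpp]; noncomm_ring
  -- the pieces p/2, p/2, 1-p
  let x : Fin 3 → Elt N := ![((1 / 2 : ℝ) : ℂ) • p, ((1 / 2 : ℝ) : ℂ) • p, ((1 : ℝ) : ℂ) • (1 - p)]
  let y : Fin 2 → Elt N := ![1, 1 - p]
  obtain ⟨e, heD, he, hey⟩ := hDp (Fin 3) (Fin 2) x y (by
      intro i
      fin_cases i
      · exact D.smul_mem hpD _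
      · exact D.smul_mem hpD _
      · exact D.smul_mem (D.sub_mem D.one_mem hpD) _) (by
      intro i
      fin_cases i
      · exact Helper278.pos_proj hp hpp _ (by norm_num)
      · exact Helper278.pos_proj hp hpp _ (by norm_num)
      · exact Helper278.pos_proj h1p h1pp _ (by norm_num)) (by
      simp only [Fin.sum_univ_three, x, Matrix.cons_val_zero, Matrix.cons_val_one,
        Matrix.cons_val]
      rw [← add_smul]
      norm_num)
  have hps : star (e 0) = e 0 := he.star_eq 0
  have hpi : e 0 * e 0 = e 0 := he.idem 0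
  have ht0 : T.τ (e 0) = T.τ p / 2 := by
    have := hey 0 0
    simp only [x, y, Matrix.cons_val_zero, mul_one, map_smul, smul_eq_mul] at this
    rw [this]; push_cast; ring
  have ht1 : T.τ (e 0 * (1 - p)) = 0 := by
    have := hey 0 1
    simp only [x, y, Matrix.cons_val_zero, Matrix.cons_val_one, Matrix.cons_val] at this
    rw [this]
    have h0 : (((1 / 2 : ℝ) : ℂ) • p) * (1 - p) = 0 := by
      rw [smul_mul_assoc, mul_sub, mul_one, hpp, sub_self, smul_zero]
    rw [h0, map_zero]
  have h3 : e 0 * (1 - p) = 0 := by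
    apply hA.faithful
    rw [star_mul, hps, h1p]
    have : (1 - p) * e 0 * (e 0 * (1 - p)) = (1 - p) * (e 0 * e 0) * (1 - p) := by noncomm_ring
    rw [this, hpi, hA.comm, ← mul_assoc, h1pp, hA.comm]
    exact ht1
  refine ⟨e 0, hps, hpi, ?_, ht0⟩
  have h4 : e 0 * p = e 0 := by
    have : e 0 * (1 - p) = e 0 - e 0 * p := by noncomm_ring
    rw [this, sub_eq_zero] at h3
    exact h3.symm
  have := congrArg star h4
  rw [star_mul, hps, hp] at this
  exact this

end Pool.Agent.H467F
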