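import Pool.Agent.Helper467.FP.Defs
import Pool.Agent.Helper467.FP.P_lib_equiv
import Pool.Agent.Helper467.FP.P_lib_half

set_option autoImplicit false

open scoped ComplexOrder Topology InnerProductSpace
open Filter

namespace Pool.Agent.H467F

universe u v w

variable {M : Type u} [CStarAlgebra M] {τ : M →ₗ[ℂ] ℂ}

theorem dya_IIone_sub {H : Type u} [NormedAddCommGroup H] [InnerProductSpace ℂ H]
    [CompleteSpace H] (N : VonNeumannAlgebra H) (t : Elt N → ℂ) (hN : IsNormalPositive N t)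
    (x y : Elt N) : t (x - y) = t x - t y := by
  obtain ⟨ξ, hs, ht⟩ := hN
  have hsum : ∀ z : Elt N, Summable (fun k => ⟪ξ k, (z : H →L[ℂ] H) (ξ k)⟫_ℂ) := by
    intro z
    refine Summable.of_norm_bounded (g := fun k => ‖(z : H →L[ℂ] H)‖ * ‖ξ k‖ ^ 2)
      (hs.mul_left _) fun k => ?_
    calc ‖⟪ξ k, (z : H →L[ℂ] H) (ξ k)⟫_ℂ‖ ≤ ‖ξ k‖ * ‖(z : H →L[ℂ] H) (ξ k)‖ :=
          norm_inner_le_norm _ _
      _ ≤ ‖ξ k‖ * (‖(z : H →L[ℂ] H)‖ * ‖ξ k‖) := by
          gcongr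
          exact ContinuousLinearMap.le_opNorm _ _
      _ = ‖(z : H →L[ℂ] H)‖ * ‖ξ k‖ ^ 2 := by ring
  rw [ht, ht, ht, ← (hsum x).tsum_sub (hsum y)]
  refine tsum_congr fun k => ?_
  have : ((x - y : Elt N) : H →L[ℂ] H) = (x : H →L[ℂ] H) - (y : H →L[ℂ] H) := rfl
  rw [this, ContinuousLinearMap.sub_apply, inner_sub_right]

theorem dya_IIone {H : Type u} [NormedAddCommGroup H] [InnerProductSpace ℂ H] [CompleteSpace H]
    (N : VonNeumannAlgebra H) (t : Elt N → ℂ) (hN : IsIIOneFactor N t) :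
    ∃ g hh : ℕ → Elt N, Dya (⊤ : StarSubalgebra ℂ (Elt N)) g hh := by
  classical
  have hhalf : ∀ p : {p : Elt N // star p = p ∧ p * p = p},
      ∃ q : {p : Elt N // star p = p ∧ p * p = p}, p.1 * q.1 = q.1 ∧ t q.1 = t p.1 / 2 := by
    rintro ⟨p, hp, hpp⟩
    obtain ⟨q, hq, hqq, h1, h2⟩ := lib_half N t hN p hp hpp
    exact ⟨⟨q, hq, hqq⟩, h1, h2⟩
  choose half hh1 hh2 using hhalf
  let G : ℕ → {p : Elt N // star p = p ∧ p * p = p} := fun k =>
    Nat.rec (⟨1, star_one _, mul_one _⟩) (fun _ p => half p) k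
  have hG0 : (G 0).1 = (1 : Elt N) := by
    change (1 : Elt N) = 1
    rfl
  have hGs : ∀ k, G (k + 1) = half (G k) := fun k => rfl
  have hgl : ∀ k, (G k).1 * (G (k + 1)).1 = (G (k + 1)).1 := fun k => by
    rw [hGs]; exact hh1 _
  have hgr : ∀ k, (G (k + 1)).1 * (G k).1 = (G (k + 1)).1 := fun k => by
    have h1 := congrArg star (hgl k)
    rw [star_mul, (G k).2.1, (G (k + 1)).2.1] at h1
    exact h1
  have hex : ∀ k, ∃ x : Elt N, star x * x = (G (k + 1)).1 ∧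
      x * star x = (G k).1 - (G (k + 1)).1 := by
    intro k
    refine lib_equiv N t hN (G (k + 1)).1 ((G k).1 - (G (k + 1)).1) (G (k + 1)).2.1
      (G (k + 1)).2.2 ?_ ?_ ?_
    · rw [star_sub, (G k).2.1, (G (k + 1)).2.1]
    · rw [sub_mul, mul_sub, mul_sub, hgl, hgr, (G k).2.2, (G (k + 1)).2.2]
      abel
    · rw [dya_IIone_sub N t hN.normal, hGs, hh2]
      ring
  choose x hx1 hx2 using hex
  refine ⟨fun k => (G k).1, x, ?_⟩
  exact
    { g_mem := fun k => trivial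
      h_mem := fun k => trivial
      g_zero := hG0
      g_star := fun k => (G k).2.1
      g_idem := fun k => (G k).2.2
      g_le := hgl
      h_left := hx1
      h_right := hx2 }

end Pool.Agent.H467F
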