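import Pool.Agent.Helper467.FP.Defs

set_option autoImplicit false

open scoped ComplexOrder Topology InnerProductSpace
open Filter

namespace Pool.Agent.H467F

universe u v w

variable {M : Type u} [CStarAlgebra M] {τ : M →ₗ[ℂ] ℂ}

theorem exists_linear_summable {H : Type u} [NormedAddCommGroup H] [InnerProductSpace ℂ H]
    (x : H →L[ℂ] H) (ξ : ℕ → H) (hξ : Summable (fun k => ‖ξ k‖ ^ 2)) :
    Summable (fun k => ⟪ξ k, x (ξ k)⟫_ℂ) := by
  apply Summable.of_norm_bounded (hξ.mul_left ‖x‖)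
  intro k
  calc ‖⟪ξ k, x (ξ k)⟫_ℂ‖ ≤ ‖ξ k‖ * ‖x (ξ k)‖ := norm_inner_le_norm _ _
    _ ≤ ‖ξ k‖ * (‖x‖ * ‖ξ k‖) := mul_le_mul_of_nonneg_left (x.le_opNorm _) (norm_nonneg _)
    _ = ‖x‖ * ‖ξ k‖ ^ 2 := by ring

theorem exists_linear {H : Type u} [NormedAddCommGroup H] [InnerProductSpace ℂ H] [CompleteSpace H]
    (P : VonNeumannAlgebra H) (t : Elt P → ℂ) (hn : IsNormalPositive P t) :
    ∃ t' : Elt P →ₗ[ℂ] ℂ, ∀ x, t' x = t x := by
  obtain ⟨ξ, hξ, ht⟩ := hn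
  refine ⟨{ toFun := t, map_add' := ?_, map_smul' := ?_ }, fun x => rfl⟩
  · intro x y
    rw [ht, ht, ht, ← (exists_linear_summable (x : H →L[ℂ] H) ξ hξ).tsum_add
      (exists_linear_summable (y : H →L[ℂ] H) ξ hξ)]
    apply tsum_congr
    intro k
    rw [← inner_add_right]
    rfl
  · intro c x
    rw [ht, ht, RingHom.id_apply, smul_eq_mul, ← tsum_mul_left]
    apply tsum_congr
    intro k
    rw [← inner_smul_right]
    rfl

end Pool.Agent.H467F
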