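import Pool.Agent.Helper467.FP.Defs

set_option autoImplicit false

open scoped ComplexOrder Topology InnerProductSpace
open Filter

namespace Pool.Agent.H467F

universe u v w

variable {M : Type u} [CStarAlgebra M] {τ : M →ₗ[ℂ] ℂ}

theorem family_pull {M : Type u} [CStarAlgebra M] {M' : Type w} [CStarAlgebra M'] (θ : M ≃⋆ₐ[ℂ] M')
    (τ : M →ₗ[ℂ] ℂ) (τ' : M' →ₗ[ℂ] ℂ) (ht : ∀ x, τ x = τ' (θ x)) {J : Type}
    (R' : J → StarSubalgebra ℂ M') (R : J → StarSubalgebra ℂ M) (hR : ∀ j x, x ∈ R j ↔ θ x ∈ R' j)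
    (hf : IsFree τ' R') (hd : Dense2 τ' R') : IsFree τ R ∧ Dense2 τ R := by
  constructor
  · intro l hl hne
    have hval : val (l.map (fun p => (p.1, θ p.2))) = θ (val l) := by
      unfold val
      rw [map_list_prod, List.map_map, List.map_map]
      rfl
    rw [ht, ← hval]
    apply hf
    · refine ⟨?_, ?_⟩
      · rw [List.isChain_map]
        exact hl.1
      · intro p hp
        rw [List.mem_map] at hp
        obtain ⟨q, hq, rfl⟩ := hp
        have := hl.2 q hq
        exact ⟨(hR _ _).1 this.1, by rw [← ht]; exact this.2⟩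
    · simpa using hne
  · intro x ε hε
    obtain ⟨y', hy', h⟩ := hd (θ x) ε hε
    have hle : Gen R' ≤ StarSubalgebra.map (θ : M →⋆ₐ[ℂ] M') (Gen R) := by
      apply StarAlgebra.adjoin_le
      intro z hz
      rw [Set.mem_iUnion] at hz
      obtain ⟨j, hj⟩ := hz
      refine ⟨θ.symm z, ?_, ?_⟩
      · apply StarAlgebra.subset_adjoin
        rw [Set.mem_iUnion]
        refine ⟨j, ?_⟩
        have : θ (θ.symm z) ∈ R' j := by
          rw [StarAlgEquiv.apply_symm_apply]; exact hj
        exact (hR _ _).2 this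
      · exact StarAlgEquiv.apply_symm_apply θ z
    obtain ⟨y, hy, hyy⟩ := hle hy'
    have hyy' : θ y = y' := hyy
    refine ⟨y, hy, ?_⟩
    have : n2 τ (x - y) = n2 τ' (θ x - y') := by
      unfold n2
      rw [ht, map_mul, map_star, map_sub, hyy']
    rw [this]
    exact h

end Pool.Agent.H467F
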