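import Pool.Agent.Helper467.FP.Defs

set_option autoImplicit false

open scoped ComplexOrder Topology InnerProductSpace
open Filter

namespace Pool.Agent.H467F

universe u v w

variable {M : Type u} [CStarAlgebra M] {τ : M →ₗ[ℂ] ℂ}

section vnd

variable {H : Type u} [NormedAddCommGroup H] [InnerProductSpace ℂ H] [CompleteSpace H]

/-- diagonal operator -/
noncomputable def vnd_D (T : H →L[ℂ] H) :
    lp (fun _ : ℕ => H) 2 →L[ℂ] lp (fun _ : ℕ => H) 2 :=
  lp.mapCLM 2 (fun _ => T) (K := ‖T‖) (norm_nonneg _) (fun _ => le_rfl)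

theorem vnd_D_apply (T : H →L[ℂ] H) (f : lp (fun _ : ℕ => H) 2) (k : ℕ) :
    (vnd_D T f) k = T (f k) := rfl

theorem vnd_D_adj (T : H →L[ℂ] H) (f g : lp (fun _ : ℕ => H) 2) :
    ⟪vnd_D T f, g⟫_ℂ = ⟪f, vnd_D (star T) g⟫_ℂ := by
  rw [lp.inner_eq_tsum, lp.inner_eq_tsum]
  congr 1
  funext k
  rw [vnd_D_apply, vnd_D_apply, ContinuousLinearMap.star_eq_adjoint,
    ContinuousLinearMap.adjoint_inner_right]

theorem vnd_D_mul (T T' : H →L[ℂ] H) (f : lp (fun _ : ℕ => H) 2) :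
    vnd_D (T * T') f = vnd_D T (vnd_D T' f) := by
  apply lp.ext
  funext k
  rfl

theorem vnd_D_sub (T T' : H →L[ℂ] H) (f : lp (fun _ : ℕ => H) 2) :
    vnd_D (T - T') f = vnd_D T f - vnd_D T' f := by
  apply lp.ext
  funext k
  rfl

theorem vnd_D_one (f : lp (fun _ : ℕ => H) 2) : vnd_D 1 f = f := by
  apply lp.ext
  funext k
  rfl

theorem vnd_D_single (T : H →L[ℂ] H) (l : ℕ) (h : H) :
    vnd_D T (lp.single 2 l h : lp (fun _ : ℕ => H) 2) = lp.single 2 l (T h) := by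
  apply lp.ext
  funext k
  rw [vnd_D_apply]
  by_cases hk : k = l
  · subst hk
    rw [lp.single_apply_self, lp.single_apply_self]
  · rw [lp.single_apply_ne _ _ _ hk, lp.single_apply_ne _ _ _ hk, map_zero]

theorem vnd_main (S : StarSubalgebra ℂ (H →L[ℂ] H)) (x : H →L[ℂ] H)
    (hx : ∀ e : H →L[ℂ] H, (∀ y ∈ S, y * e = e * y) → e * x = x * e)
    (Ξ : lp (fun _ : ℕ => H) 2) (ε : ℝ) (hε : 0 < ε) :
    ∃ y ∈ S, ‖vnd_D x Ξ - vnd_D y Ξ‖ < ε := by
  classical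
  let L : (H →L[ℂ] H) →ₗ[ℂ] lp (fun _ : ℕ => H) 2 :=
    { toFun := fun y => vnd_D y Ξ
      map_add' := fun y z => by
        apply lp.ext
        funext k
        rfl
      map_smul' := fun c y => by
        apply lp.ext
        funext k
        rfl }
  set V0 : Submodule ℂ (lp (fun _ : ℕ => H) 2) :=
    Submodule.map L (Subalgebra.toSubmodule S.toSubalgebra) with hV0
  have hV0mem : ∀ v, v ∈ V0 ↔ ∃ y ∈ S, vnd_D y Ξ = v := by
    intro v
    rw [hV0, Submodule.mem_map]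
    rfl
  set V := V0.topologicalClosure with hV
  haveI : CompleteSpace V := (Submodule.isClosed_topologicalClosure V0).completeSpace_coe
  have hinv : ∀ y ∈ S, ∀ v ∈ V, vnd_D y v ∈ V := by
    intro y hy v hv
    refine map_mem_closure (vnd_D y).continuous hv ?_
    rintro w hw
    obtain ⟨z, hz, rfl⟩ := (hV0mem w).mp hw
    exact (hV0mem _).mpr ⟨y * z, mul_mem hy hz, vnd_D_mul _ _ _⟩
  obtain ⟨e, he⟩ : ∃ e, e = V.starProjection := ⟨_, rfl⟩
  have hcomm : ∀ y ∈ S, ∀ f, e (vnd_D y f) = vnd_D y (e f) := by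
    intro y hy f
    rw [he]
    refine Submodule.eq_starProjection_of_mem_of_inner_eq_zero
      (hinv y hy _ (Submodule.starProjection_apply_mem V f)) ?_
    intro w hw
    rw [← map_sub, vnd_D_adj]
    exact Submodule.starProjection_inner_eq_zero _ _ (hinv _ (star_mem hy) w hw)
  let E2 : ℕ → ℕ → (H →L[ℂ] H) := fun k l =>
    (lp.evalCLM ℂ (fun _ : ℕ => H) 2 k) ∘L e ∘L (lp.singleContinuousLinearMap ℂ (fun _ : ℕ => H) 2 l)
  have hE2 : ∀ k l h, E2 k l h = (e (lp.single 2 l h)) k := fun k l h => rfl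
  have hEx : ∀ k l, E2 k l * x = x * E2 k l := by
    intro k l
    apply hx
    intro y hy
    ext h
    show y (E2 k l h) = E2 k l (y h)
    rw [hE2, hE2, ← vnd_D_single, hcomm y hy, vnd_D_apply]
  have hex : ∀ f, e (vnd_D x f) = vnd_D x (e f) := by
    have h1 : e ∘L (vnd_D x) = (vnd_D x) ∘L e := by
      apply lp.ext_continuousLinearMap (by simp)
      intro l
      apply ContinuousLinearMap.ext
      intro h
      show e (vnd_D x (lp.single 2 l h)) = vnd_D x (e (lp.single 2 l h))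
      apply lp.ext
      funext k
      have h2 : E2 k l (x h) = x (E2 k l h) := by
        have := congrArg (fun T : H →L[ℂ] H => T h) (hEx k l)
        exact this
      rw [vnd_D_single, vnd_D_apply]
      rw [hE2, hE2] at h2
      exact h2
    intro f
    exact congrArg (fun T : lp (fun _ : ℕ => H) 2 →L[ℂ] lp (fun _ : ℕ => H) 2 => T f) h1
  have hΞ : Ξ ∈ V := by
    apply Submodule.le_topologicalClosure
    exact (hV0mem _).mpr ⟨1, one_mem S, vnd_D_one Ξ⟩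
  have hxΞ : vnd_D x Ξ ∈ V := by
    have h1 : V.starProjection (vnd_D x Ξ) = vnd_D x Ξ := by
      rw [← he, hex, he, Submodule.starProjection_eq_self_iff.mpr hΞ]
    exact Submodule.starProjection_eq_self_iff.mp h1
  have hcl : vnd_D x Ξ ∈ closure (V0 : Set (lp (fun _ : ℕ => H) 2)) := hxΞ
  obtain ⟨v, hv, hd⟩ := Metric.mem_closure_iff.mp hcl ε hε
  obtain ⟨y, hy, rfl⟩ := (hV0mem v).mp hv
  exact ⟨y, hy, by rw [← dist_eq_norm]; exact hd⟩

end vnd

theorem vn_dense {H : Type u} [NormedAddCommGroup H] [InnerProductSpace ℂ H] [CompleteSpace H]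
    (P : VonNeumannAlgebra H) (t : Elt P → ℂ) (hn : IsNormalPositive P t) (ht : IsFaithfulTrace t)
    (X : Set (Elt P)) (hP : P = vnGen ((fun x : Elt P => (x : H →L[ℂ] H)) '' X)) (x : Elt P) (ε : ℝ)
    (hε : 0 < ε) : ∃ y ∈ StarAlgebra.adjoin ℂ X, n2 t (x - y) < ε := by
  obtain ⟨ξ, hξ, htξ⟩ := hn
  have hmem : Memℓp ξ 2 := by
    apply memℓp_gen
    simpa using hξ
  obtain ⟨Ξ, hΞ⟩ : ∃ Ξ : lp (fun _ : ℕ => H) 2, ∀ k, Ξ k = ξ k := ⟨⟨ξ, hmem⟩, fun k => rfl⟩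
  have hn2 : ∀ z : Elt P, n2 t z = ‖vnd_D (z : H →L[ℂ] H) Ξ‖ := by
    intro z
    have h1 : t (star z * z) = ⟪vnd_D (z : H →L[ℂ] H) Ξ, vnd_D (z : H →L[ℂ] H) Ξ⟫_ℂ := by
      rw [htξ, lp.inner_eq_tsum]
      congr 1
      funext k
      rw [vnd_D_apply, hΞ]
      have h2 : ((star z * z : Elt P) : H →L[ℂ] H) (ξ k) =
        (ContinuousLinearMap.adjoint (z : H →L[ℂ] H)) ((z : H →L[ℂ] H) (ξ k)) := rfl
      rw [h2, ContinuousLinearMap.adjoint_inner_right]
    unfold n2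
    rw [h1]
    have h3 : (⟪vnd_D (z : H →L[ℂ] H) Ξ, vnd_D (z : H →L[ℂ] H) Ξ⟫_ℂ).re =
      ‖vnd_D (z : H →L[ℂ] H) Ξ‖ ^ 2 := by
      have := inner_self_eq_norm_sq (𝕜 := ℂ) (vnd_D (z : H →L[ℂ] H) Ξ)
      exact this
    rw [h3, Real.sqrt_sq (norm_nonneg _)]
  have hxP : (x : H →L[ℂ] H) ∈ vnGen ((fun x : Elt P => (x : H →L[ℂ] H)) '' X) := by
    rw [← hP]
    exact x.2
  have hx2 : ∀ g ∈ StarSubalgebra.centralizer ℂ ((fun x : Elt P => (x : H →L[ℂ] H)) '' X),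
      g * (x : H →L[ℂ] H) = (x : H →L[ℂ] H) * g := by
    have h1 : (x : H →L[ℂ] H) ∈ StarSubalgebra.centralizer ℂ
      (StarSubalgebra.centralizer ℂ ((fun x : Elt P => (x : H →L[ℂ] H)) '' X) :
        Set (H →L[ℂ] H)) := hxP
    rw [StarSubalgebra.mem_centralizer_iff] at h1
    intro g hg
    exact (h1 g hg).1
  obtain ⟨y, hy, hyε⟩ := vnd_main ((StarAlgebra.adjoin ℂ X).map P.toStarSubalgebra.subtype)
    (x : H →L[ℂ] H) (by
      intro e he
      apply hx2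
      rw [StarSubalgebra.mem_centralizer_iff]
      rintro g ⟨z, hz, rfl⟩
      have hz1 : z ∈ StarAlgebra.adjoin ℂ X := StarAlgebra.subset_adjoin ℂ X hz
      constructor
      · exact he _ (StarSubalgebra.mem_map.mpr ⟨z, hz1, rfl⟩)
      · exact he _ (StarSubalgebra.mem_map.mpr ⟨star z, star_mem hz1, rfl⟩)) Ξ ε hε
  obtain ⟨y0, hy0, rfl⟩ := StarSubalgebra.mem_map.mp hy
  refine ⟨y0, hy0, ?_⟩
  rw [hn2]
  have h1 : ((x - y0 : Elt P) : H →L[ℂ] H) = (x : H →L[ℂ] H) - (y0 : H →L[ℂ] H) := rfl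
  rw [h1, vnd_D_sub]
  exact hyε

end Pool.Agent.H467F
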