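import Pool.Agent.Helper467.FP.Defs
import Pool.Agent.Helper467.FP.P_vn_dense

set_option autoImplicit false

open scoped ComplexOrder Topology InnerProductSpace
open Filter

namespace Pool.Agent.H467F

universe u v w

variable {M : Type u} [CStarAlgebra M] {τ : M →ₗ[ℂ] ℂ}

theorem free_of_lift {I : Type} {A : I → Type v} {B : Type w} (α : ∀ i, A i → B)
    (l : List (I × B)) (h : ∀ p ∈ l, ∃ a, α p.1 a = p.2) :
    ∃ l' : List (Σ i, A i), l'.map (fun p => (p.1, α p.1 p.2)) = l := by
  induction l with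
  | nil => exact ⟨[], rfl⟩
  | cons q l ih =>
    obtain ⟨l', hl'⟩ := ih (fun p hp => h p (List.mem_cons_of_mem _ hp))
    obtain ⟨a, ha⟩ := h q List.mem_cons_self
    refine ⟨⟨q.1, a⟩ :: l', ?_⟩
    rw [List.map_cons, hl']
    congr 1
    exact Prod.ext rfl ha

theorem free_of {I : Type} {A : I → Type v} [∀ i, Ring (A i)] [∀ i, StarRing (A i)]
    [∀ i, Algebra ℂ (A i)] [∀ i, StarModule ℂ (A i)] (σ : ∀ i, A i → ℂ)
    {K : Type w} [NormedAddCommGroup K] [InnerProductSpace ℂ K] [CompleteSpace K]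
    (P : VonNeumannAlgebra K) (t : Elt P → ℂ) (α : ∀ i, A i →⋆ₐ[ℂ] Elt P)
    (hP : IsFreeProduct σ P t α) (t' : Elt P →ₗ[ℂ] ℂ) (ht' : ∀ x, t' x = t x) :
    IsFree t' (fun i => (α i).range) ∧ Dense2 t' (fun i => (α i).range) := by
  have htt : (fun x => t' x) = t := funext ht'
  constructor
  · intro l hl hne
    obtain ⟨l', hl'⟩ := free_of_lift (fun i a => α i a) l (by
      intro p hp
      exact (hl.2 p hp).1)
    have hne' : l' ≠ [] := by
      rintro rfl
      exact hne hl'.symm
    have hchain : l'.IsChain (fun a b => a.1 ≠ b.1) := by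
      have h1 := hl.1
      rw [← hl', List.isChain_map] at h1
      exact h1
    have hσ : ∀ p ∈ l', σ p.1 p.2 = 0 := by
      intro p hp
      have h1 : (p.1, α p.1 p.2) ∈ l := by
        rw [← hl']
        exact List.mem_map_of_mem hp
      have h2 := (hl.2 _ h1).2
      rw [ht', hP.preserves] at h2
      exact h2
    have h3 := hP.free l' hne' hchain hσ
    rw [ht']
    unfold val
    rw [← hl', List.map_map]
    exact h3
  · intro x ε hε
    have hX : (fun x : Elt P => (x : K →L[ℂ] K)) '' (⋃ i, ((α i).range : Set (Elt P))) =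
        ⋃ i, Set.range fun x => (α i x : K →L[ℂ] K) := by
      ext z
      simp only [Set.mem_image, Set.mem_iUnion, Set.mem_range]
      constructor
      · rintro ⟨y, ⟨i, a, ha⟩, rfl⟩
        exact ⟨i, a, by rw [← ha]; rfl⟩
      · rintro ⟨i, a, ha⟩
        exact ⟨α i a, ⟨i, a, rfl⟩, ha⟩
    obtain ⟨y, hy, hlt⟩ := vn_dense P t hP.normal hP.trace (⋃ i, ((α i).range : Set (Elt P)))
      (by rw [hX]; exact hP.gen) x ε hε
    refine ⟨y, hy, ?_⟩
    have hn : n2 t' (x - y) = n2 t (x - y) := by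
      unfold n2
      rw [ht']
    rw [hn]
    exact hlt

end Pool.Agent.H467F
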