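import Pool.Agent.Helper467.FP.Defs
import Pool.Agent.Helper278.Trace
import Pool.Agent.Helper278.GroupMain
import Pool.Agent.Helper278.CEMod

set_option autoImplicit false

open scoped ComplexOrder Topology InnerProductSpace
open Filter

namespace Pool.Agent.H467F

universe u v w


theorem lib_center {H : Type u} [NormedAddCommGroup H] [InnerProductSpace ℂ H] [CompleteSpace H]
    (N : VonNeumannAlgebra H) (t : Elt N → ℂ) (hN : IsIIOneFactor N t) (U : Ultrafilter ℕ)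
    (hU : ∀ n, {n} ∉ U) {A : Type u} [Ring A] [StarRing A] [Algebra ℂ A] [StarModule ℂ A]
    (π : (BoundedContinuousFunction ℕ (Elt N)) →⋆ₐ[ℂ] A) (σ : A → ℂ)
    (hπ : IsTracialUltrapower t U π σ) (z : A) (hz : ∀ x, z * x = x * z) :
    ∃ c : ℂ, z = c • (1 : A) := by
  have h1 : Helper278.IsNormalPositive N t := hN.normal
  have h2 : Helper278.IsFaithfulTrace t := ⟨hN.trace.one, hN.trace.tracial, hN.trace.faithful⟩
  have hL := Helper278.lyapProp (Helper278.mkState N t h1 h2)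
    (Helper278.diffuse_of_factor (Helper278.mkState N t h1 h2) hN.center hN.infinite)
  have hπ' : Helper278.IsTracialUltrapower (Helper278.mkState N t h1 h2).τ U π σ :=
    ⟨hπ.surj, hπ.ker, hπ.trace⟩
  exact Helper278.CE.central_scalar hπ' hL hN.center z hz

theorem lib_ball {H : Type u} [NormedAddCommGroup H] [InnerProductSpace ℂ H] [CompleteSpace H]
    (N : VonNeumannAlgebra H) (t : Elt N → ℂ) (hN : IsIIOneFactor N t) (U : Ultrafilter ℕ)
    (hU : ∀ n, {n} ∉ U) {A : Type u} [Ring A] [StarRing A] [Algebra ℂ A] [StarModule ℂ A]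
    (π : (BoundedContinuousFunction ℕ (Elt N)) →⋆ₐ[ℂ] A) (σ : A → ℂ)
    (hπ : IsTracialUltrapower t U π σ) (q : A) (hq : ∀ b, n2 σ (q * b) ≤ n2 σ b) :
    ∃ x : BoundedContinuousFunction ℕ (Elt N), (∀ n, ‖x n‖ ≤ 1) ∧ π x = q := by
  have h1 : Helper278.IsNormalPositive N t := hN.normal
  have h2 : Helper278.IsFaithfulTrace t := ⟨hN.trace.one, hN.trace.tracial, hN.trace.faithful⟩
  have hπ' : Helper278.IsTracialUltrapower (Helper278.mkState N t h1 h2).τ U π σ :=
    ⟨hπ.surj, hπ.ker, hπ.trace⟩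
  have hS := Helper278.sigma_trAlg hπ'
  have hB := Helper278.CE.ball_ultra hU hπ'
  obtain ⟨K, _, _, _, j, hd, hj⟩ := Helper278.CE.exists_gns hS
  have hn : ‖Helper278.CE.Lm j q‖ ≤ 1 := by
    refine ContinuousLinearMap.opNorm_le_bound _ zero_le_one fun ξ => ?_
    refine hd.induction_on (p := fun ξ => ‖Helper278.CE.Lm j q ξ‖ ≤ 1 * ‖ξ‖) ξ
      (isClosed_le (by fun_prop) (by fun_prop)) fun b => ?_
    rw [Helper278.CE.Lm_j hS hd hj hB, Helper278.CE.norm_j hj, Helper278.CE.norm_j hj, one_mul]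
    exact hq b
  obtain ⟨a, ha, hqa⟩ := Helper278.CE.exists_of_mem hS hd hj hB _ (Helper278.CE.Lm_mem q) hn
  have : Helper278.CE.LmHom hS hd hj hB q = Helper278.CE.LmHom hS hd hj hB a := Subtype.ext hqa
  have hqa' : q = a := Helper278.CE.LmHom_inj hS hd hj hB this
  rw [hqa']
  exact ha

theorem lib_complete {H : Type u} [NormedAddCommGroup H] [InnerProductSpace ℂ H] [CompleteSpace H]
    (N : VonNeumannAlgebra H) (t : Elt N → ℂ) (hN : IsIIOneFactor N t) (U : Ultrafilter ℕ)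
    (hU : ∀ n, {n} ∉ U) {A : Type u} [Ring A] [StarRing A] [Algebra ℂ A] [StarModule ℂ A]
    (π : (BoundedContinuousFunction ℕ (Elt N)) →⋆ₐ[ℂ] A) (σ : A → ℂ)
    (hπ : IsTracialUltrapower t U π σ) (q : ℕ → A)
    (hq : ∀ n, ∃ x : BoundedContinuousFunction ℕ (Elt N), (∀ k, ‖x k‖ ≤ 1) ∧ π x = q n)
    (hc : ∀ n, n2 σ (q n - q (n + 1)) ≤ (1 / 2) ^ n) :
    ∃ y : A, Tendsto (fun n => n2 σ (q n - y)) atTop (𝓝 0) := by
  have h1 : Helper278.IsNormalPositive N t := hN.normal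
  have h2 : Helper278.IsFaithfulTrace t := ⟨hN.trace.one, hN.trace.tracial, hN.trace.faithful⟩
  have hπ' : Helper278.IsTracialUltrapower (Helper278.mkState N t h1 h2).τ U π σ :=
    ⟨hπ.surj, hπ.ker, hπ.trace⟩
  have hB := Helper278.CE.ball_ultra hU hπ'
  obtain ⟨y, _, hy⟩ := hB.complete q hq hc
  exact ⟨y, hy⟩

end Pool.Agent.H467F
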