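import Pool.Agent.Helper467.FP.Defs
import Pool.Agent.Helper467.FP.P_n2_mul_le
import Pool.Agent.Helper467.FP.P_tau_bounds
import Pool.Agent.Helper467.FP.P_exists_lim
import Pool.Agent.Helper467.FP.P_norm_le_of_lim
import Pool.Agent.Helper467.FP.P_trunc
import Pool.Agent.Helper467.FP.P_lib_ball
import Pool.Agent.Helper467.FP.P_lib_complete

set_option autoImplicit false

open scoped ComplexOrder Topology InnerProductSpace
open Filter

namespace Pool.Agent.H467F

universe u v w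

variable {M : Type u} [CStarAlgebra M] {τ : M →ₗ[ℂ] ℂ}

theorem Cl_add {M : Type w} [CStarAlgebra M] {τ : M →ₗ[ℂ] ℂ} (h : TW τ) (S : StarSubalgebra ℂ M)
    {x y : M} (hx : x ∈ Cl τ (S : Set M)) (hy : y ∈ Cl τ (S : Set M)) :
    x + y ∈ Cl τ (S : Set M) := by
  intro ε hε
  obtain ⟨a, ha, ha'⟩ := hx (ε / 2) (by linarith)
  obtain ⟨b, hb, hb'⟩ := hy (ε / 2) (by linarith)
  refine ⟨a + b, S.add_mem ha hb, ?_⟩
  have h1 := h.n2_add_le (x - a) (y - b)
  rw [add_sub_add_comm]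
  linarith

theorem Cl_smul {M : Type w} [CStarAlgebra M] {τ : M →ₗ[ℂ] ℂ} (S : StarSubalgebra ℂ M)
    {x : M} (c : ℂ) (hx : x ∈ Cl τ (S : Set M)) : c • x ∈ Cl τ (S : Set M) := by
  intro ε hε
  have hc : 0 < ‖c‖ + 1 := by positivity
  obtain ⟨a, ha, ha'⟩ := hx (ε / (‖c‖ + 1)) (by positivity)
  refine ⟨c • a, S.smul_mem ha c, ?_⟩
  rw [← smul_sub, n2_smul]
  rw [lt_div_iff₀ hc] at ha'
  nlinarith [n2_nonneg τ (x - a), norm_nonneg c]

theorem Cl_star_ri {M : Type w} [CStarAlgebra M] {τ : M →ₗ[ℂ] ℂ} (h : TW τ) (S : StarSubalgebra ℂ M)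
    {x : M} (hx : x ∈ Cl τ (S : Set M)) : star x ∈ Cl τ (S : Set M) := by
  intro ε hε
  obtain ⟨a, ha, ha'⟩ := hx ε hε
  refine ⟨star a, star_mem ha, ?_⟩
  rw [← star_sub, h.n2_star]
  exact ha'

/-- the conclusion follows from the bounded case -/
theorem isW_of_bc {M : Type w} [CStarAlgebra M] {τ : M →ₗ[ℂ] ℂ} (h : TW τ)
    (S : StarSubalgebra ℂ M)
    (hBC : ∀ (x : ℕ → M) (y : M), (∀ n, x n ∈ S) → (∀ n, ‖x n‖ ≤ 1) →
      Tendsto (fun n => n2 τ (x n - y)) atTop (𝓝 0) → y ∈ S) : IsW τ S := by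
  have hconj2 : (starRingEnd ℂ) 2 = 2 := map_ofNat _ 2
  have hcl : IsClosed (S : Set M) := by
    rw [← closure_subset_iff_isClosed]
    intro x hx
    obtain ⟨u, hu, hux⟩ := mem_closure_iff_seq_limit.mp hx
    have hC : 0 < ‖x‖ + 1 := by positivity
    have hev : ∀ᶠ n in atTop, ‖u n‖ < ‖x‖ + 1 :=
      (hux.norm).eventually (gt_mem_nhds (by linarith))
    obtain ⟨n0, hn0⟩ := eventually_atTop.mp hev
    have hc : ((‖x‖ + 1 : ℝ) : ℂ) ≠ 0 := by exact_mod_cast hC.ne'
    have hnc : ‖(((‖x‖ + 1 : ℝ) : ℂ)⁻¹)‖ = (‖x‖ + 1)⁻¹ := by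
      rw [norm_inv, Complex.norm_real, Real.norm_of_nonneg hC.le]
    have h1 : (((‖x‖ + 1 : ℝ) : ℂ)⁻¹) • x ∈ S := by
      refine hBC (fun n => (((‖x‖ + 1 : ℝ) : ℂ)⁻¹) • u (n + n0)) _
        (fun n => S.smul_mem (hu _) _) (fun n => ?_) ?_
      · rw [norm_smul, hnc, inv_mul_le_iff₀ hC, mul_one]
        exact (hn0 (n + n0) (by omega)).le
      · have h2 : Tendsto (fun n => ‖u (n + n0) - x‖) atTop (𝓝 0) := by
          have h3 := hux.comp (tendsto_add_atTop_nat n0)
          exact tendsto_iff_norm_sub_tendsto_zero.mp h3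
        have h4 : Tendsto (fun n => (‖x‖ + 1)⁻¹ * ‖u (n + n0) - x‖) atTop (𝓝 0) := by
          have := h2.const_mul ((‖x‖ + 1)⁻¹)
          rwa [mul_zero] at this
        refine squeeze_zero (fun n => n2_nonneg _ _) (fun n => ?_) h4
        rw [← smul_sub, n2_smul, hnc]
        exact mul_le_mul_of_nonneg_left ((tau_bounds h).2 _) (by positivity)
    have h5 := S.smul_mem h1 ((‖x‖ + 1 : ℝ) : ℂ)
    rwa [smul_smul, mul_inv_cancel₀ hc, one_smul] at h5
  -- the self-adjoint case of norm at most one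
  have hsa1 : ∀ x : M, star x = x → ‖x‖ ≤ 1 → x ∈ Cl τ (S : Set M) → x ∈ S := by
    intro x hx hx1 hxc
    have hex : ∀ n : ℕ, ∃ c ∈ S, ‖c‖ ≤ 1 ∧ n2 τ (c - x) < 1 / ((n : ℝ) + 1) := by
      intro n
      obtain ⟨b, hb, hbn⟩ := hxc (1 / ((n : ℝ) + 1)) (by positivity)
      have hbst : star b ∈ S := star_mem hb
      have hb' : (1 / 2 : ℂ) • (b + star b) ∈ S :=
        S.smul_mem (S.add_mem hb hbst) _
      have hbs : star ((1 / 2 : ℂ) • (b + star b)) = (1 / 2 : ℂ) • (b + star b) := by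
        rw [star_smul, star_add, star_star, add_comm (star b) b]
        congr 1
        rw [Complex.star_def]
        simp [hconj2]
      obtain ⟨c, hc, -, hc1, hc2⟩ := trunc h S hcl x _ hx hx1 hb' hbs
      refine ⟨c, hc, hc1, ?_⟩
      have h6 : n2 τ (x - (1 / 2 : ℂ) • (b + star b)) ≤ n2 τ (x - b) := by
        have e : x - (1 / 2 : ℂ) • (b + star b) = (1 / 2 : ℂ) • ((x - b) + star (x - b)) := by
          have e1 : (1 / 2 : ℂ) • ((x - b) + (x - star b))
              = (1 / 2 : ℂ) • (x + x) - (1 / 2 : ℂ) • (b + star b) := by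
            rw [← smul_sub]; congr 1; abel
          have e2 : (1 / 2 : ℂ) • (x + x) = x := by
            rw [← two_smul ℂ x, smul_smul]; norm_num
          rw [star_sub, hx, e1, e2]
        rw [e, n2_smul]
        have h7 := h.n2_add_le (x - b) (star (x - b))
        rw [h.n2_star] at h7
        have h8 : ‖(1 / 2 : ℂ)‖ = 1 / 2 := by simp
        rw [h8]
        linarith
      have h9 : n2 τ (x - c) ^ 2 ≤ n2 τ (x - b) ^ 2 := by
        have h10 := pow_le_pow_left₀ (n2_nonneg τ _) h6 2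
        have h11 := sq_nonneg (n2 τ ((1 / 2 : ℂ) • (b + star b) - c))
        linarith
      have h12 : n2 τ (x - c) ≤ n2 τ (x - b) :=
        (pow_le_pow_iff_left₀ (n2_nonneg _ _) (n2_nonneg _ _) two_ne_zero).1 h9
      rw [n2_sub_comm]
      linarith
    choose c hcS hc1 hcn using hex
    refine hBC c x hcS hc1 ?_
    exact squeeze_zero (fun n => n2_nonneg _ _) (fun n => (hcn n).le)
      tendsto_one_div_add_atTop_nhds_zero_nat
  have hsa : ∀ x : M, star x = x → x ∈ Cl τ (S : Set M) → x ∈ S := by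
    intro x hx hxc
    have hC : 0 < ‖x‖ + 1 := by positivity
    have hc : ((‖x‖ + 1 : ℝ) : ℂ) ≠ 0 := by exact_mod_cast hC.ne'
    have hnc : ‖(((‖x‖ + 1 : ℝ) : ℂ)⁻¹)‖ = (‖x‖ + 1)⁻¹ := by
      rw [norm_inv, Complex.norm_real, Real.norm_of_nonneg hC.le]
    have h1 : (((‖x‖ + 1 : ℝ) : ℂ)⁻¹) • x ∈ S := by
      apply hsa1
      · rw [star_smul, hx]
        congr 1
        rw [Complex.star_def, map_inv₀, Complex.conj_ofReal]
      · rw [norm_smul, hnc, inv_mul_le_iff₀ hC, mul_one]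
        linarith
      · exact Cl_smul S _ hxc
    have h5 := S.smul_mem h1 ((‖x‖ + 1 : ℝ) : ℂ)
    rwa [smul_smul, mul_inv_cancel₀ hc, one_smul] at h5
  intro x hx
  have hxs := Cl_star_ri h S hx
  have h1 : (1 / 2 : ℂ) • (x + star x) ∈ S := by
    apply hsa
    · rw [star_smul, star_add, star_star, add_comm (star x) x]
      congr 1
      rw [Complex.star_def]
      simp [hconj2]
    · exact Cl_smul S _ (Cl_add h S hx hxs)
  have h2 : (-(Complex.I / 2) : ℂ) • (x + (-1 : ℂ) • star x) ∈ S := by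
    apply hsa
    · rw [star_smul, star_add, star_smul, star_star]
      have e1 : star (-(Complex.I / 2) : ℂ) = Complex.I / 2 := by
        rw [Complex.star_def]; simp [hconj2, neg_div]
      have e2 : star (-1 : ℂ) = -1 := by rw [Complex.star_def]; simp
      rw [e1, e2, smul_add, smul_add, smul_smul, smul_smul, add_comm]
      congr 1
      · congr 1; ring
      · congr 1; ring
    · exact Cl_smul S _ (Cl_add h S hx (Cl_smul S _ hxs))
  have h3 := S.add_mem h1 (S.smul_mem h2 Complex.I)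
  have e : (1 / 2 : ℂ) • (x + star x)
      + Complex.I • ((-(Complex.I / 2) : ℂ) • (x + (-1 : ℂ) • star x)) = x := by
    rw [smul_smul]
    have e1 : Complex.I * (-(Complex.I / 2)) = 1 / 2 := by
      linear_combination (-1 / 2 : ℂ) * Complex.I_mul_I
    rw [e1, ← smul_add, neg_one_smul]
    have e2 : x + star x + (x + -star x) = (2 : ℂ) • x := by
      rw [two_smul]; abel
    rw [e2, smul_smul]
    norm_num
  rwa [e] at h3

theorem range_isW {M : Type w} [CStarAlgebra M] {τ : M →ₗ[ℂ] ℂ} (h : TW τ)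
    {H : Type u} [NormedAddCommGroup H] [InnerProductSpace ℂ H] [CompleteSpace H]
    (N : VonNeumannAlgebra H) (t : Elt N → ℂ) (hN : IsIIOneFactor N t) (U : Ultrafilter ℕ)
    (hU : ∀ n, {n} ∉ U) {A : Type u} [Ring A] [StarRing A] [Algebra ℂ A] [StarModule ℂ A]
    (π : (BoundedContinuousFunction ℕ (Elt N)) →⋆ₐ[ℂ] A) (σ : A → ℂ)
    (hπ : IsTracialUltrapower t U π σ) (α : A →⋆ₐ[ℂ] M) (hα : ∀ x, τ (α x) = σ x) :
    IsW τ α.range := by
  have hn : ∀ q : A, n2 σ q = n2 τ (α q) := by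
    intro q
    unfold n2
    rw [← hα, map_mul, map_star]
  apply isW_of_bc h
  intro x y hxS hx1 hxy
  choose q hq using hxS
  have hq' : ∀ n, α (q n) = x n := hq
  -- fast subsequence
  have hex : ∀ n : ℕ, ∃ k, n2 τ (x k - y) < (1 / 2) ^ n / 2 := by
    intro n
    have := (hxy.eventually (gt_mem_nhds (show (0:ℝ) < (1 / 2) ^ n / 2 by positivity))).exists
    exact this
  choose k hk using hex
  obtain ⟨z, hz⟩ := lib_complete N t hN U hU π σ hπ (fun n => q (k n)) (fun n => by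
    apply lib_ball N t hN U hU π σ hπ
    intro b
    rw [hn, hn, map_mul, hq']
    have h1 := (n2_mul_le h (x (k n)) (α b)).1
    have h2 : ‖x (k n)‖ * n2 τ (α b) ≤ 1 * n2 τ (α b) :=
      mul_le_mul_of_nonneg_right (hx1 _) (n2_nonneg _ _)
    linarith) (fun n => by
    rw [hn, map_sub, hq', hq']
    have h1 := h.n2_tri (x (k n)) y (x (k (n + 1)))
    rw [n2_sub_comm τ y] at h1
    have h2 := hk n
    have h3 := hk (n + 1)
    have h4 : ((1:ℝ) / 2) ^ (n + 1) = (1 / 2) ^ n * (1 / 2) := pow_succ _ _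
    have h5 : (0:ℝ) < (1 / 2) ^ n := by positivity
    rw [h4] at h3
    linarith)
  refine ⟨z, ?_⟩
  have hlim : Tendsto (fun n => n2 τ (x (k n) - α z)) atTop (𝓝 0) := by
    refine hz.congr fun n => ?_
    rw [hn, map_sub, hq']
  have hlim2 : Tendsto (fun n : ℕ => ((1:ℝ) / 2) ^ n / 2) atTop (𝓝 0) := by
    have := (tendsto_pow_atTop_nhds_zero_of_lt_one (r := (1:ℝ) / 2) (by norm_num)
      (by norm_num)).div_const 2
    rwa [zero_div] at this
  have h0 : n2 τ (α z - y) = 0 := by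
    refine le_antisymm ?_ (n2_nonneg _ _)
    have h1 : Tendsto (fun n => n2 τ (x (k n) - α z) + (1 / 2) ^ n / 2) atTop (𝓝 0) := by
      have := hlim.add hlim2
      rwa [add_zero] at this
    refine ge_of_tendsto h1 (Eventually.of_forall fun n => ?_)
    have h2 := h.n2_tri (α z) (x (k n)) y
    rw [n2_sub_comm τ (α z) (x (k n))] at h2
    have h3 := hk n
    linarith
  exact sub_eq_zero.mp (h.eq_zero h0)

end Pool.Agent.H467F
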