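import Pool.Agent.Helper467.FP.Defs
import Pool.Agent.Helper467.FP.P_n2_mul_le
import Pool.Agent.Helper467.FP.P_tau_bounds
import Pool.Agent.Helper467.FP.P_lib_ball

set_option autoImplicit false

open scoped ComplexOrder Topology InnerProductSpace
open Filter

namespace Pool.Agent.H467F

universe u v w

variable {M : Type u} [CStarAlgebra M] {τ : M →ₗ[ℂ] ℂ}

theorem satu_mem {A : Type u} {M : Type w} [Ring A] [StarRing A] [Algebra ℂ A] [StarModule ℂ A]
    [CStarAlgebra M] {α : A →⋆ₐ[ℂ] M} {y : M} (hy : y ∈ α.range) : ∃ a, α a = y := by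
  obtain ⟨a, ha⟩ := hy
  exact ⟨a, ha⟩

theorem satu_ge (U : Ultrafilter ℕ) (hU : ∀ n, {n} ∉ U) (n : ℕ) : ∀ᶠ k in (U : Filter ℕ), n ≤ k := by
  induction n with
  | zero => exact Filter.Eventually.of_forall fun k => Nat.zero_le k
  | succ n ih =>
    have h1 : ({n} : Set ℕ)ᶜ ∈ U := Ultrafilter.compl_mem_iff_notMem.2 (hU n)
    have h2 : ∀ᶠ k in (U : Filter ℕ), k ∈ ({n} : Set ℕ)ᶜ := h1
    filter_upwards [ih, h2] with k h3 h4
    have : k ≠ n := h4
    omega

theorem satu_pow (n : ℕ) : ((1 : ℝ) / 2) ^ n ≤ 1 / ((n : ℝ) + 1) := by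
  have h1 : (n : ℝ) + 1 ≤ 2 ^ n := by
    have := @Nat.lt_two_pow_self n
    exact_mod_cast this
  rw [one_div_pow]
  exact one_div_le_one_div_of_le (by positivity) h1

theorem sat_ultra {M : Type w} [CStarAlgebra M] {τ : M →ₗ[ℂ] ℂ} (h : TW τ)
    {H : Type u} [NormedAddCommGroup H] [InnerProductSpace ℂ H] [CompleteSpace H]
    (N : VonNeumannAlgebra H) (t : Elt N → ℂ) (hN : IsIIOneFactor N t) (U : Ultrafilter ℕ)
    (hU : ∀ n, {n} ∉ U) {A : Type u} [Ring A] [StarRing A] [Algebra ℂ A] [StarModule ℂ A]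
    (π : (BoundedContinuousFunction ℕ (Elt N)) →⋆ₐ[ℂ] A) (σ : A → ℂ)
    (hπ : IsTracialUltrapower t U π σ) (α : A →⋆ₐ[ℂ] M) (hα : ∀ x, τ (α x) = σ x) :
    Sat τ α.range := by
  intro s x y hs hx hy hyb hyn hcomm hort
  have hn2 : ∀ c : A, n2 σ c = n2 τ (α c) := by
    intro c
    unfold n2
    rw [← map_star, ← map_mul, hα]
  have hs' : ∀ n, ∃ c : BoundedContinuousFunction ℕ (Elt N), α (π c) = s n := by
    intro n
    obtain ⟨a, ha⟩ := satu_mem (hs n)
    obtain ⟨c, rfl⟩ := hπ.surj a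
    exact ⟨c, ha⟩
  have hx' : ∀ n, ∃ c : BoundedContinuousFunction ℕ (Elt N), α (π c) = x n := by
    intro n
    obtain ⟨a, ha⟩ := satu_mem (hx n)
    obtain ⟨c, rfl⟩ := hπ.surj a
    exact ⟨c, ha⟩
  have hy' : ∀ n, ∃ c : BoundedContinuousFunction ℕ (Elt N), (∀ k, ‖c k‖ ≤ 1) ∧ α (π c) = y n := by
    intro n
    obtain ⟨a, ha⟩ := satu_mem (hy n)
    obtain ⟨c, hc1, hc2⟩ := lib_ball N t hN U hU π σ hπ a (by
      intro b
      rw [hn2, hn2, map_mul, ha]
      refine ((n2_mul_le h (y n) (α b)).1).trans ?_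
      exact mul_le_of_le_one_left (n2_nonneg _ _) (hyb n))
    exact ⟨c, hc1, by rw [hc2, ha]⟩
  choose S hS using hs'
  choose X hX using hx'
  choose Y hYb hY using hy'
  have T : ∀ c d : BoundedContinuousFunction ℕ (Elt N),
      Tendsto (fun k => t (star (c k) * d k)) U (𝓝 (τ (star (α (π c)) * α (π d)))) := by
    intro c d
    have h1 := hπ.trace (star c * d)
    rw [← hα, map_mul, map_mul, map_star, map_star] at h1
    exact h1
  have hone : ∀ z : M, n2 τ z = 1 → τ (star z * z) = 1 := by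
    intro z hz
    rw [h.n2_sq', hz]
    simp
  let P : ℕ → ℕ → Prop := fun k n =>
    ‖t (star (Y n k) * Y n k) - 1‖ ≤ 1 / ((n : ℝ) + 1) ∧
    (∀ l ∈ Finset.range n, ‖t (star ((Y n * S l - S l * Y n) k) * (Y n * S l - S l * Y n) k)‖ ≤
      1 / ((n : ℝ) + 1)) ∧
    (∀ m ∈ Finset.range n, ‖t (star (Y n k) * X m k)‖ ≤ 2 / ((n : ℝ) + 1))
  have hP : ∀ n, ∀ᶠ k in (U : Filter ℕ), P k n := by
    intro n
    have hpos : (0 : ℝ) < 1 / ((n : ℝ) + 1) := by positivity
    have e1 : ∀ᶠ k in (U : Filter ℕ), ‖t (star (Y n k) * Y n k) - 1‖ ≤ 1 / ((n : ℝ) + 1) := by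
      have h1 := T (Y n) (Y n)
      rw [hY, hone _ (hyn n)] at h1
      have h2 := (h1.sub_const 1).norm
      rw [sub_self, norm_zero] at h2
      exact h2.eventually_le_const hpos
    have e2 : ∀ᶠ k in (U : Filter ℕ), ∀ l ∈ Finset.range n,
        ‖t (star ((Y n * S l - S l * Y n) k) * (Y n * S l - S l * Y n) k)‖ ≤ 1 / ((n : ℝ) + 1) := by
      rw [Filter.eventually_all_finset]
      intro l hl
      have h1 := T (Y n * S l - S l * Y n) (Y n * S l - S l * Y n)
      have h0 : α (π (Y n * S l - S l * Y n)) = 0 := by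
        rw [map_sub, map_sub, map_mul, map_mul, map_mul, map_mul, hY, hS,
          hcomm n l (Finset.mem_range.1 hl), sub_self]
      rw [h0, mul_zero, map_zero] at h1
      have h2 := h1.norm
      rw [norm_zero] at h2
      exact h2.eventually_le_const hpos
    have e3 : ∀ᶠ k in (U : Filter ℕ), ∀ m ∈ Finset.range n,
        ‖t (star (Y n k) * X m k)‖ ≤ 2 / ((n : ℝ) + 1) := by
      rw [Filter.eventually_all_finset]
      intro m hm
      have h1 := (T (Y n) (X m)).norm
      rw [hY, hX] at h1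
      refine h1.eventually_le_const ?_
      refine (hort n m (Finset.mem_range.1 hm)).trans_lt ?_
      refine (satu_pow n).trans_lt ?_
      rw [div_lt_div_iff_of_pos_right (by positivity)]
      norm_num
    filter_upwards [e1, e2, e3] with k k1 k2 k3
    exact ⟨k1, k2, k3⟩
  classical
  let μ : ℕ → ℕ := fun k => Nat.findGreatest (P k) k
  have hμ : ∀ n, ∀ᶠ k in (U : Filter ℕ), n ≤ μ k ∧ P k (μ k) := by
    intro n
    filter_upwards [satu_ge U hU n, hP n] with k k1 k2
    exact ⟨Nat.le_findGreatest k1 k2, Nat.findGreatest_spec k1 k2⟩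
  let Z : BoundedContinuousFunction ℕ (Elt N) :=
    BoundedContinuousFunction.ofNormedAddCommGroup (fun k => Y (μ k) k)
      continuous_of_discreteTopology 1 (fun k => hYb (μ k) k)
  have hZ : ∀ k, Z k = Y (μ k) k := fun k => rfl
  -- limits along `U`
  have hlim : ∀ (f : ℕ → ℂ) (L : ℂ) (m : ℕ),
      (∀ k, m < μ k → P k (μ k) → ‖f k - L‖ ≤ 2 / ((μ k : ℝ) + 1)) → Tendsto f U (𝓝 L) := by
    intro f L m hf
    rw [tendsto_iff_norm_sub_tendsto_zero]
    rw [Metric.tendsto_nhds]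
    intro ε hε
    obtain ⟨n, hn⟩ := exists_nat_gt (2 / ε)
    filter_upwards [hμ (max n (m + 1))] with k hk
    have k1 : n ≤ μ k := (le_max_left _ _).trans hk.1
    have k2 : m < μ k := (le_max_right n (m + 1)).trans hk.1
    have k3 := hf k k2 hk.2
    rw [Real.dist_eq, sub_zero, abs_of_nonneg (norm_nonneg _)]
    refine k3.trans_lt ?_
    rw [div_lt_iff₀ (by positivity)]
    have k4 : (n : ℝ) ≤ μ k := by exact_mod_cast k1
    rw [div_lt_iff₀ hε] at hn
    nlinarith
  refine ⟨α (π Z), ⟨π Z, rfl⟩, ?_, ?_, ?_⟩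
  · have h1 : Tendsto (fun k => t (star (Z k) * Z k)) U (𝓝 1) := by
      refine hlim _ _ 0 ?_
      intro k _ hk
      rw [hZ]
      refine hk.1.trans ?_
      rw [div_le_div_iff_of_pos_right (by positivity)]
      norm_num
    have h2 := tendsto_nhds_unique (T Z Z) h1
    have h3 : n2 τ (α (π Z)) ^ 2 = 1 := by
      rw [h.n2_sq, h2]
      rfl
    exact (pow_eq_one_iff_of_nonneg (n2_nonneg _ _) two_ne_zero).1 h3
  · intro l
    have h1 : Tendsto (fun k => t (star ((Z * S l - S l * Z) k) * (Z * S l - S l * Z) k)) U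
        (𝓝 0) := by
      refine hlim _ _ l ?_
      intro k hk1 hk
      have h2 := hk.2.1 l (Finset.mem_range.2 hk1)
      rw [sub_zero]
      refine le_trans (le_of_eq ?_) (h2.trans ?_)
      · rfl
      · rw [div_le_div_iff_of_pos_right (by positivity)]
        norm_num
    have h2 := tendsto_nhds_unique (T _ _) h1
    have h3 := h.faithful _ h2
    rw [map_sub, map_sub, map_mul, map_mul, map_mul, map_mul, hS] at h3
    exact sub_eq_zero.1 h3
  · intro m
    have h1 : Tendsto (fun k => t (star (Z k) * X m k)) U (𝓝 0) := by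
      refine hlim _ _ m ?_
      intro k hk1 hk
      have h2 := hk.2.2 m (Finset.mem_range.2 hk1)
      rw [sub_zero, hZ]
      exact h2
    have h2 := tendsto_nhds_unique (T Z (X m)) h1
    rw [hX] at h2
    exact h2

end Pool.Agent.H467F
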