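import Pool.Agent.Helper467.FP.Defs
import Pool.Agent.Helper467.FP.P_tau_bounds
import Pool.Agent.Helper467.FP.P_lib_center
import Pool.Agent.Helper467.FP.P_range_isW
import Pool.Agent.Helper467.FP.P_dya_IIone
import Pool.Agent.Helper467.FP.P_sat_ultra

set_option autoImplicit false

open scoped ComplexOrder Topology InnerProductSpace
open Filter

namespace Pool.Agent.H467F

universe u v w

variable {M : Type u} [CStarAlgebra M] {τ : M →ₗ[ℂ] ℂ}

theorem good_ultra {M : Type w} [CStarAlgebra M] {τ : M →ₗ[ℂ] ℂ} (h : TW τ)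
    {H : Type u} [NormedAddCommGroup H] [InnerProductSpace ℂ H] [CompleteSpace H]
    (N : VonNeumannAlgebra H) (t : Elt N → ℂ) (hN : IsIIOneFactor N t) (U : Ultrafilter ℕ)
    (hU : ∀ n, {n} ∉ U) {A : Type u} [Ring A] [StarRing A] [Algebra ℂ A] [StarModule ℂ A]
    (π : (BoundedContinuousFunction ℕ (Elt N)) →⋆ₐ[ℂ] A) (σ : A → ℂ)
    (hπ : IsTracialUltrapower t U π σ) (α : A →⋆ₐ[ℂ] M) (hα : ∀ x, τ (α x) = σ x) :
    Good τ α.range := by
  have t0 : t 0 = 0 := by
    obtain ⟨ξ, _, h2⟩ := hN.normal
    rw [h2]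
    simp
  have inj : Function.Injective α := by
    rw [injective_iff_map_eq_zero]
    intro a ha
    obtain ⟨w, rfl⟩ := hπ.surj a
    rw [hπ.ker]
    have h1 := hπ.trace (star w * w)
    have h2 : σ (π (star w * w)) = 0 := by
      rw [← hα, map_mul π, map_mul α, ha, mul_zero, map_zero]
    rw [h2] at h1
    exact h1
  refine ⟨range_isW h N t hN U hU π σ hπ α hα, ?_, ?_, sat_ultra h N t hN U hU π σ hπ α hα⟩
  · rintro z ⟨a, rfl⟩ hz
    obtain ⟨c, hc⟩ := lib_center N t hN U hU π σ hπ a (fun x => inj (by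
      have := hz (α x) ⟨x, rfl⟩
      rw [map_mul, map_mul]
      exact this))
    refine ⟨c, ?_⟩
    rw [hc]
    show α (c • (1 : A)) = c • (1 : M)
    rw [map_smul, map_one]
  · obtain ⟨g, hh, hd⟩ := dya_IIone N t hN
    have c1 : ∀ x y : Elt N, α (π (BoundedContinuousFunction.const ℕ (x * y))) =
        α (π (BoundedContinuousFunction.const ℕ x)) *
          α (π (BoundedContinuousFunction.const ℕ y)) := by
      intro x y
      rw [← map_mul, ← map_mul]
      rfl
    have c2 : ∀ x : Elt N, α (π (BoundedContinuousFunction.const ℕ (star x))) =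
        star (α (π (BoundedContinuousFunction.const ℕ x))) := by
      intro x
      rw [← map_star, ← map_star]
      rfl
    have c3 : α (π (BoundedContinuousFunction.const ℕ (1 : Elt N))) = 1 := by
      have : BoundedContinuousFunction.const ℕ (1 : Elt N) = 1 := rfl
      rw [this, map_one, map_one]
    have c4 : ∀ x y : Elt N, α (π (BoundedContinuousFunction.const ℕ (x - y))) =
        α (π (BoundedContinuousFunction.const ℕ x)) -
          α (π (BoundedContinuousFunction.const ℕ y)) := by
      intro x y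
      rw [← map_sub, ← map_sub]
      rfl
    refine ⟨fun k => α (π (BoundedContinuousFunction.const ℕ (g k))),
      fun k => α (π (BoundedContinuousFunction.const ℕ (hh k))), ?_, ?_, ?_, ?_, ?_, ?_, ?_, ?_⟩
    · intro k; exact ⟨_, rfl⟩
    · intro k; exact ⟨_, rfl⟩
    · rw [hd.g_zero, c3]
    · intro k; rw [← c2, hd.g_star]
    · intro k; rw [← c1, hd.g_idem]
    · intro k; rw [← c1, hd.g_le]
    · intro k; rw [← c2, ← c1, hd.h_left]
    · intro k; rw [← c2, ← c1, ← c4, hd.h_right]

end Pool.Agent.H467F
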