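import Pool.Agent.Helper467.FP.Defs
import Pool.Agent.Helper467.FP.P_n2_mul_le
import Pool.Agent.Helper467.FP.P_tau_bounds
import Pool.Agent.Helper467.FP.P_ep
import Pool.Agent.Helper467.FP.P_E_contr
import Pool.Agent.Helper467.FP.P_word_right
import Pool.Agent.Helper467.FP.P_word_left
import Pool.Agent.Helper467.FP.P_mix_word

set_option autoImplicit false

open scoped ComplexOrder Topology InnerProductSpace
open Filter

namespace Pool.Agent.H467F

universe u v w

variable {M : Type u} [CStarAlgebra M] {τ : M →ₗ[ℂ] ℂ}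

theorem mix_ne_E0 {M : Type u} [CStarAlgebra M] {τ : M →ₗ[ℂ] ℂ} {S : StarSubalgebra ℂ M}
    (P : EP τ S) : E τ S (0 : M) = 0 := by
  have := P.smul 0 0
  rwa [zero_smul, zero_smul] at this

theorem mix_ne_gen {M : Type u} [CStarAlgebra M] {τ : M →ₗ[ℂ] ℂ} (h : TW τ) {ι : Type v}
    (S : ι → StarSubalgebra ℂ M) (hf : IsFree τ S) (hW : ∀ i, IsW τ (S i))
    (i j : ι) (hij : j ≠ i) (a : ℕ → M) (ha : ∀ n, a n ∈ S i) (hn : WNull τ a) (y z : M)
    (hy : y ∈ Gen S) (hz : z ∈ Gen S) :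
    Tendsto (fun n => n2 τ (E τ (S j) (y * a n * z))) atTop (𝓝 0) := by
  have P : EP τ (S j) := ep h (S j) (hW j)
  have hy' := word_right h S i y hy
  have hz' := word_left h S i z hz
  clear hy hz
  induction hy' using Submodule.span_induction with
  | mem y hy =>
    obtain ⟨l, a', hl, hi, ha', rfl⟩ := hy
    induction hz' using Submodule.span_induction with
    | mem z hz =>
      obtain ⟨l', b, hl', hi', hb, rfl⟩ := hz
      have e : ∀ n, n2 τ (E τ (S j) (val l * a' * a n * (b * val l'))) =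
          ‖τ ((b * a') * a n)‖ * n2 τ (E τ (S j) (val l * val l')) := by
        intro n
        rw [(mix_word h S hf hW i l l' a' b (a n) hl hl' hi hi' ha' hb (ha n)).1 j hij, n2_smul,
          h.comm (a' * a n) b, ← mul_assoc]
      simp only [e]
      have h1 := (hn.2 (b * a')).norm.mul_const (n2 τ (E τ (S j) (val l * val l')))
      simpa using h1
    | zero =>
      simp only [mul_zero, mix_ne_E0 P, n2_zero]
      exact tendsto_const_nhds
    | add z1 z2 _ _ h1 h2 =>
      refine squeeze_zero (fun n => n2_nonneg _ _) (fun n => ?_) (by simpa using h1.add h2)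
      rw [mul_add, P.add]
      exact h.n2_add_le _ _
    | smul c z _ h1 =>
      have e : ∀ n, n2 τ (E τ (S j) (val l * a' * a n * (c • z))) =
          ‖c‖ * n2 τ (E τ (S j) (val l * a' * a n * z)) := by
        intro n
        rw [mul_smul_comm, P.smul, n2_smul]
      simp only [e]
      simpa using h1.const_mul ‖c‖
  | zero =>
    simp only [zero_mul, mix_ne_E0 P, n2_zero]
    exact tendsto_const_nhds
  | add y1 y2 _ _ h1 h2 =>
    refine squeeze_zero (fun n => n2_nonneg _ _) (fun n => ?_) (by simpa using h1.add h2)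
    rw [add_mul, add_mul, P.add]
    exact h.n2_add_le _ _
  | smul c y _ h1 =>
    have e : ∀ n, n2 τ (E τ (S j) ((c • y) * a n * z)) =
        ‖c‖ * n2 τ (E τ (S j) (y * a n * z)) := by
      intro n
      rw [smul_mul_assoc, smul_mul_assoc, P.smul, n2_smul]
    simp only [e]
    simpa using h1.const_mul ‖c‖

theorem mix_ne {M : Type u} [CStarAlgebra M] {τ : M →ₗ[ℂ] ℂ} (h : TW τ) {ι : Type v}
    (S : ι → StarSubalgebra ℂ M) (hf : IsFree τ S) (hd : Dense2 τ S) (hW : ∀ i, IsW τ (S i))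
    (i j : ι) (hij : j ≠ i) (a : ℕ → M) (ha : ∀ n, a n ∈ S i) (hn : WNull τ a) (y z : M) :
    Tendsto (fun n => n2 τ (E τ (S j) (y * a n * z))) atTop (𝓝 0) := by
  have P : EP τ (S j) := ep h (S j) (hW j)
  obtain ⟨C₀, hC₀⟩ := hn.1
  obtain ⟨C, hC, hCa⟩ : ∃ C : ℝ, 0 < C ∧ ∀ n, ‖a n‖ ≤ C := by
    refine ⟨|C₀| + 1, by positivity, fun n => ?_⟩
    have := hC₀ n
    have := le_abs_self C₀
    linarith
  rw [Metric.tendsto_atTop]
  intro ε hε
  obtain ⟨y0, hy0, hy0'⟩ := hd y (ε / (3 * C * (‖z‖ + 1))) (by positivity)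
  obtain ⟨z0, hz0, hz0'⟩ := hd z (ε / (3 * C * (‖y0‖ + 1))) (by positivity)
  obtain ⟨N, hN⟩ := (Metric.tendsto_atTop.1
    (mix_ne_gen h S hf hW i j hij a ha hn y0 z0 hy0 hz0)) (ε / 3) (by positivity)
  refine ⟨N, fun n hnN => ?_⟩
  have h0 := hN n hnN
  rw [Real.dist_eq, sub_zero, abs_of_nonneg (n2_nonneg _ _)] at h0 ⊢
  have e : y * a n * z = (y0 * a n * z0 + (y - y0) * a n * z) + y0 * a n * (z - z0) := by
    noncomm_ring
  have h1 : n2 τ (E τ (S j) ((y - y0) * a n * z)) < ε / 3 := by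
    have k1 := P.n2_le ((y - y0) * a n * z)
    have k2 := (n2_mul_le h z ((y - y0) * a n)).2
    have k3 := (n2_mul_le h (a n) (y - y0)).2
    have k4 : n2 τ (y - y0) * ‖a n‖ * ‖z‖ ≤ n2 τ (y - y0) * C * (‖z‖ + 1) := by
      have := hCa n
      have := n2_nonneg τ (y - y0)
      gcongr
      linarith
    have k5 : n2 τ (y - y0) * (3 * C * (‖z‖ + 1)) < ε := by
      rwa [lt_div_iff₀ (by positivity)] at hy0'
    have k6 : n2 τ ((y - y0) * a n) * ‖z‖ ≤ n2 τ (y - y0) * ‖a n‖ * ‖z‖ :=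
      mul_le_mul_of_nonneg_right k3 (norm_nonneg _)
    linarith
  have h2 : n2 τ (E τ (S j) (y0 * a n * (z - z0))) < ε / 3 := by
    have k1 := P.n2_le (y0 * a n * (z - z0))
    have k2 := (n2_mul_le h (y0 * a n) (z - z0)).1
    have k3 : ‖y0 * a n‖ ≤ (‖y0‖ + 1) * C := by
      refine (norm_mul_le _ _).trans ?_
      have := hCa n
      gcongr
      linarith
    have k5 : n2 τ (z - z0) * (3 * C * (‖y0‖ + 1)) < ε := by
      rwa [lt_div_iff₀ (by positivity)] at hz0'
    have k6 : ‖y0 * a n‖ * n2 τ (z - z0) ≤ (‖y0‖ + 1) * C * n2 τ (z - z0) :=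
      mul_le_mul_of_nonneg_right k3 (n2_nonneg _ _)
    linarith
  rw [e, P.add, P.add]
  have h3 := h.n2_add_le (E τ (S j) (y0 * a n * z0) + E τ (S j) ((y - y0) * a n * z))
    (E τ (S j) (y0 * a n * (z - z0)))
  have h4 := h.n2_add_le (E τ (S j) (y0 * a n * z0)) (E τ (S j) ((y - y0) * a n * z))
  linarith

end Pool.Agent.H467F
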