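import Pool.Agent.Helper467.FP.Defs
import Pool.Agent.Helper467.FP.P_n2_mul_le
import Pool.Agent.Helper467.FP.P_tau_bounds
import Pool.Agent.Helper467.FP.P_ep
import Pool.Agent.Helper467.FP.P_wnull_corner
import Pool.Agent.Helper467.FP.P_E_contr
import Pool.Agent.Helper467.FP.P_mix_ne
import Pool.Agent.Helper467.FP.P_mix_eq

set_option autoImplicit false

open scoped ComplexOrder Topology InnerProductSpace
open Filter

namespace Pool.Agent.H467F

universe u v w

variable {M : Type u} [CStarAlgebra M] {τ : M →ₗ[ℂ] ℂ}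

theorem malnormal {M : Type u} [CStarAlgebra M] {τ : M →ₗ[ℂ] ℂ} (h : TW τ) {ι : Type v}
    (S : ι → StarSubalgebra ℂ M) (hf : IsFree τ S) (hd : Dense2 τ S) (hW : ∀ i, IsW τ (S i))
    (i j : ι) (g hh : ℕ → M) (hD : Dya (S i) g hh) (x : M) (hx : star x * x = 1)
    (hx' : x * star x = 1) (hc : ∀ s ∈ S i, star x * s * x ∈ S j) : i = j ∧ x ∈ S i := by
  haveI : Nontrivial M := by
    refine ⟨⟨1, 0, ?_⟩⟩
    intro h0
    have h1 := h.one
    rw [h0, map_zero] at h1
    exact zero_ne_one h1
  have hnorm : ∀ u : M, star u * u = 1 → ‖u‖ ≤ 1 := by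
    intro u hu
    have h1 := CStarRing.norm_star_mul_self (x := u)
    rw [hu, CStarRing.norm_one] at h1
    nlinarith [norm_nonneg u]
  have hn2 : ∀ u : M, star u * u = 1 → n2 τ u = 1 := by
    intro u hu
    unfold n2
    rw [hu, h.one]
    simp
  obtain ⟨a, ha, hw⟩ := wnull_corner h (S i) g hh hD 0
  rw [hD.g_zero] at ha
  have hmem : ∀ n, a n ∈ S i := fun n => (ha n).1
  have hy1 : ∀ n, star (star x * a n * x) * (star x * a n * x) = 1 := by
    intro n
    have h1 := (ha n).2.1
    calc star (star x * a n * x) * (star x * a n * x)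
        = star x * (star (a n) * (x * star x) * a n) * x := by
          simp only [star_mul, star_star, mul_assoc]
      _ = star x * (star (a n) * a n) * x := by rw [hx', mul_one]
      _ = 1 := by rw [h1, mul_one, hx]
  have hyn : ∀ n, n2 τ (star x * a n * x) = 1 := fun n => hn2 _ (hy1 n)
  have hyS : ∀ n, star x * a n * x ∈ S j := fun n => hc _ (hmem n)
  have hEP := ep h (S j) (hW j)
  have hEy : ∀ n, E τ (S j) (star x * a n * x) = star x * a n * x := fun n =>
    hEP.of_mem _ (hyS n)
  by_cases hij : j = i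
  · subst hij
    refine ⟨rfl, ?_⟩
    have hm := mix_eq h S hf hd hW j a hmem hw (star x) x
    have hbound : ∀ n, 1 - n2 τ (E τ (S j) x) ≤
        n2 τ (E τ (S j) (star x * a n * x) - E τ (S j) (star x) * a n * E τ (S j) x) := by
      intro n
      rw [hEy n]
      have h1 := h.n2_add_le (star x * a n * x - E τ (S j) (star x) * a n * E τ (S j) x)
        (E τ (S j) (star x) * a n * E τ (S j) x)
      rw [sub_add_cancel, hyn n] at h1
      have h2 : n2 τ (E τ (S j) (star x) * a n * E τ (S j) x) ≤ n2 τ (E τ (S j) x) := by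
        rw [mul_assoc]
        have h3 := (n2_mul_le h (E τ (S j) (star x)) (a n * E τ (S j) x)).1
        have h4 := (n2_mul_le h (a n) (E τ (S j) x)).1
        have h5 : ‖E τ (S j) (star x)‖ ≤ 1 := by
          have h6 := E_contr h (S j) (hW j) (star x)
          rw [norm_star] at h6
          exact h6.trans (hnorm x hx)
        have h7 : ‖a n‖ ≤ 1 := hnorm _ (ha n).2.1
        have h8 : 0 ≤ n2 τ (E τ (S j) x) := n2_nonneg _ _
        have h9 : 0 ≤ n2 τ (a n * E τ (S j) x) := n2_nonneg _ _
        calc n2 τ (E τ (S j) (star x) * (a n * E τ (S j) x))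
            ≤ ‖E τ (S j) (star x)‖ * n2 τ (a n * E τ (S j) x) := h3
          _ ≤ 1 * n2 τ (a n * E τ (S j) x) := by gcongr
          _ ≤ 1 * (‖a n‖ * n2 τ (E τ (S j) x)) := by gcongr
          _ ≤ 1 * (1 * n2 τ (E τ (S j) x)) := by gcongr
          _ = n2 τ (E τ (S j) x) := by ring
      linarith
    have hlim : 1 - n2 τ (E τ (S j) x) ≤ 0 := ge_of_tendsto' hm hbound
    have hp := hEP.pyth x
    rw [hn2 x hx] at hp
    have he : n2 τ (x - E τ (S j) x) = 0 := by
      have h0 : 0 ≤ n2 τ (x - E τ (S j) x) := n2_nonneg _ _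
      have h1 : 0 ≤ n2 τ (E τ (S j) x) := n2_nonneg _ _
      nlinarith
    have hz := h.eq_zero he
    rw [sub_eq_zero] at hz
    rw [hz]
    exact hEP.mem x
  · exfalso
    have hm := mix_ne h S hf hd hW i j hij a hmem hw (star x) x
    have hconst : (fun n => n2 τ (E τ (S j) (star x * a n * x))) = fun _ => (1:ℝ) := by
      funext n
      rw [hEy n, hyn n]
    rw [hconst] at hm
    have := tendsto_nhds_unique hm tendsto_const_nhds
    norm_num at this

end Pool.Agent.H467F
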