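import Pool.Agent.Helper467.FP.Defs
import Pool.Agent.Helper467.FP.P_malnormal
import Pool.Agent.Helper467.FP.P_conj_one

set_option autoImplicit false

open scoped ComplexOrder Topology InnerProductSpace
open Filter

namespace Pool.Agent.H467F

universe u v w

variable {M : Type u} [CStarAlgebra M] {τ : M →ₗ[ℂ] ℂ}

theorem main_aux {M : Type u} [CStarAlgebra M] {τ : M →ₗ[ℂ] ℂ} (h : TW τ) {I J : Type}
    (S : I → StarSubalgebra ℂ M) (R : J → StarSubalgebra ℂ M) (hS : ∀ i, Good τ (S i))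
    (fS : IsFree τ S) (dS : Dense2 τ S) (i : I) (j : J) (i' : I) (x y : M)
    (hx : star x * x = 1) (hx' : x * star x = 1) (hxc : ∀ s ∈ S i, star x * s * x ∈ R j)
    (hy : star y * y = 1) (hy' : y * star y = 1) (hyc : ∀ r ∈ R j, star y * r * y ∈ S i') :
    i = i' ∧ x * y ∈ S i := by
  obtain ⟨g, hh, hD⟩ := (hS i).dya
  refine malnormal h S fS dS (fun i => (hS i).closed) i i' g hh hD (x * y) ?_ ?_ ?_
  · calc star (x * y) * (x * y) = star y * (star x * x) * y := by rw [star_mul]; noncomm_ring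
      _ = 1 := by rw [hx, mul_one, hy]
  · calc x * y * star (x * y) = x * (y * star y) * star x := by rw [star_mul]; noncomm_ring
      _ = 1 := by rw [hy', mul_one, hx']
  · intro s hs
    have e : star (x * y) * s * (x * y) = star y * (star x * s * x) * y := by
      rw [star_mul]; noncomm_ring
    rw [e]
    exact hyc _ (hxc s hs)

theorem main {M : Type u} [CStarAlgebra M] {τ : M →ₗ[ℂ] ℂ} (h : TW τ) {I J : Type}
    [Fintype I] [Fintype J] [Nonempty I] [Nonempty J] (S : I → StarSubalgebra ℂ M)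
    (R : J → StarSubalgebra ℂ M) (hS : ∀ i, Good τ (S i)) (hR : ∀ j, Good τ (R j))
    (fS : IsFree τ S) (fR : IsFree τ R) (dS : Dense2 τ S) (dR : Dense2 τ R) :
    ∃ e : I ≃ J, ∀ i, ∃ x : M, star x * x = 1 ∧ x * star x = 1 ∧
      ∀ s, s ∈ S i ↔ star x * s * x ∈ R (e i) := by
  choose σ x hx hx' hxc using fun i => conj_one h S R hS hR fS fR dS dR i
  choose ρ y hy hy' hyc using fun j => conj_one h R S hR hS fR fS dR dS j
  have h1 : ∀ i, i = ρ (σ i) ∧ x i * y (σ i) ∈ S i := fun i =>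
    main_aux h S R hS fS dS i (σ i) (ρ (σ i)) (x i) (y (σ i)) (hx i) (hx' i) (hxc i)
      (hy (σ i)) (hy' (σ i)) (hyc (σ i))
  have h2 : ∀ j, j = σ (ρ j) ∧ y j * x (ρ j) ∈ R j := fun j =>
    main_aux h R S hR fR dR j (ρ j) (σ (ρ j)) (y j) (x (ρ j)) (hy j) (hy' j) (hyc j)
      (hx (ρ j)) (hx' (ρ j)) (hxc (ρ j))
  refine ⟨⟨σ, ρ, fun i => (h1 i).1.symm, fun j => (h2 j).1.symm⟩, fun i =>
    ⟨x i, hx i, hx' i, fun s => ⟨fun hs => hxc i s hs, fun hs => ?_⟩⟩⟩
  have hs' : star (x i) * s * x i ∈ R (σ i) := hs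
  have h3 := hyc (σ i) _ hs'
  rw [← (h1 i).1] at h3
  have hv := (h1 i).2
  have h4 : x i * y (σ i) * (star (y (σ i)) * (star (x i) * s * x i) * y (σ i)) *
      star (x i * y (σ i)) ∈ S i := mul_mem (mul_mem hv h3) (star_mem hv)
  have e : x i * y (σ i) * (star (y (σ i)) * (star (x i) * s * x i) * y (σ i)) *
      star (x i * y (σ i)) = s := by
    calc x i * y (σ i) * (star (y (σ i)) * (star (x i) * s * x i) * y (σ i)) *
        star (x i * y (σ i)) = x i * (y (σ i) * star (y (σ i))) * star (x i) * s *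
          (x i * (y (σ i) * star (y (σ i))) * star (x i)) := by
          rw [star_mul]; noncomm_ring
      _ = s := by rw [hy', mul_one, hx', one_mul, mul_one]
  rw [e] at h4
  exact h4

end Pool.Agent.H467F
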