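import Pool.Agent.Helper467.FP.Defs
import Pool.Agent.Helper467.FP.P_n2_mul_le
import Pool.Agent.Helper467.FP.P_tau_bounds
import Pool.Agent.Helper467.FP.P_exists_lim
import Pool.Agent.Helper467.FP.P_norm_le_of_lim

set_option autoImplicit false

open scoped ComplexOrder Topology InnerProductSpace
open Filter

namespace Pool.Agent.H467F

universe u v w

variable {M : Type u} [CStarAlgebra M] {τ : M →ₗ[ℂ] ℂ}

section te833

attribute [local instance] CStarAlgebra.spectralOrder CStarAlgebra.spectralOrderedRing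

theorem te_nn {M : Type u} [CStarAlgebra M] {τ : M →ₗ[ℂ] ℂ} (h : TW τ) {a : M} (ha : 0 ≤ a) :
    0 ≤ (τ a).re ∧ (τ a).im = 0 := by
  obtain ⟨b, rfl⟩ := CStarAlgebra.nonneg_iff_eq_star_mul_self.1 ha
  exact ⟨h.re_nonneg b, h.im_zero b⟩

theorem te_mono {M : Type u} [CStarAlgebra M] {τ : M →ₗ[ℂ] ℂ} (h : TW τ) {a b : M} (hab : a ≤ b) :
    (τ a).re ≤ (τ b).re := by
  have h1 := (te_nn h (sub_nonneg.2 hab)).1
  rw [map_sub, Complex.sub_re] at h1
  linarith

theorem te_eq_zero {M : Type u} [CStarAlgebra M] {τ : M →ₗ[ℂ] ℂ} (h : TW τ) {a : M} (ha : 0 ≤ a)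
    (h0 : (τ a).re ≤ 0) : a = 0 := by
  obtain ⟨b, rfl⟩ := CStarAlgebra.nonneg_iff_eq_star_mul_self.1 ha
  have h1 := h.re_nonneg b
  have h2 := h.im_zero b
  have h3 : τ (star b * b) = 0 := Complex.ext (le_antisymm h0 h1) h2
  rw [h.faithful b h3]
  simp

theorem te_unique {M : Type u} [CStarAlgebra M] {τ : M →ₗ[ℂ] ℂ} (h : TW τ) {y : ℕ → M} {a b : M}
    (ha : Tendsto (fun n => n2 τ (y n - a)) atTop (𝓝 0))
    (hb : Tendsto (fun n => n2 τ (y n - b)) atTop (𝓝 0)) : a = b := by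
  have h1 : ∀ n, n2 τ (a - b) ≤ n2 τ (y n - a) + n2 τ (y n - b) := by
    intro n
    have := h.n2_tri a (y n) b
    rwa [n2_sub_comm τ a (y n)] at this
  have h2 : Tendsto (fun n => n2 τ (y n - a) + n2 τ (y n - b)) atTop (𝓝 0) := by
    simpa using ha.add hb
  have h3 : n2 τ (a - b) ≤ 0 := ge_of_tendsto' h2 h1
  have h4 : n2 τ (a - b) = 0 := le_antisymm h3 (n2_nonneg _ _)
  exact sub_eq_zero.1 (h.eq_zero h4)

theorem te_cone {M : Type u} [CStarAlgebra M] {τ : M →ₗ[ℂ] ℂ} (h : TW τ) {y : ℕ → M} {a : M}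
    (hy : ∀ n, 0 ≤ y n) (hl : Tendsto (fun n => n2 τ (y n - a)) atTop (𝓝 0)) : 0 ≤ a := by
  have hsa : IsSelfAdjoint a := by
    have h1 : Tendsto (fun n => n2 τ (y n - star a)) atTop (𝓝 0) := by
      have h2 : ∀ n, n2 τ (y n - star a) = n2 τ (y n - a) := by
        intro n
        rw [← h.n2_star (y n - a), star_sub, (IsSelfAdjoint.of_nonneg (hy n)).star_eq]
      simpa only [h2] using hl
    exact (te_unique h h1 hl)
  obtain ⟨q, hq⟩ : ∃ q, q = a⁻ := ⟨_, rfl⟩
  obtain ⟨p, hp⟩ : ∃ p, p = a⁺ := ⟨_, rfl⟩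
  have hq0 : 0 ≤ q := by rw [hq]; exact CFC.negPart_nonneg a
  have hp0 : 0 ≤ p := by rw [hp]; exact CFC.posPart_nonneg a
  have hpq : p - q = a := by rw [hp, hq]; exact CFC.posPart_sub_negPart a hsa
  have hqp : q * p = 0 := by rw [hp, hq]; exact CFC.negPart_mul_posPart a
  have hqs : star q = q := (IsSelfAdjoint.of_nonneg hq0).star_eq
  have hqaq : q * a * q = -(q * q * q) := by
    rw [← hpq, mul_sub, sub_mul, hqp, zero_mul, zero_sub]
  have hlim : Tendsto (fun n => (τ (q * y n * q)).re) atTop (𝓝 (τ (q * a * q)).re) := by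
    rw [tendsto_iff_dist_tendsto_zero]
    have hb : ∀ n, dist (τ (q * y n * q)).re (τ (q * a * q)).re ≤
        n2 τ (q * q) * n2 τ (y n - a) := by
      intro n
      rw [Real.dist_eq, ← Complex.sub_re, ← map_sub]
      refine (Complex.abs_re_le_norm _).trans ?_
      have e1 : q * y n * q - q * a * q = q * (y n - a) * q := by noncomm_ring
      rw [e1, h.comm, ← mul_assoc]
      exact h.cauchy' _ _
    refine squeeze_zero (fun n => dist_nonneg) hb ?_
    simpa using hl.const_mul (n2 τ (q * q))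
  have hge : 0 ≤ (τ (q * a * q)).re := by
    refine ge_of_tendsto' hlim fun n => ?_
    have h1 : 0 ≤ q * y n * q := by
      have := star_left_conjugate_nonneg (hy n) q
      rwa [hqs] at this
    exact (te_nn h h1).1
  rw [hqaq, map_neg, Complex.neg_re] at hge
  have hqqq : 0 ≤ q * q * q := by
    have := star_left_conjugate_nonneg hq0 q
    rwa [hqs] at this
  have h3 := te_eq_zero h hqqq (by linarith)
  have hq2 : q = 0 := by
    obtain ⟨s, hs⟩ := CStarAlgebra.nonneg_iff_eq_star_mul_self.1 hq0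
    have h4 : star (s * q) * (s * q) = 0 := by
      rw [star_mul, hqs, mul_assoc, ← mul_assoc (star s), ← hs, ← mul_assoc]
      exact h3
    have h5 : s * q = 0 := (CStarRing.star_mul_self_eq_zero_iff _).1 h4
    have h6 : star q * q = 0 := by
      rw [hqs]
      nth_rewrite 1 [hs]
      rw [mul_assoc, h5, mul_zero]
    exact (CStarRing.star_mul_self_eq_zero_iff _).1 h6
  rw [← hpq, hq2, sub_zero]
  exact hp0

theorem te_incr {M : Type u} [CStarAlgebra M] {τ : M →ₗ[ℂ] ℂ} (h : TW τ) (c : ℕ → M)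
    (h0 : ∀ m, 0 ≤ c m) (h1 : ∀ m, c m ≤ 1) (hm : Monotone c) :
    ∃ y, Tendsto (fun m => n2 τ (c m - y)) atTop (𝓝 0) := by
  have hcau : CauchySeq (fun m => (τ (c m)).re) := by
    have hmono : Monotone (fun m => (τ (c m)).re) := fun a b hab => te_mono h (hm hab)
    have hbdd : BddAbove (Set.range fun m => (τ (c m)).re) := by
      refine ⟨(τ 1).re, ?_⟩
      rintro _ ⟨m, rfl⟩
      exact te_mono h (h1 m)
    exact (tendsto_atTop_ciSup hmono hbdd).cauchySeq
  have key : ∀ m n, n ≤ m → n2 τ (c m - c n) ^ 2 ≤ (τ (c m)).re - (τ (c n)).re := by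
    intro m n hmn
    obtain ⟨d, hd⟩ : ∃ d, d = c m - c n := ⟨_, rfl⟩
    have hd0 : 0 ≤ d := by rw [hd]; exact sub_nonneg.2 (hm hmn)
    have hd1 : 0 ≤ 1 - d := by
      have e : 1 - d = (1 - c m) + c n := by rw [hd]; abel
      rw [e]
      exact add_nonneg (sub_nonneg.2 (h1 m)) (h0 n)
    have hds : star d = d := (IsSelfAdjoint.of_nonneg hd0).star_eq
    have hds1 : star (1 - d) = 1 - d := (IsSelfAdjoint.of_nonneg hd1).star_eq
    have hdd : d * d ≤ d := by
      rw [← sub_nonneg]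
      have e : d - d * d = (1 - d) * d * (1 - d) + d * (1 - d) * d := by noncomm_ring
      rw [e]
      have a1 := star_left_conjugate_nonneg hd0 (1 - d)
      have a2 := star_left_conjugate_nonneg hd1 d
      rw [hds1] at a1
      rw [hds] at a2
      exact add_nonneg a1 a2
    rw [← hd, h.n2_sq, hds]
    refine (te_mono h hdd).trans (le_of_eq ?_)
    rw [hd, map_sub, Complex.sub_re]
  obtain ⟨y, -, hy⟩ := exists_lim h c 1 (fun n => by
      rw [CStarAlgebra.norm_le_one_iff_of_nonneg (c n) (h0 n)]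
      exact h1 n) (by
      intro ε hε
      obtain ⟨N, hN⟩ := Metric.cauchySeq_iff.1 hcau (ε ^ 2) (by positivity)
      refine ⟨N, ?_⟩
      have hle : ∀ m ≥ N, ∀ n ≥ N, n ≤ m → n2 τ (c m - c n) < ε := by
        intro m hm' n hn' hmn
        have a1 := key m n hmn
        have a2 := hN m hm' n hn'
        rw [Real.dist_eq] at a2
        have a3 := (le_abs_self _).trans_lt a2
        have a4 : n2 τ (c m - c n) ^ 2 < ε ^ 2 := lt_of_le_of_lt a1 a3
        exact lt_of_pow_lt_pow_left₀ 2 hε.le a4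
      intro m hm' n hn'
      rcases le_total n m with hmn | hmn
      · exact hle m hm' n hn' hmn
      · rw [n2_sub_comm]
        exact hle n hn' m hm' hmn)
  exact ⟨y, hy⟩

theorem te_decr {M : Type u} [CStarAlgebra M] {τ : M →ₗ[ℂ] ℂ} (h : TW τ) (c : ℕ → M)
    (h0 : ∀ m, 0 ≤ c m) (h1 : ∀ m, c m ≤ 1) (hm : Antitone c) :
    ∃ y, Tendsto (fun m => n2 τ (c m - y)) atTop (𝓝 0) := by
  obtain ⟨y, hy⟩ := te_incr h (fun m => 1 - c m) (fun m => sub_nonneg.2 (h1 m))
    (fun m => sub_le_self _ (h0 m)) (fun a b hab => sub_le_sub_left (hm hab) 1)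
  refine ⟨1 - y, ?_⟩
  have e : ∀ m, n2 τ (c m - (1 - y)) = n2 τ (1 - c m - y) := by
    intro m
    rw [← n2_neg τ (1 - c m - y)]
    congr 1
    abel
  simpa only [e] using hy

theorem te_inv {M : Type u} [CStarAlgebra M] {x V : M} (hx : ‖x‖ ≤ 1) (hV0 : 0 ≤ V)
    (hV1 : V * (1 + star x * x) = 1) (hV2 : (1 + star x * x) * V = 1) :
    star x * x ≤ (1 - V) + (1 - V) := by
  rw [← sub_nonneg]
  obtain ⟨B, hB⟩ : ∃ B, B = star x * x := ⟨_, rfl⟩
  rw [← hB] at hV1 hV2 ⊢
  have hVs : star V = V := (IsSelfAdjoint.of_nonneg hV0).star_eq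
  have e1 : (1 + B) * ((1 - V) + (1 - V) - B) * (1 + B) = B - B * B * B := by
    have e2 : (1 + B) * ((1 - V) + (1 - V) - B) * (1 + B)
        = (1 + B) * (1 + B) + (1 + B) * (1 + B) - ((1 + B) * V) * (1 + B) - ((1 + B) * V) * (1 + B)
          - (1 + B) * B * (1 + B) := by noncomm_ring
    rw [e2, hV2]
    noncomm_ring
  have e3 : (1 - V) + (1 - V) - B = V * (B - B * B * B) * V := by
    rw [← e1]
    have e4 : V * ((1 + B) * ((1 - V) + (1 - V) - B) * (1 + B)) * V
        = (V * (1 + B)) * ((1 - V) + (1 - V) - B) * ((1 + B) * V) := by noncomm_ring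
    rw [e4, hV1, hV2, one_mul, mul_one]
  have e5 : B - B * B * B = star x * (1 - star (x * star x) * (x * star x)) * x := by
    rw [hB, star_mul, star_star]
    noncomm_ring
  have h1 : 0 ≤ 1 - star (x * star x) * (x * star x) := by
    rw [sub_nonneg, ← CStarAlgebra.norm_le_one_iff_of_nonneg _ (star_mul_self_nonneg _),
      CStarRing.norm_star_mul_self, CStarRing.norm_self_mul_star]
    have : 0 ≤ ‖x‖ := norm_nonneg x
    have h2 : ‖x‖ * ‖x‖ ≤ 1 := mul_le_one₀ hx this hx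
    exact mul_le_one₀ h2 (by positivity) h2
  have h2 : 0 ≤ B - B * B * B := by
    rw [e5]
    exact star_left_conjugate_nonneg h1 x
  rw [e3]
  have := star_left_conjugate_nonneg h2 V
  rwa [hVs] at this

theorem te_main {M : Type u} [CStarAlgebra M] {τ τ' : M →ₗ[ℂ] ℂ} (h : TW τ) (h' : TW τ')
    (x : ℕ → M) (hx : ∀ n, ‖x n‖ ≤ 1) (hs : ∀ n, n2 τ (x n) ^ 2 ≤ (1 / 2 : ℝ) ^ n) :
    Tendsto (fun n => n2 τ' (x n)) atTop (𝓝 0) := by
  classical
  let A : ℕ → ℕ → M := fun n m => ∑ k ∈ Finset.Ico n m, star (x k) * x k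
  have hA0 : ∀ n m, 0 ≤ A n m := fun n m => Finset.sum_nonneg fun k _ => star_mul_self_nonneg _
  have hA1 : ∀ n m, 1 ≤ 1 + A n m := fun n m => le_add_of_nonneg_right (hA0 n m)
  have hU : ∀ n m, IsUnit (1 + A n m) := fun n m =>
    CStarAlgebra.isUnit_of_le 1 (hA1 n m) ⟨zero_le_one, isUnit_one⟩
  choose U hUe using hU
  let V : ℕ → ℕ → M := fun n m => ((U n m)⁻¹ : Mˣ)
  have hVl : ∀ n m, V n m * (1 + A n m) = 1 := fun n m => by
    rw [← hUe]; exact Units.inv_mul _
  have hVr : ∀ n m, (1 + A n m) * V n m = 1 := fun n m => by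
    rw [← hUe]; exact Units.mul_inv _
  have hU0 : ∀ n m, (0 : M) ≤ (U n m : M) := fun n m => by
    rw [hUe]; exact zero_le_one.trans (hA1 n m)
  have hV0 : ∀ n m, 0 ≤ V n m := fun n m => CFC.inv_nonneg_of_nonneg _ (hU0 n m)
  have hV1 : ∀ n m, V n m ≤ 1 := fun n m => CStarAlgebra.inv_le_one
    (Units.val_le_val.1 (by rw [Units.val_one, hUe]; exact hA1 n m))
  have hVanti : ∀ n m n' m', A n m ≤ A n' m' → V n' m' ≤ V n m := by
    intro n m n' m' hle
    apply CStarAlgebra.inv_le_inv (hU0 n m)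
    rw [hUe, hUe]
    exact add_le_add_right hle 1
  have hAm : ∀ n, Monotone (A n) := by
    intro n m m' hmm
    apply Finset.sum_le_sum_of_subset_of_nonneg
    · exact Finset.Ico_subset_Ico_right hmm
    · intro k _ _
      exact star_mul_self_nonneg _
  have hAn : ∀ n m, A (n + 1) m ≤ A n m := by
    intro n m
    apply Finset.sum_le_sum_of_subset_of_nonneg
    · exact Finset.Ico_subset_Ico_left (Nat.le_succ n)
    · intro k _ _
      exact star_mul_self_nonneg _
  let c : ℕ → ℕ → M := fun n m => 1 - V n m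
  have hc0 : ∀ n m, 0 ≤ c n m := fun n m => sub_nonneg.2 (hV1 n m)
  have hc1 : ∀ n m, c n m ≤ 1 := fun n m => sub_le_self _ (hV0 n m)
  have hcm : ∀ n, Monotone (c n) := fun n m m' hmm =>
    sub_le_sub_left (hVanti _ _ _ _ (hAm n hmm)) 1
  have hcn : ∀ n m, c (n + 1) m ≤ c n m := fun n m =>
    sub_le_sub_left (hVanti _ _ _ _ (hAn n m)) 1
  have hcA : ∀ n m, c n m ≤ A n m := by
    intro n m
    have e1 : A n m * V n m = 1 - V n m := by
      have := hVr n m
      rw [add_mul, one_mul] at this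
      rw [← this]; abel
    have e : A n m - c n m = A n m * V n m * A n m := by
      have e2 : V n m * A n m = 1 - V n m := by
        have := hVl n m
        rw [mul_add, mul_one] at this
        rw [← this]; abel
      rw [mul_assoc, e2, mul_sub, mul_one, e1]
    rw [← sub_nonneg, e]
    have h1 := star_left_conjugate_nonneg (hV0 n m) (A n m)
    rwa [(IsSelfAdjoint.of_nonneg (hA0 n m)).star_eq] at h1
  have hτA : ∀ n m, (τ (A n m)).re ≤ 2 * (1 / 2 : ℝ) ^ n := by
    intro n m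
    have e1 : (τ (A n m)).re = ∑ k ∈ Finset.Ico n m, n2 τ (x k) ^ 2 := by
      show (τ (∑ k ∈ Finset.Ico n m, star (x k) * x k)).re = _
      rw [map_sum, Complex.re_sum]
      exact Finset.sum_congr rfl fun k _ => (h.n2_sq (x k)).symm
    rw [e1]
    refine (Finset.sum_le_sum fun k _ => hs k).trans ?_
    rcases le_total n m with hnm | hnm
    · rw [geom_sum_Ico' (by norm_num) hnm]
      have : (0 : ℝ) ≤ (1 / 2) ^ m := by positivity
      rw [div_le_iff₀ (by norm_num)]
      linarith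
    · rw [Finset.Ico_eq_empty_of_le hnm]
      simp
  have hτc : ∀ n m, (τ (c n m)).re ≤ 2 * (1 / 2 : ℝ) ^ n := fun n m =>
    (te_mono h (hcA n m)).trans (hτA n m)
  -- the limits
  have hex : ∀ n, ∃ y, Tendsto (fun m => n2 τ (c n m - y)) atTop (𝓝 0) := fun n =>
    te_incr h (c n) (hc0 n) (hc1 n) (hcm n)
  choose C hC using hex
  have hcC : ∀ n m, c n m ≤ C n := by
    intro n m
    rw [← sub_nonneg]
    refine te_cone h (y := fun j => c n (j + m) - c n m) (fun j => sub_nonneg.2 (hcm n (by omega))) ?_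
    have e : ∀ j, n2 τ (c n (j + m) - c n m - (C n - c n m)) = n2 τ (c n (j + m) - C n) := by
      intro j
      congr 1
      abel
    simp only [e]
    exact (tendsto_add_atTop_iff_nat (f := fun j => n2 τ (c n j - C n)) m).2 (hC n)
  have hC0 : ∀ n, 0 ≤ C n := fun n => (hc0 n 0).trans (hcC n 0)
  have hC1 : ∀ n, C n ≤ 1 := by
    intro n
    rw [← sub_nonneg]
    refine te_cone h (y := fun j => 1 - c n j) (fun j => sub_nonneg.2 (hc1 n j)) ?_
    have e : ∀ j, n2 τ (1 - c n j - (1 - C n)) = n2 τ (c n j - C n) := by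
      intro j
      rw [← n2_neg]
      congr 1
      abel
    simp only [e]
    exact hC n
  have hCn : ∀ n, C (n + 1) ≤ C n := by
    intro n
    rw [← sub_nonneg]
    refine te_cone h (y := fun j => C n - c (n + 1) j)
      (fun j => sub_nonneg.2 ((hcn n j).trans (hcC n j))) ?_
    have e : ∀ j, n2 τ (C n - c (n + 1) j - (C n - C (n + 1))) = n2 τ (c (n + 1) j - C (n + 1)) := by
      intro j
      rw [← n2_neg]
      congr 1
      abel
    simp only [e]
    exact hC (n + 1)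
  have hCanti : Antitone C := antitone_nat_of_succ_le hCn
  have hre : ∀ {σ : M →ₗ[ℂ] ℂ} (hσ : TW σ) {y : ℕ → M} {a : M},
      Tendsto (fun n => n2 σ (y n - a)) atTop (𝓝 0) →
      Tendsto (fun n => (σ (y n)).re) atTop (𝓝 (σ a).re) := by
    intro σ hσ y a hya
    rw [tendsto_iff_dist_tendsto_zero]
    refine squeeze_zero (fun n => dist_nonneg) (fun n => ?_) hya
    rw [Real.dist_eq, ← Complex.sub_re, ← map_sub]
    exact (Complex.abs_re_le_norm _).trans ((tau_bounds hσ).1 _)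
  have hτC : ∀ n, (τ (C n)).re ≤ 2 * (1 / 2 : ℝ) ^ n := fun n =>
    le_of_tendsto' (hre h (hC n)) (fun m => hτc n m)
  obtain ⟨z, hz⟩ := te_decr h' C hC0 hC1 hCanti
  have hz0 : 0 ≤ z := te_cone h' hC0 hz
  have hzC : ∀ n, z ≤ C n := by
    intro n
    rw [← sub_nonneg]
    refine te_cone h' (y := fun j => C n - C (j + n)) (fun j => sub_nonneg.2 (hCanti (by omega))) ?_
    have e : ∀ j, n2 τ' (C n - C (j + n) - (C n - z)) = n2 τ' (C (j + n) - z) := by
      intro j
      rw [← n2_neg]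
      congr 1
      abel
    simp only [e]
    exact (tendsto_add_atTop_iff_nat (f := fun j => n2 τ' (C j - z)) n).2 hz
  have hz' : z = 0 := by
    apply te_eq_zero h hz0
    have h1 : ∀ n, (τ z).re ≤ 2 * (1 / 2 : ℝ) ^ n := fun n => (te_mono h (hzC n)).trans (hτC n)
    have h2 : Tendsto (fun n : ℕ => 2 * (1 / 2 : ℝ) ^ n) atTop (𝓝 0) := by
      have := (tendsto_pow_atTop_nhds_zero_of_lt_one (r := (1 / 2 : ℝ)) (by norm_num)
        (by norm_num)).const_mul 2
      simpa using this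
    exact ge_of_tendsto' h2 h1
  have hlim : Tendsto (fun n => (τ' (C n)).re) atTop (𝓝 0) := by
    have := hre h' hz
    rw [hz'] at this
    simpa using this
  have hfin : ∀ n, n2 τ' (x n) ^ 2 ≤ 2 * (τ' (C n)).re := by
    intro n
    have hAn1 : A n (n + 1) = star (x n) * x n := by
      show ∑ k ∈ Finset.Ico n (n + 1), star (x k) * x k = _
      simp
    have e1 := te_inv (hx n) (hV0 n (n + 1)) (by rw [← hAn1]; exact hVl n (n + 1))
      (by rw [← hAn1]; exact hVr n (n + 1))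
    have e2 := te_mono h' e1
    rw [h'.n2_sq]
    refine e2.trans ?_
    rw [map_add, Complex.add_re]
    have e3 := te_mono h' (hcC n (n + 1))
    have e4 : c n (n + 1) = 1 - V n (n + 1) := rfl
    rw [e4] at e3
    linarith
  have hsq : Tendsto (fun n => n2 τ' (x n) ^ 2) atTop (𝓝 0) := by
    refine squeeze_zero (fun n => by positivity) hfin ?_
    simpa using hlim.const_mul 2
  have hsqrt := (Real.continuous_sqrt.tendsto 0).comp hsq
  rw [Real.sqrt_zero] at hsqrt
  refine hsqrt.congr fun n => ?_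
  exact Real.sqrt_sq (n2_nonneg _ _)

end te833

theorem topol_eq {M : Type u} [CStarAlgebra M] {τ τ' : M →ₗ[ℂ] ℂ} (h : TW τ) (h' : TW τ')
    (x : ℕ → M) (hx : ∀ n, ‖x n‖ ≤ 1) (hx0 : Tendsto (fun n => n2 τ (x n)) atTop (𝓝 0)) :
    Tendsto (fun n => n2 τ' (x n)) atTop (𝓝 0) := by
  apply tendsto_of_subseq_tendsto
  intro ns hns
  have h1 : Tendsto (fun k => n2 τ (x (ns k))) atTop (𝓝 0) := hx0.comp hns
  have h2 : ∀ k : ℕ, ∃ m, n2 τ (x (ns m)) < (1 / 2 : ℝ) ^ k := by
    intro k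
    have : (0 : ℝ) < (1 / 2) ^ k := by positivity
    exact (h1.eventually (gt_mem_nhds this)).exists
  choose ms hms using h2
  refine ⟨ms, te_main h h' (fun k => x (ns (ms k))) (fun k => hx _) (fun k => ?_)⟩
  have h3 := (hms k).le
  have h4 : (0 : ℝ) ≤ n2 τ (x (ns (ms k))) := n2_nonneg _ _
  have h5 : (1 / 2 : ℝ) ^ k ≤ 1 := pow_le_one₀ (by norm_num) (by norm_num)
  nlinarith

end Pool.Agent.H467F
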