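import Pool.Agent.Helper467.FP.Defs
import Pool.Agent.Helper467.FP.P_n2_mul_le
import Pool.Agent.Helper467.FP.P_tau_bounds
import Pool.Agent.Helper467.FP.P_averaging
import Pool.Agent.Helper467.FP.P_topol_eq

set_option autoImplicit false

open scoped ComplexOrder Topology InnerProductSpace
open Filter

namespace Pool.Agent.H467F

universe u v w

variable {M : Type u} [CStarAlgebra M] {τ : M →ₗ[ℂ] ℂ}

theorem trace_unique_norm_one {M : Type u} [CStarAlgebra M] : ‖(1 : M)‖ ≤ 1 := by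
  have h1 : ‖star (1 : M) * 1‖ = ‖(1 : M)‖ * ‖(1 : M)‖ := CStarRing.norm_star_mul_self
  rw [star_one, one_mul] at h1
  have h2 := norm_nonneg (1 : M)
  by_contra hcon
  push Not at hcon
  nlinarith

theorem trace_unique_norm {M : Type u} [CStarAlgebra M] (a x : M) (h : star a * a = 1) :
    ‖a * x * star a‖ ≤ ‖x‖ := by
  have h1 : ‖star a * a‖ = ‖a‖ * ‖a‖ := CStarRing.norm_star_mul_self
  rw [h] at h1
  have h2 := trace_unique_norm_one (M := M)
  have h3 := norm_nonneg a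
  calc ‖a * x * star a‖ ≤ ‖a * x‖ * ‖star a‖ := norm_mul_le _ _
    _ ≤ (‖a‖ * ‖x‖) * ‖star a‖ := mul_le_mul_of_nonneg_right (norm_mul_le _ _) (norm_nonneg _)
    _ = (‖a‖ * ‖a‖) * ‖x‖ := by rw [norm_star]; ring
    _ ≤ 1 * ‖x‖ := mul_le_mul_of_nonneg_right (h1 ▸ h2) (norm_nonneg _)
    _ = ‖x‖ := one_mul _

theorem trace_unique {M : Type u} [CStarAlgebra M] {τ τ' : M →ₗ[ℂ] ℂ} (h : TW τ) (h' : TW τ')
    (hc : ∀ z : M, (∀ x, z * x = x * z) → ∃ c : ℂ, z = c • (1 : M)) : τ = τ' := by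
  apply LinearMap.ext
  intro x
  have hav := averaging h (⊤ : StarSubalgebra ℂ M) (fun _ _ => trivial)
    (fun z _ hz => hc z (fun x => hz x trivial)) x trivial
  have hseq : ∀ n : ℕ, ∃ y ∈ convexHull ℝ {y : M | ∃ a, UC (⊤ : StarSubalgebra ℂ M) 1 a ∧
      y = a * x * star a}, n2 τ (τ x • (1 : M) - y) < 1 / ((n : ℝ) + 1) :=
    fun n => hav _ (by positivity)
  choose y hy hy2 using hseq
  have hball : ∀ n, ‖y n‖ ≤ ‖x‖ := by
    intro n
    have hsub : convexHull ℝ {y : M | ∃ a, UC (⊤ : StarSubalgebra ℂ M) 1 a ∧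
      y = a * x * star a} ⊆ Metric.closedBall 0 ‖x‖ := by
      apply convexHull_min _ (convex_closedBall _ _)
      rintro _ ⟨a, ha, rfl⟩
      rw [mem_closedBall_zero_iff]
      exact trace_unique_norm a x ha.2.1
    exact mem_closedBall_zero_iff.1 (hsub (hy n))
  have hτ : ∀ n, τ' (y n) = τ' x := by
    intro n
    have hconv : Convex ℝ {y : M | τ' y = τ' x} := by
      intro y₁ h₁ y₂ h₂ a b _ _ hab
      show τ' (a • y₁ + b • y₂) = τ' x
      have e1 : τ' y₁ = τ' x := h₁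
      have e2 : τ' y₂ = τ' x := h₂
      rw [map_add, LinearMap.map_smul_of_tower, LinearMap.map_smul_of_tower, e1, e2, ← add_smul,
        hab, one_smul]
    have hsub : convexHull ℝ {y : M | ∃ a, UC (⊤ : StarSubalgebra ℂ M) 1 a ∧
      y = a * x * star a} ⊆ {y : M | τ' y = τ' x} := by
      apply convexHull_min _ hconv
      rintro _ ⟨a, ha, rfl⟩
      show τ' (a * x * star a) = τ' x
      rw [h'.comm, ← mul_assoc, ha.2.1, one_mul]
    exact hsub (hy n)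
  set C : ℝ := ‖x‖ + ‖τ x • (1 : M)‖ + 1 with hC
  have hC0 : 0 < C := by positivity
  set w : ℕ → M := fun n => ((C⁻¹ : ℝ) : ℂ) • (τ x • (1 : M) - y n) with hw
  have hcn : ‖((C⁻¹ : ℝ) : ℂ)‖ = C⁻¹ := by
    rw [Complex.norm_real, Real.norm_of_nonneg (inv_nonneg.2 hC0.le)]
  have hw1 : ∀ n, ‖w n‖ ≤ 1 := by
    intro n
    rw [hw]
    show ‖((C⁻¹ : ℝ) : ℂ) • (τ x • (1 : M) - y n)‖ ≤ 1
    rw [norm_smul, hcn, inv_mul_le_iff₀ hC0, mul_one]
    have h1 := norm_sub_le (τ x • (1 : M)) (y n)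
    have h2 := hball n
    rw [hC]
    linarith
  have hw2 : Tendsto (fun n => n2 τ (w n)) atTop (𝓝 0) := by
    have h1 : Tendsto (fun n : ℕ => C⁻¹ * (1 / ((n : ℝ) + 1))) atTop (𝓝 0) := by
      have := (tendsto_one_div_add_atTop_nhds_zero_nat (𝕜 := ℝ)).const_mul C⁻¹
      rwa [mul_zero] at this
    refine squeeze_zero (fun n => n2_nonneg _ _) (fun n => ?_) h1
    show n2 τ (((C⁻¹ : ℝ) : ℂ) • (τ x • (1 : M) - y n)) ≤ _
    rw [n2_smul, hcn]
    exact mul_le_mul_of_nonneg_left (hy2 n).le (inv_nonneg.2 hC0.le)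
  have hw3 := topol_eq h h' w hw1 hw2
  have hconst : ∀ n, ‖((C⁻¹ : ℝ) : ℂ) * (τ x - τ' x)‖ ≤ n2 τ' (w n) := by
    intro n
    have h1 := (tau_bounds h').1 (w n)
    have h2 : τ' (w n) = ((C⁻¹ : ℝ) : ℂ) * (τ x - τ' x) := by
      show τ' (((C⁻¹ : ℝ) : ℂ) • (τ x • (1 : M) - y n)) = _
      rw [map_smul, map_sub, map_smul, h'.one, hτ n, smul_eq_mul, smul_eq_mul, mul_one]
    rwa [h2] at h1
  have h0 : ‖((C⁻¹ : ℝ) : ℂ) * (τ x - τ' x)‖ ≤ 0 :=
    ge_of_tendsto' hw3 hconst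
  have h00 : ((C⁻¹ : ℝ) : ℂ) * (τ x - τ' x) = 0 := norm_le_zero_iff.1 h0
  rcases mul_eq_zero.1 h00 with h1 | h1
  · exfalso
    have : C⁻¹ = 0 := by exact_mod_cast h1
    exact (inv_pos.2 hC0).ne' this
  · exact sub_eq_zero.1 h1

end Pool.Agent.H467F
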