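import Pool.Agent.Helper467.FP.Defs

set_option autoImplicit false

open scoped ComplexOrder Topology InnerProductSpace
open Filter

namespace Pool.Agent.H467F

universe u v w

variable {M : Type u} [CStarAlgebra M] {τ : M →ₗ[ℂ] ℂ}

section twelt

variable {H : Type u} [NormedAddCommGroup H] [InnerProductSpace ℂ H] [CompleteSpace H]

/-- weak limit of a bounded sequence of operators along an ultrafilter -/
theorem twe_weak_limit (V : Ultrafilter ℕ) (T : ℕ → H →L[ℂ] H) (hT : ∀ n, ‖T n‖ ≤ 1) :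
    ∃ y : H →L[ℂ] H, ‖y‖ ≤ 1 ∧ ∀ η ζ : H,
      Tendsto (fun n => ⟪T n η, ζ⟫_ℂ) V (𝓝 ⟪y η, ζ⟫_ℂ) := by
  have hb : ∀ n η ζ, ‖⟪T n η, ζ⟫_ℂ‖ ≤ ‖η‖ * ‖ζ‖ := by
    intro n η ζ
    refine (norm_inner_le_norm _ _).trans ?_
    refine mul_le_mul_of_nonneg_right ?_ (norm_nonneg _)
    calc ‖T n η‖ ≤ ‖T n‖ * ‖η‖ := (T n).le_opNorm η
      _ ≤ 1 * ‖η‖ := mul_le_mul_of_nonneg_right (hT n) (norm_nonneg _)
      _ = ‖η‖ := one_mul _
  have hex : ∀ η ζ : H, ∃ z : ℂ, ‖z‖ ≤ ‖η‖ * ‖ζ‖ ∧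
      Tendsto (fun n => ⟪T n η, ζ⟫_ℂ) V (𝓝 z) := by
    intro η ζ
    have hK : IsCompact (Metric.closedBall (0 : ℂ) (‖η‖ * ‖ζ‖)) := isCompact_closedBall _ _
    obtain ⟨z, hz, hz2⟩ := hK.ultrafilter_le_nhds (V.map (fun n => ⟪T n η, ζ⟫_ℂ)) (by
      rw [Filter.le_principal_iff]
      rw [Ultrafilter.coe_map, Filter.mem_map]
      refine Filter.mem_of_superset (Filter.univ_mem (f := (V : Filter ℕ))) ?_
      intro n _
      show ⟪T n η, ζ⟫_ℂ ∈ Metric.closedBall (0 : ℂ) (‖η‖ * ‖ζ‖)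
      rw [mem_closedBall_zero_iff]
      exact hb n η ζ)
    refine ⟨z, by simpa using hz, hz2⟩
  choose L hL1 hL2 using hex
  have hadd1 : ∀ a b ζ, L (a + b) ζ = L a ζ + L b ζ := by
    intro a b ζ
    refine tendsto_nhds_unique (hL2 (a + b) ζ) ?_
    have := (hL2 a ζ).add (hL2 b ζ)
    refine this.congr (fun n => ?_)
    rw [map_add, inner_add_left]
  have hsmul1 : ∀ (c : ℂ) a ζ, L (c • a) ζ = (starRingEnd ℂ) c * L a ζ := by
    intro c a ζ
    refine tendsto_nhds_unique (hL2 (c • a) ζ) ?_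
    have := (hL2 a ζ).const_mul ((starRingEnd ℂ) c)
    refine this.congr (fun n => ?_)
    rw [map_smul, inner_smul_left]
  have hadd2 : ∀ η a b, L η (a + b) = L η a + L η b := by
    intro η a b
    refine tendsto_nhds_unique (hL2 η (a + b)) ?_
    have := (hL2 η a).add (hL2 η b)
    refine this.congr (fun n => ?_)
    rw [inner_add_right]
  have hsmul2 : ∀ (c : ℂ) η a, L η (c • a) = c * L η a := by
    intro c η a
    refine tendsto_nhds_unique (hL2 η (c • a)) ?_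
    have := (hL2 η a).const_mul c
    refine this.congr (fun n => ?_)
    rw [inner_smul_right]
  let B : H →ₗ⋆[ℂ] H →ₗ[ℂ] ℂ :=
    { toFun := fun η =>
        { toFun := fun ζ => L η ζ
          map_add' := hadd2 η
          map_smul' := fun c a => hsmul2 c η a }
      map_add' := fun a b => LinearMap.ext (fun ζ => hadd1 a b ζ)
      map_smul' := fun c a => LinearMap.ext (fun ζ => hsmul1 c a ζ) }
  let B' : H →L⋆[ℂ] H →L[ℂ] ℂ := LinearMap.mkContinuous₂ B 1 (fun η ζ => by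
    show ‖L η ζ‖ ≤ 1 * ‖η‖ * ‖ζ‖
    rw [one_mul]; exact hL1 η ζ)
  let y : H →L[ℂ] H := InnerProductSpace.continuousLinearMapOfBilin B'
  have hy : ∀ η ζ, ⟪y η, ζ⟫_ℂ = L η ζ := by
    intro η ζ
    exact InnerProductSpace.continuousLinearMapOfBilin_apply B' η ζ
  refine ⟨y, ?_, fun η ζ => by rw [hy]; exact hL2 η ζ⟩
  refine ContinuousLinearMap.opNorm_le_bound _ zero_le_one (fun η => ?_)
  rw [one_mul]
  have h1 : ‖y η‖ * ‖y η‖ ≤ ‖η‖ * ‖y η‖ := by
    have h2 : ‖⟪y η, y η⟫_ℂ‖ = ‖y η‖ * ‖y η‖ := by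
      rw [inner_self_eq_norm_sq_to_K]
      simp [sq]
    rw [← h2, hy]
    exact hL1 _ _
  by_cases h0 : ‖y η‖ = 0
  · rw [h0]; exact norm_nonneg _
  · exact le_of_mul_le_mul_right h1 (lt_of_le_of_ne (norm_nonneg _) (Ne.symm h0))

theorem twe_mem (P : VonNeumannAlgebra H) (V : Ultrafilter ℕ) (T : ℕ → H →L[ℂ] H)
    (hP : ∀ n, T n ∈ P) (y : H →L[ℂ] H)
    (hy : ∀ η ζ : H, Tendsto (fun n => ⟪T n η, ζ⟫_ℂ) V (𝓝 ⟪y η, ζ⟫_ℂ)) : y ∈ P := by
  rw [← VonNeumannAlgebra.commutant_commutant P, VonNeumannAlgebra.mem_commutant_iff]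
  intro c hc
  rw [VonNeumannAlgebra.mem_commutant_iff] at hc
  refine ContinuousLinearMap.ext (fun η => ?_)
  refine ext_inner_right ℂ (fun ζ => ?_)
  show ⟪c (y η), ζ⟫_ℂ = ⟪y (c η), ζ⟫_ℂ
  refine tendsto_nhds_unique (f := fun n => ⟪T n (c η), ζ⟫_ℂ) (l := (V : Filter ℕ)) ?_ (hy _ _)
  have h1 := hy η (ContinuousLinearMap.adjoint c ζ)
  rw [ContinuousLinearMap.adjoint_inner_right] at h1
  refine h1.congr (fun n => ?_)
  rw [ContinuousLinearMap.adjoint_inner_right]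
  have h2 := hc (T n) (hP n)
  have h3 : T n (c η) = c (T n η) := by
    have := congrArg (fun S : H →L[ℂ] H => S η) h2
    exact this
  rw [h3]

omit [CompleteSpace H] in
theorem twe_summable (ξ : ℕ → H) (hξ : Summable (fun k => ‖ξ k‖ ^ 2)) (T : H →L[ℂ] H) :
    Summable (fun k => ‖T (ξ k)‖ ^ 2) := by
  refine Summable.of_nonneg_of_le (fun k => by positivity) (fun k => ?_) (hξ.mul_left (‖T‖ ^ 2))
  rw [← mul_pow]
  exact pow_le_pow_left₀ (norm_nonneg _) (T.le_opNorm _) 2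

theorem twe_star (T : H →L[ℂ] H) (v : H) :
    ⟪v, (star T * T : H →L[ℂ] H) v⟫_ℂ = ((‖T v‖ ^ 2 : ℝ) : ℂ) := by
  show ⟪v, (star T) (T v)⟫_ℂ = _
  rw [ContinuousLinearMap.star_eq_adjoint, ContinuousLinearMap.adjoint_inner_right,
    inner_self_eq_norm_sq_to_K]
  simp

end twelt

theorem tw_elt {H : Type u} [NormedAddCommGroup H] [InnerProductSpace ℂ H] [CompleteSpace H]
    (P : VonNeumannAlgebra H) (t : Elt P →ₗ[ℂ] ℂ) (hn : IsNormalPositive P t)
    (ht : IsFaithfulTrace (t : Elt P → ℂ)) : TW t := by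
  obtain ⟨ξ, hξ, hsum⟩ := hn
  have hss : ∀ x : Elt P, t (star x * x) =
      ((∑' k, ‖(x : H →L[ℂ] H) (ξ k)‖ ^ 2 : ℝ) : ℂ) := by
    intro x
    rw [hsum, Complex.ofReal_tsum]
    refine tsum_congr (fun k => ?_)
    exact twe_star (x : H →L[ℂ] H) (ξ k)
  have hmem : ∀ T : H →L[ℂ] H, Memℓp (fun k => T (ξ k)) 2 := by
    intro T
    refine memℓp_gen ?_
    have := twe_summable ξ hξ T
    simpa using this
  let Vm : (H →L[ℂ] H) → lp (fun _ : ℕ => H) 2 := fun T => ⟨fun k => T (ξ k), hmem T⟩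
  have hVsub : ∀ S T : H →L[ℂ] H, Vm (S - T) = Vm S - Vm T := by
    intro S T
    ext k
    rfl
  have hn2 : ∀ x : Elt P, n2 (t : Elt P → ℂ) x = ‖Vm (x : H →L[ℂ] H)‖ := by
    intro x
    unfold n2
    rw [hss, Complex.ofReal_re]
    have h1 := lp.norm_rpow_eq_tsum (p := 2) (by simp) (Vm (x : H →L[ℂ] H))
    have h2 : ‖Vm (x : H →L[ℂ] H)‖ ^ 2 = ∑' k, ‖(x : H →L[ℂ] H) (ξ k)‖ ^ 2 := by
      simpa using h1
    rw [← h2, Real.sqrt_sq (norm_nonneg _)]
  refine ⟨ht.one, ht.tracial, ?_, ?_, ht.faithful, ?_⟩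
  · intro x
    rw [hss]
    rw [Complex.zero_le_real]
    exact tsum_nonneg (fun k => by positivity)
  · intro x
    rw [hsum, hsum]
    rw [tsum_star]
    refine tsum_congr (fun k => ?_)
    have h1 : ((star x : Elt P) : H →L[ℂ] H) = ContinuousLinearMap.adjoint (x : H →L[ℂ] H) := rfl
    rw [h1, ContinuousLinearMap.adjoint_inner_right]
    exact (inner_conj_symm _ _).symm
  · intro x hx hx2
    have hc : CauchySeq (fun n => Vm (x n : H →L[ℂ] H)) := by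
      refine cauchySeq_of_le_geometric (1 / 2) 1 (by norm_num) (fun n => ?_)
      rw [one_mul, dist_eq_norm, ← hVsub]
      have := hx2 n
      rw [hn2] at this
      exact this
    obtain ⟨F, hF⟩ := cauchySeq_tendsto_of_complete hc
    obtain ⟨y, hy1, hy2⟩ := twe_weak_limit (Filter.hyperfilter ℕ)
      (fun n => (x n : H →L[ℂ] H)) (fun n => hx n)
    have hyP : y ∈ P := twe_mem P (Filter.hyperfilter ℕ) (fun n => (x n : H →L[ℂ] H))
      (fun n => (x n).2) y hy2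
    refine ⟨⟨y, hyP⟩, hy1, ?_⟩
    have hle : ((Filter.hyperfilter ℕ : Ultrafilter ℕ) : Filter ℕ) ≤ atTop :=
      Filter.hyperfilter_le_cofinite.trans_eq Nat.cofinite_eq_atTop
    have hVy : Vm y = F := by
      ext k
      show y (ξ k) = F k
      refine ext_inner_right ℂ (fun ζ => ?_)
      refine tendsto_nhds_unique (hy2 (ξ k) ζ) ?_
      have h1 : Tendsto (fun n => (x n : H →L[ℂ] H) (ξ k)) atTop (𝓝 (F k)) := by
        rw [tendsto_iff_norm_sub_tendsto_zero] at hF ⊢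
        refine squeeze_zero (fun n => norm_nonneg _) (fun n => ?_) hF
        exact lp.norm_apply_le_norm (by simp) (Vm (x n : H →L[ℂ] H) - F) k
      have h2 := (h1.mono_left hle)
      exact Filter.Tendsto.inner h2 tendsto_const_nhds
    have h3 : ∀ n, n2 (t : Elt P → ℂ) (x n - ⟨y, hyP⟩) = ‖Vm (x n : H →L[ℂ] H) - F‖ := by
      intro n
      rw [hn2, ← hVy, ← hVsub]
      rfl
    simp only [h3]
    exact tendsto_iff_norm_sub_tendsto_zero.mp hF

end Pool.Agent.H467F
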