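import Pool.Agent.Helper467.FP.Defs

set_option autoImplicit false

open scoped ComplexOrder Topology InnerProductSpace
open Filter

namespace Pool.Agent.H467F

universe u v w

variable {M : Type u} [CStarAlgebra M] {τ : M →ₗ[ℂ] ℂ}

theorem tw_pull {M : Type u} [CStarAlgebra M] {M' : Type w} [CStarAlgebra M'] (θ : M ≃⋆ₐ[ℂ] M')
    (τ : M →ₗ[ℂ] ℂ) (τ' : M' →ₗ[ℂ] ℂ) (h' : TW τ') (ht : ∀ x, τ x = τ' (θ x)) : TW τ := by
  have hn2 : ∀ x, n2 τ x = n2 τ' (θ x) := by
    intro x
    unfold n2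
    rw [ht, map_mul, map_star]
  have hnorm : ∀ x : M, ‖θ x‖ = ‖x‖ := fun x => StarAlgEquiv.norm_map θ x
  refine ⟨?_, ?_, ?_, ?_, ?_, ?_⟩
  · rw [ht, map_one, h'.one]
  · intro x y
    rw [ht, ht, map_mul θ x y, map_mul θ y x, h'.comm]
  · intro x
    rw [ht, map_mul, map_star]
    exact h'.nonneg _
  · intro x
    rw [ht, ht, map_star, h'.conj]
  · intro x hx
    rw [ht, map_mul, map_star] at hx
    have := h'.faithful _ hx
    exact (map_eq_zero_iff θ (EquivLike.injective θ)).1 this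
  · intro x hx hc
    obtain ⟨y', hy', hlim⟩ := h'.complete (fun n => θ (x n)) (fun n => by rw [hnorm]; exact hx n)
      (fun n => by
        have := hc n
        rw [hn2, map_sub] at this
        exact this)
    obtain ⟨y, rfl⟩ := EquivLike.surjective θ y'
    refine ⟨y, by rw [← hnorm]; exact hy', ?_⟩
    refine hlim.congr fun n => ?_
    rw [hn2, map_sub]

end Pool.Agent.H467F
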