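import Pool.Agent.Helper467.FP.Defs
import Pool.Agent.Helper467.FP.P_tau_bounds
import Pool.Agent.Helper467.FP.P_trace_unique
import Pool.Agent.Helper467.FP.P_relcomm
import Pool.Agent.Helper467.FP.P_main
import Pool.Agent.Helper467.FP.P_exists_linear
import Pool.Agent.Helper467.FP.P_tw_elt
import Pool.Agent.Helper467.FP.P_good_ultra
import Pool.Agent.Helper467.FP.P_free_of
import Pool.Agent.Helper467.FP.P_tw_pull
import Pool.Agent.Helper467.FP.P_family_pull

set_option autoImplicit false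

open scoped ComplexOrder Topology InnerProductSpace
open Filter

namespace Pool.Agent.H467F

universe u v w

variable {M : Type u} [CStarAlgebra M] {τ : M →ₗ[ℂ] ℂ}

theorem mi_inj {M : Type w} [CStarAlgebra M] {τ : M →ₗ[ℂ] ℂ}
    {H : Type u} [NormedAddCommGroup H] [InnerProductSpace ℂ H] [CompleteSpace H]
    (N : VonNeumannAlgebra H) (t : Elt N → ℂ) (U : Ultrafilter ℕ)
    {A : Type u} [Ring A] [StarRing A] [Algebra ℂ A] [StarModule ℂ A]
    (π : (BoundedContinuousFunction ℕ (Elt N)) →⋆ₐ[ℂ] A) (σ : A → ℂ)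
    (hπ : IsTracialUltrapower t U π σ) (α : A →⋆ₐ[ℂ] M) (hα : ∀ x, τ (α x) = σ x) :
    Function.Injective α := by
  rw [injective_iff_map_eq_zero]
  intro a ha
  obtain ⟨w, rfl⟩ := hπ.surj a
  rw [hπ.ker]
  have h1 := hπ.trace (star w * w)
  have h2 : σ (π (star w * w)) = 0 := by
    rw [← hα, map_mul, map_mul, ha, mul_zero, map_zero]
  rw [h2] at h1
  exact h1

theorem main_iso {I J : Type} [Fintype I] [Fintype J] [Nonempty I] [Nonempty J]
    {H : I → Type u} [∀ i, NormedAddCommGroup (H i)] [∀ i, InnerProductSpace ℂ (H i)]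
    [∀ i, CompleteSpace (H i)] (N : ∀ i, VonNeumannAlgebra (H i)) (t : ∀ i, Elt (N i) → ℂ)
    (hN : ∀ i, IsIIOneFactor (N i) (t i))
    {H' : J → Type v} [∀ j, NormedAddCommGroup (H' j)] [∀ j, InnerProductSpace ℂ (H' j)]
    [∀ j, CompleteSpace (H' j)] (N' : ∀ j, VonNeumannAlgebra (H' j)) (t' : ∀ j, Elt (N' j) → ℂ)
    (hN' : ∀ j, IsIIOneFactor (N' j) (t' j)) (U : Ultrafilter ℕ) (hU : ∀ n, {n} ∉ U)
    {A : I → Type u} [∀ i, Ring (A i)] [∀ i, StarRing (A i)] [∀ i, Algebra ℂ (A i)]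
    [∀ i, StarModule ℂ (A i)] (π : ∀ i, (BoundedContinuousFunction ℕ (Elt (N i))) →⋆ₐ[ℂ] A i)
    (σ : ∀ i, A i → ℂ) (hπ : ∀ i, IsTracialUltrapower (t i) U (π i) (σ i))
    {B : J → Type v} [∀ j, Ring (B j)] [∀ j, StarRing (B j)] [∀ j, Algebra ℂ (B j)]
    [∀ j, StarModule ℂ (B j)] (ρ : ∀ j, (BoundedContinuousFunction ℕ (Elt (N' j))) →⋆ₐ[ℂ] B j)
    (σ' : ∀ j, B j → ℂ) (hρ : ∀ j, IsTracialUltrapower (t' j) U (ρ j) (σ' j))
    {K : Type u} [NormedAddCommGroup K] [InnerProductSpace ℂ K] [CompleteSpace K]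
    (P : VonNeumannAlgebra K) (tP : Elt P → ℂ) (α : ∀ i, A i →⋆ₐ[ℂ] Elt P)
    (hP : IsFreeProduct σ P tP α)
    {K' : Type v} [NormedAddCommGroup K'] [InnerProductSpace ℂ K'] [CompleteSpace K']
    (Q : VonNeumannAlgebra K') (tQ : Elt Q → ℂ) (β : ∀ j, B j →⋆ₐ[ℂ] Elt Q)
    (hQ : IsFreeProduct σ' Q tQ β) (θ : Elt P ≃⋆ₐ[ℂ] Elt Q) :
    ∃ e : I ≃ J, ∀ i, ∃ φ : A i ≃⋆ₐ[ℂ] B (e i), ∀ x, σ' (e i) (φ x) = σ i x := by
  obtain ⟨τP, hτP⟩ := exists_linear P tP hP.normal
  obtain ⟨τQ, hτQ⟩ := exists_linear Q tQ hQ.normal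
  have eP : (τP : Elt P → ℂ) = tP := funext hτP
  have eQ : (τQ : Elt Q → ℂ) = tQ := funext hτQ
  have twP : TW τP := tw_elt P τP (by rw [eP]; exact hP.normal) (by rw [eP]; exact hP.trace)
  have twQ : TW τQ := tw_elt Q τQ (by rw [eQ]; exact hQ.normal) (by rw [eQ]; exact hQ.trace)
  obtain ⟨fS, dS⟩ := free_of σ P tP α hP τP hτP
  obtain ⟨fQ, dQ⟩ := free_of σ' Q tQ β hQ τQ hτQ
  have hαt : ∀ i x, τP (α i x) = σ i x := fun i x => by rw [hτP, hP.preserves]
  have hS : ∀ i, Good τP (α i).range := fun i =>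
    good_ultra twP (N i) (t i) (hN i) U hU (π i) (σ i) (hπ i) (α i) (hαt i)
  obtain ⟨τ2, hτ2⟩ : ∃ τ2 : Elt P →ₗ[ℂ] ℂ, ∀ x, τ2 x = τQ (θ x) :=
    ⟨{ toFun := fun x => τQ (θ x)
       map_add' := by intro x y; rw [map_add, map_add]
       map_smul' := by intro c x; rw [map_smul, map_smul]; rfl }, fun _ => rfl⟩
  have tw2 : TW τ2 := tw_pull θ τ2 τQ twQ hτ2
  have hc : ∀ z : Elt P, (∀ x, z * x = x * z) → ∃ c : ℂ, z = c • (1 : Elt P) := by
    intro z hz
    obtain ⟨i⟩ : Nonempty I := inferInstance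
    obtain ⟨g, hh, hD⟩ := (hS i).dya
    exact relcomm twP (fun i => (α i).range) fS dS (fun i => (hS i).closed) i (hS i).fac g hh hD z
      (fun s _ => (hz s).symm)
  have htu : τP = τ2 := trace_unique twP tw2 hc
  subst htu
  obtain ⟨β2, hβ2⟩ : ∃ β2 : ∀ j, B j →⋆ₐ[ℂ] Elt P, ∀ j b, β2 j b = θ.symm (β j b) :=
    ⟨fun j => ((θ.symm : Elt Q ≃⋆ₐ[ℂ] Elt P) : Elt Q →⋆ₐ[ℂ] Elt P).comp (β j), fun _ _ => rfl⟩
  have hβt : ∀ j x, τP (β2 j x) = σ' j x := by
    intro j x
    rw [hτ2, hβ2, StarAlgEquiv.apply_symm_apply, hτQ, hQ.preserves]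
  have hR : ∀ j, Good τP (β2 j).range := fun j =>
    good_ultra twP (N' j) (t' j) (hN' j) U hU (ρ j) (σ' j) (hρ j) (β2 j) (hβt j)
  have hmem : ∀ j x, x ∈ (β2 j).range ↔ θ x ∈ (β j).range := by
    intro j x
    constructor
    · rintro ⟨b, hb⟩
      refine ⟨b, ?_⟩
      have hb' : β2 j b = x := hb
      rw [← hb', hβ2, StarAlgEquiv.apply_symm_apply]
      rfl
    · rintro ⟨b, hb⟩
      have hb' : β j b = θ x := hb
      refine ⟨b, ?_⟩
      change β2 j b = x
      rw [hβ2, hb', StarAlgEquiv.symm_apply_apply]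
  obtain ⟨fR, dR⟩ := family_pull θ τP τQ hτ2 (fun j => (β j).range) (fun j => (β2 j).range)
    hmem fQ dQ
  obtain ⟨e, he⟩ := main twP (fun i => (α i).range) (fun j => (β2 j).range) hS hR fS fR dS dR
  refine ⟨e, ?_⟩
  intro i
  obtain ⟨x, hx1, hx2, hx⟩ := he i
  have injα : Function.Injective (α i) :=
    mi_inj (τ := τP) (N i) (t i) U (π i) (σ i) (hπ i) (α i) (hαt i)
  have injβ : Function.Injective (β2 (e i)) :=
    mi_inj (τ := τP) (N' (e i)) (t' (e i)) U (ρ (e i)) (σ' (e i)) (hρ (e i)) (β2 (e i)) (hβt (e i))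
  have hex : ∀ a : A i, ∃ b : B (e i), β2 (e i) b = star x * α i a * x := by
    intro a
    obtain ⟨b, hb⟩ := (hx (α i a)).1 ⟨a, rfl⟩
    exact ⟨b, hb⟩
  choose f hf using hex
  have hmul : ∀ u v : Elt P, star x * (u * v) * x = (star x * u * x) * (star x * v * x) := by
    intro u v
    calc star x * (u * v) * x = star x * u * 1 * v * x := by noncomm_ring
      _ = star x * u * (x * star x) * v * x := by rw [hx2]
      _ = (star x * u * x) * (star x * v * x) := by noncomm_ring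
  have f_add : ∀ a b, f (a + b) = f a + f b := by
    intro a b
    apply injβ
    rw [hf, map_add, map_add, hf, hf, mul_add, add_mul]
  have f_mul : ∀ a b, f (a * b) = f a * f b := by
    intro a b
    apply injβ
    rw [hf, map_mul, map_mul, hf, hf, hmul]
  have f_one : f 1 = 1 := by
    apply injβ
    rw [hf, map_one, map_one, mul_one, hx1]
  have f_zero : f 0 = 0 := by
    apply injβ
    rw [hf, map_zero, map_zero, mul_zero, zero_mul]
  have f_smul : ∀ (c : ℂ) a, f (c • a) = c • f a := by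
    intro c a
    apply injβ
    rw [hf, map_smul, map_smul, hf, mul_smul_comm, smul_mul_assoc]
  have f_star : ∀ a, f (star a) = star (f a) := by
    intro a
    apply injβ
    rw [hf, map_star, map_star, hf, star_mul, star_mul, star_star, mul_assoc]
  obtain ⟨F, hF⟩ : ∃ F : A i →⋆ₐ[ℂ] B (e i), ∀ a, F a = f a :=
    ⟨{ toFun := f
       map_one' := f_one
       map_mul' := f_mul
       map_zero' := f_zero
       map_add' := f_add
       commutes' := by
         intro c
         rw [Algebra.algebraMap_eq_smul_one, f_smul, f_one, ← Algebra.algebraMap_eq_smul_one]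
       map_star' := f_star }, fun _ => rfl⟩
  have hbij : Function.Bijective F := by
    constructor
    · intro a a' haa
      rw [hF, hF] at haa
      apply injα
      have h1 : star x * α i a * x = star x * α i a' * x := by
        rw [← hf, ← hf, haa]
      have h2 : ∀ u : Elt P, x * (star x * u * x) * star x = u := by
        intro u
        calc x * (star x * u * x) * star x = (x * star x) * u * (x * star x) := by noncomm_ring
          _ = u := by rw [hx2, one_mul, mul_one]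
      rw [← h2 (α i a), ← h2 (α i a'), h1]
    · intro b
      have h2 : star x * (x * β2 (e i) b * star x) * x = β2 (e i) b := by
        calc star x * (x * β2 (e i) b * star x) * x =
            (star x * x) * β2 (e i) b * (star x * x) := by noncomm_ring
          _ = β2 (e i) b := by rw [hx1, one_mul, mul_one]
      obtain ⟨a, ha⟩ := (hx (x * β2 (e i) b * star x)).2 (by
        rw [h2]
        exact ⟨b, rfl⟩)
      have ha' : α i a = x * β2 (e i) b * star x := ha
      refine ⟨a, ?_⟩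
      apply injβ
      rw [hF, hf, ha', h2]
  refine ⟨StarAlgEquiv.ofBijective F hbij, ?_⟩
  intro a
  have h3 : (StarAlgEquiv.ofBijective F hbij) a = f a := hF a
  rw [h3, ← hβt, hf, twP.comm, ← mul_assoc, hx2, one_mul, hαt]

end Pool.Agent.H467F
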