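import Pool.Agent.Helper467.FP.Defs
import Pool.Agent.Helper467.FP.P_n2_mul_le
import Pool.Agent.Helper467.FP.P_tau_bounds
import Pool.Agent.Helper467.FP.P_ep
import Pool.Agent.Helper467.FP.P_exists_closure

set_option autoImplicit false

open scoped ComplexOrder Topology InnerProductSpace
open Filter

namespace Pool.Agent.H467F

universe u v w

variable {M : Type u} [CStarAlgebra M] {τ : M →ₗ[ℂ] ℂ}

theorem te_squeeze {f g : ℕ → ℝ} (h0 : ∀ k, 0 ≤ f k) (h : ∀ k, f k ≤ g k)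
    (hg : Tendsto g atTop (𝓝 0)) : Tendsto f atTop (𝓝 0) :=
  squeeze_zero h0 h hg

theorem te_approx {f : ℕ → ℝ} (h0 : ∀ k, 0 ≤ f k)
    (h : ∀ ε : ℝ, 0 < ε → ∃ g : ℕ → ℝ, Tendsto g atTop (𝓝 0) ∧ ∀ k, f k ≤ g k + ε) :
    Tendsto f atTop (𝓝 0) := by
  rw [Metric.tendsto_atTop]
  intro ε hε
  obtain ⟨g, hg, hfg⟩ := h (ε / 2) (half_pos hε)
  rw [Metric.tendsto_atTop] at hg
  obtain ⟨N, hN⟩ := hg (ε / 2) (half_pos hε)
  refine ⟨N, ?_⟩
  intro n hn
  have h1 := hN n hn
  rw [Real.dist_eq, sub_zero] at h1 ⊢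
  rw [abs_of_nonneg (h0 n)]
  have h2 := hfg n
  have h3 := le_abs_self (g n)
  linarith

theorem te_mem {M : Type u} [CStarAlgebra M] (A : Set M) (y : M)
    (hy : y ∈ StarAlgebra.adjoin ℂ A) :
    y ∈ Submodule.span ℂ (Submonoid.closure (A ∪ star A) : Set M) := by
  rw [← Algebra.adjoin_eq_span, Subalgebra.mem_toSubmodule, ← StarAlgebra.adjoin_toSubalgebra]
  exact hy

theorem test_ext {M : Type u} [CStarAlgebra M] {τ : M →ₗ[ℂ] ℂ} (h : TW τ) {J : Type v}
    (R : J → StarSubalgebra ℂ M) (hR : ∀ j, IsW τ (R j)) (s : ℕ → M) (hs : ∀ k, ‖s k‖ ≤ 1)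
    (A : Set M) (j : J)
    (hA : ∀ y ∈ Submonoid.closure (A ∪ star A), ∀ z ∈ Submonoid.closure (A ∪ star A),
      Tendsto (fun k => n2 τ (E τ (R j) (y * s k * z))) atTop (𝓝 0))
    (y z : M) (hy : y ∈ Cl τ (StarAlgebra.adjoin ℂ A : Set M))
    (hz : z ∈ Cl τ (StarAlgebra.adjoin ℂ A : Set M)) :
    Tendsto (fun k => n2 τ (E τ (R j) (y * s k * z))) atTop (𝓝 0) := by
  have e := ep h (R j) (hR j)
  -- step 1 : y in the span
  have h1 : ∀ y ∈ Submodule.span ℂ (Submonoid.closure (A ∪ star A) : Set M),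
      ∀ z ∈ Submonoid.closure (A ∪ star A),
      Tendsto (fun k => n2 τ (E τ (R j) (y * s k * z))) atTop (𝓝 0) := by
    intro y hy z hz
    induction hy using Submodule.span_induction with
    | mem x hx => exact hA x hx z hz
    | zero =>
      have h0 : ∀ k, n2 τ (E τ (R j) (0 * s k * z)) = 0 := by
        intro k
        have h2 := e.n2_le (0 * s k * z)
        rw [zero_mul, zero_mul] at h2 ⊢
        rw [n2_zero] at h2
        exact le_antisymm h2 (n2_nonneg _ _)
      simp_rw [h0]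
      exact tendsto_const_nhds
    | add a b _ _ ha hb =>
      refine te_squeeze (fun k => n2_nonneg _ _) (fun k => ?_) (by simpa using ha.add hb)
      rw [add_mul, add_mul, e.add]
      exact h.n2_add_le _ _
    | smul c a _ ha =>
      refine te_squeeze (fun k => n2_nonneg _ _) (fun k => ?_) (by simpa using ha.const_mul ‖c‖)
      rw [smul_mul_assoc, smul_mul_assoc, e.smul, n2_smul]
  -- step 2 : z in the span
  have h2 : ∀ y ∈ Submodule.span ℂ (Submonoid.closure (A ∪ star A) : Set M),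
      ∀ z ∈ Submodule.span ℂ (Submonoid.closure (A ∪ star A) : Set M),
      Tendsto (fun k => n2 τ (E τ (R j) (y * s k * z))) atTop (𝓝 0) := by
    intro y hy z hz
    induction hz using Submodule.span_induction with
    | mem x hx => exact h1 y hy x hx
    | zero =>
      have h0 : ∀ k, n2 τ (E τ (R j) (y * s k * 0)) = 0 := by
        intro k
        have h2 := e.n2_le (y * s k * 0)
        rw [mul_zero] at h2 ⊢
        rw [n2_zero] at h2
        exact le_antisymm h2 (n2_nonneg _ _)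
      simp_rw [h0]
      exact tendsto_const_nhds
    | add a b _ _ ha hb =>
      refine te_squeeze (fun k => n2_nonneg _ _) (fun k => ?_) (by simpa using ha.add hb)
      rw [mul_add, e.add]
      exact h.n2_add_le _ _
    | smul c a _ ha =>
      refine te_squeeze (fun k => n2_nonneg _ _) (fun k => ?_) (by simpa using ha.const_mul ‖c‖)
      rw [mul_smul_comm, e.smul, n2_smul]
  -- step 3 : y in the closure
  have h3 : ∀ y ∈ Cl τ (StarAlgebra.adjoin ℂ A : Set M),
      ∀ z ∈ (StarAlgebra.adjoin ℂ A : Set M),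
      Tendsto (fun k => n2 τ (E τ (R j) (y * s k * z))) atTop (𝓝 0) := by
    intro y hy z hz
    refine te_approx (fun k => n2_nonneg _ _) ?_
    intro ε hε
    have hz1 : 0 < ‖z‖ + 1 := by positivity
    obtain ⟨y0, hy0, hyy⟩ := hy (ε / (‖z‖ + 1)) (by positivity)
    refine ⟨_, h2 y0 (te_mem A y0 hy0) z (te_mem A z hz), ?_⟩
    intro k
    have g1 : y * s k * z = y0 * s k * z + (y - y0) * s k * z := by
      rw [sub_mul, sub_mul, add_sub_cancel]
    have g2 : n2 τ (E τ (R j) ((y - y0) * s k * z)) ≤ ε := by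
      have g3 := e.n2_le ((y - y0) * s k * z)
      have g4 := (n2_mul_le h z ((y - y0) * s k)).2
      have g5 := (n2_mul_le h (s k) (y - y0)).2
      have g6 : n2 τ (y - y0) * ‖s k‖ ≤ n2 τ (y - y0) * 1 :=
        mul_le_mul_of_nonneg_left (hs k) (n2_nonneg _ _)
      have g7 : n2 τ ((y - y0) * s k) * ‖z‖ ≤ (ε / (‖z‖ + 1)) * ‖z‖ :=
        mul_le_mul_of_nonneg_right (by linarith) (norm_nonneg _)
      have g8 : (ε / (‖z‖ + 1)) * ‖z‖ ≤ (ε / (‖z‖ + 1)) * (‖z‖ + 1) :=
        mul_le_mul_of_nonneg_left (by linarith) (by positivity)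
      have g9 : (ε / (‖z‖ + 1)) * (‖z‖ + 1) = ε := by
        field_simp
      linarith
    rw [g1, e.add]
    exact (h.n2_add_le _ _).trans (add_le_add le_rfl g2)
  -- step 4 : z in the closure
  refine te_approx (fun k => n2_nonneg _ _) ?_
  intro ε hε
  have hy1 : 0 < ‖y‖ + 1 := by positivity
  obtain ⟨z0, hz0, hzz⟩ := hz (ε / (‖y‖ + 1)) (by positivity)
  refine ⟨_, h3 y hy z0 hz0, ?_⟩
  intro k
  have g1 : y * s k * z = y * s k * z0 + y * s k * (z - z0) := by
    rw [mul_sub, add_sub_cancel]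
  have g2 : n2 τ (E τ (R j) (y * s k * (z - z0))) ≤ ε := by
    have g3 := e.n2_le (y * s k * (z - z0))
    have g4 := (n2_mul_le h (y * s k) (z - z0)).1
    have g5 : ‖y * s k‖ ≤ ‖y‖ + 1 := by
      have g6 := norm_mul_le y (s k)
      have g7 : ‖y‖ * ‖s k‖ ≤ ‖y‖ * 1 := mul_le_mul_of_nonneg_left (hs k) (norm_nonneg _)
      linarith
    have g8 : ‖y * s k‖ * n2 τ (z - z0) ≤ (‖y‖ + 1) * (ε / (‖y‖ + 1)) :=
      mul_le_mul g5 hzz.le (n2_nonneg _ _) hy1.le
    have g9 : (‖y‖ + 1) * (ε / (‖y‖ + 1)) = ε := by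
      field_simp
    linarith
  rw [g1, e.add]
  exact (h.n2_add_le _ _).trans (add_le_add le_rfl g2)

end Pool.Agent.H467F
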