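import Mathlib

set_option autoImplicit false

open scoped InnerProductSpace Topology BoundedContinuousFunction
open Filter

namespace Pool.Agent.H467S

universe u v w

section vonNeumann

variable {H : Type u} [NormedAddCommGroup H] [InnerProductSpace ℂ H] [CompleteSpace H]

/-- The star algebra of the elements of a von Neumann algebra `N` acting on `H`, with the operator
norm. -/
def Elt (N : VonNeumannAlgebra H) : Type u := N.toStarSubalgebra

@[instance_reducible] noncomputable def Elt.ring (N : VonNeumannAlgebra H) : NormedRing (Elt N) :=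
  (inferInstance : NormedRing N.toStarSubalgebra)

attribute [instance] Elt.ring

@[instance_reducible] noncomputable def Elt.starRing (N : VonNeumannAlgebra H) : StarRing (Elt N) :=
  (inferInstance : StarRing N.toStarSubalgebra)

attribute [instance] Elt.starRing

@[instance_reducible] noncomputable def Elt.algebra (N : VonNeumannAlgebra H) :
    NormedAlgebra ℂ (Elt N) :=
  (inferInstance : NormedAlgebra ℂ N.toStarSubalgebra)

attribute [instance] Elt.algebra

instance Elt.starModule (N : VonNeumannAlgebra H) : StarModule ℂ (Elt N) :=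
  (inferInstance : StarModule ℂ N.toStarSubalgebra)

instance Elt.cstarRing (N : VonNeumannAlgebra H) : CStarRing (Elt N) :=
  (inferInstance : CStarRing N.toStarSubalgebra)

/-- An element of `N` as an operator on `H`. -/
def Elt.op {N : VonNeumannAlgebra H} (x : Elt N) : H →L[ℂ] H := x.1

/-- `t` is a normal positive functional on `N`: a countable sum of vector functionals. -/
def IsNormalPositive (N : VonNeumannAlgebra H) (t : Elt N → ℂ) : Prop :=
  ∃ ξ : ℕ → H, Summable (fun k => ‖ξ k‖ ^ 2) ∧ ∀ x : Elt N, t x = ∑' k, ⟪ξ k, x.op (ξ k)⟫_ℂ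

/-- `φ` is unital, tracial and faithful. -/
structure IsFaithfulTrace {A : Type v} [Ring A] [StarRing A] (φ : A → ℂ) : Prop where
  one : φ 1 = 1
  tracial : ∀ x y, φ (x * y) = φ (y * x)
  faithful : ∀ x, φ (star x * x) = 0 → x = 0

/-- `N` is a II₁ factor with trace `t`: an infinite dimensional von Neumann algebra with trivial
center, and `t` is a faithful normal tracial state on it. -/
structure IsIIOneFactor (N : VonNeumannAlgebra H) (t : Elt N → ℂ) : Prop where
  center : ∀ z : Elt N, (∀ x : Elt N, z * x = x * z) → ∃ c : ℂ, z = c • (1 : Elt N)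
  infinite : ¬ FiniteDimensional ℂ (Elt N)
  trace : IsFaithfulTrace t
  normal : IsNormalPositive N t

/-- The von Neumann algebra generated by a set of operators: the bicommutant of the set and its
adjoints. -/
noncomputable def vnGen (S : Set (H →L[ℂ] H)) : VonNeumannAlgebra H where
  toStarSubalgebra := StarSubalgebra.centralizer ℂ
    (StarSubalgebra.centralizer ℂ S : Set (H →L[ℂ] H))
  centralizer_centralizer' := by
    show Set.centralizer (Set.centralizer ((StarSubalgebra.centralizer ℂ
      (StarSubalgebra.centralizer ℂ S : Set (H →L[ℂ] H)) : StarSubalgebra ℂ (H →L[ℂ] H)) :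
        Set (H →L[ℂ] H))) = ((StarSubalgebra.centralizer ℂ
      (StarSubalgebra.centralizer ℂ S : Set (H →L[ℂ] H)) : StarSubalgebra ℂ (H →L[ℂ] H)) :
        Set (H →L[ℂ] H))
    rw [StarSubalgebra.coe_centralizer_centralizer, Set.centralizer_centralizer_centralizer]

end vonNeumann

/-- A complex star algebra with a functional `σ`. -/
structure TrAlg : Type (u + 1) where
  /-- the star algebra -/
  Q : Type u
  [i1 : Ring Q]
  [i2 : StarRing Q]
  [i3 : Algebra ℂ Q]
  [i4 : StarModule ℂ Q]
  /-- the functional -/
  σ : Q → ℂ

attribute [instance] TrAlg.i1 TrAlg.i2 TrAlg.i3 TrAlg.i4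

/-- A II₁ factor acting on some Hilbert space, with its faithful normal tracial state `t`. -/
structure IIOneFactor : Type (u + 1) where
  /-- the Hilbert space -/
  H : Type u
  [i1 : NormedAddCommGroup H]
  [i2 : InnerProductSpace ℂ H]
  [i3 : CompleteSpace H]
  /-- the von Neumann algebra -/
  N : VonNeumannAlgebra H
  /-- the trace -/
  t : Elt N → ℂ
  spec : IsIIOneFactor N t

attribute [instance] IIOneFactor.i1 IIOneFactor.i2 IIOneFactor.i3

/-- The star algebra of the norm bounded sequences in a II₁ factor (pointwise operations). -/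
def Seqs (M : IIOneFactor.{u}) : Type u := ℕ →ᵇ Elt M.N

@[instance_reducible] noncomputable def Seqs.ring (M : IIOneFactor.{u}) : Ring (Seqs M) :=
  (inferInstance : Ring (ℕ →ᵇ Elt M.N))

attribute [instance] Seqs.ring

@[instance_reducible] noncomputable def Seqs.starRing (M : IIOneFactor.{u}) : StarRing (Seqs M) :=
  (inferInstance : StarRing (ℕ →ᵇ Elt M.N))

attribute [instance] Seqs.starRing

@[instance_reducible] noncomputable def Seqs.algebra (M : IIOneFactor.{u}) : Algebra ℂ (Seqs M) :=
  (inferInstance : Algebra ℂ (ℕ →ᵇ Elt M.N))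

attribute [instance] Seqs.algebra

/-- The `n`-th term of a bounded sequence. -/
noncomputable def Seqs.ap {M : IIOneFactor.{u}} (x : Seqs M) (n : ℕ) : Elt M.N :=
  (show ℕ →ᵇ Elt M.N from x) n

/-- The tracial ultrapower `M^U` of a II₁ factor `M` (any model `(Q, σ)` of it): `π` maps the star
algebra of norm bounded sequences in `M` onto `Q`, its kernel consists of the sequences with
`lim t(x_n* x_n) = 0` along `U`, and `σ(π x)` is the limit of `t(x_n)` along `U`. -/
structure UltraPower (M : IIOneFactor.{u}) (U : Ultrafilter ℕ) : Type (u + 1) extends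
    TrAlg.{u} where
  /-- the quotient map from the bounded sequences -/
  π : Seqs M →⋆ₐ[ℂ] Q
  surj : Function.Surjective π
  ker : ∀ x, π x = 0 ↔ Tendsto (fun n => M.t (star (x.ap n) * x.ap n)) U (𝓝 0)
  trace : ∀ x, Tendsto (fun n => M.t (x.ap n)) U (𝓝 (σ (π x)))

/-- A tracial free product of the tracial star algebras `A i = (Q i, σ i)`: `P` is a von Neumann
algebra, `t` is a faithful normal tracial state on it, the `α i` are trace preserving star
homomorphisms into `P` (hence injective when `σ i` is faithful), their ranges are freely independent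
with respect to `t` (every alternating product of centered elements has trace zero) and together
they generate `P` as a von Neumann algebra. -/
structure FreeProduct {I : Type} (A : I → TrAlg.{u}) : Type (u + 1) where
  /-- the Hilbert space -/
  K : Type u
  [i1 : NormedAddCommGroup K]
  [i2 : InnerProductSpace ℂ K]
  [i3 : CompleteSpace K]
  /-- the von Neumann algebra -/
  P : VonNeumannAlgebra K
  /-- its trace -/
  t : Elt P → ℂ
  trace : IsFaithfulTrace t
  normal : IsNormalPositive P t
  /-- the embeddings of the free factors -/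
  α : ∀ i, (A i).Q →⋆ₐ[ℂ] Elt P
  preserves : ∀ i x, t (α i x) = (A i).σ x
  free : ∀ l : List (Σ i, (A i).Q), l ≠ [] → l.IsChain (fun a b => a.1 ≠ b.1) →
    (∀ p ∈ l, (A p.1).σ p.2 = 0) → t ((l.map fun p => α p.1 p.2).prod) = 0
  gen : P = vnGen (⋃ i, Set.range fun x => (α i x).op)

attribute [instance] FreeProduct.i1 FreeProduct.i2 FreeProduct.i3

/-- The von Neumann algebras of two free products are star isomorphic. -/
def FreeIso {I : Type} {A : I → TrAlg.{u}} {J : Type} {B : J → TrAlg.{v}} (F : FreeProduct A)
    (G : FreeProduct B) : Prop :=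
  Nonempty (Elt F.P ≃⋆ₐ[ℂ] Elt G.P)

/-- There is a trace preserving star isomorphism. -/
def TrIso (A : TrAlg.{u}) (B : TrAlg.{v}) : Prop := ∃ φ : A.Q ≃⋆ₐ[ℂ] B.Q, ∀ x, B.σ (φ x) = A.σ x

/-- `M` and `M'` are elementarily equivalent: for some nonprincipal ultrafilters `U` and `V` on `ℕ`
there is a (trace preserving) star isomorphism of the tracial ultrapowers `M^U` and `M'^V`. -/
def ElemEquiv (M : IIOneFactor.{u}) (M' : IIOneFactor.{v}) : Prop :=
  ∃ U V : Ultrafilter ℕ, (∀ n, {n} ∉ U) ∧ (∀ n, {n} ∉ V) ∧
    ∃ (A : UltraPower M U) (B : UltraPower M' V), TrIso A.toTrAlg B.toTrAlg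

end Pool.Agent.H467S
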